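import Pool.Agent.MNO.StT
import Pool.Agent.MNO.Ext

/-!
MNO: bounded level sets (proof of helper47, text of helper73).
-/

set_option autoImplicit false
set_option linter.unusedVariables false

namespace Pool.Agent.MNO

open FirstOrder.Language Set
open scoped FirstOrder
open Pool.Agent.WOM (tp Mon IsEl IsoM CtU Fx Orb)
open Pool.Agent.PMC (Ini ct Dc cel Sin Nd Ct lts ext XS Ex Fa Ll LL Itv Sm Md NPf fx_refl fx_symm
  fx_comp fx_mono comp_apply' def_img def_mono def_compl def_inter def_union def_mem def_fix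
  def_of_fix conj_of_def exists_isd exists_fin_def isEl_of_orb mem_orb orb_meets sat_fam rel_fx
  rel_def1 rel_def2 rel_hull rel_swap def_close)

/-- a finite set of points of a cell is bounded in the cell -/
theorem fin_bd {L : FirstOrder.Language.{0, 0}} {U : Type} [L.Structure U] {κ : Type}
    {R : κ → U → U → Prop} {o : κ → κ} (hC : Cx L R o) {A : Set U} (hA : A.Finite) {j : κ} {z : U}
    (hz : Nd L A z) (b : Bool) {s : Set U} (hs : s.Finite) (hsK : s ⊆ cel L R o A j z) :
    ∃ p ∈ cel L R o A j z, ∀ u ∈ s, lts R o b j u p := by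
  induction s, hs using Set.Finite.induction_on with
  | empty => exact ⟨z, mem_cel A j z, fun u hu => absurd hu (notMem_empty u)⟩
  | @insert a t _ _ ih =>
    obtain ⟨p, hp, hp'⟩ := ih (fun u hu => hsK (mem_insert_of_mem a hu))
    have ha : a ∈ cel L R o A j z := hsK (mem_insert a t)
    by_cases hap : lts R o b j a p
    · refine ⟨p, hp, ?_⟩
      rintro u (rfl | hu)
      · exact hap
      · exact hp' u hu
    · obtain ⟨q, hq, hq'⟩ := exists_lts hC hA hz ha b
      refine ⟨q, hq, ?_⟩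
      rintro u (rfl | hu)
      · exact hq'
      · rcases eq_or_ne a p with e | e
        · rw [← e] at hp'
          exact lts_trans hC b j (hp' u hu) hq'
        · rcases lts_tot hC b j e with h | h
          · exact absurd h hap
          · exact lts_trans hC b j (lts_trans hC b j (hp' u hu) h) hq'

theorem thm_BDD : St_BDD := by
  intro L U _ κ R o hC A j x z b C hA hx hz hCF hCI c hc c' hc'
  by_contra hcon
  push Not at hcon
  have hcc : R (o j) c c' := by
    obtain ⟨y, hy, h1, h2, h3⟩ := hcon x (mem_cel A j x)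
    have hne : c ≠ c' := by
      rintro rfl
      exact h2 h1
    rcases hC.tot j c c' hne with h | h
    · exact h
    · exact absurd (hCI _ c h1 c' h) h2
  -- the automorphisms
  have hstep : ∀ s : {g : U ≃[L] U // Fx L A g}, ∃ s' : {g : U ≃[L] U // Fx L A g},
      R (o j) (s.1 c') (s'.1 c) := by
    rintro ⟨g, hg⟩
    obtain ⟨g', hg', h⟩ := move hC hA hz ((fx_mem_cel hC j c' z hg).2 hc') hc true
    rw [lts_true] at h
    exact ⟨⟨g', hg'⟩, h⟩
  choose f hf using hstep
  let G : ℕ → {g : U ≃[L] U // Fx L A g} := fun n =>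
    Nat.rec ⟨FirstOrder.Language.Equiv.refl L U, fun _ _ => rfl⟩ (fun _ s => f s) n
  have hG1 : ∀ n, R (o j) ((G n).1 c') ((G (n + 1)).1 c) := fun n => hf (G n)
  have hG2 : ∀ n, R (o j) ((G n).1 c) ((G n).1 c') := fun n => (R_img hC (o j) _ _ _).2 hcc
  have hG3 : ∀ m n, m < n → R (o j) ((G m).1 c') ((G n).1 c) := by
    intro m n hmn
    induction n with
    | zero => omega
    | succ n ih =>
      rcases Nat.lt_succ_iff_lt_or_eq.1 hmn with h | h
      · exact hC.tra j _ _ _ (hC.tra j _ _ _ (ih h) (hG2 n)) (hG1 n)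
      · rw [h]
        exact hG1 n
  have huniq : ∀ m n (u : U), (G m).1 c ∈ C (fun _ => u) → (G m).1 c' ∉ C (fun _ => u) →
      (G n).1 c ∈ C (fun _ => u) → (G n).1 c' ∉ C (fun _ => u) → m = n := by
    intro m n u h1 h2 h3 h4
    by_contra hne
    rcases lt_or_gt_of_ne hne with h | h
    · exact h2 (hCI _ _ h3 _ (hG3 m n h))
    · exact h4 (hCI _ _ h1 _ (hG3 n m h))
  have hex : ∀ m, ∀ w ∈ cel L R o A j x, ∃ u ∈ cel L R o A j x, (G m).1 c ∈ C (fun _ => u) ∧
      (G m).1 c' ∉ C (fun _ => u) ∧ lts R o b j w u := by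
    intro m w hw
    have hg := (G m).2
    have hw' : (G m).1.symm w ∈ cel L R o A j x := (fx_mem_cel hC j w x (fx_symm hg)).2 hw
    obtain ⟨y, hy, h1, h2, h3⟩ := hcon _ hw'
    refine ⟨(G m).1 y, (fx_mem_cel hC j y x hg).2 hy, (df_fx hCF hg c (fun _ => y)).2 h1,
      fun h => h2 ((df_fx hCF hg c' (fun _ => y)).1 h), ?_⟩
    have h4 := (lts_img hC b j _ _ (G m).1).2 h3
    rw [(G m).1.apply_symm_apply] at h4
    exact h4
  obtain ⟨k, hk⟩ := cod' hC hA (P := fun (p d : Fin 2 → U) (u : U) =>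
    lts R o b j (p 0) u ∧ lts R o b j u (p 1) ∧ d 0 ∈ C (fun _ => u) ∧ d 1 ∉ C (fun _ => u)) (by
      refine dp_and (dp_lts hC b j _ _) (dp_and (dp_lts hC b j _ _)
        (dp_and (df_mem hCF _ (fun _ => Sum.inr ())) (dp_not (df_mem hCF _ (fun _ => Sum.inr ()))))))
  -- the rows
  have hrow : ∀ p : {p : U // p ∈ cel L R o A j x}, ∃ (u : Fin k → U)
      (p' : {p : U // p ∈ cel L R o A j x}), lts R o b j p.1 p'.1 ∧ ∀ m : Fin k,
        lts R o b j p.1 (u m) ∧ lts R o b j (u m) p'.1 ∧ (G m).1 c ∈ C (fun _ => u m) ∧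
        (G m).1 c' ∉ C (fun _ => u m) := by
    rintro ⟨p, hp⟩
    choose u hu1 hu2 hu3 hu4 using fun m : Fin k => hex m p hp
    obtain ⟨q, hq, hq'⟩ := fin_bd hC hA hx b (s := insert p (range u))
      ((finite_range u).insert p) (by
        rintro v (rfl | ⟨m, rfl⟩)
        · exact hp
        · exact hu1 m)
    exact ⟨u, ⟨q, hq⟩, hq' p (mem_insert _ _),
      fun m => ⟨hu4 m, hq' _ (mem_insert_of_mem _ ⟨m, rfl⟩), hu2 m, hu3 m⟩⟩
  choose u nx hn1 hn2 using hrow
  let S : ℕ → {p : U // p ∈ cel L R o A j x} := fun n =>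
    Nat.rec ⟨x, mem_cel A j x⟩ (fun _ s => nx s) n
  have hS1 : ∀ n, lts R o b j (S n).1 (S (n + 1)).1 := fun n => hn1 (S n)
  have hS2 : ∀ m n, m < n → lts R o b j (S m).1 (S n).1 := by
    intro m n hmn
    induction n with
    | zero => omega
    | succ n ih =>
      rcases Nat.lt_succ_iff_lt_or_eq.1 hmn with h | h
      · exact lts_trans hC b j (ih h) (hS1 n)
      · rw [h]
        exact hS1 n
  have hS3 : ∀ (m n : ℕ) (v : U), lts R o b j v (S (m + 1)).1 → lts R o b j (S n).1 v → ¬ m < n := by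
    intro m n v h1 h2 h
    have h3 : lts R o b j v v := by
      rcases Nat.lt_or_ge (m + 1) n with h4 | h4
      · exact lts_trans hC b j (lts_trans hC b j h1 (hS2 _ _ h4)) h2
      · have e : n = m + 1 := by omega
        rw [e] at h2
        exact lts_trans hC b j h1 h2
    exact lts_irr hC b j v h3
  apply hk
  refine ⟨fun i => ![(S i).1, (S (i + 1)).1], fun m => ![(G m).1 c, (G m).1 c'],
    fun a m => u (S a) m, ?_⟩
  intro i m a m'
  constructor
  · rintro ⟨h1, h2, h3, h4⟩
    have h1' : lts R o b j (S i).1 (u (S a) m') := h1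
    have h2' : lts R o b j (u (S a) m') (S (i + 1)).1 := h2
    have h3' : (G m).1 c ∈ C (fun _ => u (S a) m') := h3
    have h4' : (G m).1 c' ∉ C (fun _ => u (S a) m') := h4
    obtain ⟨e1, e2, e3, e4⟩ := hn2 (S a) m'
    have e2' : lts R o b j (u (S a) m') (S (a + 1)).1 := e2
    refine ⟨?_, Fin.ext (huniq m m' _ h3' h4' e3 e4)⟩
    have q1 := hS3 i a _ h2' e1
    have q2 := hS3 a i _ e2' h1'
    exact Fin.ext (by omega)
  · rintro ⟨rfl, rfl⟩
    exact hn2 (S i) m

end Pool.Agent.MNO
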