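import Pool.Agent.MNO.StT
import Pool.Agent.MNO.Ext

/-!
MNO: bounded number of cuts strictly inside a cell (proof of helper47, text of helper32).
-/

set_option autoImplicit false
set_option linter.unusedVariables false

namespace Pool.Agent.MNO

open FirstOrder.Language Set
open scoped FirstOrder
open Pool.Agent.WOM (tp Mon IsEl IsoM CtU Fx Orb)
open Pool.Agent.PMC (Ini ct Dc cel Sin Nd Ct lts ext XS Ex Fa Ll LL Itv Sm Md NPf fx_refl fx_symm
  fx_comp fx_mono comp_apply' def_img def_mono def_compl def_inter def_union def_mem def_fix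
  def_of_fix conj_of_def exists_isd exists_fin_def isEl_of_orb mem_orb orb_meets sat_fam rel_fx
  rel_def1 rel_def2 rel_hull rel_swap def_close)

/-- a finite family of different, pairwise comparable sets can be reindexed increasingly -/
theorem CAP_sort {U : Type} {n : ℕ} (D : Fin n → Set U) (h1 : ∀ i i', D i ⊆ D i' ∨ D i' ⊆ D i)
    (h2 : ∀ i i', D i = D i' → i = i') :
    ∃ e : Fin n → Fin n, ∀ i i', i < i' → D (e i) ⊂ D (e i') := by
  classical
  let f : Fin n → ℕ := fun i => (Finset.univ.filter (fun i' => D i' ⊂ D i)).card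
  have hf : ∀ i i', D i ⊂ D i' → f i < f i' := by
    intro i i' h
    apply Finset.card_lt_card
    rw [Finset.ssubset_iff_of_subset]
    · refine ⟨i, ?_, ?_⟩
      · rw [Finset.mem_filter]
        exact ⟨Finset.mem_univ _, h⟩
      · rw [Finset.mem_filter]
        rintro ⟨-, h'⟩
        exact h'.2 subset_rfl
    · intro a ha
      rw [Finset.mem_filter] at ha ⊢
      exact ⟨Finset.mem_univ _, ha.2.trans h⟩
  have hlt : ∀ i i', i ≠ i' → D i ⊂ D i' ∨ D i' ⊂ D i := by
    intro i i' hne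
    rcases h1 i i' with h | h
    · left
      exact ⟨h, fun h' => hne (h2 i i' (Subset.antisymm h h'))⟩
    · right
      exact ⟨h, fun h' => hne (h2 i i' (Subset.antisymm h' h))⟩
  refine ⟨Tuple.sort f, fun i i' hii => ?_⟩
  have h3 : f (Tuple.sort f i) ≤ f (Tuple.sort f i') := Tuple.monotone_sort f hii.le
  have hne : Tuple.sort f i ≠ Tuple.sort f i' := fun h => hii.ne ((Tuple.sort f).injective h)
  rcases hlt _ _ hne with h | h
  · exact h
  · exact absurd (hf _ _ h) (not_lt.2 h3)

theorem thm_CAP : St_CAP := by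
  intro L U _ κ R o hC A β _ j C hA hCF hCI
  obtain ⟨k, hk⟩ := cod' hC hA (α := Fin 2 × β) (β := Unit)
    (P := fun (x : Fin 2 × β → U) (y : Unit → U) (w : U) =>
      w ∈ C (y ()) (fun t => x (1, t)) ∧ w ∉ C (y ()) (fun t => x (0, t))) (by
    have e1 := df_mem hCF (α := ((Fin 2 × β) ⊕ Unit) ⊕ Unit) (Sum.inr ())
      (Sum.elim (fun _ => Sum.inl (Sum.inr ())) (fun t => Sum.inl (Sum.inl (1, t))))
    have e2 := df_mem hCF (α := ((Fin 2 × β) ⊕ Unit) ⊕ Unit) (Sum.inr ())
      (Sum.elim (fun _ => Sum.inl (Sum.inr ())) (fun t => Sum.inl (Sum.inl (0, t))))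
    exact dp_and e1 (dp_not e2))
  refine ⟨k + 1, ?_⟩
  intro B z v x hAB hB hz hx hS
  by_contra hcon
  push Not at hcon
  -- the sets are different; reindex
  obtain ⟨e, he⟩ := CAP_sort (fun i => C v (x i)) (fun i i' => ini_total hC (hCI v _) (hCI v _)) (by
    intro i i' h
    by_contra hne
    rcases lt_or_gt_of_ne hne with h' | h'
    · exact hcon i i' h' h
    · exact hcon i' i h' h.symm)
  have he' : ∀ i i', i ≤ i' → C v (x (e i)) ⊆ C v (x (e i')) := by
    intro i i' h
    rcases h.lt_or_eq with h' | h'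
    · exact (he i i' h').1
    · rw [h']
  -- the two bounds
  obtain ⟨c, hc, hc0⟩ := (hS (e 0)).1
  obtain ⟨c', hc', hc0'⟩ := (hS (e (Fin.last k))).2
  have hc1 : ∀ i, c ∈ C v (x (e i)) := fun i => he' 0 i (Fin.zero_le _) hc0
  have hc1' : ∀ i, c' ∉ C v (x (e i)) := fun i h => hc0' (he' i (Fin.last k) (Fin.le_last i) h)
  have hsep : ∀ (v : U) (y : β → U) (a b : U), a ∈ C v y → b ∉ C v y → R (o j) a b := by
    intro v y a b ha hb
    have hne : a ≠ b := by
      rintro rfl
      exact hb ha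
    rcases hC.tot j a b hne with h | h
    · exact h
    · exact absurd (hCI v y a ha b h) hb
  have hcc : R (o j) c c' := hsep v _ c c' (hc1 0) (hc1' 0)
  -- the automorphisms
  have hstep : ∀ s : {g : U ≃[L] U // Fx L B g}, ∃ s' : {g : U ≃[L] U // Fx L B g},
      R (o j) (s.1 c') (s'.1 c) := by
    rintro ⟨g, hg⟩
    obtain ⟨g', hg', h⟩ := move hC hB hz ((fx_mem_cel hC j c' z hg).2 hc') hc true
    rw [lts_true] at h
    exact ⟨⟨g', hg'⟩, h⟩
  choose f hf using hstep
  let G : ℕ → {g : U ≃[L] U // Fx L B g} := fun n =>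
    Nat.rec ⟨FirstOrder.Language.Equiv.refl L U, fun _ _ => rfl⟩ (fun _ s => f s) n
  have hG1 : ∀ n, R (o j) ((G n).1 c') ((G (n + 1)).1 c) := fun n => hf (G n)
  have hG2 : ∀ n, R (o j) ((G n).1 c) ((G n).1 c') := fun n => (R_img hC (o j) _ _ _).2 hcc
  have hG3 : ∀ m n, m < n → R (o j) ((G m).1 c') ((G n).1 c) := by
    intro m n hmn
    induction n with
    | zero => omega
    | succ n ih =>
      rcases Nat.lt_succ_iff_lt_or_eq.1 hmn with h | h
      · exact hC.tra j _ _ _ (hC.tra j _ _ _ (ih h) (hG2 n)) (hG1 n)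
      · rw [h]
        exact hG1 n
  -- the images of the cuts
  have hmem : ∀ (m : ℕ) (i : Fin (k + 1)) (w : U),
      (G m).1 w ∈ C ((G m).1 v) (x i) ↔ w ∈ C v (x i) := by
    intro m i w
    have h1 := df_fx (df_mono hAB hCF) (G m).2 w (Sum.elim (fun _ => v) (x i))
    have h2 : (fun t => (G m).1 (x i t)) = x i := by
      funext t
      exact (G m).2 _ (hx i t)
    have h3 : (G m).1 w ∈ C ((G m).1 v) (fun t => (G m).1 (x i t)) ↔ w ∈ C v (x i) := h1
    rw [h2] at h3
    exact h3
  -- the codes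
  have hcode : ∀ i : Fin k, ∃ w, w ∈ C v (x (e i.succ)) ∧ w ∉ C v (x (e i.castSucc)) := by
    intro i
    obtain ⟨w, hw, hw'⟩ := Set.exists_of_ssubset (he i.castSucc i.succ Fin.castSucc_lt_succ)
    exact ⟨w, hw, hw'⟩
  choose w hw hw' using hcode
  apply hk
  refine ⟨fun i p => if p.1 = 1 then x (e i.succ) p.2 else x (e i.castSucc) p.2,
    fun m _ => (G m).1 v, fun i m => (G m).1 (w i), ?_⟩
  intro i m i' m'
  show ((G m').1 (w i') ∈ C ((G m).1 v) (fun t => if (1 : Fin 2) = 1 then x (e i.succ) t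
      else x (e i.castSucc) t) ∧
    (G m').1 (w i') ∉ C ((G m).1 v) (fun t => if (0 : Fin 2) = 1 then x (e i.succ) t
      else x (e i.castSucc) t)) ↔ i = i' ∧ m = m'
  have q1 : (fun t => if (1 : Fin 2) = 1 then x (e i.succ) t else x (e i.castSucc) t) =
      x (e i.succ) := by
    funext t
    rw [if_pos rfl]
  have q0 : (fun t => if (0 : Fin 2) = 1 then x (e i.succ) t else x (e i.castSucc) t) =
      x (e i.castSucc) := by
    funext t
    rw [if_neg (by decide)]
  rw [q1, q0]
  constructor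
  · rintro ⟨h1, h2⟩
    have hmm : (m : ℕ) = m' := by
      -- the code is between the bounds for `m` and for `m'`
      have a1 : R (o j) ((G m').1 (w i')) ((G m).1 c') :=
        hsep _ _ _ _ h1 (fun h => hc1' _ ((hmem m _ c').1 h))
      have a2 : R (o j) ((G m).1 c) ((G m').1 (w i')) :=
        hsep _ _ _ _ ((hmem m _ c).2 (hc1 _)) h2
      have b1 : R (o j) ((G m').1 (w i')) ((G m').1 c') :=
        (R_img hC (o j) _ _ _).2 (hsep _ _ _ _ (hw i') (hc1' _))
      have b2 : R (o j) ((G m').1 c) ((G m').1 (w i')) :=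
        (R_img hC (o j) _ _ _).2 (hsep _ _ _ _ (hc1 _) (hw' i'))
      by_contra hne
      rcases lt_or_gt_of_ne hne with h | h
      · exact hC.irr j _ (hC.tra j _ _ _ (hC.tra j _ _ _ a1 (hG3 _ _ h)) b2)
      · exact hC.irr j _ (hC.tra j _ _ _ (hC.tra j _ _ _ b1 (hG3 _ _ h)) a2)
    have hmm' : m = m' := Fin.ext hmm
    subst hmm'
    have h1' := (hmem m _ _).1 h1
    have h2' : w i' ∉ C v (x (e i.castSucc)) := fun h => h2 ((hmem m _ _).2 h)
    refine ⟨?_, rfl⟩
    by_contra hne
    rcases lt_or_gt_of_ne hne with h | h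
    · -- i < i'
      have h3 : i.succ ≤ i'.castSucc := by
        rw [Fin.le_def, Fin.val_succ, Fin.val_castSucc]
        exact h
      exact hw' i' (he' _ _ h3 h1')
    · have h3 : i'.succ ≤ i.castSucc := by
        rw [Fin.le_def, Fin.val_succ, Fin.val_castSucc]
        exact h
      exact h2' (he' _ _ h3 (hw i'))
  · rintro ⟨rfl, rfl⟩
    exact ⟨(hmem m _ _).2 (hw i), fun h => hw' i ((hmem m _ _).1 h)⟩

end Pool.Agent.MNO
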