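import Pool.Agent.MNO.StT
import Pool.Agent.MNO.Ext

/-!
MNO, module EQX: finiteness of the relation `Apx` (helper68)
-/

set_option autoImplicit false
set_option linter.unusedVariables false

namespace Pool.Agent.MNO

open FirstOrder.Language Set
open scoped FirstOrder
open Pool.Agent.WOM (tp Mon IsEl IsoM CtU Fx Orb)
open Pool.Agent.PMC (Ini ct Dc cel Sin Nd Ct lts ext XS Ex Fa Ll LL Itv Sm Md NPf fx_refl fx_symm
  fx_comp fx_mono)

section eqx

variable {L : FirstOrder.Language.{0, 0}} {U : Type} [L.Structure U] {κ : Type}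
  {R : κ → U → U → Prop} {o : κ → κ}

private theorem EQX_C {A : Set U} {β : Type} {C : U → (β → U) → Set U} (hD : DF L A (unc C))
    {g : U ≃[L] U} (hg : Fx L A g) (v : U) (x : β → U) :
    g '' C v x = C (g v) (fun i => g (x i)) := by
  have h := df_img hD hg (Sum.elim (fun _ => v) x)
  exact h

private theorem EQX_C' {A B : Set U} {β : Type} {C : U → (β → U) → Set U}
    (hD : DF L A (unc C)) (hAB : A ⊆ B) {g : U ≃[L] U} (hg : Fx L B g) (v : U) {x : β → U}
    (hx : ∀ i, x i ∈ B) : g '' C v x = C (g v) x := by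
  rw [EQX_C hD (fx_mono hAB hg) v x]
  have h : (fun i => g (x i)) = x := funext fun i => hg _ (hx i)
  rw [h]

private theorem EQX_sin_img {D K : Set U} (g : U ≃[L] U) : Sin (g '' D) (g '' K) ↔ Sin D K := by
  constructor
  · rintro ⟨⟨_, ⟨x, hx, rfl⟩, hxD⟩, ⟨_, ⟨y, hy, rfl⟩, hyD⟩⟩
    exact ⟨⟨x, hx, (mem_img_iff g D x).1 hxD⟩, ⟨y, hy, fun h => hyD ((mem_img_iff g D y).2 h)⟩⟩
  · rintro ⟨⟨x, hx, hxD⟩, ⟨y, hy, hyD⟩⟩
    exact ⟨⟨g x, ⟨x, hx, rfl⟩, (mem_img_iff g D x).2 hxD⟩,
      ⟨g y, ⟨y, hy, rfl⟩, fun h => hyD ((mem_img_iff g D y).1 h)⟩⟩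

/-- a cut strictly inside an extreme cell may be moved into a smaller extreme cell -/
private theorem EQX_move (hC : Cx L R o) {A B0 B D : Set U} {j : κ} {z : U} {b : Bool}
    (hA0 : A ⊆ B0) (h0B : B0 ⊆ B) (hB : B.Finite) (hz : Nd L A z) (hD : Ini R o j D)
    (hS : Sin D (ext L R o b B0 j (cel L R o A j z))) :
    ∃ g : U ≃[L] U, Fx L B0 g ∧ Sin (g '' D) (ext L R o b B j (cel L R o A j z)) := by
  obtain ⟨⟨e, he, heD⟩, ⟨e', he', heD'⟩⟩ := hS
  have hlt : R (o j) e e' := by
    have hne : e ≠ e' := by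
      rintro rfl
      exact heD' heD
    rcases hC.tot j e e' hne with h | h
    · exact h
    · exact absurd (hD e heD e' h) heD'
  obtain ⟨-, -, -, -, x5, -, -⟩ := thm_EXT L U κ R o hC A B0 j z b hA0 (hB.subset h0B) hz
  obtain ⟨y1, -, -, -, -, y6, -⟩ := thm_EXT L U κ R o hC A B j z b (hA0.trans h0B) hB hz
  obtain ⟨p, hp⟩ := y1
  have key : ∀ u u', u ∈ ext L R o b B0 j (cel L R o A j z) → u' ∈ cel L R o A j z →
      lts R o b j u u' → ∃ g : U ≃[L] U, Fx L B0 g ∧
        g u ∈ ext L R o b B j (cel L R o A j z) ∧ g u' ∈ ext L R o b B j (cel L R o A j z) := by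
    intro u u' hu hu' huu
    obtain ⟨g, hg, hpg⟩ := x5 u hu p hp.1
    have hgA := fx_mono hA0 hg
    refine ⟨g, hg, y6 p hp _ ((fx_mem_cel hC j u z hgA).2 hu.1) hpg,
      y6 p hp _ ((fx_mem_cel hC j u' z hgA).2 hu') ?_⟩
    exact lts_trans hC b j hpg ((lts_img hC b j u u' g).2 huu)
  cases b
  · obtain ⟨g, hg, h1, h2⟩ := key e' e he' he.1 (by rw [lts_false]; exact hlt)
    exact ⟨g, hg, ⟨g e, h2, (mem_img_iff g D e).2 heD⟩,
      ⟨g e', h1, fun h => heD' ((mem_img_iff g D e').1 h)⟩⟩
  · obtain ⟨g, hg, h1, h2⟩ := key e e' he he'.1 (by rw [lts_true]; exact hlt)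
    exact ⟨g, hg, ⟨g e, h1, (mem_img_iff g D e).2 heD⟩,
      ⟨g e', h2, fun h => heD' ((mem_img_iff g D e').1 h)⟩⟩

/-- [WITNESS] -/
private theorem EQX_wit (hC : Cx L R o) {A B : Set U} {β : Type} {j : κ} {z : U} {b : Bool}
    {C : U → (β → U) → Set U} (hz : Nd L A z) (hD : DF L A (unc C))
    (hI : ∀ v x, Ini R o j (C v x)) {x x' : β → U} (hB : B.Finite)
    (hAB : A ∪ (range x ∪ range x') ⊆ B) (h : ¬ Apx (L := L) R o A j z b C x x') :
    ∃ v, C v x ≠ C v x' ∧ (Sin (C v x) (ext L R o b B j (cel L R o A j z)) ∨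
      Sin (C v x') (ext L R o b B j (cel L R o A j z))) := by
  unfold Apx at h
  push Not at h
  obtain ⟨v, hv, hne⟩ := h
  have hx : ∀ i, x i ∈ A ∪ (range x ∪ range x') := fun i => Or.inr (Or.inl ⟨i, rfl⟩)
  have hx' : ∀ i, x' i ∈ A ∪ (range x ∪ range x') := fun i => Or.inr (Or.inr ⟨i, rfl⟩)
  have hne' : ∀ g : U ≃[L] U, Fx L (A ∪ (range x ∪ range x')) g → C (g v) x ≠ C (g v) x' := by
    intro g hg heq
    rw [← EQX_C' hD subset_union_left hg v hx, ← EQX_C' hD subset_union_left hg v hx'] at heq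
    exact hne (g.injective.image_injective heq)
  rcases hv with hv | hv
  · obtain ⟨g, hg, hS⟩ := EQX_move hC subset_union_left hAB hB hz (hI v x) hv
    rw [EQX_C' hD subset_union_left hg v hx] at hS
    exact ⟨g v, hne' g hg, Or.inl hS⟩
  · obtain ⟨g, hg, hS⟩ := EQX_move hC subset_union_left hAB hB hz (hI v x') hv
    rw [EQX_C' hD subset_union_left hg v hx'] at hS
    exact ⟨g v, hne' g hg, Or.inr hS⟩

private theorem EQX_equiv (hC : Cx L R o) {A : Set U} {β : Type} [Finite β] {j : κ} {z : U}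
    {b : Bool} {C : U → (β → U) → Set U} (hA : A.Finite) (hz : Nd L A z) (hD : DF L A (unc C))
    (hI : ∀ v x, Ini R o j (C v x)) : Equivalence (Apx (L := L) R o A j z b C) := by
  refine ⟨fun x v _ => rfl, ?_, ?_⟩
  · intro x x' h v hv
    have e : A ∪ (range x' ∪ range x) = A ∪ (range x ∪ range x') := by
      rw [union_comm (range x') (range x)]
    rw [e] at hv
    exact (h v hv.symm).symm
  · intro x x' x'' h1 h2
    by_contra hcon
    have hB : (A ∪ (range x ∪ range x' ∪ range x'')).Finite :=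
      hA.union (((finite_range _).union (finite_range _)).union (finite_range _))
    obtain ⟨v, hne, hv⟩ := EQX_wit hC (B := A ∪ (range x ∪ range x' ∪ range x'')) hz hD hI hB (by
      refine union_subset_union_right A (union_subset ?_ subset_union_right)
      exact subset_union_left.trans subset_union_left) hcon
    have e1 : ext L R o b (A ∪ (range x ∪ range x' ∪ range x'')) j (cel L R o A j z) ⊆
        ext L R o b (A ∪ (range x ∪ range x')) j (cel L R o A j z) :=
      ext_anti (union_subset_union_right A subset_union_left) b j _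
    have e2 : ext L R o b (A ∪ (range x ∪ range x' ∪ range x'')) j (cel L R o A j z) ⊆
        ext L R o b (A ∪ (range x' ∪ range x'')) j (cel L R o A j z) :=
      ext_anti (union_subset_union_right A (union_subset_union_left _ subset_union_right)) b j _
    rcases hv with hv | hv
    · have h3 := h1 v (Or.inl (sin_mono e1 hv))
      rw [h3] at hv
      exact hne (h3.trans (h2 v (Or.inl (sin_mono e2 hv))))
    · have h3 := h2 v (Or.inr (sin_mono e2 hv))
      rw [← h3] at hv
      exact hne ((h1 v (Or.inr (sin_mono e1 hv))).trans h3)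

private theorem EQX_inv (hC : Cx L R o) {A : Set U} {β : Type} [Finite β] {j : κ} {z : U}
    {b : Bool} {C : U → (β → U) → Set U} (hA : A.Finite) (hz : Nd L A z) (hD : DF L A (unc C))
    {g : U ≃[L] U} (hg : Fx L A g) {x x' : β → U} (h : Apx (L := L) R o A j z b C x x') :
    Apx (L := L) R o A j z b C (fun i => g (x i)) (fun i => g (x' i)) := by
  intro v hv
  have e1 : A ∪ (range (fun i => g (x i)) ∪ range (fun i => g (x' i))) =
      g '' (A ∪ (range x ∪ range x')) := by
    rw [image_union, image_union, fx_img A hg, ← range_comp, ← range_comp]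
    rfl
  have e2 : ext L R o b (A ∪ (range (fun i => g (x i)) ∪ range (fun i => g (x' i)))) j
      (cel L R o A j z) = g '' ext L R o b (A ∪ (range x ∪ range x')) j (cel L R o A j z) := by
    rw [ext_img hC, fx_img_cel hC j z hg, e1]
  have e3 : ∀ y : β → U, C v (fun i => g (y i)) = g '' C (g.symm v) y := by
    intro y
    rw [EQX_C hD hg, g.apply_symm_apply]
  rw [e2, e3 x, e3 x', EQX_sin_img, EQX_sin_img] at hv
  rw [e3 x, e3 x', h _ hv]

/-- infinitely many classes -/
private theorem EQX_seq {α : Type} {S : α → α → Prop} (hS : Equivalence S)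
    (h : ¬ ∃ F : Set α, F.Finite ∧ ∀ x, ∃ y ∈ F, S x y) :
    ∃ x : ℕ → α, ∀ n m, n ≠ m → ¬ S (x n) (x m) := by
  let s : Setoid α := ⟨S, hS⟩
  have hinf : Infinite (Quotient s) := by
    by_contra hcon
    rw [not_infinite_iff_finite] at hcon
    apply h
    refine ⟨range (fun q : Quotient s => q.out), finite_range _, fun x => ?_⟩
    refine ⟨_, ⟨Quotient.mk s x, rfl⟩, ?_⟩
    exact hS.symm (Quotient.exact (Quotient.out_eq (Quotient.mk s x)))
  refine ⟨fun n => (Infinite.natEmbedding (Quotient s) n).out, fun n m hnm hS' => ?_⟩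
  have h1 : Quotient.mk s (Infinite.natEmbedding (Quotient s) n).out =
      Quotient.mk s (Infinite.natEmbedding (Quotient s) m).out := Quotient.sound hS'
  rw [Quotient.out_eq, Quotient.out_eq] at h1
  exact hnm ((Infinite.natEmbedding (Quotient s)).injective h1)

/-- points above finitely many points of a cell -/
private theorem EQX_above (hC : Cx L R o) {B S : Set U} {j : κ} {w : U} (hB : B.Finite)
    (hw : Nd L B w) (hS : S.Finite) (h : S ⊆ cel L R o B j w) :
    ∃ p ∈ cel L R o B j w, ∀ s ∈ S, R (o j) s p := by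
  induction S, hS using Set.Finite.induction_on with
  | empty => exact ⟨w, mem_cel B j w, fun s hs => absurd hs (notMem_empty s)⟩
  | @insert a S _ _ ih =>
    obtain ⟨p, hp, hpS⟩ := ih ((subset_insert a S).trans h)
    have ha : a ∈ cel L R o B j w := h (mem_insert a S)
    obtain ⟨q, hq, hq'⟩ := exists_lts hC hB hw ha true
    obtain ⟨r, hr, hr'⟩ := exists_lts hC hB hw hp true
    rw [lts_true] at hq' hr'
    by_cases hqr : q = r
    · refine ⟨r, hr, ?_⟩
      rintro s (rfl | hs)
      · rw [← hqr]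
        exact hq'
      · exact hC.tra j _ _ _ (hpS s hs) hr'
    · rcases hC.tot j q r hqr with h1 | h1
      · refine ⟨r, hr, ?_⟩
        rintro s (rfl | hs)
        · exact hC.tra j _ _ _ hq' h1
        · exact hC.tra j _ _ _ (hpS s hs) hr'
      · refine ⟨q, hq, ?_⟩
        rintro s (rfl | hs)
        · exact hq'
        · exact hC.tra j _ _ _ (hC.tra j _ _ _ (hpS s hs) hr') h1

/-- common points of finitely many cuts strictly inside `K`, and common points of the complements -/
private theorem EQX_common (hC : Cx L R o) {K : Set U} {j : κ} (hK : K.Nonempty)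
    {F : Set (Set U)} (hF : F.Finite) (hI : ∀ D ∈ F, Ini R o j D) (hS : ∀ D ∈ F, Sin D K) :
    (∃ e ∈ K, ∀ D ∈ F, e ∈ D) ∧ ∃ e ∈ K, ∀ D ∈ F, e ∉ D := by
  induction F, hF using Set.Finite.induction_on with
  | empty =>
    obtain ⟨k, hk⟩ := hK
    exact ⟨⟨k, hk, fun D hD => absurd hD (notMem_empty D)⟩,
      ⟨k, hk, fun D hD => absurd hD (notMem_empty D)⟩⟩
  | @insert D0 F _ _ ih =>
    obtain ⟨⟨e, he, heF⟩, ⟨e', he', heF'⟩⟩ := ih (fun D hD => hI D (mem_insert_of_mem D0 hD))
      (fun D hD => hS D (mem_insert_of_mem D0 hD))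
    obtain ⟨⟨u, hu, huD⟩, ⟨u', hu', huD'⟩⟩ := hS D0 (mem_insert D0 F)
    constructor
    · by_cases heu : e = u
      · refine ⟨e, he, ?_⟩
        rintro D (rfl | hD)
        · rw [heu]
          exact huD
        · exact heF D hD
      · rcases hC.tot j e u heu with h1 | h1
        · refine ⟨e, he, ?_⟩
          rintro D (rfl | hD)
          · exact hI _ (mem_insert _ F) u huD e h1
          · exact heF D hD
        · refine ⟨u, hu, ?_⟩
          rintro D (rfl | hD)
          · exact huD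
          · exact hI D (mem_insert_of_mem _ hD) e (heF D hD) u h1
    · by_cases heu : e' = u'
      · refine ⟨e', he', ?_⟩
        rintro D (rfl | hD)
        · rw [heu]
          exact huD'
        · exact heF' D hD
      · rcases hC.tot j e' u' heu with h1 | h1
        · refine ⟨u', hu', ?_⟩
          rintro D (rfl | hD)
          · exact huD'
          · exact fun h => heF' D hD (hI D (mem_insert_of_mem _ hD) u' h e' h1)
        · refine ⟨e', he', ?_⟩
          rintro D (rfl | hD)
          · exact fun h => huD' (hI _ (mem_insert _ F) e' h u' h1)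
          · exact heF' D hD

/-- the property of the array -/
private def EQX_P {β : Type} (C : U → (β → U) → Set U) (x : Fin 2 × β → U) (d : Fin 2 → U)
    (w : U) : Prop :=
  C w (fun i => x (0, i)) ≠ C w (fun i => x (1, i)) ∧
    ((d 0 ∈ C w (fun i => x (0, i)) ∧ d 1 ∉ C w (fun i => x (0, i))) ∨
      (d 0 ∈ C w (fun i => x (1, i)) ∧ d 1 ∉ C w (fun i => x (1, i))))

private theorem EQX_dp {A : Set U} {β : Type} {C : U → (β → U) → Set U} (hD : DF L A (unc C)) :
    Dp L A (fun v : ((Fin 2 × β) ⊕ Fin 2) ⊕ Unit → U =>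
      EQX_P C (fun i => v (Sum.inl (Sum.inl i))) (fun i => v (Sum.inl (Sum.inr i)))
        (v (Sum.inr ()))) := by
  have key : ∀ (γ : Type) (t w : γ) (f : β → γ),
      Dp L A (fun v : γ → U => v t ∈ C (v w) (fun i => v (f i))) := by
    intro γ t w f
    have h := df_mem hD t (Sum.elim (fun _ => w) f : Unit ⊕ β → γ)
    exact h
  have h1 : Dp L A (fun v : ((Fin 2 × β) ⊕ Fin 2) ⊕ Unit → U =>
      ∃ u : U, ¬ (u ∈ C (v (Sum.inr ())) (fun i => v (Sum.inl (Sum.inl (0, i)))) ↔
        u ∈ C (v (Sum.inr ())) (fun i => v (Sum.inl (Sum.inl (1, i)))))) := by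
    have h2 := dp_not (dp_iff
      (key ((((Fin 2 × β) ⊕ Fin 2) ⊕ Unit) ⊕ Unit) (Sum.inr ()) (Sum.inl (Sum.inr ()))
        (fun i => Sum.inl (Sum.inl (Sum.inl (0, i)))))
      (key ((((Fin 2 × β) ⊕ Fin 2) ⊕ Unit) ⊕ Unit) (Sum.inr ()) (Sum.inl (Sum.inr ()))
        (fun i => Sum.inl (Sum.inl (Sum.inl (1, i))))))
    exact dp_ex1 h2
  have h3 := fun (a : Fin 2) (c : Fin 2) => key (((Fin 2 × β) ⊕ Fin 2) ⊕ Unit)
    (Sum.inl (Sum.inr a)) (Sum.inr ()) (fun i => Sum.inl (Sum.inl (c, i)))
  have h4 := dp_and h1 (dp_or (dp_and (h3 0 0) (dp_not (h3 1 0)))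
    (dp_and (h3 0 1) (dp_not (h3 1 1))))
  refine dp_congr h4 (fun v => ?_)
  unfold EQX_P
  refine and_congr ?_ Iff.rfl
  rw [ne_eq, Set.ext_iff, not_forall]

end eqx

theorem thm_EQX (hCAP : St_CAP) (hRMS : St_RMS) : St_EQX := by
  classical
  intro L U _ κ R o hC A β _ j z b C hA hz hD hI
  refine ⟨EQX_equiv hC hA hz hD hI, fun g hg x x' h => EQX_inv hC hA hz hD hg h, ?_⟩
  by_contra hcon
  obtain ⟨xs, hxs⟩ := EQX_seq (EQX_equiv hC (b := b) hA hz hD hI) hcon
  obtain ⟨r, hr⟩ := hCAP L U κ R o hC A β j C hA hD hI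
  obtain ⟨k, hk⟩ := cod' hC hA (EQX_dp hD)
  obtain ⟨N, hN⟩ := hRMS k (r + 1)
  set B : Set U := A ∪ ⋃ l : Fin N, range (xs l) with hBdef
  have hAB : A ⊆ B := subset_union_left
  have hB : B.Finite := hA.union (Set.finite_iUnion fun l => finite_range _)
  have hxB : ∀ (l : Fin N) i, xs l i ∈ B := fun l i => Or.inr (mem_iUnion.2 ⟨l, i, rfl⟩)
  obtain ⟨⟨w, hw⟩, y2, y3, -, -, -, -⟩ := thm_EXT L U κ R o hC A B j z b hAB hB hz
  have hwB : Nd L B w := y3 w hw
  set K : Set U := ext L R o b B j (cel L R o A j z) with hK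
  have hKc : cel L R o B j w = K := y2 w hw
  have hwit : ∀ l m : Fin N, ∃ v, l ≠ m → C v (xs l) ≠ C v (xs m) ∧
      (Sin (C v (xs l)) K ∨ Sin (C v (xs m)) K) := by
    intro l m
    by_cases hlm : l = m
    · exact ⟨z, fun h => absurd hlm h⟩
    · obtain ⟨v, hv⟩ := EQX_wit hC (B := B) hz hD hI hB (x := xs l) (x' := xs m) (by
        refine union_subset_union_right A (union_subset ?_ ?_)
        · exact fun u hu => mem_iUnion.2 ⟨l, hu⟩
        · exact fun u hu => mem_iUnion.2 ⟨m, hu⟩) (hxs l m fun h => hlm (Fin.ext h))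
      exact ⟨v, fun _ => hv⟩
  choose v hv using hwit
  let f : Fin N → Fin N → Fin N → Option (Set U) := fun l m t =>
    if Sin (C (v l m) (xs t)) K then some (C (v l m) (xs t)) else none
  have hf1 : ∀ l m, l ≠ m → f l m l ≠ f l m m := by
    intro l m hlm heq
    obtain ⟨h1, h2⟩ := hv l m hlm
    simp only [f] at heq
    by_cases h3 : Sin (C (v l m) (xs l)) K
    · rw [if_pos h3] at heq
      by_cases h4 : Sin (C (v l m) (xs m)) K
      · rw [if_pos h4] at heq
        exact h1 (Option.some.inj heq)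
      · rw [if_neg h4] at heq
        exact Option.some_ne_none _ heq
    · rw [if_neg h3] at heq
      rcases h2 with h2 | h2
      · exact h3 h2
      · rw [if_pos h2] at heq
        exact Option.some_ne_none _ heq.symm
  have hf2 : ∀ l m, (range (f l m)).ncard ≤ r + 1 := by
    intro l m
    set S : Set (Set U) := {D | Sin D K ∧ ∃ t : Fin N, D = C (v l m) (xs t)} with hS
    have hSf : S.Finite := (finite_range fun t : Fin N => C (v l m) (xs t)).subset (by
      rintro D ⟨-, t, rfl⟩
      exact ⟨t, rfl⟩)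
    have hSr : S.ncard ≤ r := by
      by_contra hgt
      push Not at hgt
      have hcard : r ≤ Fintype.card hSf.toFinset := by
        rw [Fintype.card_coe, ← Set.ncard_eq_toFinset_card S hSf]
        exact hgt.le
      obtain ⟨e⟩ : Nonempty (Fin r ↪ hSf.toFinset) := by
        refine Function.Embedding.nonempty_of_card_le ?_
        rw [Fintype.card_fin]
        exact hcard
      have hm : ∀ i, ((e i : Set U)) ∈ S := fun i => hSf.mem_toFinset.1 (e i).2
      choose t ht using fun i => (hm i).2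
      obtain ⟨i, i', hii, heq⟩ := hr B w (v l m) (fun i => xs (t i)) hAB hB hwB
        (fun i k => hxB _ _) (fun i => by
          rw [hKc]
          have h1 := (hm i).1
          rw [ht i] at h1
          exact h1)
      have h2 : e i = e i' := Subtype.ext ((ht i).trans (heq.trans (ht i').symm))
      exact absurd (e.injective h2) hii.ne
    have hsub : range (f l m) ⊆ insert none (some '' S) := by
      rintro _ ⟨t, rfl⟩
      simp only [f]
      by_cases h1 : Sin (C (v l m) (xs t)) K
      · rw [if_pos h1]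
        exact Or.inr ⟨_, ⟨h1, t, rfl⟩, rfl⟩
      · rw [if_neg h1]
        exact Or.inl rfl
    calc (range (f l m)).ncard ≤ (insert none (some '' S)).ncard :=
          ncard_le_ncard hsub ((hSf.image _).insert _)
      _ ≤ (some '' S).ncard + 1 := ncard_insert_le _ _
      _ ≤ S.ncard + 1 := Nat.add_le_add_right (ncard_image_le hSf) 1
      _ ≤ r + 1 := Nat.add_le_add_right hSr 1
  obtain ⟨c, p, q, hc, hpq⟩ := hN (Fin N) (Option (Set U)) f (by
    rw [Nat.card_eq_fintype_card, Fintype.card_fin]) hf1 hf2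
  -- the elements
  let u : Fin k → U := fun i => v (c i).1 (c i).2
  let Ds : Fin k → Set (Set U) := fun i => {D | Sin D K ∧ ∃ t : Fin N, D = C (u i) (xs t)}
  have hDf : ∀ i, (Ds i).Finite := fun i => (finite_range fun t : Fin N => C (u i) (xs t)).subset (by
    rintro D ⟨-, t, rfl⟩
    exact ⟨t, rfl⟩)
  have hDI : ∀ i, ∀ D ∈ Ds i, Ini R o j D := by
    rintro i D ⟨-, t, rfl⟩
    exact hI _ _
  have hcom := fun i => EQX_common hC (K := K) ⟨w, hw⟩ (hDf i) (hDI i) (fun D hD => hD.1)
  choose e he heD using fun i => (hcom i).1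
  choose e' he' heD' using fun i => (hcom i).2
  have hgK : ∀ {g : U ≃[L] U}, Fx L B g → ∀ {y}, y ∈ K → g y ∈ K := by
    intro g hg y hy
    rw [← hKc] at hy ⊢
    exact (fx_mem_cel hC j y w hg).2 hy
  have step : ∀ d : K, ∃ (d' : K) (g : Fin k → (U ≃[L] U)), (∀ i, Fx L B (g i)) ∧
      R (o j) d d' ∧ ∀ i, ∀ D ∈ Ds i, (d : U) ∈ g i '' D ∧ (d' : U) ∉ g i '' D := by
    rintro ⟨d, hd⟩
    have h1 : ∀ i, ∃ g : U ≃[L] U, Fx L B g ∧ R (o j) d (g (e i)) := by
      intro i
      have h2 := he i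
      rw [← hKc] at h2 hd
      obtain ⟨g, hg, h3⟩ := move hC hB hwB hd h2 true
      rw [lts_true] at h3
      exact ⟨g, hg, h3⟩
    choose g hg hg' using h1
    obtain ⟨d', hd', h4⟩ := EQX_above hC (S := insert d (range fun i => g i (e' i))) (j := j) hB hwB
      ((finite_range _).insert _) (by
        rw [hKc]
        rintro y (rfl | ⟨i, rfl⟩)
        · exact hd
        · exact hgK (hg i) (he' i))
    rw [hKc] at hd'
    refine ⟨⟨d', hd'⟩, g, hg, h4 d (mem_insert _ _), fun i D hD => ⟨?_, ?_⟩⟩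
    · have h5 : Ini R o j (g i '' D) := ini_img hC (hDI i D hD) (g i)
      exact h5 _ ((mem_img_iff (g i) D (e i)).2 (heD i D hD)) d (hg' i)
    · intro h6
      have h5 : Ini R o j (g i '' D) := ini_img hC (hDI i D hD) (g i)
      have h7 := h5 d' h6 (g i (e' i)) (h4 _ (Or.inr ⟨i, rfl⟩))
      exact heD' i D hD ((mem_img_iff (g i) D (e' i)).1 h7)
  choose nx G hG hlt hin using step
  let d : ℕ → K := fun n => Nat.rec ⟨w, hw⟩ (fun _ y => nx y) n
  have hds : ∀ n, d (n + 1) = nx (d n) := fun n => rfl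
  have hmono : ∀ n m : ℕ, n < m → R (o j) (d n).1 (d m).1 := by
    intro n m hnm
    induction hnm with
    | refl => rw [hds]; exact hlt _
    | step _ ih =>
      rw [hds]
      exact hC.tra j _ _ _ ih (hlt _)
  -- position of the cuts
  have hpos : ∀ (i : Fin k) (m m' : ℕ), ∀ D ∈ Ds i,
      ((d m').1 ∈ G (d m) i '' D ∧ (d (m' + 1)).1 ∉ G (d m) i '' D) ↔ m' = m := by
    intro i m m' D hD
    have h5 : Ini R o j (G (d m) i '' D) := ini_img hC (hDI i D hD) _
    obtain ⟨h6, h7⟩ := hin (d m) i D hD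
    rw [← hds] at h7
    constructor
    · rintro ⟨h8, h9⟩
      rcases lt_trichotomy m' m with h10 | h10 | h10
      · exfalso
        apply h9
        rcases Nat.lt_or_ge (m' + 1) m with h11 | h11
        · exact h5 _ h6 _ (hmono _ _ h11)
        · have h12 : m' + 1 = m := by omega
          rw [h12]
          exact h6
      · exact h10
      · exfalso
        apply h7
        rcases Nat.lt_or_ge (m + 1) m' with h11 | h11
        · exact h5 _ h8 _ (hmono _ _ h11)
        · have h12 : m + 1 = m' := by omega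
          rw [h12]
          exact h8
    · rintro rfl
      exact ⟨h6, h7⟩
  have hneg : ∀ (i : Fin k) (m m' : ℕ) (D : Set U), ¬ Sin D K →
      ¬ ((d m').1 ∈ G (d m) i '' D ∧ (d (m' + 1)).1 ∉ G (d m) i '' D) := by
    rintro i m m' D hD ⟨h1, h2⟩
    have h3 : Sin (G (d m) i '' D) K := ⟨⟨_, (d m').2, h1⟩, ⟨_, (d (m' + 1)).2, h2⟩⟩
    have h4 : G (d m) i '' K = K := by
      rw [← hKc]
      exact fx_img_cel hC j w (hG (d m) i)
    rw [← h4, EQX_sin_img] at h3
    exact hD h3
  apply hk
  refine ⟨fun i => fun s => xs (if s.1 = 0 then p i else q i) s.2,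
    fun m => fun s => if s = 0 then (d m).1 else (d (m + 1)).1,
    fun i m => G (d m) i (u i), fun i m a m' => ?_⟩
  have e0 : ∀ t : Fin N, C (G (d m') a (u a)) (xs t) = G (d m') a '' C (u a) (xs t) := fun t =>
    (EQX_C' hD hAB (hG (d m') a) (u a) (hxB t)).symm
  show (C (G (d m') a (u a)) (xs (p i)) ≠ C (G (d m') a (u a)) (xs (q i)) ∧
    (((d m).1 ∈ C (G (d m') a (u a)) (xs (p i)) ∧
        (d (m + 1)).1 ∉ C (G (d m') a (u a)) (xs (p i))) ∨
      ((d m).1 ∈ C (G (d m') a (u a)) (xs (q i)) ∧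
        (d (m + 1)).1 ∉ C (G (d m') a (u a)) (xs (q i))))) ↔ i = a ∧ m = m'
  rw [e0, e0]
  have hff : ∀ t, f (c a).1 (c a).2 t = if Sin (C (u a) (xs t)) K then
      some (C (u a) (xs t)) else none := fun t => rfl
  have hin' : ∀ t : Fin N, Sin (C (u a) (xs t)) K → C (u a) (xs t) ∈ Ds a := fun t ht =>
    ⟨ht, t, rfl⟩
  have hpos' := fun (t : Fin N) (ht : Sin (C (u a) (xs t)) K) =>
    hpos a m' m (C (u a) (xs t)) (hin' t ht)
  have hneg' := fun (t : Fin N) (ht : ¬ Sin (C (u a) (xs t)) K) =>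
    hneg a m' m (C (u a) (xs t)) ht
  have hpqa := hpq a i
  rw [hff, hff] at hpqa
  constructor
  · rintro ⟨h1, h2⟩
    have h3 : i = a := by
      by_contra hne
      have h4 := hpqa.2 fun h => hne h.symm
      by_cases h5 : Sin (C (u a) (xs (p i))) K
      · rw [if_pos h5] at h4
        by_cases h6 : Sin (C (u a) (xs (q i))) K
        · rw [if_pos h6] at h4
          exact h1 (by rw [Option.some.inj h4])
        · rw [if_neg h6] at h4
          exact Option.some_ne_none _ h4
      · rw [if_neg h5] at h4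
        by_cases h6 : Sin (C (u a) (xs (q i))) K
        · rw [if_pos h6] at h4
          exact Option.some_ne_none _ h4.symm
        · rcases h2 with h2 | h2
          · exact hneg' _ h5 h2
          · exact hneg' _ h6 h2
    refine ⟨h3, ?_⟩
    rcases h2 with h2 | h2
    · by_cases h5 : Sin (C (u a) (xs (p i))) K
      · exact Fin.ext ((hpos' _ h5).1 h2)
      · exact absurd h2 (hneg' _ h5)
    · by_cases h5 : Sin (C (u a) (xs (q i))) K
      · exact Fin.ext ((hpos' _ h5).1 h2)
      · exact absurd h2 (hneg' _ h5)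
  · rintro ⟨rfl, rfl⟩
    have h4 : ¬ ((if Sin (C (u i) (xs (p i))) K then some (C (u i) (xs (p i))) else none) =
        if Sin (C (u i) (xs (q i))) K then some (C (u i) (xs (q i))) else none) := fun h =>
      hpqa.1 h rfl
    by_cases h5 : Sin (C (u i) (xs (p i))) K
    · refine ⟨fun h => ?_, Or.inl ((hpos' _ h5).2 rfl)⟩
      have h7 := (G (d m) i).injective.image_injective h
      exact h4 (by rw [h7])
    · by_cases h6 : Sin (C (u i) (xs (q i))) K
      · refine ⟨fun h => ?_, Or.inr ((hpos' _ h6).2 rfl)⟩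
        have h7 := (G (d m) i).injective.image_injective h
        exact h4 (by rw [h7])
      · exfalso
        rw [if_neg h5, if_neg h6] at h4
        exact h4 rfl

end Pool.Agent.MNO
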