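import Pool.Agent.MNO.StT

/-!
MNO module FIX (helper82): moving by automorphisms preserving the classes of a finite invariant
equivalence relation.  (Short proof: a power of the automorphism given by `move` preserves all classes.)
-/

set_option autoImplicit false
set_option linter.unusedVariables false

namespace Pool.Agent.MNO

open FirstOrder.Language Set
open scoped FirstOrder
open Pool.Agent.WOM (tp Mon IsEl IsoM CtU Fx Orb)
open Pool.Agent.PMC (Ini ct Dc cel Sin Nd Ct lts ext XS Ex Fa Ll LL Itv Sm Md NPf fx_refl fx_symm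
  fx_comp fx_mono comp_apply')

/-- [FIX] -/
theorem thm_FIX : St_FIX := by
  intro L U _ κ R o hC α _ A₀ A S hAA hA hS hinv hFF j z b hz x hx y hy
  obtain ⟨F, hF, hF'⟩ := hFF
  by_cases h0 : lts R o b j x y
  · exact ⟨FirstOrder.Language.Equiv.refl L U, fx_refl A, fun u => hS.refl u, h0⟩
  obtain ⟨g, hg, hxy⟩ := move hC hA hz hx hy b
  have hyy : lts R o b j y (g y) := by
    by_cases e : x = y
    · rw [e] at hxy
      exact hxy
    · rcases lts_tot hC b j e with h | h
      · exact absurd h h0
      · exact lts_trans hC b j h hxy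
  -- the powers of `g`
  have hpw : ∀ n : ℕ, ∃ f : U ≃[L] U, Fx L A f ∧ ∀ x, f x = g^[n] x := by
    intro n
    induction n with
    | zero => exact ⟨FirstOrder.Language.Equiv.refl L U, fx_refl A, fun x => rfl⟩
    | succ n ih =>
      obtain ⟨f, hf, hf'⟩ := ih
      refine ⟨f.comp g, fx_comp hf hg, fun x => ?_⟩
      rw [comp_apply', hf', Function.iterate_succ_apply]
  choose f hf hf' using hpw
  have _ : Finite F := hF.to_subtype
  choose r hr hr' using hF'
  let π : ℕ → F → F := fun n u => ⟨r (fun i => f n (u.1 i)), hr _⟩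
  have key : ∀ n k, π n = π (n + k) → ∀ u, S u (fun i => f k (u i)) := by
    intro n k hnk
    have h1 : ∀ u ∈ F, S u (fun i => f k (u i)) := by
      intro u hu
      have h2 := congrArg Subtype.val (congrFun hnk ⟨u, hu⟩)
      have h3 : r (fun i => f n (u i)) = r (fun i => f (n + k) (u i)) := h2
      have h4 : S (fun i => f n (u i)) (fun i => f (n + k) (u i)) := by
        refine hS.trans (hr' _) ?_
        rw [h3]
        exact hS.symm (hr' _)
      have h5 := hinv (f n).symm (fx_mono hAA (fx_symm (hf n))) _ _ h4
      have e1 : (fun i => (f n).symm (f n (u i))) = u := by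
        funext i
        exact (f n).symm_apply_apply (u i)
      have e2 : (fun i => (f n).symm (f (n + k) (u i))) = fun i => f k (u i) := by
        funext i
        have e3 : f (n + k) (u i) = f n (f k (u i)) := by
          rw [hf', hf', hf', Function.iterate_add_apply]
        rw [e3]
        exact (f n).symm_apply_apply _
      rw [e1, e2] at h5
      exact h5
    intro u
    have h2 := hinv (f k) (fx_mono hAA (hf k)) _ _ (hr' u)
    exact hS.trans (hS.trans (hr' u) (h1 _ (hr u))) (hS.symm h2)
  have hlt : ∀ k, lts R o b j x (f (k + 1) y) := by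
    intro k
    induction k with
    | zero =>
      rw [hf']
      exact hxy
    | succ k ih =>
      refine lts_trans hC b j ih ?_
      have e : f (k + 1 + 1) y = f (k + 1) (g y) := by
        rw [hf', hf', Function.iterate_succ_apply]
      rw [e]
      exact (lts_img hC b j _ _ (f (k + 1))).2 hyy
  obtain ⟨n, m, hnm, hpi⟩ := Finite.exists_ne_map_eq_of_infinite π
  rcases lt_or_gt_of_ne hnm with h | h
  · obtain ⟨k, rfl⟩ := Nat.exists_eq_add_of_lt h
    exact ⟨f (k + 1), hf _, key n (k + 1) hpi, hlt k⟩
  · obtain ⟨k, rfl⟩ := Nat.exists_eq_add_of_lt h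
    exact ⟨f (k + 1), hf _, key m (k + 1) hpi.symm, hlt k⟩

end Pool.Agent.MNO
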