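import Pool.Agent.MNO.StT
import Pool.Agent.MNO.Ext

/-!
MNO, module LKS (helper80): links are symmetric and transitive and depend only on the cells; sets which
cut a cell cut the linked cells; pieces.
-/

set_option autoImplicit false
set_option linter.unusedVariables false

namespace Pool.Agent.MNO

open FirstOrder.Language Set
open scoped FirstOrder
open Pool.Agent.WOM (tp Mon IsEl IsoM CtU Fx Orb)
open Pool.Agent.PMC (Ini ct Dc cel Sin Nd Ct lts ext XS Ex Fa Ll LL Itv Sm Md NPf)

theorem thm_LKS (hLNK : St_LNK) : St_LKS := by
  intro L U _ κ R o hC A hA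
  have symm : ∀ x y, Lk L R o A x y → Lk L R o A y x := by
    intro x y h
    obtain ⟨hx, hy⟩ := lk_nd hC h
    obtain ⟨j, hj⟩ := h
    refine ⟨j, hLNK L U κ R o hC A (insert y A) j y x (subset_insert y A) (hA.insert y) hy hx hj ?_⟩
    exact ⟨{u | R (o j) u y}, lt_dc hC j y A, sin_self hC hA j hy⟩
  have trans : ∀ x y w, Lk L R o A x y → Lk L R o A y w → Lk L R o A x w := by
    intro x y w h h'
    obtain ⟨hw, hy⟩ := lk_nd hC (symm y w h')
    obtain ⟨j', hj'⟩ := symm y w h'
    obtain ⟨j, hj⟩ := h
    have e : j' = j := hC.uni j' j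
    subst e
    exact ⟨j', hLNK L U κ R o hC A (insert x A) j' y w (subset_insert x A) (hA.insert x) hy hw
      hj' hj⟩
  refine ⟨symm, trans, ?_, ?_, ?_⟩
  · intro j x x' y y' hx' hy' h
    exact symm _ _ (lk_cel2 hC hx' (symm _ _ (lk_cel2 hC hy' h)))
  · intro B j x y hAB hB h hct
    obtain ⟨hx, hy⟩ := lk_nd hC h
    obtain ⟨j', hj'⟩ := symm x y h
    have e : j' = j := hC.uni j' j
    subst e
    exact hLNK L U κ R o hC A B j' x y hAB hB hx hy hj' hct
  · intro x y
    constructor
    · intro h
      replace h : Relation.EqvGen (Lk L R o A) x y := h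
      induction h with
      | rel x y h => exact Or.inr h
      | refl x => exact Or.inl rfl
      | symm x y _ ih =>
        rcases ih with ih | ih
        · exact Or.inl ih.symm
        · exact Or.inr (symm _ _ ih)
      | trans x y z _ _ ih ih' =>
        rcases ih with ih | ih
        · rcases ih' with ih' | ih'
          · exact Or.inl (ih'.trans ih)
          · rw [← ih]
            exact Or.inr ih'
        · rcases ih' with ih' | ih'
          · rw [ih']
            exact Or.inr ih
          · exact Or.inr (trans _ _ _ ih ih')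
    · rintro (h | h)
      · rw [h]
        exact mem_pc A x
      · exact Relation.EqvGen.rel _ _ h

end Pool.Agent.MNO
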