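import Pool.Agent.MNO.StT
import Pool.Agent.MNO.Ext

/-!
MNO: linked cells are cut by the same sets (proof of helper47, text of helper30).
-/

set_option autoImplicit false
set_option linter.unusedVariables false

namespace Pool.Agent.MNO

open FirstOrder.Language Set
open scoped FirstOrder
open Pool.Agent.WOM (tp Mon IsEl IsoM CtU Fx Orb)
open Pool.Agent.PMC (Ini ct Dc cel Sin Nd Ct lts ext XS Ex Fa Ll LL Itv Sm Md NPf fx_refl fx_symm
  fx_comp fx_mono comp_apply' def_img def_mono def_compl def_inter def_union def_mem def_fix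
  def_of_fix conj_of_def exists_isd exists_fin_def isEl_of_orb mem_orb orb_meets sat_fam rel_fx
  rel_def1 rel_def2 rel_hull rel_swap def_close)

theorem thm_LNK (hBDD : St_BDD) : St_LNK := by
  intro L U _ κ R o hC A B j x y hAB hB hx hy hyI hBI
  have hA : A.Finite := hB.subset hAB
  by_contra hcon
  obtain ⟨C0, hC0, hC0S⟩ := hyI
  obtain ⟨D, hD, hDS⟩ := hBI
  obtain ⟨C, hCF, hCI, hCy⟩ := cuf1 hC y hC0
  have hK := cel_of_not_ct hC hAB hcon
  have hyB : Nd L B y := by
    by_contra h
    obtain ⟨y', hy', hlt⟩ := exists_lts hC hA hy (mem_cel A j y) true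
    rw [← hK, cel_def hC h j] at hy'
    have e : y' = y := hy'
    rw [e] at hlt
    exact lts_irr hC true j y hlt
  -- the point `u0`
  obtain ⟨q, hqI, hqC⟩ := hC0S.1
  obtain ⟨q', hqI', hqD'⟩ := hDS.1
  obtain ⟨c1, hc1I, hc1D⟩ := hDS.2
  obtain ⟨h0, hh0, hlt0⟩ := move hC hA hx hc1I hqI true
  rw [lts_true] at hlt0
  have hu0 : C (fun _ => h0 y) = h0 '' C0 := by
    rw [← hCy]
    exact (df_img hCF hh0 _).symm
  have hDu : D ⊆ C (fun _ => h0 y) := by
    rcases ini_total hC hD.2 (hCI (fun _ => h0 y)) with h | h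
    · exact h
    · exfalso
      apply hc1D
      apply h
      refine hCI _ (h0 q) ?_ c1 hlt0
      rw [hu0]
      exact ⟨q, hqC, rfl⟩
  have huS : Sin (C (fun _ => h0 y)) (cel L R o A j x) := by
    rw [hu0]
    exact sin_img hC (fx_img_cel hC j x hh0) hC0S
  obtain ⟨c2, hc2I, hc2u⟩ := huS.2
  -- the automorphism `g`
  obtain ⟨g, hg, hltg⟩ := move hC hA hx hc2I hqI' true
  rw [lts_true] at hltg
  have hgI : Ini R o j (g '' D) := ini_img hC hD.2 g
  have hug : C (fun _ => h0 y) ⊆ g '' D := by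
    rcases ini_total hC (hCI (fun _ => h0 y)) hgI with h | h
    · exact h
    · exfalso
      apply hc2u
      apply h
      exact hgI (g q') ⟨q', hqD', rfl⟩ c2 hltg
  have hgS : Sin (g '' D) (cel L R o A j x) := sin_img hC (fx_img_cel hC j x hg) hDS
  obtain ⟨c', hcI', hcg'⟩ := hgS.2
  -- bounds
  obtain ⟨p', hp'K, hp'⟩ := hBDD L U κ R o hC A j y x true C hA hy hx hCF hCI q' hqI' c' hcI'
  obtain ⟨p, hpK, hp⟩ := hBDD L U κ R o hC A j y x false C hA hy hx hCF hCI q' hqI' c' hcI'
  have hlo : ∀ u ∈ cel L R o A j y, D ⊆ C (fun _ => u) → C (fun _ => u) ⊆ g '' D →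
      ¬ R (o j) u p := by
    intro u hu h1 h2 h3
    exact hp u hu (h1 hqD') (fun h => hcg' (h2 h)) ((lts_false j p u).2 h3)
  have hhi : ∀ u ∈ cel L R o A j y, D ⊆ C (fun _ => u) → C (fun _ => u) ⊆ g '' D →
      ¬ R (o j) p' u := by
    intro u hu h1 h2 h3
    exact hp' u hu (h1 hqD') (fun h => hcg' (h2 h)) ((lts_true j p' u).2 h3)
  rw [← hK] at hp'K hpK
  obtain ⟨h, hh, hlth⟩ := move hC hB hyB hp'K hpK true
  rw [lts_true] at hlth
  have hhA : Fx L A h := fx_mono hAB hh
  have hhD : h '' D = D := dc_fix hD hh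
  have huK : h0 y ∈ cel L R o A j y := fx_cel hC j y hh0
  -- comparison of `g '' D` and `h '' (g '' D)`
  rcases ini_total hC (ini_img hC hgI h) hgI with hle | hle
  · -- `h u0` satisfies the conditions
    have e : C (fun _ => h (h0 y)) = h '' C (fun _ => h0 y) := (df_img hCF hhA _).symm
    have h1 : D ⊆ C (fun _ => h (h0 y)) := by
      rw [e]
      nth_rewrite 1 [← hhD]
      exact image_mono hDu
    have h2 : C (fun _ => h (h0 y)) ⊆ g '' D := by
      rw [e]
      exact (image_mono hug).trans hle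
    have h3 : h (h0 y) ∈ cel L R o A j y := (fx_mem_cel hC j _ _ hhA).2 huK
    have h4 := hhi _ h3 h1 h2
    -- `p ≤ u0`, so `p' < h p ≤ h u0`
    have h5 := hlo _ huK hDu hug
    apply h4
    by_cases h6 : p = h0 y
    · rw [← h6]
      exact hlth
    · rcases hC.tot j p (h0 y) h6 with h7 | h7
      · exact hC.tra j _ _ _ hlth ((R_img hC (o j) _ _ h).2 h7)
      · exact absurd h7 h5
  · -- `h⁻¹ u0` satisfies the conditions
    have hhs : Fx L A h.symm := fx_symm hhA
    have e : C (fun _ => h.symm (h0 y)) = h.symm '' C (fun _ => h0 y) := (df_img hCF hhs _).symm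
    have h1 : D ⊆ C (fun _ => h.symm (h0 y)) := by
      rw [e]
      have e1 : h.symm '' D = D := dc_fix hD (fx_symm hh)
      nth_rewrite 1 [← e1]
      exact image_mono hDu
    have h2 : C (fun _ => h.symm (h0 y)) ⊆ g '' D := by
      rw [e]
      have e2 : g '' D = h.symm '' (h '' (g '' D)) := (img_symm_img h _).symm
      rw [e2]
      exact image_mono (hug.trans hle)
    have h3 : h.symm (h0 y) ∈ cel L R o A j y := (fx_mem_cel hC j _ _ hhs).2 huK
    have h4 := hlo _ h3 h1 h2
    have h5 := hhi _ huK hDu hug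
    apply h5
    by_cases h6 : p = h.symm (h0 y)
    · have h7 : h p = h0 y := by
        rw [h6, h.apply_symm_apply]
      rw [← h7]
      exact hlth
    · rcases hC.tot j p (h.symm (h0 y)) h6 with h7 | h7
      · have h8 : R (o j) (h p) (h (h.symm (h0 y))) := (R_img hC (o j) _ _ h).2 h7
        rw [h.apply_symm_apply] at h8
        exact hC.tra j _ _ _ hlth h8
      · exact absurd h7 h4

end Pool.Agent.MNO
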