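import Pool.Agent.MNO.StT
import Pool.Agent.MNO.Ext

/-!
MNO [NNL] (helper67): no new links; unions of pieces over larger sets.
-/

set_option autoImplicit false
set_option linter.unusedVariables false

namespace Pool.Agent.MNO

open FirstOrder.Language Set
open scoped FirstOrder
open Pool.Agent.WOM (tp Mon IsEl IsoM CtU Fx Orb)
open Pool.Agent.PMC (Ini ct Dc cel Sin Nd Ct lts ext XS Ex Fa Ll LL Itv Sm Md NPf)

section

variable {L : FirstOrder.Language.{0, 0}} {U : Type} [L.Structure U] {κ : Type}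
  {R : κ → U → U → Prop} {o : κ → κ}

private theorem NNL_mem {A : Set U} {b : U} (hb : b ∈ A) : ¬ Nd L A b := by
  intro h
  apply h
  have hs : ({b} : Set U).Definable₁ L {b} := by
    unfold Set.Definable₁
    rw [Set.definable_iff_exists_formula_sum]
    refine ⟨(FirstOrder.Language.Term.var (Sum.inr 0)).equal
      (FirstOrder.Language.Term.var (Sum.inl ⟨b, rfl⟩)), ?_⟩
    ext v
    simp [FirstOrder.Language.Formula.realize_equal]
  exact Set.Definable.mono hs (by simpa using hb)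

private theorem NNL_one (hTRV : St_TRV) (hC : Cx L R o) {A B : Set U} (hAB : A ⊆ B)
    (hB : B.Finite) {z : U} (h : ∀ b ∈ B, ¬ Lk L R o A b z) (j : κ) :
    cel L R o B j z = cel L R o A j z := by
  by_cases hz : Nd L A z
  · exact cel_of_not_ct hC hAB
      (hTRV L U κ R o hC A B j z hAB hB hz fun b hb hct => h b hb ⟨j, hct⟩)
  · rw [cel_def hC hz j, cel_def hC (fun h' => hz (nd_anti hAB h')) j]

private theorem NNL_two (hTRV : St_TRV) (hLKS : St_LKS) (hC : Cx L R o) {A B : Set U}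
    (hAB : A ⊆ B) (hB : B.Finite) {Q : Set U} (hQ : Cls L R o A Q)
    (hBQ : ∀ b ∈ B, b ∉ A → b ∈ Q) : Cls L R o B Q := by
  have key : ∀ u v, Lk L R o B u v → u ∈ Q → v ∈ Q := by
    intro u v hl hu
    by_contra hv
    obtain ⟨hu2, hv2⟩ := lk_nd hC hl
    have hvA : Nd L A v := nd_anti hAB hv2
    have hno : ∀ b ∈ insert u B, ¬ Lk L R o A b v := by
      intro b hb hlb
      rcases hb with rfl | hb
      · exact hv ((hQ b v hlb).1 hu)
      · by_cases hbA : b ∈ A
        · exact NNL_mem hbA (lk_nd hC hlb).1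
        · exact hv ((hQ b v hlb).1 (hBQ b hb hbA))
    obtain ⟨j, hj⟩ := hl
    have h1 := NNL_one hTRV hC hAB hB (fun b hb => hno b (Or.inr hb)) j
    rw [h1] at hj
    exact hTRV L U κ R o hC A (insert u B) j v (hAB.trans (subset_insert u B)) (hB.insert u) hvA
      (fun b hb hct => hno b hb ⟨j, hct⟩) hj
  intro u v hl
  exact ⟨key u v hl, key v u ((hLKS L U κ R o hC B hB).1 u v hl)⟩

private theorem NNL_three (hTRV : St_TRV) (hLKS : St_LKS) (hC : Cx L R o) {A B : Set U}
    (hAB : A ⊆ B) (hB : B.Finite) {Q : Set U} (hQ : Cls L R o A Q) : Cls L R o B Q := by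
  have h1 : A ∪ (B ∩ Q) ⊆ B := union_subset hAB inter_subset_left
  have h2 : Cls L R o (A ∪ (B ∩ Q)) Q := by
    refine NNL_two hTRV hLKS hC subset_union_left (hB.subset h1) hQ ?_
    rintro b (hb | hb) hbA
    · exact absurd hb hbA
    · exact hb.2
  have h3 : Cls L R o B Qᶜ := by
    refine NNL_two hTRV hLKS hC h1 hB (cls_compl h2) ?_
    intro b hb hbn hbQ
    exact hbn (Or.inr ⟨hb, hbQ⟩)
  have h4 := cls_compl h3
  rwa [compl_compl] at h4

end

/-- [NNL] -/
theorem thm_NNL (hTRV : St_TRV) (hLKS : St_LKS) : St_NNL := by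
  intro L U _ κ R o hC A B hAB hB
  have hA : A.Finite := hB.subset hAB
  obtain ⟨k1, -, -, -, k5⟩ := hLKS L U κ R o hC A hA
  have h2 : ∀ Q, Cls L R o A Q → Cls L R o B Q := fun Q hQ =>
    NNL_three hTRV hLKS hC hAB hB hQ
  have h4 : ∀ z, Pc L R o B z ⊆ Pc L R o A z := fun z =>
    pc_sub (h2 _ (cls_pc A z)) (mem_pc A z)
  refine ⟨fun z hz j => NNL_one hTRV hC hAB hB hz j, h2, ?_, h4, ?_⟩
  · intro u z hl
    have h5 := (h2 _ (cls_pc A z) u z hl).2 (mem_pc A z)
    rcases (k5 z u).1 h5 with h6 | h6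
    · obtain ⟨j⟩ := hC.ne
      rw [h6]
      exact lk_self hC hA (nd_anti hAB (lk_nd hC hl).2) j (mem_cel A j z)
    · exact k1 z u h6
  · intro Q hQ hd z hz
    have h5 : ∀ y ∈ Q, ∀ j, cel L R o B j y = cel L R o A j y := by
      intro y hy j
      refine NNL_one hTRV hC hAB hB (fun b hb hl => ?_) j
      exact Set.disjoint_left.1 hd ((hQ b y hl).2 hy) hb
    refine ⟨h5 z hz, Subset.antisymm (h4 z) ?_⟩
    intro y hy
    rcases (k5 z y).1 hy with h6 | h6
    · rw [h6]
      exact mem_pc B z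
    · obtain ⟨j, hj⟩ := h6
      have hyQ : y ∈ Q := (hQ z y ⟨j, hj⟩).1 hz
      refine Relation.EqvGen.rel _ _ ⟨j, ?_⟩
      rw [h5 y hyQ j]
      exact ct_mono (insert_subset_insert hAB) hj

end Pool.Agent.MNO
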