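import Pool.Agent.MNO.StT

/-!
MNO: [RMS] combinatorial lemma (helper44).
-/

set_option autoImplicit false
set_option linter.unusedVariables false

namespace Pool.Agent.MNO

open Set

open Classical in
private theorem rms_p1 (r m : ℕ) : ∃ N : ℕ, ∀ (X V : Type) (f : X → X → X → V),
    (∀ a b, a ≠ b → f a b a ≠ f a b b) → (∀ a b (S : Finset X), (S.image (f a b)).card ≤ r) →
    ∀ S : Finset X, N ≤ S.card → ∃ (a : Fin m → X) (g : Fin m → X × X) (b : X), b ∈ S ∧
      (∀ i, a i ∈ S) ∧ (∀ i, (g i).1 ≠ (g i).2) ∧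
      (∀ i, f (g i).1 (g i).2 (a i) ≠ f (g i).1 (g i).2 b) ∧
      ∀ i j, i < j → f (g i).1 (g i).2 (a j) = f (g i).1 (g i).2 b := by
  induction m with
  | zero =>
    refine ⟨1, fun X V f hf hr S hS => ?_⟩
    obtain ⟨b, hb⟩ := Finset.card_pos.1 hS
    exact ⟨fun i => i.elim0, fun i => i.elim0, b, hb, fun i => i.elim0, fun i => i.elim0,
      fun i => i.elim0, fun i => i.elim0⟩
  | succ m ih =>
    obtain ⟨N, hN⟩ := ih
    refine ⟨r * N + 2, fun X V f hf hr S hS => ?_⟩
    have h1 : 1 < S.card := by omega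
    obtain ⟨x, hx, y, hy, hxy⟩ := Finset.one_lt_card.1 h1
    have hne : (S.image (f x y)).Nonempty := ⟨_, Finset.mem_image_of_mem _ hx⟩
    have h2 : (S.image (f x y)).card * N ≤ S.card := by
      have h3 := Nat.mul_le_mul_right N (hr x y S)
      omega
    obtain ⟨v, hv, hv'⟩ := Finset.exists_le_card_fiber_of_mul_le_card_of_maps_to
      (fun a ha => Finset.mem_image_of_mem (f x y) ha) hne h2
    obtain ⟨a, g, b, hb, ha, hg, h4, h5⟩ := hN X V f hf hr _ hv'
    have h6 : ∃ z ∈ S, f x y z ≠ v := by
      by_contra hcon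
      push Not at hcon
      exact hf x y hxy ((hcon x hx).trans (hcon y hy).symm)
    obtain ⟨z, hz, hzv⟩ := h6
    have hb1 := Finset.mem_filter.1 hb
    refine ⟨Fin.cons z a, Fin.cons (x, y) g, b, hb1.1, ?_, ?_, ?_, ?_⟩
    · intro i
      refine Fin.cases ?_ (fun i => ?_) i
      · rw [Fin.cons_zero]
        exact hz
      · rw [Fin.cons_succ]
        exact (Finset.mem_filter.1 (ha i)).1
    · intro i
      refine Fin.cases ?_ (fun i => ?_) i
      · rw [Fin.cons_zero]
        exact hxy
      · rw [Fin.cons_succ]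
        exact hg i
    · intro i
      refine Fin.cases ?_ (fun i => ?_) i
      · rw [Fin.cons_zero, Fin.cons_zero]
        show f x y z ≠ f x y b
        rw [hb1.2]
        exact hzv
      · rw [Fin.cons_succ, Fin.cons_succ]
        exact h4 i
    · intro i j
      refine Fin.cases ?_ (fun i => ?_) i
      · refine Fin.cases ?_ (fun j => ?_) j
        · intro h
          exact absurd h (lt_irrefl _)
        · intro _
          rw [Fin.cons_zero, Fin.cons_succ]
          show f x y (a j) = f x y b
          rw [hb1.2]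
          exact (Finset.mem_filter.1 (ha j)).2
      · refine Fin.cases ?_ (fun j => ?_) j
        · intro h
          exact absurd h (Fin.not_lt_zero _)
        · intro h
          rw [Fin.cons_succ, Fin.cons_succ]
          exact h5 i j (Fin.succ_lt_succ_iff.1 h)

open Classical in
private theorem rms_p2 (r n : ℕ) : ∃ M : ℕ, ∀ (α V : Type) [LinearOrder α] (φ : α → α → V),
    (∀ i (J : Finset α), (J.image (φ i)).card ≤ r) → ∀ J : Finset α, M ≤ J.card →
    ∃ t : Fin n → α, StrictMono t ∧ (∀ q, t q ∈ J) ∧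
      ∀ q p p', p < q → p' < q → φ (t q) (t p) = φ (t q) (t p') := by
  induction n with
  | zero =>
    refine ⟨0, fun α V _ φ hφ J hJ => ⟨fun i => i.elim0, ?_, fun i => i.elim0, fun i => i.elim0⟩⟩
    intro i
    exact i.elim0
  | succ n ih =>
    obtain ⟨M, hM⟩ := ih
    refine ⟨r * M + 2, fun α V _ φ hφ J hJ => ?_⟩
    have hJne : J.Nonempty := Finset.card_pos.1 (by omega)
    let w := J.max' hJne
    have hw : w ∈ J := Finset.max'_mem J hJne
    let J' := J.erase w
    have hJ' : J'.card = J.card - 1 := Finset.card_erase_of_mem hw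
    have hne' : J'.Nonempty := Finset.card_pos.1 (by omega)
    have hne : (J'.image (φ w)).Nonempty := hne'.image _
    have h2 : (J'.image (φ w)).card * M ≤ J'.card := by
      have h3 := Nat.mul_le_mul_right M (hφ w J')
      omega
    obtain ⟨v, hv, hv'⟩ := Finset.exists_le_card_fiber_of_mul_le_card_of_maps_to
      (fun a ha => Finset.mem_image_of_mem (φ w) ha) hne h2
    obtain ⟨t, ht1, ht2, ht3⟩ := hM α V φ hφ _ hv'
    have ht4 : ∀ q, t q ∈ J ∧ t q < w ∧ φ w (t q) = v := by
      intro q
      have h4 := Finset.mem_filter.1 (ht2 q)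
      have h5 := Finset.mem_erase.1 h4.1
      exact ⟨h5.2, lt_of_le_of_ne (Finset.le_max' J _ h5.2) h5.1, h4.2⟩
    refine ⟨Fin.snoc (α := fun _ => α) t w, ?_, ?_, ?_⟩
    · intro i j
      refine Fin.lastCases ?_ (fun i => ?_) i
      · intro h
        exact absurd h (not_lt.2 (Fin.le_last j))
      · refine Fin.lastCases ?_ (fun j => ?_) j
        · intro _
          rw [Fin.snoc_castSucc, Fin.snoc_last]
          exact (ht4 i).2.1
        · intro h
          rw [Fin.snoc_castSucc, Fin.snoc_castSucc]
          exact ht1 (Fin.castSucc_lt_castSucc_iff.1 h)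
    · intro i
      refine Fin.lastCases ?_ (fun i => ?_) i
      · rw [Fin.snoc_last]
        exact hw
      · rw [Fin.snoc_castSucc]
        exact (ht4 i).1
    · intro q p p'
      refine Fin.lastCases ?_ (fun q => ?_) q
      · refine Fin.lastCases ?_ (fun p => ?_) p
        · intro h
          exact absurd h (lt_irrefl _)
        · refine Fin.lastCases ?_ (fun p' => ?_) p'
          · intro _ h
            exact absurd h (lt_irrefl _)
          · intro _ _
            rw [Fin.snoc_castSucc, Fin.snoc_castSucc, Fin.snoc_last, (ht4 p).2.2, (ht4 p').2.2]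
      · refine Fin.lastCases ?_ (fun p => ?_) p
        · intro h
          exact absurd h (not_lt.2 (Fin.le_last _))
        · refine Fin.lastCases ?_ (fun p' => ?_) p'
          · intro _ h
            exact absurd h (not_lt.2 (Fin.le_last _))
          · intro h h'
            rw [Fin.snoc_castSucc, Fin.snoc_castSucc, Fin.snoc_castSucc]
            exact ht3 q p p' (Fin.castSucc_lt_castSucc_iff.1 h) (Fin.castSucc_lt_castSucc_iff.1 h')

open Classical in
theorem thm_RMS : St_RMS := by
  intro k r
  obtain ⟨m, hm⟩ := rms_p2 r (2 * k)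
  obtain ⟨N, hN⟩ := rms_p1 r m
  refine ⟨N, fun X V _ f hX hf hr => ?_⟩
  have hfin : Fintype X := Fintype.ofFinite X
  have hr' : ∀ a b (S : Finset X), (S.image (f a b)).card ≤ r := by
    intro a b S
    refine le_trans ?_ (hr a b)
    rw [← Set.ncard_coe_finset]
    refine Set.ncard_le_ncard ?_ (Set.finite_range _)
    intro v hv
    obtain ⟨x, _, hx⟩ := Finset.mem_image.1 (Finset.mem_coe.1 hv)
    exact ⟨x, hx⟩
  obtain ⟨a, g, b, _, _, hg, h4, h5⟩ := hN X V f hf hr' Finset.univ (by
    rw [Finset.card_univ, ← Nat.card_eq_fintype_card]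
    exact hX)
  obtain ⟨t, ht1, _, ht3⟩ := hm (Fin m) V (fun i j => f (g i).1 (g i).2 (a j)) (by
    intro i J
    have h6 : J.image (fun j => f (g i).1 (g i).2 (a j)) =
        (J.image a).image (f (g i).1 (g i).2) := by
      rw [Finset.image_image]
      rfl
    rw [h6]
    exact hr' _ _ _) Finset.univ (by rw [Finset.card_univ, Fintype.card_fin])
  let lo : Fin k → Fin (2 * k) := fun i => ⟨2 * i.1, by have := i.2; omega⟩
  let hi : Fin k → Fin (2 * k) := fun i => ⟨2 * i.1 + 1, by have := i.2; omega⟩
  refine ⟨fun i => g (t (lo i)), fun i => a (t (lo i)), fun i => a (t (hi i)),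
    fun i => hg _, fun i j => ?_⟩
  rcases lt_trichotomy i j with h | h | h
  · have e1 : lo i < lo j := by
      show 2 * i.1 < 2 * j.1
      have : i.1 < j.1 := h
      omega
    have e2 : lo i < hi j := by
      show 2 * i.1 < 2 * j.1 + 1
      have : i.1 < j.1 := h
      omega
    refine ⟨fun _ => ne_of_lt h, fun _ => ?_⟩
    exact (h5 _ _ (ht1 e1)).trans (h5 _ _ (ht1 e2)).symm
  · subst h
    have e2 : lo i < hi i := by
      show 2 * i.1 < 2 * i.1 + 1
      omega
    refine ⟨fun h6 => ?_, fun h6 => absurd rfl h6⟩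
    exact absurd (h6.trans (h5 _ _ (ht1 e2))) (h4 (t (lo i)))
  · have e1 : lo j < lo i := by
      show 2 * j.1 < 2 * i.1
      have : j.1 < i.1 := h
      omega
    have e2 : hi j < lo i := by
      show 2 * j.1 + 1 < 2 * i.1
      have : j.1 < i.1 := h
      omega
    exact ⟨fun _ => (ne_of_lt h).symm, fun _ => ht3 _ _ _ e1 e2⟩

end Pool.Agent.MNO
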