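import Pool.Agent.MNO.StT
import Pool.Agent.MNO.Ext

/-!
MNO module TR2 (helper69): triviality for two elements, the main coding argument.
-/

set_option autoImplicit false
set_option linter.unusedVariables false

namespace Pool.Agent.MNO

open FirstOrder.Language Set
open scoped FirstOrder
open Pool.Agent.WOM (tp Mon IsEl IsoM CtU Fx Orb)
open Pool.Agent.PMC (Ini ct Dc cel Sin Nd Ct lts ext XS Ex Fa Ll LL Itv Sm Md NPf fx_refl fx_symm
  fx_comp fx_mono comp_apply')

section

variable {L : FirstOrder.Language.{0, 0}} {U : Type} [L.Structure U] {κ : Type}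
  {R : κ → U → U → Prop} {o : κ → κ}

/-- `E` contains `r` and not `r'` -/
private def Inn (r r' : U) (E : Set U) : Prop := r ∈ E ∧ r' ∉ E

/-- the families of cuts `C v x` and `C v x'` agree on the interval from `r` to `r'` -/
private def Ar (C : U → (Unit → U) → Set U) (r r' x x' : U) : Prop :=
  ∀ v, (Inn r r' (C v (fun _ => x)) ∨ Inn r r' (C v (fun _ => x'))) →
    C v (fun _ => x) = C v (fun _ => x')

private theorem ar_refl (C : U → (Unit → U) → Set U) (r r' x : U) : Ar C r r' x x :=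
  fun _ _ => rfl

private theorem ar_symm {C : U → (Unit → U) → Set U} {r r' x x' : U} (h : Ar C r r' x x') :
    Ar C r r' x' x := fun v hv => (h v hv.symm).symm

private theorem ar_trans {C : U → (Unit → U) → Set U} {r r' x x' x'' : U} (h : Ar C r r' x x')
    (h' : Ar C r r' x' x'') : Ar C r r' x x'' := by
  intro v hv
  rcases hv with hv | hv
  · have h1 := h v (Or.inl hv)
    rw [h1] at hv
    rw [h1]
    exact h' v (Or.inl hv)
  · have h1 := h' v (Or.inr hv)
    rw [← h1] at hv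
    rw [← h1]
    exact h v (Or.inr hv)

private theorem mem_dp {A : Set U} {C : U → (Unit → U) → Set U} (h : DF L A (unc C)) {α : Type}
    (i k l : α) : Dp L A (fun v : α → U => v i ∈ C (v k) (fun _ => v l)) :=
  df_mem h i (Sum.elim (fun _ => k) (fun _ => l) : Unit ⊕ Unit → α)

private theorem ar_dp {A : Set U} {C : U → (Unit → U) → Set U} (h : DF L A (unc C)) {α : Type}
    (i1 i2 i3 i4 : α) : Dp L A (fun v : α → U => Ar C (v i1) (v i2) (v i3) (v i4)) := by
  have h1 : Dp L A (fun v : α ⊕ Unit → U =>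
      (Inn (v (Sum.inl i1)) (v (Sum.inl i2)) (C (v (Sum.inr ())) (fun _ => v (Sum.inl i3))) ∨
        Inn (v (Sum.inl i1)) (v (Sum.inl i2)) (C (v (Sum.inr ())) (fun _ => v (Sum.inl i4)))) →
      C (v (Sum.inr ())) (fun _ => v (Sum.inl i3)) =
        C (v (Sum.inr ())) (fun _ => v (Sum.inl i4))) := by
    refine dp_imp (dp_or (dp_and (mem_dp h _ _ _) (dp_not (mem_dp h _ _ _)))
      (dp_and (mem_dp h _ _ _) (dp_not (mem_dp h _ _ _)))) ?_
    have h2 : Dp L A (fun v : (α ⊕ Unit) ⊕ Unit → U =>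
        v (Sum.inr ()) ∈ C (v (Sum.inl (Sum.inr ()))) (fun _ => v (Sum.inl (Sum.inl i3))) ↔
        v (Sum.inr ()) ∈ C (v (Sum.inl (Sum.inr ()))) (fun _ => v (Sum.inl (Sum.inl i4)))) :=
      dp_iff (mem_dp h _ _ _) (mem_dp h _ _ _)
    exact dp_congr (dp_all1 h2) (fun v => Set.ext_iff)
  exact dp_all1 h1

private theorem ar_fx {A : Set U} {C : U → (Unit → U) → Set U} (h : DF L A (unc C))
    {g : U ≃[L] U} (hg : Fx L A g) (r r' x x' : U) :
    Ar C (g r) (g r') (g x) (g x') ↔ Ar C r r' x x' := by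
  have h1 := dp_fx (ar_dp (L := L) (A := A) h (0 : Fin 4) 1 2 3) hg (![r, r', x, x'])
  exact h1

private theorem ar_mono {C : U → (Unit → U) → Set U} {r r' s s' x x' : U}
    (hs : ∀ v y, Inn s s' (C v y) → Inn r r' (C v y)) (h : Ar C r r' x x') : Ar C s s' x x' := by
  intro v hv
  rcases hv with hv | hv
  · exact h v (Or.inl (hs _ _ hv))
  · exact h v (Or.inr (hs _ _ hv))

private theorem inn_mono (hC : Cx L R o) {j : κ} {E : Set U} (hE : Ini R o j E) {r r' s s' : U}
    (h1 : ¬ R (o j) s r) (h2 : ¬ R (o j) r' s') (h : Inn s s' E) : Inn r r' E := by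
  refine ⟨?_, fun hr' => h.2 ?_⟩
  · by_cases e : r = s
    · rw [e]
      exact h.1
    · rcases hC.tot j r s e with h3 | h3
      · exact hE s h.1 r h3
      · exact absurd h3 h1
  · by_cases e : s' = r'
    · rw [e]
      exact hr'
    · rcases hC.tot j s' r' e with h3 | h3
      · exact hE r' hr' s' h3
      · exact absurd h3 h2

/-- choice of inequivalent elements -/
private theorem sel {X : Type} (s : Setoid X) {k N : ℕ} (hN : k < N) (E : Fin k → Fin N → X)
    (b : X) (hE : ∀ n i l, s.r (E n i) (E n l) → i = l) :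
    ∃ f : Fin k → Fin N, (∀ n, ¬ s.r b (E n (f n))) ∧
      ∀ n m, n ≠ m → ¬ s.r (E n (f n)) (E m (f m)) := by
  classical
  let q : X → Quotient s := Quotient.mk s
  let t : Fin k → Finset (Quotient s) := fun n =>
    (Finset.univ.image (fun i => q (E n i))).erase (q b)
  have ht : ∀ n, k ≤ (t n).card := by
    intro n
    have h1 : (Finset.univ.image (fun i => q (E n i))).card = N := by
      rw [Finset.card_image_of_injective]
      · simp
      · intro i l hil
        exact hE n i l (Quotient.exact hil)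
    have h2 : (Finset.univ.image (fun i => q (E n i))).card - 1 ≤ (t n).card :=
      Finset.pred_card_le_card_erase
    omega
  obtain ⟨f, hf, hf'⟩ := (Finset.all_card_le_biUnion_card_iff_exists_injective t).1 (by
    intro s'
    rcases s'.eq_empty_or_nonempty with rfl | ⟨n, hn⟩
    · simp
    · calc s'.card ≤ Fintype.card (Fin k) := Finset.card_le_univ s'
        _ = k := Fintype.card_fin k
        _ ≤ (t n).card := ht n
        _ ≤ _ := Finset.card_le_card (Finset.subset_biUnion_of_mem t hn))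
  have hex : ∀ n, ∃ i, q (E n i) = f n ∧ f n ≠ q b := by
    intro n
    obtain ⟨h1, h2⟩ := Finset.mem_erase.1 (hf' n)
    obtain ⟨i, -, hi⟩ := Finset.mem_image.1 h2
    exact ⟨i, hi, h1⟩
  choose g hg hgb using hex
  refine ⟨g, fun n h => hgb n ?_, fun n m hnm h => hnm (hf ?_)⟩
  · rw [← hg n]
    exact (Quotient.sound h).symm
  · rw [← hg n, ← hg m]
    exact Quotient.sound h

end

theorem thm_TR2 (hEQX : St_EQX) (hFIX : St_FIX) : St_TR2 := by
  intro L U _ κ R o hC A j z a b hA hz hcta hctb hct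
  obtain ⟨D, hD, hDS⟩ := hct
  -- the family
  obtain ⟨C, hDF, hI, hCD⟩ : ∃ C : U → (Unit → U) → Set U, DF L A (unc C) ∧
      (∀ v x, Ini R o j (C v x)) ∧ C a (fun _ => b) = D := by
    obtain ⟨C', hC', hI', hCD'⟩ := cuf hC (A := A)
      (Sum.elim (fun _ : Unit => a) (fun _ : Unit => b)) (j := j) (C0 := D) (dc_mono (by
        rintro x (rfl | rfl | hx)
        · exact Or.inr ⟨Sum.inl (), rfl⟩
        · exact Or.inr ⟨Sum.inr (), rfl⟩
        · exact Or.inl hx) hD)
    refine ⟨fun v x => C' (Sum.elim (fun _ => v) x), ?_, fun v x => hI' _, hCD'⟩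
    have hunc : unc (fun v x => C' (Sum.elim (fun _ => v) x)) = C' := by
      funext w
      show C' (Sum.elim (fun _ => w (Sum.inl ())) (fun i => w (Sum.inr i))) = C' w
      congr 1
      funext i
      rcases i with i | i <;> rfl
    rw [hunc]
    exact hC'
  -- the equivalence relation
  obtain ⟨e1, i1, F1, hF1, hF1'⟩ := hEQX L U κ R o hC A Unit j z true C hA hz hDF hI
  obtain ⟨e2, i2, F2, hF2, hF2'⟩ := hEQX L U κ R o hC A Unit j z false C hA hz hDF hI
  obtain ⟨S, hSd⟩ : ∃ S : (Unit → U) → (Unit → U) → Prop, S = fun x x' =>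
    Apx (L := L) R o A j z true C x x' ∧ Apx (L := L) R o A j z false C x x' := ⟨_, rfl⟩
  have hSe : Equivalence S := by
    rw [hSd]
    exact ⟨fun x => ⟨e1.refl x, e2.refl x⟩, fun h => ⟨e1.symm h.1, e2.symm h.2⟩,
      fun h h' => ⟨e1.trans h.1 h'.1, e2.trans h.2 h'.2⟩⟩
  have hSi : ∀ g : U ≃[L] U, Fx L A g → ∀ u v, S u v →
      S (fun i => g (u i)) (fun i => g (v i)) := by
    intro g hg u v h
    rw [hSd] at h ⊢
    exact ⟨i1 g hg u v h.1, i2 g hg u v h.2⟩
  have hSA : ∀ x x', S x x' → Apx (L := L) R o A j z true C x x' ∧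
      Apx (L := L) R o A j z false C x x' := by
    intro x x' h
    rw [hSd] at h
    exact h
  have hSf : ∃ F : Set (Unit → U), F.Finite ∧ ∀ u, ∃ v ∈ F, S u v := by
    classical
    let rep : (Unit → U) × (Unit → U) → (Unit → U) := fun p =>
      if h : ∃ u, Apx (L := L) R o A j z true C u p.1 ∧ Apx (L := L) R o A j z false C u p.2
      then h.choose else p.1
    refine ⟨rep '' (F1 ×ˢ F2), (hF1.prod hF2).image rep, fun u => ?_⟩
    obtain ⟨f1, hf1, hf1'⟩ := hF1' u
    obtain ⟨f2, hf2, hf2'⟩ := hF2' u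
    have hex : ∃ u, Apx (L := L) R o A j z true C u (f1, f2).1 ∧
        Apx (L := L) R o A j z false C u (f1, f2).2 := ⟨u, hf1', hf2'⟩
    refine ⟨rep (f1, f2), ⟨(f1, f2), ⟨hf1, hf2⟩, rfl⟩, ?_⟩
    have h1 : rep (f1, f2) = hex.choose := dif_pos hex
    have h2 := hex.choose_spec
    rw [h1, hSd]
    exact ⟨e1.trans hf1' (e1.symm h2.1), e2.trans hf2' (e2.symm h2.2)⟩
  obtain ⟨K, hK⟩ : ∃ K, K = cel L R o A j z := ⟨_, rfl⟩
  rw [← hK] at hcta hctb hDS
  have hzK : z ∈ K := hK ▸ mem_cel A j z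
  have hfK : ∀ g : U ≃[L] U, Fx L A g → ∀ x, g x ∈ K ↔ x ∈ K := by
    intro g hg x
    rw [hK]
    exact fx_mem_cel hC j x z hg
  have hiK : ∀ g : U ≃[L] U, Fx L A g → g '' K = K := by
    intro g hg
    rw [hK]
    exact fx_img_cel hC j z hg
  have hlt : ∀ x ∈ K, ∃ y ∈ K, R (o j) x y := by
    intro x hx
    rw [hK] at hx ⊢
    obtain ⟨y, hy, hxy⟩ := exists_lts hC hA hz hx true
    exact ⟨y, hy, (lts_true j x y).1 hxy⟩
  -- moving
  have hfix : ∀ β, ¬ Ct L R o (insert β A) j K → ∀ x ∈ K, ∀ y ∈ K, ∃ h : U ≃[L] U,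
      Fx L (insert β A) h ∧ (∀ u, S u (fun i => h (u i))) ∧ R (o j) x (h y) := by
    intro β hβ x hx y hy
    rw [hK] at hβ hx hy
    have hcel : cel L R o (insert β A) j z = cel L R o A j z :=
      cel_of_not_ct hC (subset_insert β A) hβ
    have hnd : Nd L (insert β A) z := by
      by_contra hcon
      obtain ⟨y', hy', hy''⟩ := exists_lts hC hA hz (mem_cel A j z) true
      rw [← hcel, cel_def hC hcon j] at hy'
      have e : y' = z := hy'
      rw [e] at hy''
      exact lts_irr hC true j z hy''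
    rw [← hcel] at hx hy
    obtain ⟨h, hh, hh', hlt'⟩ := hFIX L U κ R o hC Unit A (insert β A) S (subset_insert β A)
      (hA.insert β) hSe hSi hSf j z true hnd x hx y hy
    exact ⟨h, hh, hh', (lts_true j _ _).1 hlt'⟩
  have hctg : ∀ g : U ≃[L] U, Fx L A g → ¬ Ct L R o (insert (g b) A) j K := by
    intro g hg h
    refine hctb ?_
    have h1 := ct_img hC g.symm h
    rw [image_insert_eq, g.symm_apply_apply, fx_img A (fx_symm hg), hiK g.symm (fx_symm hg)] at h1
    exact h1
  obtain ⟨X0, hX0⟩ : ∃ X0 : U → Prop, X0 = fun β => ∃ h : U ≃[L] U, Fx L A h ∧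
    (∀ u, S u (fun i => h (u i))) ∧ h b = β := ⟨_, rfl⟩
  have hX0b : X0 b := by
    rw [hX0]
    exact ⟨FirstOrder.Language.Equiv.refl L U, fx_refl A, fun u => hSe.refl u, rfl⟩
  -- the base configuration
  have hbase : ∀ N : ℕ, ∃ (bb : ℕ → U) (p p' : U), p ∈ K ∧ p' ∈ K ∧
      (∀ i, ∃ h : U ≃[L] U, Fx L A h ∧ (∀ u, S u (fun i => h (u i))) ∧ h b = bb i) ∧
      (∀ i < N, ∀ l < N, Ar C p p' (bb i) (bb l) → i = l) ∧
      (∀ i < N, ∀ r ∈ K, ∀ r' ∈ K, R (o j) r r' → (¬ R (o j) p r' ∨ ¬ R (o j) r p') →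
        Ar C r r' (bb i) b) := by
    intro N
    obtain ⟨⟨e, heK, heD⟩, ⟨e', heK', heD'⟩⟩ := hDS
    let H := {h : U ≃[L] U // Fx L (insert a A) h ∧ ∀ u, S u (fun i => h (u i))}
    have hstep : ∀ h : H, ∃ h' : H, ∃ w ∈ K, w ∈ h'.1 '' D ∧ w ∉ h.1 '' D := by
      rintro ⟨h, hh, hh'⟩
      have hhA : Fx L A h := fx_mono (subset_insert a A) hh
      obtain ⟨h', g1, g2, g3⟩ := hfix a hcta (h e') ((hfK h hhA e').2 heK') e heK
      refine ⟨⟨h', g1, g2⟩, h' e, (hfK h' (fx_mono (subset_insert a A) g1) e).2 heK,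
        ⟨e, heD, rfl⟩, fun hw => ?_⟩
      have h1 := ini_img hC hD.2 h (h' e) hw (h e') g3
      exact heD' ((mem_img_iff h D e').1 h1)
    choose f w hwK hw1 hw2 using hstep
    let hs : ℕ → H := fun n => Nat.rec ⟨FirstOrder.Language.Equiv.refl L U,
      fx_refl (insert a A), fun u => hSe.refl u⟩ (fun _ h => f h) n
    have hss : ∀ n, hs (n + 1) = f (hs n) := fun n => rfl
    have hD0 : (hs 0).1 '' D = D := by
      ext x
      constructor
      · rintro ⟨y, hy, rfl⟩
        exact hy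
      · intro hx
        exact ⟨x, hx, rfl⟩
    have hmono : Monotone (fun n => (hs n).1 '' D) := by
      refine monotone_nat_of_le_succ fun n => ?_
      rcases ini_total hC (ini_img hC hD.2 (hs n).1) (ini_img hC hD.2 (hs (n + 1)).1) with h | h
      · exact h
      · refine absurd (h ?_) (hw2 (hs n))
        rw [hss]
        exact hw1 (hs n)
    have hinj : ∀ i l, i < l → (hs i).1 '' D ≠ (hs l).1 '' D := by
      intro i l hil heq
      refine hw2 (hs i) ?_
      rw [heq]
      refine hmono (Nat.succ_le_of_lt hil) ?_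
      show w (hs i) ∈ (hs (i + 1)).1 '' D
      rw [hss]
      exact hw1 (hs i)
    have hfa : ∀ n, Fx L A (hs n).1 := fun n => fx_mono (subset_insert a A) (hs n).2.1
    have hCa : ∀ n, C a (fun _ => (hs n).1 b) = (hs n).1 '' D := by
      intro n
      have h1 := df_img hDF (hfa n) (Sum.elim (fun _ => a) (fun _ => b))
      have h2 : (hs n).1 '' C a (fun _ => b) = C ((hs n).1 a) (fun _ => (hs n).1 b) := h1
      rw [hCD, (hs n).2.1 a (mem_insert a A)] at h2
      exact h2.symm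
    let B : Set U := insert b (A ∪ (fun n => (hs n).1 b) '' Iio N)
    have hB : B.Finite := (hA.union ((finite_Iio N).image _)).insert b
    have hAB : A ⊆ B := subset_union_left.trans (subset_insert _ _)
    have he'N : (hs N).1 e' ∈ K := (hfK _ (hfa N) e').2 heK'
    have he'N' : (hs N).1 e' ∉ (hs N).1 '' D := fun h => heD' ((mem_img_iff _ D e').1 h)
    have hE1 := thm_EXT L U κ R o hC A B j z false hAB hB hz
    have hE2 := thm_EXT L U κ R o hC A B j z true hAB hB hz
    rw [← hK] at hE1 hE2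
    obtain ⟨p, hp, hep⟩ := hE1.2.2.2.1 e heK
    obtain ⟨p', hp', hep'⟩ := hE2.2.2.2.1 _ he'N
    rw [lts_false] at hep
    rw [lts_true] at hep'
    refine ⟨fun n => (hs n).1 b, p, p', hp.1, hp'.1, fun i => ⟨(hs i).1, hfa i, (hs i).2.2, rfl⟩,
      ?_, ?_⟩
    · intro i hi l hl hAr
      have h1 : Inn p p' (C a (fun _ => (hs i).1 b)) := by
        rw [hCa]
        have hinii := ini_img hC hD.2 (hs i).1
        refine ⟨hinii e (hmono (Nat.zero_le i) (by
          show e ∈ (hs 0).1 '' D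
          rw [hD0]
          exact heD)) p hep, fun h => he'N' ?_⟩
        exact hmono (le_of_lt hi) (hinii p' h _ hep')
      have h2 := hAr a (Or.inl h1)
      rw [hCa, hCa] at h2
      by_contra hne
      rcases lt_or_gt_of_ne hne with h | h
      · exact hinj i l h h2
      · exact hinj l i h h2.symm
    · intro i hi r hr r' hr' hrr hpp
      have hbi : (hs i).1 b ∈ B := Or.inr (Or.inr ⟨i, hi, rfl⟩)
      have hsub : A ∪ (range (fun _ : Unit => (hs i).1 b) ∪ range (fun _ : Unit => b)) ⊆ B := by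
        rintro x (hx | ⟨_, rfl⟩ | ⟨_, rfl⟩)
        · exact hAB hx
        · exact hbi
        · exact mem_insert b _
      have hS := hSA (fun _ => (hs i).1 b) (fun _ => b) (hSe.symm ((hs i).2.2 (fun _ => b)))
      intro v hv
      rcases hpp with h | h
      · -- below
        have hr'e : r' ∈ ext L R o false B j K := by
          by_cases e1 : p = r'
          · rw [← e1]
            exact hp
          · refine hE1.2.2.2.2.2.1 p hp r' hr' ?_
            rw [lts_false]
            rcases hC.tot j p r' e1 with h1 | h1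
            · exact absurd h1 h
            · exact h1
        have hre : r ∈ ext L R o false B j K :=
          hE1.2.2.2.2.2.1 r' hr'e r hr ((lts_false j r' r).2 hrr)
        have h3 := ext_anti (L := L) (R := R) (o := o) hsub false j K
        have hApx := hS.2
        unfold Apx at hApx
        rw [← hK] at hApx
        refine hApx v ?_
        rcases hv with hv | hv
        · exact Or.inl ⟨⟨r, h3 hre, hv.1⟩, ⟨r', h3 hr'e, hv.2⟩⟩
        · exact Or.inr ⟨⟨r, h3 hre, hv.1⟩, ⟨r', h3 hr'e, hv.2⟩⟩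
      · -- above
        have hre : r ∈ ext L R o true B j K := by
          by_cases e1 : r = p'
          · rw [e1]
            exact hp'
          · refine hE2.2.2.2.2.2.1 p' hp' r hr ?_
            rw [lts_true]
            rcases hC.tot j r p' e1 with h1 | h1
            · exact absurd h1 h
            · exact h1
        have hr'e : r' ∈ ext L R o true B j K :=
          hE2.2.2.2.2.2.1 r hre r' hr' ((lts_true j r r').2 hrr)
        have h3 := ext_anti (L := L) (R := R) (o := o) hsub true j K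
        have hApx := hS.1
        unfold Apx at hApx
        rw [← hK] at hApx
        refine hApx v ?_
        rcases hv with hv | hv
        · exact Or.inl ⟨⟨r, h3 hre, hv.1⟩, ⟨r', h3 hr'e, hv.2⟩⟩
        · exact Or.inr ⟨⟨r, h3 hre, hv.1⟩, ⟨r', h3 hr'e, hv.2⟩⟩
  -- the bound on exact arrays
  obtain ⟨k, hk⟩ := cod' hC hA (α := Fin 2) (β := Fin 4) (P := fun x d w =>
    Ar C (d 0) (d 1) (x 0) w ∧ Ar C (d 2) (d 3) (x 1) w) (dp_and (ar_dp hDF _ _ _ _)
      (ar_dp hDF _ _ _ _))
  obtain ⟨bb, p, p', hpK, hpK', hbb, hb1, hb2⟩ := hbase (k + 1)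
  -- one stage
  have hmax : ∀ (n : ℕ) (x : Fin n → U), (∀ i, x i ∈ K) → ∃ y ∈ K, ∀ i, R (o j) (x i) y := by
    intro n
    induction n with
    | zero => exact fun x _ => ⟨z, hzK, fun i => i.elim0⟩
    | succ n ih =>
      intro x hx
      obtain ⟨y, hy, hy'⟩ := ih (fun i => x i.castSucc) (fun i => hx _)
      obtain ⟨y1, hy1, hy1'⟩ := hlt y hy
      obtain ⟨y2, hy2, hy2'⟩ := hlt (x (Fin.last n)) (hx _)
      by_cases e : R (o j) y1 y2
      · refine ⟨y2, hy2, fun i => ?_⟩
        refine Fin.lastCases hy2' (fun i => ?_) i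
        exact hC.tra j _ _ _ (hC.tra j _ _ _ (hy' i) hy1') e
      · refine ⟨y1, hy1, fun i => ?_⟩
        refine Fin.lastCases ?_ (fun i => hC.tra j _ _ _ (hy' i) hy1') i
        by_cases e' : y1 = y2
        · rw [e']
          exact hy2'
        · rcases hC.tot j y1 y2 e' with h | h
          · exact absurd h e
          · exact hC.tra j _ _ _ hy2' h
  have hstage : ∀ (q : U) (β : Fin k → U), q ∈ K → (∀ n, X0 (β n)) →
      ∃ (q' q'' : U) (β' : Fin k → U), q' ∈ K ∧ q'' ∈ K ∧ R (o j) q q' ∧ R (o j) q' q'' ∧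
        (∀ n, X0 (β' n)) ∧
        (∀ n, ∀ r ∈ K, ∀ r' ∈ K, R (o j) r r' → (¬ R (o j) q' r' ∨ ¬ R (o j) r q'') →
          Ar C r r' (β' n) (β n)) ∧
        (∀ n, ¬ Ar C q' q'' b (β' n)) ∧ ∀ n m, n ≠ m → ¬ Ar C q' q'' (β' n) (β' m) := by
    intro q β hq hβ
    obtain ⟨q', hq', hqq⟩ := hlt q hq
    have hg : ∀ n, ∃ g : U ≃[L] U, Fx L A g ∧ (∀ u, S u (fun i => g (u i))) ∧ g b = β n ∧
        R (o j) q' (g p) := by
      intro n
      have h0 := hβ n
      rw [hX0] at h0
      obtain ⟨h, hh, hh', hhb⟩ := h0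
      have h1 := hctg h hh
      rw [hhb] at h1
      obtain ⟨h', g1, g2, g3⟩ := hfix (β n) h1 q' hq' (h p) ((hfK h hh p).2 hpK)
      refine ⟨h'.comp h, fx_comp (fx_mono (subset_insert _ A) g1) hh, fun u => ?_, ?_, g3⟩
      · exact hSe.trans (hh' u) (g2 (fun i => h (u i)))
      · rw [comp_apply', hhb]
        exact g1 _ (mem_insert _ _)
    choose g hgA hgS hgb hgp using hg
    obtain ⟨q1, hq1, hq1'⟩ := hmax k (fun n => g n p') (fun n => (hfK _ (hgA n) p').2 hpK')
    obtain ⟨q'', hq'', hqq'⟩ := hmax 2 ![q1, q'] (by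
      intro i
      fin_cases i
      · exact hq1
      · exact hq')
    have hqq1 : R (o j) q1 q'' := hqq' 0
    have hqq2 : R (o j) q' q'' := hqq' 1
    have hgp' : ∀ n, R (o j) (g n p') q'' := fun n => hC.tra j _ _ _ (hq1' n) hqq1
    let st : Setoid U := ⟨Ar C q' q'', ⟨fun x => ar_refl C _ _ x, fun h => ar_symm h,
      fun h h' => ar_trans h h'⟩⟩
    obtain ⟨fs, hfs1, hfs2⟩ := sel st (Nat.lt_succ_self k) (fun n i => g n (bb i)) b (by
      intro n i l hil
      have h1 : Ar C q' q'' (g n (bb i)) (g n (bb l)) := hil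
      have h2 : Ar C (g n p) (g n p') (g n (bb i)) (g n (bb l)) :=
        ar_mono (fun v y h => inn_mono hC (hI v y) (asymm' hC j (hgp n))
          (asymm' hC j (hgp' n)) h) h1
      rw [ar_fx hDF (hgA n)] at h2
      exact Fin.ext (hb1 i.1 i.2 l.1 l.2 h2))
    refine ⟨q', q'', fun n => g n (bb (fs n)), hq', hq'', hqq, hqq2, ?_, ?_, hfs1, hfs2⟩
    · intro n
      obtain ⟨h, hh, hh', hhb⟩ := hbb (fs n)
      rw [hX0]
      refine ⟨(g n).comp h, fx_comp (hgA n) hh, fun u => ?_, ?_⟩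
      · exact hSe.trans (hh' u) (hgS n (fun i => h (u i)))
      · rw [comp_apply', hhb]
    · intro n r hr r' hr' hrr hor
      have h1 : Ar C ((g n).symm r) ((g n).symm r') (bb (fs n)) b := by
        have hsy := fx_symm (hgA n)
        refine hb2 (fs n) (fs n).2 _ ((hfK _ hsy r).2 hr) _ ((hfK _ hsy r').2 hr')
          ((R_img hC (o j) r r' (g n).symm).2 hrr) ?_
        rcases hor with h | h
        · refine Or.inl fun h2 => h ?_
          have h3 := (R_img hC (o j) _ _ (g n)).2 h2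
          rw [(g n).apply_symm_apply] at h3
          exact hC.tra j _ _ _ (hgp n) h3
        · refine Or.inr fun h2 => h ?_
          have h3 := (R_img hC (o j) _ _ (g n)).2 h2
          rw [(g n).apply_symm_apply] at h3
          exact hC.tra j _ _ _ h3 (hgp' n)
      have h2 := (ar_fx hDF (hgA n) _ _ _ _).2 h1
      rw [(g n).apply_symm_apply, (g n).apply_symm_apply, hgb n] at h2
      exact h2
  -- all stages
  let T := {s : U × (Fin k → U) // s.1 ∈ K ∧ ∀ n, X0 (s.2 n)}
  have hstage' : ∀ s : T, ∃ (q' : U) (s' : T), q' ∈ K ∧ R (o j) s.1.1 q' ∧ R (o j) q' s'.1.1 ∧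
      (∀ n, ∀ r ∈ K, ∀ r' ∈ K, R (o j) r r' → (¬ R (o j) q' r' ∨ ¬ R (o j) r s'.1.1) →
          Ar C r r' (s'.1.2 n) (s.1.2 n)) ∧
        (∀ n, ¬ Ar C q' s'.1.1 b (s'.1.2 n)) ∧
        ∀ n m, n ≠ m → ¬ Ar C q' s'.1.1 (s'.1.2 n) (s'.1.2 m) := by
    rintro ⟨⟨q, β⟩, hq, hβ⟩
    obtain ⟨q', q'', β', h1, h2, h3, h4, h5, h6, h7, h8⟩ := hstage q β hq hβ
    exact ⟨q', ⟨(q'', β'), h2, h5⟩, h1, h3, h4, h6, h7, h8⟩
  choose lo0 nx hlo hl1 hl2 hl3 hl4 hl5 using hstage'
  let s : ℕ → T := fun t => Nat.rec ⟨(z, fun _ => b), hzK, fun _ => hX0b⟩ (fun _ s => nx s) t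
  have hss : ∀ t, s (t + 1) = nx (s t) := fun t => rfl
  obtain ⟨hi, hhi⟩ : ∃ hi : ℕ → U, ∀ t, hi t = (s (t + 1)).1.1 := ⟨_, fun t => rfl⟩
  obtain ⟨lo, hlod⟩ : ∃ lo : ℕ → U, ∀ t, lo t = lo0 (s t) := ⟨_, fun t => rfl⟩
  obtain ⟨β, hβ⟩ : ∃ β : ℕ → Fin k → U, ∀ t, β t = (s t).1.2 := ⟨_, fun t => rfl⟩
  have hβ0 : ∀ n, β 0 n = b := fun n => by
    rw [hβ]
    rfl
  have hhiK : ∀ t, hi t ∈ K := fun t => by
    rw [hhi]
    exact (s (t + 1)).2.1
  have hloK : ∀ t, lo t ∈ K := fun t => by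
    rw [hlod]
    exact hlo _
  have hlh : ∀ t, R (o j) (lo t) (hi t) := fun t => by
    rw [hlod, hhi, hss]
    exact hl2 _
  have hhl : ∀ t, R (o j) (hi t) (lo (t + 1)) := fun t => by
    rw [hlod, hhi]
    exact hl1 _
  have hhlt : ∀ t u, t < u → R (o j) (hi t) (lo u) := by
    intro t u htu
    induction u, htu using Nat.le_induction with
    | base => exact hhl t
    | succ u _ ih => exact hC.tra j _ _ _ (hC.tra j _ _ _ ih (hlh u)) (hhl u)
  have hstep1 : ∀ t u n, u ≠ t → Ar C (lo t) (hi t) (β (u + 1) n) (β u n) := by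
    intro t u n hut
    have h1 := hl3 (s u) n (lo t) (hloK t) (hi t) (hhiK t) (hlh t)
    have e1 : lo0 (s u) = lo u := (hlod u).symm
    have e2 : (nx (s u)).1.1 = hi u := by rw [hhi, hss]
    rw [hβ, hβ, hss]
    refine h1 ?_
    rw [e1, e2]
    rcases lt_or_gt_of_ne hut with h | h
    · exact Or.inr (asymm' hC j (hhlt u t h))
    · exact Or.inl (asymm' hC j (hhlt t u h))
  have hne1 : ∀ t n, ¬ Ar C (lo t) (hi t) b (β (t + 1) n) := by
    intro t n
    rw [hlod, hhi, hβ, hss]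
    exact hl4 (s t) n
  have hne2 : ∀ t n m, n ≠ m → ¬ Ar C (lo t) (hi t) (β (t + 1) n) (β (t + 1) m) := by
    intro t n m hnm
    rw [hlod, hhi, hβ, hss]
    exact hl5 (s t) n m hnm
  have hup : ∀ t n s', t + 1 ≤ s' → Ar C (lo t) (hi t) (β s' n) (β (t + 1) n) := by
    intro t n s' hs'
    induction s', hs' using Nat.le_induction with
    | base => exact ar_refl _ _ _ _
    | succ u hu ih => exact ar_trans (hstep1 t u n (by omega)) ih
  have hdn : ∀ t n s', s' ≤ t → Ar C (lo t) (hi t) (β s' n) b := by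
    intro t n s'
    induction s' with
    | zero =>
      intro _
      rw [hβ0]
      exact ar_refl _ _ _ _
    | succ u ih =>
      intro hu
      exact ar_trans (hstep1 t u n (by omega)) (ih (by omega))
  -- the array
  refine hk ⟨fun n => ![β (k + 1) n, b], fun t => ![lo t, hi t, lo (t + 1), hi (t + 1)],
    fun m s' => β (s' + 1) m, ?_⟩
  intro n t m s'
  show (Ar C (lo t) (hi t) (β (k + 1) n) (β (s' + 1) m) ∧
    Ar C (lo (t + 1)) (hi (t + 1)) b (β (s' + 1) m)) ↔ n = m ∧ t = s'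
  constructor
  · rintro ⟨h1, h2⟩
    have h3 := hup t n (k + 1) (by have := t.2; omega)
    have h4 : ¬ (s' : ℕ) + 1 ≤ t := by
      intro h
      exact hne1 t n (ar_trans (ar_symm (hdn t m _ h)) (ar_trans (ar_symm h1) h3))
    have h5 := hup t m (s' + 1) (by omega)
    have h6 : n = m := by
      by_contra hnm
      exact hne2 t n m hnm (ar_trans (ar_symm h3) (ar_trans h1 h5))
    have h7 : ¬ (t : ℕ) + 1 + 1 ≤ s' + 1 := by
      intro h
      exact hne1 (t + 1) m (ar_trans h2 (hup (t + 1) m (s' + 1) h))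
    exact ⟨h6, Fin.ext (by omega)⟩
  · rintro ⟨rfl, rfl⟩
    refine ⟨?_, ?_⟩
    · exact hup t n (k + 1) (by have := t.2; omega)
    · exact ar_symm (hdn (t + 1) n (t + 1) le_rfl)

end Pool.Agent.MNO
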