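import Pool.Agent.MNO.StT
import Pool.Agent.MNO.Ext

/-!
MNO: triviality, reduction to two elements (helper30).
-/

set_option autoImplicit false
set_option linter.unusedVariables false

namespace Pool.Agent.MNO

open FirstOrder.Language Set
open scoped FirstOrder
open Pool.Agent.WOM (tp Mon IsEl IsoM CtU Fx Orb)
open Pool.Agent.PMC (Ini ct Dc cel Sin Nd Ct lts ext XS Ex Fa Ll LL Itv Sm Md NPf)

theorem thm_TRV (hTR2 : St_TR2) : St_TRV := by
  intro L U _ κ R o hC A B j z hAB hB hz hb
  have hA : A.Finite := hB.subset hAB
  have key : ∀ D : Set U, D.Finite → ∀ b, (∀ d ∈ insert b D,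
      ¬ Ct L R o (insert d A) j (cel L R o A j z)) →
      ¬ Ct L R o (insert b (A ∪ D)) j (cel L R o A j z) := by
    intro D hD
    induction D, hD using Set.Finite.induction_on with
    | empty =>
      intro b h
      rw [union_empty]
      exact h b (mem_insert b ∅)
    | @insert a D' _ hD' ih =>
      intro b h
      have h1 := ih b (fun d hd => h d (by
        rcases hd with rfl | hd
        · exact mem_insert _ _
        · exact mem_insert_of_mem _ (mem_insert_of_mem _ hd)))
      have h2 := ih a (fun d hd => h d (by
        rcases hd with rfl | hd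
        · exact mem_insert_of_mem _ (mem_insert _ _)
        · exact mem_insert_of_mem _ (mem_insert_of_mem _ hd)))
      have h3 : ¬ Ct L R o (A ∪ D') j (cel L R o A j z) := fun h4 =>
        h2 (ct_mono (subset_insert a _) h4)
      have hK := cel_of_not_ct hC (subset_union_left : A ⊆ A ∪ D') h3
      have hz' : Nd L (A ∪ D') z := by
        by_contra h4
        obtain ⟨y, hy, hlt⟩ := exists_lts hC hA hz (mem_cel A j z) true
        rw [← hK, cel_def hC h4 j] at hy
        have e : y = z := hy
        rw [e] at hlt
        exact lts_irr hC true j z hlt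
      rw [← hK] at h1 h2
      have h5 := hTR2 L U κ R o hC (A ∪ D') j z b a (hA.union hD') hz' h1 h2
      rw [hK] at h5
      have e : insert b (A ∪ insert a D') = insert b (insert a (A ∪ D')) := by
        rw [union_insert]
      rw [e]
      exact h5
  intro hcon
  rcases B.eq_empty_or_nonempty with hBe | ⟨b, hbB⟩
  · rw [hBe] at hcon hAB
    have hAe : A = ∅ := subset_empty_iff.mp hAB
    obtain ⟨C, hCd, hS⟩ := hcon
    rw [← hAe] at hCd
    exact not_sin_cel hCd z hS
  · refine key B hB b (fun d hd => hb d ?_) (ct_mono ?_ hcon)
    · rcases hd with rfl | hd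
      · exact hbB
      · exact hd
    · exact fun x hx => mem_insert_of_mem _ (Or.inr hx)

end Pool.Agent.MNO
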