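import Pool.Agent.MNO.NBase
import Pool.Agent.MNO.BDD
import Pool.Agent.MNO.LNK
import Pool.Agent.MNO.LKS
import Pool.Agent.MNO.FIX
import Pool.Agent.MNO.RMS
import Pool.Agent.MNO.CAP
import Pool.Agent.MNO.EQX
import Pool.Agent.MNO.TR2
import Pool.Agent.MNO.TRV
import Pool.Agent.MNO.NNL

/-!
MNO: base lemmas, third part: links and pieces (consequences of LNK, LKS, TRV, NNL).
-/

set_option autoImplicit false
set_option linter.unusedVariables false
set_option linter.unusedSectionVars false

namespace Pool.Agent.MNO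

open FirstOrder.Language Set
open scoped FirstOrder
open Pool.Agent.WOM (tp Mon IsEl IsoM CtU Fx Orb)
open Pool.Agent.PMC (Ini ct Dc cel Sin Nd Ct lts ext XS Ex Fa Ll LL Itv Sm Md NPf)

private theorem b_lks : St_LKS := thm_LKS (thm_LNK thm_BDD)

private theorem b_trv : St_TRV := thm_TRV (thm_TR2 (thm_EQX thm_CAP thm_RMS) thm_FIX)

private theorem b_nnl : St_NNL := thm_NNL b_trv b_lks

variable {L : FirstOrder.Language.{0, 0}} {U : Type} [L.Structure U] {κ : Type}
  {R : κ → U → U → Prop} {o : κ → κ} (hC : Cx L R o)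

include hC

theorem lk_symm {A : Set U} (hA : A.Finite) {u z : U} (h : Lk L R o A u z) : Lk L R o A z u :=
  (b_lks L U κ R o hC A hA).1 u z h

theorem lk_trans {A : Set U} (hA : A.Finite) {x y z : U} (h : Lk L R o A x y)
    (h' : Lk L R o A y z) : Lk L R o A x z :=
  (b_lks L U κ R o hC A hA).2.1 x y z h h'

/-- links depend only on the cells -/
theorem lk_cel {A : Set U} (hA : A.Finite) {u z u' z' : U} {j : κ} (hu : u' ∈ cel L R o A j u)
    (hz : z' ∈ cel L R o A j z) (h : Lk L R o A u z) : Lk L R o A u' z' :=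
  (b_lks L U κ R o hC A hA).2.2.1 j u u' z z' hu hz h

/-- the piece of `z` = the points linked with `z` -/
theorem pc_iff {A : Set U} (hA : A.Finite) {y z : U} (hz : Nd L A z) :
    y ∈ Pc L R o A z ↔ Lk L R o A z y := by
  rw [(b_lks L U κ R o hC A hA).2.2.2.2 z y]
  constructor
  · rintro (rfl | h)
    · obtain ⟨j⟩ := hC.ne
      exact lk_self hC hA hz j (mem_cel A j y)
    · exact h
  · exact fun h => Or.inr h

/-- unions of pieces over `A` are unions of pieces over `B` -/
theorem cls_anti {A B Q : Set U} (hAB : A ⊆ B) (hB : B.Finite) (hQ : Cls L R o A Q) :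
    Cls L R o B Q :=
  (b_nnl L U κ R o hC A B hAB hB).2.1 Q hQ

theorem pc_anti {A B : Set U} (hAB : A ⊆ B) (hB : B.Finite) (z : U) :
    Pc L R o B z ⊆ Pc L R o A z :=
  (b_nnl L U κ R o hC A B hAB hB).2.2.2.1 z

theorem lk_anti {A B : Set U} (hAB : A ⊆ B) (hB : B.Finite) {u z : U}
    (h : Lk L R o B u z) : Lk L R o A u z :=
  (b_nnl L U κ R o hC A B hAB hB).2.2.1 u z h

end Pool.Agent.MNO
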