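import Pool.Agent.MNO.StB
import Pool.Agent.MNO.LBase

/-!
MNO module AG (helper23): a set which contains a point of a piece cuts all its cells.
-/

set_option autoImplicit false
set_option linter.unusedVariables false

namespace Pool.Agent.MNO

open FirstOrder.Language Set
open scoped FirstOrder
open Pool.Agent.WOM (tp Mon IsEl IsoM CtU Fx Orb)
open Pool.Agent.PMC (Ini ct Dc cel Sin Nd Ct lts ext XS Ex Fa Ll LL Itv Sm Md NPf)

theorem thm_AG : St_AG := by
  intro L U _ κ R o hC A B w z hAB hB hw hwn hz j
  obtain ⟨j', C, hCC, hS⟩ := (pc_iff hC (hB.subset hAB) hwn).1 hz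
  have e : j' = j := hC.uni j' j
  subst e
  exact ⟨C, dc_mono (insert_subset hw hAB) hCC, hS⟩

end Pool.Agent.MNO
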