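import Pool.Agent.MNO.NFE

/-!
MNO: base lemmas, second part, module NCM: cuts and cells (helper89).
-/

set_option autoImplicit false
set_option linter.unusedVariables false
set_option linter.unusedSectionVars false

namespace Pool.Agent.MNO

open FirstOrder.Language Set
open scoped FirstOrder
open Pool.Agent.WOM (tp Mon IsEl IsoM CtU Fx Orb)
open Pool.Agent.PMC (Ini ct Dc cel Sin Nd Ct lts ext XS Ex Fa Ll LL Itv Sm Md NPf fx_refl fx_symm
  fx_comp fx_mono comp_apply' def_img def_mono def_compl def_inter def_union def_mem def_fix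
  def_of_fix conj_of_def exists_isd exists_fin_def isEl_of_orb mem_orb orb_meets sat_fam rel_fx
  rel_def1 rel_def2 rel_hull rel_swap def_close)

variable {L : FirstOrder.Language.{0, 0}} {U : Type} [L.Structure U] {κ : Type}
  {R : κ → U → U → Prop} {o : κ → κ}

/-- automorphisms over `A` preserve the `A`-definable equivalence relations -/
private theorem ncm_inv {A : Set U} {E : (Unit → U) → (Unit → U) → Prop} (hE : FE L A E)
    {g : U ≃[L] U} (hg : Fx L A g) (u v : U) :
    E (fun _ => g u) (fun _ => g v) ↔ E (fun _ => u) (fun _ => v) := by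
  have h := dp_fx hE.dfn hg (Sum.elim (fun _ : Unit => u) (fun _ : Unit => v))
  exact h

private theorem ncm_inv_it {A : Set U} {E : (Unit → U) → (Unit → U) → Prop} (hE : FE L A E)
    {g : U ≃[L] U} (hg : Fx L A g) (a : ℕ) (u v : U) :
    E (fun _ => (⇑g)^[a] u) (fun _ => (⇑g)^[a] v) ↔ E (fun _ => u) (fun _ => v) := by
  induction a with
  | zero => exact Iff.rfl
  | succ a ih =>
    rw [Function.iterate_succ_apply', Function.iterate_succ_apply', ncm_inv hE hg]
    exact ih

/-- some power returns to the class -/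
private theorem ncm_pig {A : Set U} {E : (Unit → U) → (Unit → U) → Prop} (hE : FE L A E)
    {g : U ≃[L] U} (hg : Fx L A g) (y : U) :
    ∃ m : ℕ, E (fun _ => y) (fun _ => (⇑g)^[m + 1] y) := by
  obtain ⟨s, hs, hs'⟩ := hE.fin
  choose r hr hr' using hs'
  have key : ∀ a b : ℕ, a < b → r (fun _ => (⇑g)^[a] y) = r (fun _ => (⇑g)^[b] y) →
      ∃ m : ℕ, E (fun _ => y) (fun _ => (⇑g)^[m + 1] y) := by
    intro a b hab h
    obtain ⟨m, rfl⟩ := Nat.exists_eq_add_of_lt hab
    refine ⟨m, ?_⟩
    have h1 : E (fun _ => (⇑g)^[a] y) (fun _ => (⇑g)^[a + m + 1] y) := by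
      have h2 := hr' (fun _ => (⇑g)^[a] y)
      rw [h] at h2
      exact hE.eqv.trans h2 (hE.eqv.symm (hr' _))
    rw [show a + m + 1 = a + (m + 1) by omega, Function.iterate_add_apply] at h1
    exact (ncm_inv_it hE hg a y ((⇑g)^[m + 1] y)).1 h1
  obtain ⟨a, -, b, -, hab, h⟩ := (Set.infinite_univ (α := ℕ)).exists_ne_map_eq_of_mapsTo
    (f := fun n : ℕ => r (fun _ => (⇑g)^[n] y)) (fun n _ => hr _) hs
  rcases lt_or_gt_of_ne hab with h1 | h1
  · exact key a b h1 h
  · exact key b a h1 h.symm

section cx

variable (hC : Cx L R o)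

include hC

/-- [B3] a definable cut invariant under `Nx L A` is `A`-definable -/
theorem nx_cut {A B C : Set U} {j : κ} (hA : A.Finite) (hB : B.Finite) (hD : Dc L R o B j C)
    (h : ∀ g : U ≃[L] U, Nx L A g → ∀ x ∈ C, g x ∈ C) : Dc L R o A j C := by
  refine ⟨def_of_fix hC.mon hA hB hD.1 ?_, hD.2⟩
  intro g hg x hx
  by_contra hgx
  have h1 : C ⊆ g '' C := by
    rcases ini_total hC hD.2 (ini_img hC hD.2 g) with h1 | h1
    · exact h1
    · exact absurd (h1 ⟨x, hx, rfl⟩) hgx
  have h2 : ∀ c ∈ C, g.symm c ∈ C := by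
    intro c hc
    obtain ⟨c', hc', h3⟩ := h1 hc
    rw [← h3, g.symm_apply_apply]
    exact hc'
  have h3 : ∀ (m : ℕ) (c : U), c ∈ C → (⇑g.symm)^[m] c ∈ C := by
    intro m
    induction m with
    | zero => exact fun c hc => hc
    | succ m ih =>
      intro c hc
      rw [Function.iterate_succ_apply]
      exact ih _ (h2 c hc)
  obtain ⟨E, hE, hEP⟩ := nx_fe hC.mon hA hB (P := fun v : Unit → U => ¬ v () ∈ C)
    (dp_not (dp_of_def1 hD.1)) (by
      intro g' hg' v hv hcon
      apply hv
      have h4 := h g'.symm (nx_symm hg') _ hcon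
      rw [g'.symm_apply_apply] at h4
      exact h4) (x := fun _ => g x) hgx
  obtain ⟨m, hm⟩ := ncm_pig hE (fx_symm hg) (g x)
  have h4 : ¬ (⇑g.symm)^[m + 1] (g x) ∈ C := hEP _ hm
  rw [Function.iterate_succ_apply, g.symm_apply_apply] at h4
  exact h4 (h3 m x hx)

/-- [B4] orbits of `Nx L A` are cofinal and coinitial in a cell -/
theorem nx_move {A : Set U} (hA : A.Finite) {j : κ} {x y z : U} (hz : Nd L A z)
    (hx : x ∈ cel L R o A j z) (hy : y ∈ cel L R o A j z) (b : Bool) :
    ∃ g : U ≃[L] U, Nx L A g ∧ lts R o b j x (g y) := by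
  by_cases H : ∀ E : (Unit → U) → (Unit → U) → Prop, FE L A E →
      ∃ v : Unit → U, E (fun _ => y) v ∧ lts R o b j x (v ())
  · -- saturation
    have hB : (insert x (insert y A)).Finite := (hA.insert y).insert x
    obtain ⟨v, hv⟩ := dp_sat (α := Unit) hC.mon hB
      (F := {P | ∃ E : (Unit → U) → (Unit → U) → Prop, FE L A E ∧
        P = fun v => E (fun _ => y) v ∧ lts R o b j x (v ())}) (by
        rintro _ ⟨E, hE, rfl⟩
        refine dp_and (dp_mono ?_ (fe_def hE (fun _ => y))) ?_
        · rintro u (hu | ⟨i, rfl⟩)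
          · exact mem_insert_of_mem _ (mem_insert_of_mem _ hu)
          · exact mem_insert_of_mem _ (mem_insert _ _)
        · have h1 := rel_def2 (lts_def hC b j) x (insert y A)
          exact dp_of_def1 h1)
      (by
        intro G hG hfin
        have key : ∃ E : (Unit → U) → (Unit → U) → Prop, FE L A E ∧
            ∀ v : Unit → U, E (fun _ => y) v → lts R o b j x (v ()) → ∀ P ∈ G, P v := by
          revert hG
          refine Set.Finite.induction_on G hfin ?_ ?_
          · intro _
            exact ⟨_, fe_top A, fun v _ _ P hP => absurd hP (Set.notMem_empty P)⟩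
          · intro P G' _ _ ih hG
            obtain ⟨E, hE, h1⟩ := ih ((subset_insert P G').trans hG)
            obtain ⟨E', hE', h2⟩ := hG (mem_insert P G')
            refine ⟨_, fe_inter hE hE', fun v hv hl Q hQ => ?_⟩
            rcases hQ with rfl | hQ
            · rw [h2]
              exact ⟨hv.2, hl⟩
            · exact h1 v hv.1 hl Q hQ
        obtain ⟨E, hE, h1⟩ := key
        obtain ⟨v, hv, hl⟩ := H E hE
        exact ⟨v, h1 v hv hl⟩)
    have hl : lts R o b j x (v ()) := (hv _ ⟨_, fe_top A, rfl⟩).2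
    have hs : Sq L A (fun _ : Unit => y) (fun _ => v ()) := fun E hE => (hv _ ⟨E, hE, rfl⟩).1
    obtain ⟨g, hg, hgy⟩ := nx_of_fe hC.mon hA hs
    refine ⟨g, hg, ?_⟩
    rw [hgy]
    exact hl
  · exfalso
    push Not at H
    obtain ⟨E, hE, hno⟩ := H
    set S₀ : Set U := {w | E (fun _ => y) (fun _ => w)} with hS₀
    have hyS : y ∈ S₀ := hE.eqv.refl _
    have hSd : (insert y A).Definable₁ L S₀ := by
      have h1 := def1_of_dp (fe_def hE (fun _ : Unit => y))
      refine def_mono ?_ h1
      rintro u (hu | ⟨i, rfl⟩)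
      · exact mem_insert_of_mem _ hu
      · exact mem_insert _ _
    have hSno : ∀ w ∈ S₀, ¬ lts R o b j x w := fun w hw => hno (fun _ => w) hw
    have hSinv : ∀ g : U ≃[L] U, Nx L A g → ∀ w ∈ S₀, g w ∈ S₀ := by
      intro g hg w hw
      have h1 : E (fun _ => w) (fun _ => g w) := nx_sq hg (fun _ : Unit => w) E hE
      exact hE.eqv.trans hw h1
    -- the cut below the class
    have h1 : (insert y A).Definable₁ L {v | ∃ w ∈ S₀, ¬ lts R o b j w v} :=
      rel_hull (lts_def hC b j) hSd
    have hy1 : y ∈ {v | ∃ w ∈ S₀, ¬ lts R o b j w v} := ⟨y, hyS, lts_irr hC b j y⟩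
    have hinv : ∀ g : U ≃[L] U, Nx L A g → ∀ v ∈ {v | ∃ w ∈ S₀, ¬ lts R o b j w v},
        g v ∈ {v | ∃ w ∈ S₀, ¬ lts R o b j w v} := by
      rintro g hg v ⟨w, hw, hwv⟩
      exact ⟨g w, hSinv g hg w hw, fun hcon => hwv ((lts_img hC b j w v g).1 hcon)⟩
    have hxy : x ∈ cel L R o A j y := by
      rw [cel_eq hy]
      exact hx
    have hx1 : ∃ w ∈ S₀, ¬ lts R o b j w x := by
      cases b
      · have h2 : Dc L R o (insert y A) j {v | ∃ w ∈ S₀, ¬ lts R o false j w v}ᶜ := by
          refine ⟨def_compl h1, ?_⟩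
          intro v hv v' hv' hcon
          obtain ⟨w, hw, hw'⟩ := hcon
          refine hv ⟨w, hw, ?_⟩
          intro h3
          apply hw'
          rw [lts_false] at h3 ⊢
          exact hC.tra j _ _ _ hv' h3
        have h3 := nx_cut hC hA (hA.insert y) h2 (by
          intro g hg v hv hcon
          apply hv
          have h4 := hinv g.symm (nx_symm hg) _ hcon
          rw [g.symm_apply_apply] at h4
          exact h4)
        by_contra hcon
        exact (hxy _ h3).1 hcon hy1
      · have h2 : Dc L R o (insert y A) j {v | ∃ w ∈ S₀, ¬ lts R o true j w v} := by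
          refine ⟨h1, ?_⟩
          rintro v ⟨w, hw, hw'⟩ v' hv'
          refine ⟨w, hw, ?_⟩
          intro h3
          apply hw'
          rw [lts_true] at h3 ⊢
          exact hC.tra j _ _ _ h3 hv'
        have h3 := nx_cut hC hA (hA.insert y) h2 hinv
        exact (hxy _ h3).2 hy1
    obtain ⟨w, hw, hwx⟩ := hx1
    have hwx' : w = x := by
      by_contra hne
      rcases lts_tot hC b j hne with h4 | h4
      · exact hwx h4
      · exact hSno w hw h4
    rw [hwx'] at hw
    -- `x` is the last point of the class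
    have hlast : ∀ g : U ≃[L] U, Fx L A g → ¬ lts R o b j x (g x) := by
      intro g hg hl
      obtain ⟨m, hm⟩ := ncm_pig hE hg x
      have h4 : ∀ n : ℕ, lts R o b j x ((⇑g)^[n + 1] x) := by
        intro n
        induction n with
        | zero => exact hl
        | succ n ih =>
          rw [Function.iterate_succ_apply']
          exact lts_trans hC b j hl ((lts_img hC b j _ _ g).2 ih)
      exact hSno _ (hE.eqv.trans hw hm) (h4 m)
    have hxd : A.Definable₁ L {x} := by
      have h0 : (insert x A).Definable₁ L {x} := by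
        have h1 : ({x} : Set U) = {v | ¬ R (o j) x v} ∩ {v | R (o j) v x}ᶜ := by
          ext v
          constructor
          · intro hv
            have : v = x := hv
            rw [this]
            exact ⟨hC.irr j x, hC.irr j x⟩
          · rintro ⟨h1, h2⟩
            by_contra hne
            rcases hC.tot j v x hne with h | h
            · exact h2 h
            · exact h1 h
        rw [h1]
        exact def_inter (le_dc hC j x A).1 (def_compl (lt_dc hC j x A).1)
      refine def_of_fix hC.mon hA (hA.insert x) h0 ?_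
      intro g hg v hv
      have hv' : v = x := hv
      rw [hv']
      by_contra hne
      have hne' : g x ≠ x := hne
      rcases lts_tot hC b j hne' with h4 | h4
      · refine hlast g.symm (fx_symm hg) ?_
        have h5 : lts R o b j (g x) (g (g.symm x)) := by
          rw [g.apply_symm_apply]
          exact h4
        exact (lts_img hC b j _ _ g).1 h5
      · exact hlast g hg h4
    exact nd_cel hC hz hx hxd

end cx

end Pool.Agent.MNO
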