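import Pool.Agent.MNO.NBA
import Pool.Agent.MNO.STG

/-!
MNO: base lemmas, second part, module NFE: definable properties of tuples invariant under `Nx L A`.
-/

set_option autoImplicit false
set_option linter.unusedVariables false
set_option linter.unusedSectionVars false

namespace Pool.Agent.MNO

open FirstOrder.Language Set
open scoped FirstOrder
open Pool.Agent.WOM (tp Mon IsEl IsoM CtU Fx Orb)
open Pool.Agent.PMC (Ini ct Dc cel Sin Nd Ct lts ext XS Ex Fa Ll LL Itv Sm Md NPf fx_refl fx_symm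
  fx_comp fx_mono comp_apply' def_img def_mono def_compl def_inter def_union def_mem def_fix
  def_of_fix conj_of_def exists_isd exists_fin_def isEl_of_orb mem_orb orb_meets sat_fam rel_fx
  rel_def1 rel_def2 rel_hull rel_swap def_close)

variable {L : FirstOrder.Language.{0, 0}} {U : Type} [L.Structure U] {κ : Type}
  {R : κ → U → U → Prop} {o : κ → κ}

section nfe

variable {α : Type}

/-- nonempty definable properties of tuples are satisfied in elementary submodels -/
private theorem nfe_el {M : Set U} (hM : IsEl L M) :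
    ∀ (n : ℕ) {P : (Fin n → U) → Prop}, Dp L M P → (∃ x, P x) → ∃ y, (∀ i, y i ∈ M) ∧ P y
  | 0, P, _, ⟨x, hx⟩ => ⟨x, fun i => i.elim0, hx⟩
  | n + 1, P, hP, ⟨x, hx⟩ => by
    have h1 : Dp L M (fun v : Fin n ⊕ Unit → U =>
        P (fun i => v (Fin.cases (motive := fun _ => Fin n ⊕ Unit) (Sum.inr ())
          (fun j => Sum.inl j) i))) :=
      dp_sub hP (fun i => Fin.cases (motive := fun _ => Fin n ⊕ Unit) (Sum.inr ())
        (fun j => Sum.inl j) i)
    have h2 := dp_ex (dp_sub h1 (Sum.swap : Fin n ⊕ Unit → Unit ⊕ Fin n))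
    obtain ⟨y, hy, hyM⟩ := hM _ (def1_of_dp h2) (by
      refine ⟨x 0, fun j => x j.succ, ?_⟩
      have e : (fun i : Fin (n + 1) => (Sum.elim (fun _ : Unit => x 0) (fun j : Fin n => x j.succ))
          (Sum.swap (Fin.cases (motive := fun _ => Fin n ⊕ Unit) (Sum.inr ())
            (fun j => Sum.inl j) i))) = x := by
        funext i
        refine Fin.cases rfl (fun j => rfl) i
      show P _
      rw [e]
      exact hx)
    obtain ⟨w, hw⟩ := hy
    have h3 := dp_par h1 (fun _ : Unit => y) (fun _ => hyM)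
    obtain ⟨z, hz, hzP⟩ := nfe_el hM n h3 ⟨w, by
      have e : (fun i : Fin (n + 1) => (Sum.elim w (fun _ : Unit => y))
          (Fin.cases (motive := fun _ => Fin n ⊕ Unit) (Sum.inr ()) (fun j => Sum.inl j) i)) =
          (fun i : Fin (n + 1) => (Sum.elim (fun _ : Unit => y) w)
            (Sum.swap (Fin.cases (motive := fun _ => Fin n ⊕ Unit) (Sum.inr ())
              (fun j => Sum.inl j) i))) := by
        funext i
        refine Fin.cases rfl (fun j => rfl) i
      rw [e]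
      exact hw⟩
    refine ⟨_, fun i => ?_, hzP⟩
    refine Fin.cases hyM (fun j => hz j) i

private theorem nfe_el' {M : Set U} (hM : IsEl L M) [Finite α] {P : (α → U) → Prop}
    (hP : Dp L M P) (h : ∃ x, P x) : ∃ y, (∀ i, y i ∈ M) ∧ P y := by
  obtain ⟨n, ⟨e⟩⟩ := Finite.exists_equiv_fin α
  obtain ⟨x, hx⟩ := h
  obtain ⟨y, hy, hyP⟩ := nfe_el hM n (dp_sub hP e) ⟨fun i => x (e.symm i), by
    have e1 : (fun i => x (e.symm (e i))) = x := by
      funext i
      rw [e.symm_apply_apply]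
    rw [e1]
    exact hx⟩
  exact ⟨_, fun i => hy _, hyP⟩

/-- definable properties invariant under `Nx L A` are, near each tuple where they hold, given by a
class of a finite equivalence relation -/
theorem nx_fe (hM : Mon L U) {A B : Set U} (hA : A.Finite) (hB : B.Finite) [Finite α]
    {P : (α → U) → Prop} (hP : Dp L B P)
    (h : ∀ g : U ≃[L] U, Nx L A g → ∀ x, P x → P (fun i => g (x i))) {x : α → U} (hx : P x) :
    ∃ E, FE L A E ∧ ∀ y, E x y → P y := by
  by_contra hcon
  push Not at hcon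
  have hF : ∀ Q ∈ ({Q : (α → U) → Prop | ∃ E, FE L A E ∧ Q = fun y => E x y} ∪
      {fun y => ¬ P y} : Set ((α → U) → Prop)), Dp L ((A ∪ range x) ∪ B) Q := by
    rintro t (⟨E, hE, rfl⟩ | ht)
    · exact dp_mono subset_union_left (fe_def hE x)
    · rw [mem_singleton_iff] at ht
      subst ht
      exact dp_not (dp_mono subset_union_right hP)
  obtain ⟨y, hy⟩ := dp_sat hM ((hA.union (finite_range x)).union hB) hF (by
    intro G hG hfin
    classical
    -- choose the equivalence relations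
    have h1 : ∀ Q : (α → U) → Prop, ∃ E, FE L A E ∧
        ((∃ E, FE L A E ∧ Q = fun y => E x y) → Q = fun y => E x y) := by
      intro Q
      by_cases hQ : ∃ E, FE L A E ∧ Q = fun y => E x y
      · obtain ⟨E, hE, hE'⟩ := hQ
        exact ⟨E, hE, fun _ => hE'⟩
      · exact ⟨_, fe_top A, fun h' => absurd h' hQ⟩
    choose e he he' using h1
    obtain ⟨E, hE, hE'⟩ := fe_inf (A := A) (G := e '' G) (hfin.image e) (by
      rintro _ ⟨t, _, rfl⟩
      exact he t)
    obtain ⟨y, hy, hys⟩ := hcon E hE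
    refine ⟨y, ?_⟩
    intro Q hQ
    rcases hG hQ with h2 | h2
    · rw [he' Q h2]
      exact hE' (e Q) ⟨Q, hQ, rfl⟩ x y hy
    · rw [mem_singleton_iff] at h2
      rw [h2]
      exact hys)
  obtain ⟨g, hg, hgx⟩ := nx_of_sq hM hA (x := x) (y := y)
    (fun E hE => hy (fun y => E x y) (Or.inl ⟨E, hE, rfl⟩))
  have h1 : ¬ P y := hy (fun y => ¬ P y) (Or.inr rfl)
  have h2 : P (fun i => g (x i)) := h g hg x hx
  rw [funext hgx] at h2
  exact h1 h2

/-- a maximal set of inequivalent tuples of `M` -/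
private theorem nfe_max {A M : Set U} {E : (α → U) → (α → U) → Prop} (hE : FE L A E) :
    ∃ t : Set (α → U), t.Finite ∧ (∀ x ∈ t, ∀ i, x i ∈ M) ∧
      ∀ y : α → U, (∀ i, y i ∈ M) → ∃ x ∈ t, E x y := by
  classical
  obtain ⟨s, hs, hs'⟩ := hE.fin
  have h1 : ∀ z : α → U, ∃ y : α → U, (∃ y : α → U, (∀ i, y i ∈ M) ∧ E z y) →
      ((∀ i, y i ∈ M) ∧ E z y) := by
    intro z
    by_cases hz : ∃ y : α → U, (∀ i, y i ∈ M) ∧ E z y
    · obtain ⟨y, hy, hy'⟩ := hz
      exact ⟨y, fun _ => ⟨hy, hy'⟩⟩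
    · exact ⟨z, fun h' => absurd h' hz⟩
  choose f hf using h1
  refine ⟨f '' {z | z ∈ s ∧ ∃ y : α → U, (∀ i, y i ∈ M) ∧ E z y},
    (hs.subset (fun z hz => hz.1)).image f, ?_, ?_⟩
  · rintro _ ⟨z, ⟨hz, hz'⟩, rfl⟩
    exact (hf z hz').1
  · intro y hy
    obtain ⟨z, hz, hyz⟩ := hs' y
    have hzy : E z y := hE.eqv.symm hyz
    refine ⟨f z, ⟨z, ⟨hz, y, hy, hzy⟩, rfl⟩, ?_⟩
    exact hE.eqv.trans (hE.eqv.symm (hf z ⟨y, hy, hzy⟩).2) hzy

/-- every class of an `A`-definable finite equivalence relation meets every elementary submodel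
which contains `A` -/
theorem fe_meets (hM : Mon L U) {A M : Set U} (hMd : Md L A M) [Finite α]
    {E : (α → U) → (α → U) → Prop} (hE : FE L A E) (x : α → U) :
    ∃ y : α → U, (∀ i, y i ∈ M) ∧ E x y := by
  obtain ⟨t, ht, htM, htE⟩ := nfe_max (M := M) hE
  have hdef : Dp L M (fun x : α → U => ∀ y ∈ t, ¬ E y x) := by
    refine dp_ball ht fun y hy => dp_not (dp_mono ?_ (fe_def hE y))
    rintro z (hz | ⟨i, rfl⟩)
    · exact hMd.2 hz
    · exact htM y hy i
  by_contra hcon
  push Not at hcon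
  obtain ⟨y, hyM, hy⟩ := nfe_el' hMd.1 hdef ⟨x, fun y hy hyx =>
    hcon y (htM y hy) (hE.eqv.symm hyx)⟩
  obtain ⟨z, hz, hzy⟩ := htE y hyM
  exact hy z hz hzy

/-- [B2] nonempty definable properties invariant under `Nx L A` are satisfied in every elementary
submodel which contains `A` -/
theorem nx_meets' (hM : Mon L U) {A B M : Set U} (hA : A.Finite) (hB : B.Finite) [Finite α]
    {P : (α → U) → Prop} (hP : Dp L B P)
    (h : ∀ g : U ≃[L] U, Nx L A g → ∀ x, P x → P (fun i => g (x i)))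
    (hMd : Md L A M) (hn : ∃ x, P x) : ∃ y : α → U, (∀ i, y i ∈ M) ∧ P y := by
  obtain ⟨x, hx⟩ := hn
  obtain ⟨E, hE, hE'⟩ := nx_fe hM hA hB hP h hx
  obtain ⟨y, hy, hxy⟩ := fe_meets hM hMd hE x
  exact ⟨y, hy, hE' y hxy⟩

/-- sets of elements -/
theorem nx_meets (hM : Mon L U) {A B s M : Set U} (hA : A.Finite) (hB : B.Finite)
    (hs : B.Definable₁ L s) (h : ∀ g : U ≃[L] U, Nx L A g → ∀ x ∈ s, g x ∈ s)
    (hMd : Md L A M) (hn : s.Nonempty) : ∃ y ∈ M, y ∈ s := by
  obtain ⟨x, hx⟩ := hn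
  have h1 : Dp L B (fun v : Unit → U => v () ∈ s) := dp_of_def1 hs
  obtain ⟨y, hy, hys⟩ := nx_meets' hM hA hB h1 (fun g hg v hv => h g hg _ hv) hMd
    ⟨fun _ => x, hx⟩
  exact ⟨y (), hy (), hys⟩

end nfe

end Pool.Agent.MNO
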