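import Pool.Agent.MNO.NBA
import Pool.Agent.MNO.STG
import Pool.Agent.MNO.NFE
import Pool.Agent.MNO.NCM

/-!
MNO: base lemmas, second part: strong types of tuples (`Sq`) and the automorphisms `Nx L A g`
(modules NBA, STG, NFE, NCM).
-/
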