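import Pool.Agent.MNO.StT
import Pool.Agent.PMC.StB

/-!
MNO: statements of sections 5 and 3 (F) of the paper proof (helper23), with proofs in the docstrings:
extreme pieces, good pieces.  The text follows `Pool/Agent/PMC` (helper58) and `Pool/Agent/GRK`.
Base lemmas: `Base.lean` (cells, cuts: `move`, `sat_cel`, `cel_eq_of_sin`, ..), `NBase.lean` (`Nx L A g`:
`nx_cut`, `nx_move`, `nx_of_sq`, `nx_meets`, ..), `LBase.lean` (links and pieces: `lk_symm`, `lk_trans`, `lk_cel`,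
`pc_iff`, `cls_anti`, `pc_anti`, `lk_anti`); develop against the stubs `MNO_NBase_stub.lean`, `MNO_LBase_stub.lean`.
`κ` has one element (`Cx.uni`), so all `j : κ` are equal; `j = o j`.
-/

set_option autoImplicit false
set_option linter.unusedVariables false

namespace Pool.Agent.MNO

open FirstOrder.Language Set
open scoped FirstOrder
open Pool.Agent.WOM (tp Mon IsEl IsoM CtU Fx Orb)
open Pool.Agent.PMC (Ini ct Dc cel Sin Nd Ct lts ext XS Ex Fa Ll LL Itv Sm Md NPf sd)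

/-! ### Gluing (consequences of PRD) -/

/-- [PRF] gluing of finitely many automorphisms on disjoint unions of pieces.
PROOF.  Induction on `n` with PRD (compose).  Copy `Pool/Agent/GRK/PRF.lean`. -/
def St_PRF : Prop :=
  ∀ (L : FirstOrder.Language.{0, 0}) (U : Type) [L.Structure U] (κ : Type) (R : κ → U → U → Prop)
    (o : κ → κ), Cx L R o → ∀ (A : Set U), A.Finite → ∀ (n : ℕ) (Q : Fin n → Set U),
    (∀ m, Cls L R o A (Q m)) → (∀ m m', m ≠ m' → Disjoint (Q m) (Q m')) →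
    ∀ g : Fin n → (U ≃[L] U), (∀ m, Nx L A (g m)) →
    ∃ h : U ≃[L] U, Nx L A h ∧ (∀ m, ∀ x ∈ Q m, h x = g m x) ∧ ∀ x, (∀ m, x ∉ Q m) → h x = x

/-- [UNP] an elementary submodel may be chosen for every piece.
PROOF.  Copy `Pool/Agent/GRK/UNP.lean`: `X = {z | z ∈ m z}`.  `isEl_of_orb` with the finite set `A`: let
`A ⊆ B ⊆ X`, `B` finite, `O = Orb B x` definable over `B`.  Let `P = Pc A x`.  If `x` is definable over `A` then
`x ∈ m x`, so `x ∈ X`.  Otherwise let `B' = A ∪ (B ∩ P)`; `O ⊆ P` (`cls_fx`).  For `g` in `Nx L B'` let `h` be `g` on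
`P`, identity elsewhere (PRD over `A`; `Nx L B' g` implies `Nx L A g`): `h` fixes `B`, so `g` maps `O` into `O`.
`B' ⊆ m x`, so `nx_meets` (over `B'`, `s = O`, `M = m x`) gives `y ∈ m x ∩ O ⊆ P`, and `m y = m x`, `y ∈ X`. -/
def St_UNP : Prop :=
  ∀ (L : FirstOrder.Language.{0, 0}) (U : Type) [L.Structure U] (κ : Type) (R : κ → U → U → Prop)
    (o : κ → κ), Cx L R o → ∀ (A : Set U), A.Finite →
    ∀ m : U → Set U, (∀ z, Md L A (m z)) →
    (∀ z, ∀ y ∈ Pc L R o A z, m y = m z) → Md L A {z | z ∈ m z}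

/-- [SMB] calculus of `SmN`.
PROOF.  Copy `Pool/Agent/GRK/SMB.lean`. -/
def St_SMB : Prop :=
  ∀ (L : FirstOrder.Language.{0, 0}) (U : Type) [L.Structure U] (κ : Type) (R : κ → U → U → Prop)
    (o : κ → κ), Cx L R o →
    (∀ A X : Set U, SmN L A X X) ∧
    (∀ A X Y : Set U, SmN L A X Y → SmN L A Y X) ∧
    (∀ A X Y Z : Set U, SmN L A X Y → SmN L A Y Z → SmN L A X Z) ∧
    (∀ A X Y Q : Set U, (∀ g : U ≃[L] U, Nx L A g → ∀ x, g x ∈ Q ↔ x ∈ Q) → SmN L A X Y →
      SmN L A (X ∩ Q) (Y ∩ Q)) ∧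
    (∀ A M M' Q : Set U, A.Finite → Cls L R o A Q →
      (∀ z ∈ Q, SmN L A (M ∩ Pc L R o A z) (M' ∩ Pc L R o A z)) →
      SmN L A (M ∩ Q) (M' ∩ Q)) ∧
    (∀ A M M' : Set U, SmN L A M M' → IsoM L M M') ∧
    (∀ A B X Y : Set U, A ⊆ B → SmN L B X Y → SmN L A X Y) ∧
    (∀ A X Y : Set U, SmN L A X Y → Sm L A X Y)

/-! ### Extreme pieces -/

/-- [EXB] extreme cells.  `K = cel A j z`, `z` not definable over `A`.
PROOF.  Copy `Pool/Agent/GRK/EXB.lean`. -/
def St_EXB : Prop :=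
  ∀ (L : FirstOrder.Language.{0, 0}) (U : Type) [L.Structure U] (κ : Type) (R : κ → U → U → Prop)
    (o : κ → κ), Cx L R o → ∀ (A B : Set U) (j : κ) (z : U) (b : Bool),
    A ⊆ B → B.Finite → Nd L A z →
    (ext L R o b B j (cel L R o A j z)).Nonempty ∧
    (∀ v ∈ ext L R o b B j (cel L R o A j z),
      cel L R o B j v = ext L R o b B j (cel L R o A j z)) ∧
    (∀ v ∈ ext L R o b B j (cel L R o A j z), Nd L B v) ∧
    (∀ p ∈ cel L R o A j z, ∃ v ∈ ext L R o b B j (cel L R o A j z), lts R o b j p v) ∧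
    (∀ v ∈ ext L R o b B j (cel L R o A j z), ∀ p ∈ cel L R o A j z,
      ∃ g : U ≃[L] U, Nx L B g ∧ lts R o b j p (g v)) ∧
    (∀ v ∈ ext L R o b B j (cel L R o A j z), ∀ p ∈ cel L R o A j z, lts R o b j v p →
      p ∈ ext L R o b B j (cel L R o A j z)) ∧
    (Ct L R o B j (cel L R o A j z) → ∀ v ∈ ext L R o b B j (cel L R o A j z),
      v ∉ ext L R o (!b) B j (cel L R o A j z))

/-- [AG] a set which contains a point of a piece cuts all its cells.
PROOF.  `pc_iff`: `Lk A w z`, `dc_mono`. -/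
def St_AG : Prop :=
  ∀ (L : FirstOrder.Language.{0, 0}) (U : Type) [L.Structure U] (κ : Type) (R : κ → U → U → Prop)
    (o : κ → κ), Cx L R o → ∀ (A B : Set U) (w z : U), A ⊆ B → B.Finite →
    w ∈ B → Nd L A w → z ∈ Pc L R o A w → ∀ j, Ct L R o B j (cel L R o A j z)

/-- [AV] (A5) extreme points are not linked with inner points.
PROOF.  `K = cel A j u`, `K' = cel B j u = ext b B j K` (EXB (2)), `J = cel A j z`, `J' = cel B j z`.  As `z` is in no
`ext b' B j J` there are `B`-definable cuts `C1`, `C2` strictly inside `J` with `z ∉ C1`, `z ∈ C2`, and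
`c ∈ J ∩ C1`, `c' ∈ J \ C2`: all points of `J'` (and all `s z`, `s` over `B`) are between `c` and `c'`.
Suppose `Lk B u z`; `lk_symm`: an `insert z B`-definable cut `C` is strictly inside `K'` (`hC.uni`).  Let
`B = range e`, `e : Fin n → U`; `C = T (e, z)` for a family `T` of initial segments, definable over `∅` in
`n + 1` variables (`Kit2`: `cuf`, `dp_fam`).
Let `k` be arbitrary; we construct an exact array of size `k`.  `move` in `J`: `g_0, .., g_(k-1)` over `A` with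
`R (o j) (g_l c') (g_(l+1) c)`.  For every `l` and every `p ∈ K` there is `s` over `B` such that `p` is on the inner
side of the cut `g_l '' (s '' C)` (take a point `y0 ∈ K'` on the outer side w.r.t. `C` -- for `b = true`: `y0 ∈ C`
-- and `s` with `s y0` beyond `g_l⁻¹ p` in the direction `b`, EXB (5) for `y0 ∈ ext b B j K`; `g_l '' K = K`), and
some point of `K` is on its outer side.  So choose recursively `y_0, y_1, .., y_k ∈ K` (each beyond the last one
in the direction `b`) and `s_(l,m)` over `B` such that `g_l '' (s_(l,m) '' C)` separates `y_m` and `y_(m+1)`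
(`y_m` on the inner side for all `l`, then `y_(m+1)` on the outer side for all `l`).
Rows `x_l = (g_l ∘ e, g_l c, g_l c')`, columns `(y_m, y_(m+1))`, codes `v_(l,m) = g_l (s_(l,m) z)`:
`P (x, y, v)` = `v` is strictly between the last two entries of `x`, and exactly one of the two entries of `y`
is in `T (x, v)`.  It is an exact array: `v_(l,m)` is between `g_l c` and `g_l c'`, these intervals are disjoint;
`T (g_l ∘ e, v_(l,m)) = g_l '' (s_(l,m) '' C)` (`s` fixes `e`) is an initial segment which separates `y_m`, `y_(m+1)`,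
so it does not separate `y_m'`, `y_(m'+1)`, `m' ≠ m`.  Contradiction to `hC.cod` (`cod'`). -/
def St_AV : Prop :=
  ∀ (L : FirstOrder.Language.{0, 0}) (U : Type) [L.Structure U] (κ : Type) (R : κ → U → U → Prop)
    (o : κ → κ), Cx L R o → ∀ (A B : Set U) (j : κ) (u z : U) (b : Bool),
    A ⊆ B → B.Finite → Nd L A u → Nd L A z → u ∈ ext L R o b B j (cel L R o A j u) →
    (∀ b', z ∉ ext L R o b' B j (cel L R o A j z)) → ¬ Lk L R o B u z

/-- [AVP] (A5') an extreme cell of `K` is linked with an extreme cell of `L` if `K`, `L` are linked.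
PROOF.  `v ∈ K = cel A j x`; `Lk A v y` (`lk_cel`): an `insert v A`-definable cut `C` is strictly inside
`L = cel A j y`; `c ∈ L ∩ C`, `c' ∈ L \ C`.  (i) Suppose that `C` is strictly inside no cell over `B`.  For `s` in
`Nx B`: `s '' C = C` (if `p ∈ C`, `s p ∉ C` or conversely then `C` is strictly inside `cel B j p`, `fx_cel`).  So
`c ∈ s '' C`, `c' ∉ s '' C` for all `s`, and the points `s v` are cofinal in `K` in the direction `b` (EXB (5)):
contradiction to BDD (`StT.lean`; `C = T v` for a family `T` of initial segments, definable over `A`: `cuf1`;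
`s '' C = T (s v)`).  (ii) So `C` is strictly inside `cel B j p`, `p ∈ L` (`C` is strictly inside `L` and
`cel B j p`; `cel_eq_of_sin` over `A`), and `Lk B v p`.  `p ∈ ext b' B j L` for some `b'`: otherwise AV (`u := v`,
`z := p`; `ext b B j (cel A j v) = ext b B j K`).  `w := p`. -/
def St_AVP : Prop :=
  ∀ (L : FirstOrder.Language.{0, 0}) (U : Type) [L.Structure U] (κ : Type) (R : κ → U → U → Prop)
    (o : κ → κ), Cx L R o → ∀ (A B : Set U) (j : κ) (x y : U) (b : Bool),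
    A ⊆ B → B.Finite → Lk L R o A x y → ∀ v ∈ ext L R o b B j (cel L R o A j x),
    ∃ b', ∃ w ∈ ext L R o b' B j (cel L R o A j y), Lk L R o B v w

/-- [XSP] extreme points form a union of pieces.
PROOF.  Copy `Pool/Agent/GRK/XSP.lean`. -/
def St_XSP : Prop :=
  ∀ (L : FirstOrder.Language.{0, 0}) (U : Type) [L.Structure U] (κ : Type) (R : κ → U → U → Prop)
    (o : κ → κ), Cx L R o → ∀ (A B : Set U), A ⊆ B → B.Finite →
    (∀ z j b, Nd L A z → z ∈ ext L R o b B j (cel L R o A j z) → z ∈ XS L R o A B) ∧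
    Cls L R o B (XS L R o A B)

/-- [TWO] there are at most two extreme pieces inside a piece, and they meet all cells.
PROOF.  Copy `Pool/Agent/GRK/TWO.lean`. -/
def St_TWO : Prop :=
  ∀ (L : FirstOrder.Language.{0, 0}) (U : Type) [L.Structure U] (κ : Type) (R : κ → U → U → Prop)
    (o : κ → κ), Cx L R o → ∀ (A B : Set U) (x y1 y2 : U) (j0 : κ),
    A ⊆ B → B.Finite → Nd L A x → y1 ∈ ext L R o true B j0 (cel L R o A j0 x) →
    y2 ∈ ext L R o false B j0 (cel L R o A j0 x) →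
    (∀ z ∈ Pc L R o A x, z ∈ XS L R o A B →
      z ∈ Pc L R o B y1 ∨ z ∈ Pc L R o B y2) ∧
    (∀ z ∈ Pc L R o A x, z ∈ XS L R o A B → ∀ y ∈ Pc L R o A x, ∀ j,
      ∃ v ∈ Pc L R o B z, v ∈ cel L R o A j y ∧ v ∈ XS L R o A B)

/-- [MKO] (A6) extreme pieces are good, with the orientation outwards.
PROOF.  `B = insert x A`, `E = Pc B z0 ⊆ Pc A x` (`pc_anti`, `pc_eq`), `E ⊆ XS A B` (XSP).  By AG all cells
`cel A j z`, `z ∈ E`, are cut by `B`, so (EXB (7)) for `z ∈ E` there is exactly one `b` with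
`z ∈ ext b B j (cel A j z)`: let `sg j z` be this `b`; `cel B j z = ext (sg j z) B j (cel A j z)`.  `fin`, `ne`, `clo`
(`cls_pc`) clear; `nd`: EXB (3); `cut`: AG over `B` (`w ∈ E` is not definable over `B`, `E = Pc B w`); `cst`: by
`cel B j z = ext ..` and `hC.uni` (see `Pool/Agent/GRK/MKO.lean`).
`god`: let `B ⊆ B'`, `w ∈ B' ∩ E`, `x1, y1 ∈ E`, `x1 ∈ ext (!sg (o j) x1) B' j (cel B j x1)`,
`y1 ∈ ext (sg (o j) y1) B' j (cel B j y1)`.  Write `s`, `t` for `sg (o j) x1`, `sg (o j) y1`.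
(i) `y1 ∈ ext t B' j (cel A j y1)`: let `C` be a `B'`-definable cut strictly inside `cel A j y1`.  If it is strictly
inside `cel B j y1`: clear.  Otherwise `cel B j y1 = ext t B j (cel A j y1)` is on one side of `C`, and there is a
point `p` of `cel A j y1` on the `t`-side of `C`, and a point of `cel B j y1` beyond `p` (EXB (4)), so
`cel B j y1` is on the `t`-side.  (ii) `x1 ∉ ext b' B' j (cel A j x1)` for both `b'`: `b' = s`: by AG over `B` a
`B'`-definable cut is strictly inside `cel B j x1`, and `x1` is on its `!s`-side; `b' = !s`: by AG a `B`-definable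
cut is strictly inside `cel A j x1`, and `x1 ∈ ext s B j (cel A j x1)` is on its `s`-side.
AV for `A`, `B'`, `u := y1`, `z := x1`: not `Lk B' y1 x1`; `lk_symm`. -/
def St_MKO : Prop :=
  ∀ (L : FirstOrder.Language.{0, 0}) (U : Type) [L.Structure U] (κ : Type) (R : κ → U → U → Prop)
    (o : κ → κ), Cx L R o → ∀ (A : Set U) (x z0 : U), A.Finite →
    Nd L A x → z0 ∈ Pc L R o A x → z0 ∈ XS L R o A (insert x A) →
    ∃ sg : κ → U → Bool, Ori L R o (insert x A) (Pc L R o (insert x A) z0) sg ∧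
      (∀ z ∈ Pc L R o (insert x A) z0, ∀ j,
        z ∈ ext L R o (sg (o j) z) (insert x A) j (cel L R o A j z)) ∧
      Pc L R o (insert x A) z0 ⊆ Pc L R o A x

/-! ### Good pieces
`w << z` is `Ll A sg w z` (= `Fa A sg true w z`: `z` is beyond `w` outwards).  `LL D V`: `d << v` for all
`d ∈ D`, `v ∈ V`.  In the cell `K = cel A j z` with `s = sg (o j) z` we say that `y ∈ K` is on the
`b`-SIDE of the cut `C` if `y ∈ C ↔ s ≠ b` (`b = true`: outwards); `y` is `b`-BEYOND `x` if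
`lts (sd b s) j x y`.  If `y` is on the `b`-side of a cut and `x` is not then `y` is `b`-beyond `x`; if
`x` is on the `b`-side and `y` is `b`-beyond `x` then `y` is on the `b`-side.
`Ex b w j z`: `z` is on the `b`-side of all `insert w A`-definable cuts strictly inside `cel A j z`. -/

/-- [FAI] basic facts on good pieces.
PROOF.  (1) clear from the definitions (`sg ≠ b ↔ !sg ≠ !b`); `god` for the reversed orientation: `lk_symm`.
(2) `hC.uni`.  (3) `cls_fx`; `g` maps `insert w A`-definable cuts to `insert (g w) A`-definable cuts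
(`dc_img`), cells over `A` to themselves, `sg` is constant on cells; apply this to `g` and `g⁻¹`.  (4), (5): for
`w, z ∈ E` the set `{v ∈ cel A j z | Fa b w v}` is `ext (sd b (sg (o j) z)) (insert w A) j (cel A j z)`
((2), `cst`): EXB (1), (2), (3).  (6) EXB (7) and `cut`.  (7) EXB (6).  (8) EXB (5).  Model:
`Pool/Agent/PMC/FAI.lean`. -/
def St_FAI : Prop :=
  ∀ (L : FirstOrder.Language.{0, 0}) (U : Type) [L.Structure U] (κ : Type) (R : κ → U → U → Prop)
    (o : κ → κ), Cx L R o → ∀ (A E : Set U) (sg : κ → U → Bool), Ori L R o A E sg →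
    (Ori L R o A E (fun j z => !sg j z) ∧
      ∀ b w j z, Ex L R o A (fun j z => !sg j z) b w j z ↔ Ex L R o A sg (!b) w j z) ∧
    (∀ w ∈ E, ∀ z ∈ E, ∀ b i, Ex L R o A sg b w i z → Fa L R o A sg b w z) ∧
    (∀ g : U ≃[L] U, Fx L A g → (∀ x, g x ∈ E ↔ x ∈ E) ∧
      ∀ w ∈ E, ∀ z ∈ E, ∀ b, (Fa L R o A sg b (g w) (g z) ↔ Fa L R o A sg b w z)) ∧
    (∀ w ∈ E, ∀ z ∈ E, ∀ j b, ∃ v ∈ cel L R o A j z, Fa L R o A sg b w v) ∧
    (∀ w ∈ E, ∀ z ∈ E, ∀ j b, ∀ v ∈ cel L R o A j z, Fa L R o A sg b w v →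
      Nd L (insert w A) v ∧
        cel L R o (insert w A) j v = {y | y ∈ cel L R o A j z ∧ Fa L R o A sg b w y}) ∧
    (∀ w ∈ E, ∀ z ∈ E, ∀ b, Fa L R o A sg b w z → ¬ Fa L R o A sg (!b) w z) ∧
    (∀ w ∈ E, ∀ z ∈ E, ∀ j b, ∀ y ∈ cel L R o A j z, Fa L R o A sg b w z →
      lts R o (sd b (sg (o j) z)) j z y → Fa L R o A sg b w y) ∧
    (∀ w ∈ E, ∀ z ∈ E, ∀ j b, ∀ p ∈ cel L R o A j z, Fa L R o A sg b w z →
      ∃ g : U ≃[L] U, Nx L (insert w A) g ∧ lts R o (sd b (sg (o j) z)) j p (g z))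

/-- [GLC] (CONS) the points of a good piece beyond `w` form a union of pieces over `insert w A`.
PROOF.  `B = insert w A`.  Let `Lk B u z`.  `u ∈ E ↔ z ∈ E` (`cls_anti`, `clo`).  Let `u, z ∈ E`; by symmetry
(`lk_symm`) it is enough to refute `Fa b w z` and not `Fa b w u`.  By (FAI (2), `cst`, `hC.uni`) `Fa b' w v` iff
`v ∈ ext (sd b' (sg (o j) v)) B j (cel A j v)`, `v ∈ E`.  So `z ∈ ext (sd b (sg (o j) z)) B j (cel A j z)`.  If also not
`Fa (!b) w u` then `u` is in no `ext b' B j (cel A j u)`, and AV (`u := z`, `z := u`) gives not `Lk B z u`, `lk_symm`.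
If `Fa (!b) w u` then `god` for the finite set `B` (`w ∈ B ∩ E`) gives not `Lk B` (for `b = true`: `x := u`,
`y := z`; for `b = false`: `x := z`, `y := u`): contradiction (`lk_symm`). -/
def St_GLC : Prop :=
  ∀ (L : FirstOrder.Language.{0, 0}) (U : Type) [L.Structure U] (κ : Type) (R : κ → U → U → Prop)
    (o : κ → κ), Cx L R o → ∀ (A E : Set U) (sg : κ → U → Bool), Ori L R o A E sg →
    ∀ w ∈ E, ∀ b : Bool, Cls L R o (insert w A) {z | z ∈ E ∧ Fa L R o A sg b w z}

/-- [GLE] gluing over one point.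
PROOF.  GLC and PRD over `insert w A`. -/
def St_GLE : Prop :=
  ∀ (L : FirstOrder.Language.{0, 0}) (U : Type) [L.Structure U] (κ : Type) (R : κ → U → U → Prop)
    (o : κ → κ), Cx L R o → ∀ (A E : Set U) (sg : κ → U → Bool), Ori L R o A E sg →
    ∀ w ∈ E, ∀ (b : Bool) (g : U ≃[L] U), Nx L (insert w A) g →
    ∃ h : U ≃[L] U, Nx L (insert w A) h ∧ (∀ z ∈ E, Fa L R o A sg b w z → h z = g z) ∧
      ∀ z, ¬ (z ∈ E ∧ Fa L R o A sg b w z) → h z = z

/-- [GPR] cuts of points beyond `w` which are not cuts of the region beyond `w` are definable over `w`.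
PROOF.  `nx_cut` for the sets `insert w A` and `A ∪ D`.  Let `g` be in `Nx (insert w A)`, `h` from GLE.
`h` and `g` agree on `A ∪ D` (`D ⊆ {z ∈ E | Fa b w z}`; on `A` both are the identity), so
`h⁻¹ ∘ g` fixes `A ∪ D`, hence `C`, so `g '' C = h '' C`.  Claim `h '' C = C`.  Let `K = cel A j z ⊆ E`
(`cel_sub_pc`, `pc_sub`), `K^b = {y ∈ K | Fa b w y}`.  `h` maps `K^b` onto itself and fixes the other points
of `K`; `C ∩ K^b` is empty or `K^b`; so `h` preserves `C ∩ K`.  Points below `K` are in `C`, points above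
`K` are not, and `h` preserves the set of the points below `K` (`fx_mem_cel`).  (The PMC version of this module is in preparation by its prover.) -/
def St_GPR : Prop :=
  ∀ (L : FirstOrder.Language.{0, 0}) (U : Type) [L.Structure U] (κ : Type) (R : κ → U → U → Prop)
    (o : κ → κ), Cx L R o → ∀ (A E : Set U) (sg : κ → U → Bool), Ori L R o A E sg →
    ∀ w ∈ E, ∀ (b : Bool) (D : Set U), D.Finite → D ⊆ E → (∀ d ∈ D, Fa L R o A sg b w d) →
    ∀ z ∈ E, ∀ (j : κ) (C : Set U), Dc L R o (A ∪ D) j C → Sin C (cel L R o A j z) →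
    ¬ Sin C {y | y ∈ cel L R o A j z ∧ Fa L R o A sg b w y} → Dc L R o (insert w A) j C

/-- [FTW] (F2) cuts of `u` and `w` if `u` is `b`-beyond `w`: the cut of `u` is strictly `b`-beyond.
PROOF.  As in `Pool/Agent/PMC/FTW.lean`.  `K = cel A j z`, `K^b = {y ∈ K | Fa b w y}`.  Suppose there is no such
`y`.  Every `y ∈ K^b` is on the `b`-side of `C'`, so it is not on the `!b`-side of `C`, so it is on the `b`-side
of `C`.  So `C` is not strictly inside `K^b`, and GPR (`D = {u}`) gives `Dc (insert w A) j C`.  Take `v0 ∈ K` with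
`Fa !b w v0` (FAI (4)), `y0 ∈ K` on the `b`-side of `C`, and (`move`) `t` over `A` with `t y0` `!b`-beyond `v0`; so
`v0` is on the `b`-side of `t '' C`.  `t '' C` is definable over `insert (t u) A` and over `insert (t w) A`, and
`Fa b (t w) (t u)` (FAI (3)).  With any `i`: `p ∈ cel A i (t u)` with `Fa b w p` (FAI (4)), and `r` over
`insert (t w) A` with `r (t u)` `b`-beyond `p` (FAI (8)), so `Fa b w (r (t u))` (FAI (7)).  `r '' (t '' C) =
t '' C`, so `t '' C` is definable over `insert (r (t u)) A`.  Points of `K^b` are `b`-beyond `v0` (FAI (6),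
(7)), so on the `b`-side of `t '' C`; so `t '' C` is not strictly inside `K^b` and GPR (`D = {r (t u)}`)
gives `Dc (insert w A) j (t '' C)`.  It is strictly inside `K` (`sin_img`), so `v0` is on its `!b`-side:
contradiction. -/
def St_FTW : Prop :=
  ∀ (L : FirstOrder.Language.{0, 0}) (U : Type) [L.Structure U] (κ : Type) (R : κ → U → U → Prop)
    (o : κ → κ), Cx L R o → ∀ (A E : Set U) (sg : κ → U → Bool), Ori L R o A E sg →
    ∀ w ∈ E, ∀ u ∈ E, ∀ b, Fa L R o A sg b w u → ∀ z ∈ E, ∀ (j : κ) (C C' : Set U),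
    Dc L R o (insert u A) j C → Dc L R o (insert w A) j C' → Sin C (cel L R o A j z) →
    Sin C' (cel L R o A j z) → ∃ y ∈ cel L R o A j z,
      (y ∈ C ↔ sg (o j) z ≠ (!b)) ∧ (y ∈ C' ↔ sg (o j) z ≠ b)

/-- [ORD] (F3) the weak order.
PROOF.  Copy `Pool/Agent/PMC/ORD.lean` (it uses FAI, FTW and base lemmas). -/
def St_ORD : Prop :=
  ∀ (L : FirstOrder.Language.{0, 0}) (U : Type) [L.Structure U] (κ : Type) (R : κ → U → U → Prop)
    (o : κ → κ), Cx L R o → ∀ (A E : Set U) (sg : κ → U → Bool), Ori L R o A E sg →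
    (∀ w ∈ E, ∀ u ∈ E, ∀ b, (Fa L R o A sg b w u ↔ Fa L R o A sg (!b) u w)) ∧
    (∀ w ∈ E, ∀ b, ¬ Fa L R o A sg b w w) ∧
    (∀ u ∈ E, ∀ w ∈ E, Ll L R o A sg u w → ∀ v ∈ E, Ll L R o A sg u v ∨ Ll L R o A sg v w) ∧
    (∀ u ∈ E, ∀ v ∈ E, ∀ w ∈ E, Ll L R o A sg u v → Ll L R o A sg v w → Ll L R o A sg u w) ∧
    (∀ z ∈ E, ∀ j, ∀ y ∈ cel L R o A j z, ∀ y' ∈ cel L R o A j z,
      lts R o (sg (o j) z) j y y' → ∀ w ∈ E, (Ll L R o A sg w y → Ll L R o A sg w y') ∧
        (Ll L R o A sg y' w → Ll L R o A sg y w)) ∧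
    (∀ z ∈ E, ∀ j, ∀ y ∈ cel L R o A j z, ∀ y' ∈ cel L R o A j z,
      Ll L R o A sg y y' → lts R o (sg (o j) z) j y y')

/-- [BTW] points between finite sets.
PROOF.  Copy `Pool/Agent/PMC/BTW.lean` (FAI, FTW, ORD). -/
def St_BTW : Prop :=
  ∀ (L : FirstOrder.Language.{0, 0}) (U : Type) [L.Structure U] (κ : Type) (R : κ → U → U → Prop)
    (o : κ → κ), Cx L R o → ∀ (A E : Set U) (sg : κ → U → Bool), Ori L R o A E sg →
    ∀ (D V : Set U), D.Finite → V.Finite → D ⊆ E → V ⊆ E → LL L R o A sg D V → ∀ z ∈ E, ∀ j,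
    ∃ p ∈ cel L R o A j z, LL L R o A sg D {p} ∧ LL L R o A sg {p} V

/-- [TUP] cuts of finite sets.
PROOF.  Copy `Pool/Agent/PMC/TUP.lean` (FAI, GPR, ORD, BTW). -/
def St_TUP : Prop :=
  ∀ (L : FirstOrder.Language.{0, 0}) (U : Type) [L.Structure U] (κ : Type) (R : κ → U → U → Prop)
    (o : κ → κ), Cx L R o → ∀ (A E : Set U) (sg : κ → U → Bool), Ori L R o A E sg →
    ∀ (D : Set U), D.Finite → D ⊆ E → ∀ z ∈ E, ∀ (j : κ) (C : Set U), Dc L R o (A ∪ D) j C →
    Sin C (cel L R o A j z) → ∀ v ∈ cel L R o A j z, ∀ b, (∀ d ∈ D, Fa L R o A sg b v d) →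
    (v ∈ C ↔ sg (o j) z ≠ (!b))

/-- [MVT] moving finite sets.
PROOF.  As in `Pool/Agent/PMC/MVT.lean`, with `nx_move` over `A ∪ D` in place of `move`. -/
def St_MVT : Prop :=
  ∀ (L : FirstOrder.Language.{0, 0}) (U : Type) [L.Structure U] (κ : Type) (R : κ → U → U → Prop)
    (o : κ → κ), Cx L R o → ∀ (A E : Set U) (sg : κ → U → Bool), Ori L R o A E sg →
    ∀ (D V Z : Set U), D.Finite → V.Finite → Z.Finite → D ⊆ E → V ⊆ E → Z ⊆ E →
    LL L R o A sg D V →
    (LL L R o A sg D Z → ∃ g : U ≃[L] U, Nx L (A ∪ D) g ∧ LL L R o A sg D (g '' Z) ∧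
      LL L R o A sg (g '' Z) V) ∧
    (LL L R o A sg Z V → ∃ g : U ≃[L] U, Nx L (A ∪ V) g ∧ LL L R o A sg D (g '' Z) ∧
      LL L R o A sg (g '' Z) V)

/-- [ORS] (O) orthogonality over one point.
PROOF.  Let `g` be in `Nx A` with `Fa b v x`, `Fa b v (g x)` for `x ∈ S`.  `S = ∅`: identity.  `S = range u`,
`u : Fin n → U` (`exists_enum`), `u' = g ∘ u`, `Sq A u u'` (`Nx`).  GLM (`StT.lean`) with `α := Fin n`, `z := v`,
`K = cel A j v`, direction `b' = sd (!b) (sg (o j) v)`.  For a finite nonempty set `D ⊆ E` and `y ∈ K`: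
`y ∈ ext b' (A ∪ D) j K` iff `Fa b y d` for all `d ∈ D`: (→) a cut definable over `insert d A` is definable over
`A ∪ D`, so `Ex (!b) d j y`, FAI (2), ORD (1); (←) TUP.  So the hypothesis of GLM holds (`E` is invariant under
automorphisms over `A`, FAI (3); `D = range (u i)`, `D = ⋃ i, range (u i)`), and `Sq (insert v A) u u'`;
`nx_of_sq` gives `h`. -/
def St_ORS : Prop :=
  ∀ (L : FirstOrder.Language.{0, 0}) (U : Type) [L.Structure U] (κ : Type) (R : κ → U → U → Prop)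
    (o : κ → κ), Cx L R o → ∀ (A E : Set U) (sg : κ → U → Bool), Ori L R o A E sg →
    ∀ (S : Set U) (v : U) (b : Bool), S.Finite → S ⊆ E → v ∈ E →
    (∀ x ∈ S, Fa L R o A sg b v x) → ∀ g : U ≃[L] U, Nx L A g →
    (∀ x ∈ S, Fa L R o A sg b v (g x)) →
    ∃ h : U ≃[L] U, Nx L (insert v A) h ∧ ∀ x ∈ S, h x = g x

/-- [ORT] orthogonality.
PROOF.  (1) `W = ∅`: `h = g`.  Otherwise let `w1 ∈ W` be minimal: no `w ∈ W` has `w << w1` (finite set, strict
order: ORD (2), (4)).  `Fa false w1 x` and `Fa false w1 (g x)` for `x ∈ S` (ORD (1)): ORS: `h1` in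
`Nx (insert w1 A)` with `h1 = g` on `S`.  GLE for `w1`, `b = false`, `h1`: `h` in `Nx (insert w1 A)` with `h = h1` on
the points `z ∈ E` with `Fa false w1 z`, so on `S`; all other points are fixed, in particular all `w ∈ W`
(not `w << w1`, ORD (1)).  `nx_mono`.
(2) (1) for the reversed orientation (FAI (1), ORD (1)).
(3) (1) with `S := M`, `W := V`: `h1` in `Nx A` which fixes `V`, `h1 = g` on `M`.  (2) with `W := D`,
`S := M ∪ V`, `g := h1` (`h1` fixes `V`): `h` in `Nx A` which fixes `D`, `h = h1` on `M ∪ V`.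
(4) MVT (1) with `D := ∅`: `g1` in `Nx A` with `LL (g1 '' Z) V`; MVT (2) with `Z := g1 '' Z`: `g2`. -/
def St_ORT : Prop :=
  ∀ (L : FirstOrder.Language.{0, 0}) (U : Type) [L.Structure U] (κ : Type) (R : κ → U → U → Prop)
    (o : κ → κ), Cx L R o → ∀ (A E : Set U) (sg : κ → U → Bool), Ori L R o A E sg →
    (∀ (S W : Set U), S.Finite → W.Finite → S ⊆ E → W ⊆ E → LL L R o A sg S W →
      ∀ g : U ≃[L] U, Nx L A g → LL L R o A sg (g '' S) W →
      ∃ h : U ≃[L] U, Nx L A h ∧ (∀ w ∈ W, h w = w) ∧ ∀ b ∈ S, h b = g b) ∧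
    (∀ (S W : Set U), S.Finite → W.Finite → S ⊆ E → W ⊆ E → LL L R o A sg W S →
      ∀ g : U ≃[L] U, Nx L A g → LL L R o A sg W (g '' S) →
      ∃ h : U ≃[L] U, Nx L A h ∧ (∀ w ∈ W, h w = w) ∧ ∀ b ∈ S, h b = g b) ∧
    (∀ (D M V : Set U), D.Finite → M.Finite → V.Finite → D ⊆ E → M ⊆ E → V ⊆ E →
      LL L R o A sg D V → LL L R o A sg D M → LL L R o A sg M V →
      ∀ g : U ≃[L] U, Nx L A g → LL L R o A sg D (g '' M) → LL L R o A sg (g '' M) V →
      ∃ h : U ≃[L] U, Nx L A h ∧ (∀ w ∈ D, h w = w) ∧ (∀ w ∈ V, h w = w) ∧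
        ∀ m ∈ M, h m = g m) ∧
    (∀ (D V Z : Set U), D.Finite → V.Finite → Z.Finite → D ⊆ E → V ⊆ E → Z ⊆ E →
      LL L R o A sg D V → ∃ g : U ≃[L] U, Nx L A g ∧ LL L R o A sg D (g '' Z) ∧
        LL L R o A sg (g '' Z) V)

end Pool.Agent.MNO
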