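import Pool.Agent.MNO.StD
import Pool.Agent.MNO.StB
import Pool.Agent.MNO.NBase

/-!
MNO: module ASV, cuts of a point of an extreme piece (helper77, after `Pool/Agent/PMC/ASV.lean`).
-/

set_option autoImplicit false
set_option linter.unusedVariables false

namespace Pool.Agent.MNO

open FirstOrder.Language Set
open scoped FirstOrder
open Pool.Agent.WOM (tp Mon IsEl IsoM CtU Fx Orb)
open Pool.Agent.PMC (Ini ct Dc cel Sin Nd Ct lts ext XS Ex Fa Ll LL Itv Sm Md NPf sd fx_refl fx_symm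
  fx_comp fx_mono comp_apply' def_mem)

section

variable {L : FirstOrder.Language.{0, 0}} {U : Type} [L.Structure U] {κ : Type}
  {R : κ → U → U → Prop} {o : κ → κ}

/-- an automorphism over `A` which preserves the points of the cut `C` inside the cell preserves `C` -/
private theorem asv_out (hC : Cx L R o) {A C : Set U} {j : κ} {z : U} (hI : Ini R o j C)
    (hS : Sin C (cel L R o A j z)) {g : U ≃[L] U} (hg : Fx L A g)
    (h : ∀ y ∈ cel L R o A j z, y ∈ C → g y ∈ C) : ∀ y ∈ C, g y ∈ C := by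
  intro y hy
  by_cases hyK : y ∈ cel L R o A j z
  · exact h y hyK hy
  obtain ⟨⟨p, hpK, hpC⟩, q, hqK, hqC⟩ := hS
  have h1 : ∃ D, Dc L R o A j D ∧ ¬ (y ∈ D ↔ z ∈ D) := by
    by_contra hne
    exact hyK fun D hD => by
      by_contra h2
      exact hne ⟨D, hD, h2⟩
  obtain ⟨D, hD, hne⟩ := h1
  by_cases hyD : y ∈ D
  · have hzD : z ∉ D := fun hz => hne ⟨fun _ => hz, fun _ => hyD⟩
    have hpD : p ∉ D := fun hp => hzD ((hpK D hD).mp hp)
    have hgy : g y ∈ D := (def_mem hD.1 hg y).mpr hyD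
    have hne2 : g y ≠ p := fun he => hpD (he ▸ hgy)
    rcases hC.tot j (g y) p hne2 with h2 | h2
    · exact hI p hpC (g y) h2
    · exact absurd (hD.2 (g y) hgy p h2) hpD
  · have hzD : z ∈ D := by
      by_contra hz
      exact hne ⟨fun hy => absurd hy hyD, fun h => absurd h hz⟩
    have hqD : q ∈ D := (hqK D hD).mpr hzD
    have hne2 : q ≠ y := fun he => hyD (he ▸ hqD)
    rcases hC.tot j q y hne2 with h2 | h2
    · exact absurd (hI y hy q h2) hqC
    · exact absurd (hD.2 q hqD y h2) hyD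

/-- (i) a cut of a point `u1` of `E`, strictly inside no cell of the piece `E` over `B`, is
`B`-definable -/
private theorem asv_i (h1 : St_PRD) (hC : Cx L R o) {A B : Set U} (hA : A.Finite) (hB : B.Finite)
    (hAB : A ⊆ B) {E : Set U} (hE : Cls L R o B E) {u1 z : U} (hu1 : u1 ∈ E) {j : κ} {C : Set U}
    (hD : Dc L R o (insert u1 A) j C) (hS : Sin C (cel L R o A j z))
    (hn : ∀ v ∈ E, v ∈ cel L R o A j z → ¬ Sin C (cel L R o B j v)) : Dc L R o B j C := by
  refine nx_cut hC hB (hA.insert u1) hD fun s hs y hy => ?_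
  obtain ⟨g, hg, hgE, hgn⟩ := h1 L U κ R o hC B E hB hE s hs
  -- `g⁻¹ ∘ s` fixes `u1` and `A`
  have h2 : Fx L (insert u1 A) (g.symm.comp s) := by
    intro a ha
    show g.symm (s a) = a
    rcases ha with rfl | ha
    · rw [← hgE a hu1]
      exact g.symm_apply_apply a
    · rw [nx_fx hs a (hAB ha)]
      exact fx_symm (nx_fx hg) a (hAB ha)
  have h3 : g.symm (s y) ∈ C := (def_mem hD.1 h2 y).mpr hy
  have h4 : ∀ y ∈ C, g y ∈ C := by
    refine asv_out hC hD.2 hS (fx_mono hAB (nx_fx hg)) fun y hyK hyC => ?_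
    by_cases hyE : y ∈ E
    · by_contra hgy
      exact hn y hyE hyK ⟨⟨y, mem_cel B j y, hyC⟩, g y, fx_cel hC j y (nx_fx hg), hgy⟩
    · rw [hgn y hyE]
      exact hyC
  have h5 := h4 _ h3
  rwa [g.apply_symm_apply] at h5

end

theorem thm_ASV (h1 : St_PRD) (h2 : St_EXB) (h3 : St_FAI) (h4 : St_FTW) : St_ASV := by
  intro L U _ κ R o hC A x z0 hA hx hz0 hz0X sg hO hext u hu z hz j C hCD hCS
  by_contra hcon
  have hn : ∀ v ∈ Pc L R o (insert x A) z0, v ∈ cel L R o A j z →
      ¬ Sin C (cel L R o (insert x A) j v) := fun v hv hvK hS => hcon ⟨v, hv, hvK, hS⟩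
  have hB : (insert x A).Finite := hA.insert x
  have hAB : A ⊆ insert x A := Set.subset_insert x A
  set B : Set U := insert x A with hBdef
  set E : Set U := Pc L R o B z0 with hEdef
  set K : Set U := cel L R o A j z with hKdef
  have hEc : Cls L R o B E := cls_pc B z0
  have hzN : Nd L A z := (pc_nd hC hz).mpr hx
  have huN : Nd L A u := nd_anti hAB (hO.nd u hu)
  have hcelE : ∀ v ∈ E, cel L R o B j v ⊆ E := by
    intro v hv
    have h5 := cel_sub_pc hC hB j v
    rw [pc_eq (A := B) (z := z0) hv] at h5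
    exact h5
  -- (i): `C` is `B`-definable
  have hCB : Dc L R o B j C := asv_i h1 hC hA hB hAB hEc hu hCD hCS hn
  set b : Bool := sg (o j) u with hb
  have hX := h2 L U κ R o hC A B j u b hAB hB huN
  obtain ⟨-, hX2, -, -, hX5, hX6, -⟩ := hX
  have huX : u ∈ ext L R o b B j (cel L R o A j u) := hext u hu j
  have hcu : cel L R o B j u = ext L R o b B j (cel L R o A j u) := hX2 u huX
  -- (ii)
  have hLam : ∀ t : U ≃[L] U, Fx L A t → ∀ p ∈ cel L R o A j u, ∃ g : U ≃[L] U, Fx L A g ∧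
      g '' C = t '' C ∧ lts R o b j p (g u) := by
    intro t ht p hp
    have hp' : t.symm p ∈ cel L R o A j u := (fx_mem_cel hC j p u (fx_symm ht)).mpr hp
    obtain ⟨g0, hg0n, hl⟩ := hX5 u huX (t.symm p) hp'
    have hg0 : Fx L B g0 := nx_fx hg0n
    refine ⟨t.comp g0, fx_comp ht (fx_mono hAB hg0), ?_, ?_⟩
    · have h5 := dc_fix hCB hg0
      calc (t.comp g0) '' C = t '' (g0 '' C) := by
            rw [Set.image_image]
            rfl
        _ = t '' C := by rw [h5]
    · have h6 : ∀ a c : U, R (o j) (t a) (t c) ↔ R (o j) a c := fun a c => R_img hC (o j) a c t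
      unfold lts at hl ⊢
      rw [comp_apply']
      split_ifs at hl ⊢ with hbb
      · have := (h6 _ _).mpr hl
        rwa [t.apply_symm_apply] at this
      · have := (h6 _ _).mpr hl
        rwa [t.apply_symm_apply] at this
  -- (iii)
  have hY := h2 L U κ R o hC A B j z true hAB hB hzN
  obtain ⟨⟨v1, hv1⟩, hY2, -, -, -, hY6, -⟩ := hY
  have hv1K : v1 ∈ K := hv1.1
  obtain ⟨⟨p0, hp0K, hp0C⟩, -⟩ := id hCS
  obtain ⟨t, ht, hlt⟩ := move hC hA hzN hv1K hp0K true
  have hKimg : t '' K = K := fx_img_cel hC j z ht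
  have hIni2 : Ini R o j (t '' C) := (dc_img hC hCD t).2
  have hv1C : v1 ∈ t '' C := by
    refine hIni2 (t p0) ⟨p0, hp0C, rfl⟩ v1 ?_
    unfold lts at hlt
    rwa [if_pos rfl] at hlt
  have hS2K : Sin (t '' C) K := sin_img hC hKimg hCS
  have hS2 : Sin (t '' C) (cel L R o B j v1) := by
    rw [hY2 v1 hv1]
    obtain ⟨-, q, hqK, hqC⟩ := hS2K
    refine ⟨⟨v1, hv1, hv1C⟩, q, hY6 v1 hv1 q hqK ?_, hqC⟩
    unfold lts
    rw [if_pos rfl]
    have hne : v1 ≠ q := fun he => hqC (he ▸ hv1C)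
    rcases hC.tot j v1 q hne with h5 | h5
    · exact h5
    · exact absurd (hIni2 v1 hv1C q h5) hqC
  have hDimg : ∀ g : U ≃[L] U, Fx L A g → g '' C = t '' C →
      Dc L R o (insert (g u) A) j (t '' C) := by
    intro g hg he
    have h5 := dc_img hC hCD g
    have h6 : g '' (insert u A) = insert (g u) A := by
      rw [Set.image_insert_eq]
      congr 1
      ext y
      constructor
      · rintro ⟨a, ha, rfl⟩
        rw [hg a ha]
        exact ha
      · intro hy
        exact ⟨y, hy, hg y hy⟩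
    rwa [h6, he] at h5
  obtain ⟨g2, hg2, he2, hl2⟩ := hLam t ht u (mem_cel A j u)
  have hu2 : g2 u ∈ cel L R o B j u := by
    rw [hcu]
    exact hX6 u huX (g2 u) (fx_cel hC j u hg2) hl2
  have hu2E : g2 u ∈ E := hcelE u hu hu2
  have hD2 := hDimg g2 hg2 he2
  have hex : ∃ v ∈ E, v ∈ K ∧ Sin (t '' C) (cel L R o B j v) := by
    by_contra hne
    have h5 : Dc L R o B j (t '' C) := asv_i h1 hC hA hB hAB hEc hu2E hD2 hS2K
      fun v hv hvK hS => hne ⟨v, hv, hvK, hS⟩
    exact not_sin_cel h5 v1 hS2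
  obtain ⟨v, hvE, hvK, hvS⟩ := hex
  have hv1E : v1 ∈ E := by
    have h5 := cel_eq_of_sin hC hIni2 hS2 hvS
    exact hcelE v hvE (h5 ▸ mem_cel B j v1)
  obtain ⟨-, -, -, hF4, -, -, hF7, -⟩ := h3 L U κ R o hC B E sg hO
  obtain ⟨p, hp, hpF⟩ := hF4 (g2 u) hu2E u hu j true
  have hpE : p ∈ E := hcelE u hu hp
  obtain ⟨g3, hg3, he3, hl3⟩ := hLam t ht p (cel_anti hAB j u hp)
  have hpX : p ∈ ext L R o b B j (cel L R o A j u) := hcu ▸ hp
  have hu3 : g3 u ∈ cel L R o B j u := by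
    rw [hcu]
    exact hX6 p hpX (g3 u) (fx_cel hC j u hg3) hl3
  have hu3E : g3 u ∈ E := hcelE u hu hu3
  have hsp : sg (o j) p = b := hO.cst j u hu p hp
  have hF : Fa L R o B sg true (g2 u) (g3 u) := by
    refine hF7 (g2 u) hu2E p hpE j true (g3 u) ?_ hpF ?_
    · rw [cel_eq hp]
      exact hu3
    · unfold sd
      rw [if_pos rfl, hsp]
      exact hl3
  have hsub : ∀ w : U, insert w A ⊆ insert w B := fun w => Set.insert_subset_insert hAB
  obtain ⟨y, hy, hy1, hy2⟩ := h4 L U κ R o hC B E sg hO (g2 u) hu2E (g3 u) hu3E true hF v1 hv1E j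
    (t '' C) (t '' C) (dc_mono (hsub _) (hDimg g3 hg3 he3)) (dc_mono (hsub _) hD2) hS2 hS2
  cases hs : sg (o j) v1
  · rw [hs] at hy1 hy2
    exact (hy1.mp (hy2.mpr (by decide))) rfl
  · rw [hs] at hy1 hy2
    exact (hy2.mp (hy1.mpr (by decide))) rfl

end Pool.Agent.MNO

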