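import Pool.Agent.MNO.StB
import Pool.Agent.MNO.Ext

/-!
MNO module AV (helper82): extreme points are not linked with inner points.
-/

set_option autoImplicit false
set_option linter.unusedVariables false
set_option linter.unusedSectionVars false

namespace Pool.Agent.MNO

open FirstOrder.Language Set
open scoped FirstOrder
open Pool.Agent.WOM (tp Mon IsEl IsoM CtU Fx Orb)
open Pool.Agent.PMC (Ini ct Dc cel Sin Nd Ct lts ext XS Ex Fa Ll LL Itv Sm Md NPf fx_refl fx_symm
  fx_comp fx_mono comp_apply' def_mem)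

section AV

variable {L : FirstOrder.Language.{0, 0}} {U : Type} [L.Structure U] {κ : Type}
  {R : κ → U → U → Prop} {o : κ → κ}

/-- the inner side of a cut -/
private def AV_in (b : Bool) (D : Set U) (x : U) : Prop := x ∈ D ↔ b = true

/-- the outer side of a cut -/
private def AV_out (b : Bool) (D : Set U) (x : U) : Prop := x ∈ D ↔ b = false

private theorem AV_in_down {b : Bool} {j : κ} {D : Set U} {x x' : U} (hI : Ini R o j D)
    (h : AV_in b D x) (hx : lts R o b j x' x) : AV_in b D x' := by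
  cases b
  · rw [lts_false] at hx
    have h1 : x ∉ D := fun h' => absurd (h.1 h') (by decide)
    exact iff_of_false (fun h' => h1 (hI x' h' x hx)) (by decide)
  · rw [lts_true] at hx
    have h1 : x ∈ D := h.2 rfl
    exact iff_of_true (hI x h1 x' hx) rfl

private theorem AV_out_up {b : Bool} {j : κ} {D : Set U} {x x' : U} (hI : Ini R o j D)
    (h : AV_out b D x) (hx : lts R o b j x x') : AV_out b D x' := by
  cases b
  · rw [lts_false] at hx
    have h1 : x ∈ D := h.2 rfl
    exact iff_of_true (hI x h1 x' hx) rfl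
  · rw [lts_true] at hx
    have h1 : x ∉ D := fun h' => absurd (h.1 h') (by decide)
    exact iff_of_false (fun h' => h1 (hI x' h' x hx)) (by decide)

private theorem AV_sep {b : Bool} {D : Set U} {x x' : U} (h : AV_in b D x) (h' : AV_out b D x') :
    ¬ (x ∈ D ↔ x' ∈ D) := by
  unfold AV_in at h
  unfold AV_out at h'
  rw [h, h']
  cases b <;> decide

/-- a bound of a finite subset of a cell -/
private theorem AV_bnd (hC : Cx L R o) {A : Set U} (hA : A.Finite) {j : κ} {u : U} (hu : Nd L A u)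
    (b : Bool) {s : Set U} (hs : s.Finite) :
    (∀ p ∈ s, p ∈ cel L R o A j u) → ∃ y ∈ cel L R o A j u, ∀ p ∈ s, lts R o b j p y := by
  induction s, hs using Set.Finite.induction_on with
  | empty => exact fun _ => ⟨u, mem_cel A j u, fun p hp => absurd hp (Set.notMem_empty _)⟩
  | @insert a t _ _ ih =>
    intro h
    obtain ⟨y, hy, hy'⟩ := ih (fun p hp => h p (mem_insert_of_mem a hp))
    have ha := h a (mem_insert a t)
    have h1 : ∃ w ∈ cel L R o A j u, (a = w ∨ lts R o b j a w) ∧ (y = w ∨ lts R o b j y w) := by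
      by_cases e : a = y
      · exact ⟨y, hy, Or.inl e, Or.inl rfl⟩
      · rcases lts_tot hC b j e with h2 | h2
        · exact ⟨y, hy, Or.inr h2, Or.inl rfl⟩
        · exact ⟨a, ha, Or.inl rfl, Or.inr h2⟩
    obtain ⟨w, hw, h2, h3⟩ := h1
    obtain ⟨w', hw', h4⟩ := exists_lts hC hA hu hw b
    refine ⟨w', hw', fun p hp => ?_⟩
    rcases hp with rfl | hp
    · rcases h2 with rfl | h2
      · exact h4
      · exact lts_trans hC b j h2 h4
    · rcases h3 with rfl | h3
      · exact lts_trans hC b j (hy' p hp) h4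
      · exact lts_trans hC b j (hy' p hp) (lts_trans hC b j h3 h4)

/-- the combinatorial core: an exact array -/
private theorem AV_core (hC : Cx L R o) {A B : Set U} {j : κ} {u z : U} {b : Bool} (hAB : A ⊆ B)
    (hB : B.Finite) (hu : Nd L A u) (hz : Nd L A z) (hue : u ∈ ext L R o b B j (cel L R o A j u))
    {c c' : U} (hc : c ∈ cel L R o A j z) (hc' : c' ∈ cel L R o A j z)
    (hcs : ∀ s : U ≃[L] U, Fx L B s → R (o j) c (s z) ∧ R (o j) (s z) c')
    (hct : Ct L R o (insert z B) j (cel L R o B j u)) : False := by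
  have hA : A.Finite := hB.subset hAB
  obtain ⟨C0, hD0, hS0⟩ := hct
  obtain ⟨-, h2, -, -, h5, -, -⟩ := thm_EXT L U κ R o hC A B j u b hAB hB hu
  -- points of the cell of `u` over `B` are extreme
  have hext : ∀ y ∈ cel L R o B j u, y ∈ ext L R o b B j (cel L R o A j u) := by
    intro y hy
    rw [h2 u hue] at hy
    exact hy
  have hin : ∃ y0 ∈ cel L R o B j u, AV_in b C0 y0 := by
    obtain ⟨⟨y1, hy1, hy1'⟩, ⟨y2, hy2, hy2'⟩⟩ := hS0
    cases b
    · exact ⟨y2, hy2, iff_of_false hy2' (by decide)⟩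
    · exact ⟨y1, hy1, iff_of_true hy1' rfl⟩
  have hout : ∃ y0 ∈ cel L R o B j u, AV_out b C0 y0 := by
    obtain ⟨⟨y1, hy1, hy1'⟩, ⟨y2, hy2, hy2'⟩⟩ := hS0
    cases b
    · exact ⟨y1, hy1, iff_of_true hy1' rfl⟩
    · exact ⟨y2, hy2, iff_of_false hy2' (by decide)⟩
  obtain ⟨y0, hy0, hy0'⟩ := hin
  obtain ⟨y1, hy1, hy1'⟩ := hout
  -- the family
  obtain ⟨n, e, he⟩ := exists_enum hB
  obtain ⟨T, hT, hTI, hTw⟩ := cuf hC (A := (∅ : Set U)) (Sum.elim e (fun _ : Unit => z))
    (j := j) (C0 := C0) (by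
      refine dc_mono ?_ hD0
      rintro x (rfl | hx)
      · exact Or.inr ⟨Sum.inr (), rfl⟩
      · rw [← he] at hx
        obtain ⟨i, rfl⟩ := hx
        exact Or.inr ⟨Sum.inl i, rfl⟩)
  -- no exact arrays
  obtain ⟨k, hk⟩ := cod' hC (α := Fin n ⊕ Fin 2) (β := Fin 2) (A := (∅ : Set U)) finite_empty
    (P := fun x y v => R (o j) (x (Sum.inr 0)) v ∧ R (o j) v (x (Sum.inr 1)) ∧
      ¬ (y 0 ∈ T (Sum.elim (fun i => x (Sum.inl i)) (fun _ => v)) ↔
        y 1 ∈ T (Sum.elim (fun i => x (Sum.inl i)) (fun _ => v)))) (by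
    have hm : ∀ i : Fin 2, Dp L (∅ : Set U) (fun v : ((Fin n ⊕ Fin 2) ⊕ Fin 2) ⊕ Unit → U =>
        v (Sum.inl (Sum.inr i)) ∈ T (Sum.elim (fun i => v (Sum.inl (Sum.inl (Sum.inl i))))
          (fun _ => v (Sum.inr ())))) := by
      intro i
      refine dp_congr (df_mem hT (Sum.inl (Sum.inr i))
        (Sum.elim (fun i => Sum.inl (Sum.inl (Sum.inl i))) (fun _ => Sum.inr ()) :
          Fin n ⊕ Unit → ((Fin n ⊕ Fin 2) ⊕ Fin 2) ⊕ Unit)) (fun v => ?_)
      have h1 : (Sum.elim (fun i => v (Sum.inl (Sum.inl (Sum.inl i))))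
          (fun _ => v (Sum.inr ())) : Fin n ⊕ Unit → U) = fun k => v ((Sum.elim
            (fun i => Sum.inl (Sum.inl (Sum.inl i))) (fun _ => Sum.inr ()) :
          Fin n ⊕ Unit → ((Fin n ⊕ Fin 2) ⊕ Fin 2) ⊕ Unit) k) := by
        funext t
        rcases t with t | t <;> rfl
      rw [h1]
    exact dp_and (dp_R hC (o j) _ _) (dp_and (dp_R hC (o j) _ _) (dp_not (dp_iff (hm 0) (hm 1)))))
  apply hk
  -- the automorphisms `g l`
  have hcc : R (o j) c c' := by
    have h := hcs (FirstOrder.Language.Equiv.refl L U) (fx_refl B)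
    exact hC.tra j _ _ _ h.1 h.2
  have step1 : ∀ g : {g : U ≃[L] U // Fx L A g}, ∃ g' : {g : U ≃[L] U // Fx L A g},
      R (o j) (g.1 c') (g'.1 c) := by
    rintro ⟨g, hg⟩
    obtain ⟨g', hg', h⟩ := move hC hA hz ((fx_mem_cel hC j c' z hg).2 hc') hc true
    rw [lts_true] at h
    exact ⟨⟨g', hg'⟩, h⟩
  choose nx hnx using step1
  let G : ℕ → {g : U ≃[L] U // Fx L A g} := fun l =>
    Nat.rec ⟨FirstOrder.Language.Equiv.refl L U, fx_refl A⟩ (fun _ g => nx g) l
  have hG : ∀ l, R (o j) ((G l).1 c') ((G (l + 1)).1 c) := fun l => hnx (G l)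
  have hGlt : ∀ l m, R (o j) ((G l).1 c') ((G (l + m + 1)).1 c) := by
    intro l m
    induction m with
    | zero => exact hG l
    | succ m ih =>
      have h1 := (R_img hC (o j) c c' (G (l + m + 1)).1).2 hcc
      exact hC.tra j _ _ _ (hC.tra j _ _ _ ih h1) (hG (l + m + 1))
  -- the points
  have step2 : ∀ y : {y : U // y ∈ cel L R o A j u}, ∃ (s : Fin k → U ≃[L] U)
      (y' : {y : U // y ∈ cel L R o A j u}), (∀ l, Fx L B (s l)) ∧
      (∀ l : Fin k, AV_in b ((G l).1 '' (s l '' C0)) y.1 ∧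
        AV_out b ((G l).1 '' (s l '' C0)) y'.1) ∧ lts R o b j y.1 y'.1 := by
    rintro ⟨y, hy⟩
    have h1 : ∀ l : Fin k, ∃ s : U ≃[L] U, Fx L B s ∧ AV_in b ((G l).1 '' (s '' C0)) y := by
      intro l
      have hg : Fx L A (G l).1.symm := fx_symm (G l).2
      obtain ⟨s, hs, hlt⟩ := h5 y0 (hext y0 hy0) ((G l).1.symm y)
        ((fx_mem_cel hC j y u hg).2 hy)
      refine ⟨s, hs, ?_⟩
      have h3 : AV_in b (s '' C0) (s y0) := by
        unfold AV_in
        rw [mem_img_iff]
        exact hy0'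
      have h4 := AV_in_down (ini_img hC hD0.2 s) h3 hlt
      have h6 := mem_img_iff (G l).1 (s '' C0) ((G l).1.symm y)
      rw [(G l).1.apply_symm_apply] at h6
      exact h6.trans h4
    choose s hs hs' using h1
    have h2 : ∀ l : Fin k, (G l).1 (s l y1) ∈ cel L R o A j u := by
      intro l
      rw [fx_mem_cel hC j _ u (G l).2, fx_mem_cel hC j _ u (fx_mono hAB (hs l))]
      exact cel_anti hAB j u hy1
    obtain ⟨y', hy', hlt⟩ := AV_bnd hC hA hu b
      (s := insert y (range fun l : Fin k => (G l).1 (s l y1)))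
      ((finite_range _).insert _) (by
        rintro p (rfl | ⟨l, rfl⟩)
        · exact hy
        · exact h2 l)
    refine ⟨s, ⟨y', hy'⟩, hs, fun l => ⟨hs' l, ?_⟩, hlt y (mem_insert _ _)⟩
    refine AV_out_up (ini_img hC (ini_img hC hD0.2 (s l)) (G l).1) ?_
      (hlt _ (mem_insert_of_mem _ ⟨l, rfl⟩))
    unfold AV_out
    rw [mem_img_iff, mem_img_iff]
    exact hy1'
  choose S Y hS hSY hY using step2
  let y : ℕ → {y : U // y ∈ cel L R o A j u} := fun m =>
    Nat.rec ⟨u, mem_cel A j u⟩ (fun _ y => Y y) m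
  have hy : ∀ m, y (m + 1) = Y (y m) := fun m => rfl
  have hylt : ∀ m, lts R o b j (y m).1 (y (m + 1)).1 := fun m => hY (y m)
  have hyle : ∀ m i, (y (m + 1)).1 = (y (m + 1 + i)).1 ∨
      lts R o b j (y (m + 1)).1 (y (m + 1 + i)).1 := by
    intro m i
    induction i with
    | zero => exact Or.inl rfl
    | succ i ih =>
      refine Or.inr ?_
      rcases ih with h | h
      · rw [h]
        exact hylt _
      · exact lts_trans hC b j h (hylt _)
  have hDI : ∀ (l m : ℕ) (hl : l < k), Ini R o j ((G l).1 '' (S (y m) ⟨l, hl⟩ '' C0)) :=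
    fun l m hl => ini_img hC (ini_img hC hD0.2 _) _
  have hDin : ∀ (l m : ℕ) (hl : l < k), AV_in b ((G l).1 '' (S (y m) ⟨l, hl⟩ '' C0)) (y m).1 :=
    fun l m hl => (hSY (y m) ⟨l, hl⟩).1
  have hDout : ∀ (l m : ℕ) (hl : l < k),
      AV_out b ((G l).1 '' (S (y m) ⟨l, hl⟩ '' C0)) (y (m + 1)).1 :=
    fun l m hl => (hSY (y m) ⟨l, hl⟩).2
  -- later columns are outer, earlier columns are inner
  have hlate : ∀ (l m i : ℕ) (hl : l < k),
      AV_out b ((G l).1 '' (S (y m) ⟨l, hl⟩ '' C0)) (y (m + 1 + i)).1 := by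
    intro l m i hl
    rcases hyle m i with h | h
    · rw [← h]
      exact hDout l m hl
    · exact AV_out_up (hDI l m hl) (hDout l m hl) h
  have hearly : ∀ (l m i : ℕ) (hl : l < k),
      AV_in b ((G l).1 '' (S (y (m + i)) ⟨l, hl⟩ '' C0)) (y m).1 := by
    intro l m i hl
    have h1 : (y m).1 = (y (m + i)).1 ∨ lts R o b j (y m).1 (y (m + i)).1 := by
      rcases i with _ | i
      · exact Or.inl rfl
      · refine Or.inr ?_
        have e : m + (i + 1) = m + 1 + i := by ring
        rw [e]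
        rcases hyle m i with h | h
        · rw [← h]
          exact hylt m
        · exact lts_trans hC b j (hylt m) h
    rcases h1 with h | h
    · rw [h]
      exact hDin l _ hl
    · exact AV_in_down (hDI l _ hl) (hDin l _ hl) h
  refine ⟨fun l => Sum.elim (fun i => (G l).1 (e i)) ![(G l).1 c, (G l).1 c'],
    fun m => ![(y m).1, (y (m + 1)).1], fun l m => (G l).1 (S (y m) l z), fun i m a q => ?_⟩
  have hbet : ∀ (a : Fin k) (q : ℕ), R (o j) ((G a).1 c) ((G a).1 (S (y q) a z)) ∧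
      R (o j) ((G a).1 (S (y q) a z)) ((G a).1 c') := by
    intro a q
    have h := hcs (S (y q) a) (hS (y q) a)
    exact ⟨(R_img hC (o j) _ _ _).2 h.1, (R_img hC (o j) _ _ _).2 h.2⟩
  have hTa : ∀ (a : Fin k) (q : ℕ), T (Sum.elim (fun i => (G a).1 (e i))
      (fun _ => (G a).1 (S (y q) a z))) = (G a).1 '' (S (y q) a '' C0) := by
    intro a q
    have h1 := df_img hT (g := (G a).1.comp (S (y q) a))
      (fun x hx => absurd hx (Set.notMem_empty _)) (Sum.elim e (fun _ : Unit => z))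
    rw [hTw] at h1
    have h3 : (fun i => ((G a).1.comp (S (y q) a)) (Sum.elim e (fun _ : Unit => z) i)) =
        Sum.elim (fun i => (G a).1 (e i)) (fun _ => (G a).1 (S (y q) a z)) := by
      funext t
      rcases t with t | t
      · show ((G a).1.comp (S (y q) a)) (e t) = (G a).1 (e t)
        rw [comp_apply', hS (y q) a (e t) (by rw [← he]; exact ⟨t, rfl⟩)]
      · show ((G a).1.comp (S (y q) a)) z = (G a).1 (S (y q) a z)
        rw [comp_apply']
    rw [h3] at h1
    rw [← h1]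
    ext v
    constructor
    · rintro ⟨w, hw, rfl⟩
      rw [comp_apply']
      exact ⟨_, ⟨w, hw, rfl⟩, rfl⟩
    · rintro ⟨_, ⟨w, hw, rfl⟩, rfl⟩
      exact ⟨w, hw, comp_apply' _ _ _⟩
  show (R (o j) ((G i).1 c) ((G a).1 (S (y q) a z)) ∧ R (o j) ((G a).1 (S (y q) a z)) ((G i).1 c') ∧
    ¬ ((y m).1 ∈ T (Sum.elim (fun t => (G i).1 (e t)) (fun _ => (G a).1 (S (y q) a z))) ↔
      (y (m + 1)).1 ∈ T (Sum.elim (fun t => (G i).1 (e t)) (fun _ => (G a).1 (S (y q) a z))))) ↔
    i = a ∧ m = q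
  constructor
  · rintro ⟨h1, h3, h4⟩
    have hia : i = a := by
      by_contra hne
      have hne' : (i : ℕ) ≠ a := fun h => hne (Fin.ext h)
      rcases lt_or_gt_of_ne hne' with h | h
      · obtain ⟨d, hd⟩ := Nat.exists_eq_add_of_lt h
        have h6 := hGlt i d
        rw [← hd] at h6
        have h7 := hC.tra j _ _ _ h6 (hbet a q).1
        exact asymm' hC j h7 h3
      · obtain ⟨d, hd⟩ := Nat.exists_eq_add_of_lt h
        have h6 := hGlt a d
        rw [← hd] at h6
        have h7 := hC.tra j _ _ _ (hbet a q).2 h6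
        exact asymm' hC j h7 h1
    subst hia
    refine ⟨rfl, ?_⟩
    rw [hTa] at h4
    by_contra hne
    have hne' : (m : ℕ) ≠ q := fun h => hne (Fin.ext h)
    apply h4
    rcases lt_or_gt_of_ne hne' with h | h
    · obtain ⟨d, hd⟩ := Nat.exists_eq_add_of_lt h
      have h6 := hearly i m (d + 1) i.2
      have h7 := hearly i (m + 1) d i.2
      have e1 : (m : ℕ) + (d + 1) = q := by omega
      have e2 : (m : ℕ) + 1 + d = q := by omega
      rw [e1] at h6
      rw [e2] at h7
      unfold AV_in at h6 h7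
      exact h6.trans h7.symm
    · obtain ⟨d, hd⟩ := Nat.exists_eq_add_of_lt h
      have h6 := hlate i q d i.2
      have h7 := hlate i q (d + 1) i.2
      have e1 : (q : ℕ) + 1 + d = m := by omega
      have e2 : (q : ℕ) + 1 + (d + 1) = m + 1 := by omega
      rw [e1] at h6
      rw [e2] at h7
      unfold AV_out at h6 h7
      exact h6.trans h7.symm
  · rintro ⟨rfl, rfl⟩
    refine ⟨(hbet i m).1, (hbet i m).2, ?_⟩
    rw [hTa]
    exact AV_sep (hDin i m i.2) (hDout i m i.2)

end AV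

/-- [AV] -/
theorem thm_AV (hLKS : St_LKS) (hEXB : St_EXB) : St_AV := by
  intro L U _ κ R o hC A B j u z b hAB hB hu hz hue hze hlk
  have h1 : ∃ C, Dc L R o B j C ∧ Sin C (cel L R o A j z) ∧ z ∈ C := by
    by_contra hcon
    refine hze true ⟨mem_cel A j z, fun C hD hS => ?_⟩
    constructor
    · intro h
      exact absurd ⟨C, hD, hS, h⟩ hcon
    · intro h
      exact absurd h (by decide)
  have h2 : ∃ C, Dc L R o B j C ∧ Sin C (cel L R o A j z) ∧ z ∉ C := by
    by_contra hcon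
    refine hze false ⟨mem_cel A j z, fun C hD hS => ?_⟩
    constructor
    · intro _
      rfl
    · intro _
      by_contra h
      exact hcon ⟨C, hD, hS, h⟩
  obtain ⟨C2, hD2, ⟨-, c', hc', hcC'⟩, hz2⟩ := h1
  obtain ⟨C1, hD1, ⟨⟨c, hc, hcC⟩, -⟩, hz1⟩ := h2
  obtain ⟨j', hj⟩ := (hLKS L U κ R o hC B hB).1 u z hlk
  have e : j' = j := hC.uni j' j
  subst e
  refine AV_core hC hAB hB hu hz hue hc hc' (fun s hs => ?_) hj
  have e1 : s z ∉ C1 := fun h => hz1 ((def_mem hD1.1 hs z).1 h)
  have e2 : s z ∈ C2 := (def_mem hD2.1 hs z).2 hz2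
  constructor
  · by_cases h : c = s z
    · rw [h] at hcC
      exact absurd hcC e1
    · rcases hC.tot j' c (s z) h with h3 | h3
      · exact h3
      · exact absurd (hD1.2 c hcC _ h3) e1
  · by_cases h : s z = c'
    · rw [h] at e2
      exact absurd e2 hcC'
    · rcases hC.tot j' (s z) c' h with h3 | h3
      · exact h3
      · exact absurd (hD2.2 _ e2 _ h3) hcC'

end Pool.Agent.MNO
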