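import Pool.Agent.MNO.StB
import Pool.Agent.MNO.LBase

/-!
MNO: [AVP] (A5') an extreme cell is linked with an extreme cell of a linked cell.
-/

set_option autoImplicit false
set_option linter.unusedVariables false

namespace Pool.Agent.MNO

open FirstOrder.Language Set
open scoped FirstOrder
open Pool.Agent.WOM (tp Mon IsEl IsoM CtU Fx Orb)
open Pool.Agent.PMC (Ini ct Dc cel Sin Nd Ct lts ext XS Ex Fa Ll LL Itv Sm Md NPf fx_mono)

theorem thm_AVP (hBDD : St_BDD) (hAV : St_AV) (hEXB : St_EXB) : St_AVP := by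
  intro L U _ κ R o hC A B j x y b hAB hB hl v hv
  have hA : A.Finite := hB.subset hAB
  obtain ⟨hx, hy⟩ := lk_nd hC hl
  have hvn : Nd L A v := nd_cel hC hx hv.1
  obtain ⟨j', C, hCd, hCs⟩ := lk_cel hC hA (j := j) hv.1 (mem_cel A j y) hl
  have e : j' = j := hC.uni j' j
  subst e
  by_cases hp : ∃ p, Sin C (cel L R o B j' p)
  · -- (ii)
    obtain ⟨p, hp⟩ := hp
    have h1 : Sin C (cel L R o A j' p) := sin_mono (cel_anti hAB j' p) hp
    have h2 : cel L R o A j' p = cel L R o A j' y := cel_eq_of_sin hC hCd.2 h1 hCs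
    have h3 : Lk L R o B v p := ⟨j', C, dc_mono (Set.insert_subset_insert hAB) hCd, hp⟩
    have h4 : Nd L A p := nd_of_sin hC h1
    have h5 : v ∈ ext L R o b B j' (cel L R o A j' v) := by
      rw [cel_eq hv.1]
      exact hv
    have h6 : ∃ b', p ∈ ext L R o b' B j' (cel L R o A j' p) := by
      by_contra hcon
      rw [not_exists] at hcon
      exact hAV L U κ R o hC A B j' v p b hAB hB hvn h4 h5 hcon h3
    obtain ⟨b', h7⟩ := h6
    rw [h2] at h7
    exact ⟨b', p, h7, h3⟩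
  · -- (i)
    exfalso
    rw [not_exists] at hp
    have key : ∀ s : U ≃[L] U, Fx L B s → ∀ p, s p ∈ C ↔ p ∈ C := by
      intro s hs p
      constructor
      · intro h1
        by_contra h2
        exact hp p ⟨⟨s p, fx_cel hC j' p hs, h1⟩, ⟨p, mem_cel B j' p, h2⟩⟩
      · intro h1
        by_contra h2
        exact hp p ⟨⟨p, mem_cel B j' p, h1⟩, ⟨s p, fx_cel hC j' p hs, h2⟩⟩
    obtain ⟨T, hT, hTI, hTv⟩ := cuf1 hC v hCd
    obtain ⟨⟨c, hc, hcC⟩, ⟨c', hc', hcC'⟩⟩ := hCs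
    obtain ⟨w, hw, hbd⟩ := hBDD L U κ R o hC A j' x y b T hA hx hy hT hTI c hc c' hc'
    obtain ⟨-, -, -, -, h5, -, -⟩ := hEXB L U κ R o hC A B j' x b hAB hB hx
    obtain ⟨g, hg, hlt⟩ := h5 v hv w hw
    have hgA : Fx L A g := fx_mono hAB hg.1
    have h6 : T (fun _ => g v) = g '' C := by
      rw [← hTv]
      exact (df_img hT hgA (fun _ => v)).symm
    refine hbd (g v) ((fx_mem_cel hC j' v x hgA).2 hv.1) ?_ ?_ hlt
    · rw [h6]
      refine ⟨g.symm c, (key g hg.1 _).1 ?_, g.apply_symm_apply c⟩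
      rw [g.apply_symm_apply]
      exact hcC
    · rw [h6]
      rintro ⟨q, hq, hq'⟩
      rw [← hq'] at hcC'
      exact hcC' ((key g hg.1 q).2 hq)

end Pool.Agent.MNO
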