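import Pool.Agent.MNO.Defs
import Pool.Agent.PMC.Base

/-!
MNO: base lemmas, first part: cuts and cells (text of `Pool/Agent/PMC/Base.lean`, helper58), links and pieces
(helper47, after `Pool/Agent/GRK/Base.lean`, helper23).
-/

set_option autoImplicit false
set_option linter.unusedVariables false
set_option linter.unusedSectionVars false

namespace Pool.Agent.MNO

open FirstOrder.Language Set
open scoped FirstOrder
open Pool.Agent.WOM (tp Mon IsEl IsoM CtU Fx Orb)
open Pool.Agent.PMC (Ini ct Dc cel Sin Nd Ct lts ext XS Ex Fa Ll LL Itv Sm Md NPf fx_refl fx_symm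
  fx_comp fx_mono comp_apply' def_img def_mono def_compl def_inter def_union def_mem def_fix
  def_of_fix conj_of_def exists_isd exists_fin_def isEl_of_orb mem_orb orb_meets sat_fam rel_fx
  rel_def1 rel_def2 rel_hull rel_swap def_close)

variable {L : FirstOrder.Language.{0, 0}} {U : Type} [L.Structure U] {κ : Type}
  {R : κ → U → U → Prop} {o : κ → κ}

/-! ### Cuts -/

section cuts

variable (hC : Cx L R o)

include hC

theorem asymm' (j : κ) {x y : U} (h : R (o j) x y) : ¬ R (o j) y x :=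
  fun h' => hC.irr j x (hC.tra j x y x h h')

/-- `ini` at order indices, without `o (o j)` -/
theorem ini' (j : κ) (u : U) : ∀ x, R j x u → ∀ y, R (o j) y x → R j y u :=
  fun x hx y hy => hC.ini j u x hx y hy

theorem ct_dc (j : κ) (u : U) (A : Set U) : Dc L R o (insert u A) j (ct R j u) :=
  ⟨rel_def1 (hC.dfn j) u A, hC.ini j u⟩

/-- the cuts `{x | x < u}` of the order of `j` -/
theorem lt_dc (j : κ) (u : U) (A : Set U) : Dc L R o (insert u A) j {x | R (o j) x u} :=
  ⟨rel_def1 (hC.dfn (o j)) u A, fun x hx y hy => hC.tra j y x u hy hx⟩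

/-- the cuts `{x | x ≤ u}` -/
theorem le_dc (j : κ) (u : U) (A : Set U) : Dc L R o (insert u A) j {x | ¬ R (o j) u x} :=
  ⟨def_compl (rel_def2 (hC.dfn (o j)) u A), fun x hx y hy h => hx (hC.tra j u y x h hy)⟩

theorem R_img (j : κ) (x y : U) (g : U ≃[L] U) : R j (g x) (g y) ↔ R j x y :=
  rel_fx (hC.dfn j) g x y

theorem mem_ct_img (j : κ) (u x : U) (g : U ≃[L] U) : g x ∈ ct R j (g u) ↔ x ∈ ct R j u :=
  R_img hC j x u g

theorem img_ct (j : κ) (u : U) (g : U ≃[L] U) : g '' ct R j u = ct R j (g u) := by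
  ext x
  constructor
  · rintro ⟨y, hy, rfl⟩
    exact (mem_ct_img hC j u y g).2 hy
  · intro hx
    refine ⟨g.symm x, ?_, g.apply_symm_apply x⟩
    have h1 : g (g.symm x) ∈ ct R j (g u) := by
      rw [g.apply_symm_apply]
      exact hx
    exact (mem_ct_img hC j u (g.symm x) g).1 h1

omit hC in
theorem dc_mono {A B : Set U} (hAB : A ⊆ B) {j : κ} {C : Set U} (h : Dc L R o A j C) :
    Dc L R o B j C := ⟨def_mono hAB h.1, h.2⟩

theorem ini_img {j : κ} {C : Set U} (h : Ini R o j C) (g : U ≃[L] U) : Ini R o j (g '' C) := by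
  rintro _ ⟨x, hx, rfl⟩ y hy
  refine ⟨g.symm y, ?_, g.apply_symm_apply y⟩
  refine h x hx _ ?_
  have h1 : R (o j) (g (g.symm y)) (g x) := by
    rw [g.apply_symm_apply]
    exact hy
  exact (R_img hC (o j) _ _ g).1 h1

theorem dc_img {A : Set U} {j : κ} {C : Set U} (h : Dc L R o A j C) (g : U ≃[L] U) :
    Dc L R o (g '' A) j (g '' C) := ⟨def_img hC.mon g h.1, ini_img hC h.2 g⟩

omit hC in
theorem dc_fix {A : Set U} {j : κ} {C : Set U} (h : Dc L R o A j C) {g : U ≃[L] U}
    (hg : Fx L A g) : g '' C = C := def_fix h.1 hg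

theorem ini_total {j : κ} {C C' : Set U} (h : Ini R o j C) (h' : Ini R o j C') :
    C ⊆ C' ∨ C' ⊆ C := by
  by_contra hcon
  rw [not_or, not_subset, not_subset] at hcon
  obtain ⟨⟨x, hx, hx'⟩, ⟨y, hy, hy'⟩⟩ := hcon
  have hne : x ≠ y := by
    rintro rfl
    exact hx' hy
  rcases hC.tot j x y hne with h1 | h1
  · exact hx' (h' y hy x h1)
  · exact hy' (h x hx y h1)

theorem dc_oo {A : Set U} {j : κ} {C : Set U} : Dc L R o A (o j) C ↔ Dc L R o A j C := by
  unfold Dc Ini
  rw [hC.oo j]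

theorem cel_oo {A : Set U} {j : κ} {z : U} : cel L R o A (o j) z = cel L R o A j z := by
  ext y
  constructor
  · intro h C hCC
    exact h C ((dc_oo hC).2 hCC)
  · intro h C hCC
    exact h C ((dc_oo hC).1 hCC)

/-! ### Cells -/

omit hC in
theorem mem_cel (A : Set U) (j : κ) (z : U) : z ∈ cel L R o A j z := fun _ _ => Iff.rfl

omit hC in
theorem cel_symm {A : Set U} {j : κ} {y z : U} (h : y ∈ cel L R o A j z) :
    z ∈ cel L R o A j y := fun C hCC => (h C hCC).symm

omit hC in
theorem cel_eq {A : Set U} {j : κ} {y z : U} (h : y ∈ cel L R o A j z) :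
    cel L R o A j y = cel L R o A j z := by
  ext x
  constructor
  · intro hx C hCC
    exact (hx C hCC).trans (h C hCC)
  · intro hx C hCC
    exact (hx C hCC).trans (h C hCC).symm

omit hC in
theorem cel_anti {A B : Set U} (hAB : A ⊆ B) (j : κ) (z : U) :
    cel L R o B j z ⊆ cel L R o A j z := fun y hy C hCC => hy C (dc_mono hAB hCC)

theorem cel_conv {A : Set U} {j : κ} {x y w z : U} (hx : x ∈ cel L R o A j z)
    (hw : w ∈ cel L R o A j z) (h1 : ¬ R (o j) y x) (h2 : ¬ R (o j) w y) :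
    y ∈ cel L R o A j z := by
  intro C hCC
  constructor
  · intro hy
    refine (hx C hCC).1 ?_
    rcases eq_or_ne x y with rfl | hne
    · exact hy
    · rcases hC.tot j x y hne with h3 | h3
      · exact hCC.2 y hy x h3
      · exact absurd h3 h1
  · intro hz
    have h3 := (hw C hCC).2 hz
    rcases eq_or_ne w y with rfl | hne
    · exact h3
    · rcases hC.tot j w y hne with h4 | h4
      · exact absurd h4 h2
      · exact hCC.2 w h3 y h4

omit hC in
theorem not_sin_cel {A : Set U} {j : κ} {C : Set U} (h : Dc L R o A j C) (z : U) :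
    ¬ Sin C (cel L R o A j z) := by
  rintro ⟨⟨x, hx, hx'⟩, ⟨y, hy, hy'⟩⟩
  exact hy' ((hy C h).2 ((hx C h).1 hx'))

omit hC in
theorem img_symm_img (g : U ≃[L] U) (A : Set U) : g.symm '' (g '' A) = A := by
  ext x
  constructor
  · rintro ⟨_, ⟨y, hy, rfl⟩, rfl⟩
    rw [g.symm_apply_apply]
    exact hy
  · intro hx
    exact ⟨g x, ⟨x, hx, rfl⟩, g.symm_apply_apply x⟩

omit hC in
theorem img_img_symm (g : U ≃[L] U) (A : Set U) : g '' (g.symm '' A) = A := by
  ext x
  constructor
  · rintro ⟨_, ⟨y, hy, rfl⟩, rfl⟩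
    rw [g.apply_symm_apply]
    exact hy
  · intro hx
    exact ⟨g.symm x, ⟨x, hx, rfl⟩, g.apply_symm_apply x⟩

omit hC in
theorem mem_img_iff (g : U ≃[L] U) (A : Set U) (x : U) : g x ∈ g '' A ↔ x ∈ A := by
  constructor
  · rintro ⟨y, hy, h⟩
    have : y = x := g.injective h
    rw [← this]
    exact hy
  · intro hx
    exact ⟨x, hx, rfl⟩

omit hC in
theorem mem_symm_img_iff (g : U ≃[L] U) (A : Set U) (x : U) : x ∈ g.symm '' A ↔ g x ∈ A := by
  have h1 := mem_img_iff g (g.symm '' A) x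
  rw [img_img_symm] at h1
  exact h1.symm

theorem img_cel_sub (A : Set U) (j : κ) (z : U) (g : U ≃[L] U) :
    g '' cel L R o A j z ⊆ cel L R o (g '' A) j (g z) := by
  rintro _ ⟨y, hy, rfl⟩ C hCC
  have h1 := dc_img hC hCC g.symm
  rw [img_symm_img] at h1
  have h2 := hy _ h1
  rw [mem_symm_img_iff, mem_symm_img_iff] at h2
  exact h2

theorem img_cel (A : Set U) (j : κ) (z : U) (g : U ≃[L] U) :
    g '' cel L R o A j z = cel L R o (g '' A) j (g z) := by
  apply Subset.antisymm (img_cel_sub hC A j z g)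
  intro y hy
  have h1 : g.symm y ∈ cel L R o (g.symm '' (g '' A)) j (g.symm (g z)) :=
    img_cel_sub hC (g '' A) j (g z) g.symm ⟨y, hy, rfl⟩
  rw [img_symm_img, g.symm_apply_apply] at h1
  exact ⟨g.symm y, h1, g.apply_symm_apply y⟩

theorem fx_cel {A : Set U} (j : κ) (z : U) {g : U ≃[L] U} (hg : Fx L A g) :
    g z ∈ cel L R o A j z := fun C hCC => def_mem hCC.1 hg z

theorem fx_mem_cel {A : Set U} (j : κ) (y z : U) {g : U ≃[L] U} (hg : Fx L A g) :
    g y ∈ cel L R o A j z ↔ y ∈ cel L R o A j z := by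
  constructor
  · intro h C hCC
    exact (def_mem hCC.1 hg y).symm.trans (h C hCC)
  · intro h C hCC
    exact (def_mem hCC.1 hg y).trans (h C hCC)

theorem fx_img_cel {A : Set U} (j : κ) (z : U) {g : U ≃[L] U} (hg : Fx L A g) :
    g '' cel L R o A j z = cel L R o A j z := by
  ext x
  constructor
  · rintro ⟨y, hy, rfl⟩
    exact (fx_mem_cel hC j y z hg).2 hy
  · intro hx
    refine ⟨g.symm x, ?_, g.apply_symm_apply x⟩
    exact (fx_mem_cel hC j x z (fx_symm hg)).2 hx

/-- two cells over `A` with a common strictly inner cut are equal -/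
theorem cel_eq_of_sin {A : Set U} {j : κ} {C : Set U} (hC' : Ini R o j C) {y z : U}
    (h1 : Sin C (cel L R o A j y)) (h2 : Sin C (cel L R o A j z)) :
    cel L R o A j y = cel L R o A j z := by
  apply cel_eq
  intro D hD
  obtain ⟨⟨x1, hx1, hx1'⟩, ⟨x2, hx2, hx2'⟩⟩ := h1
  obtain ⟨⟨w1, hw1, hw1'⟩, ⟨w2, hw2, hw2'⟩⟩ := h2
  constructor
  · intro hy
    by_contra hz
    have e1 : x2 ∈ D := (hx2 D hD).2 hy
    have e2 : w1 ∉ D := fun h => hz ((hw1 D hD).1 h)
    rcases ini_total hC hC' hD.2 with h | h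
    · exact e2 (h hw1')
    · exact hx2' (h e1)
  · intro hz
    by_contra hy
    have e1 : w2 ∈ D := (hw2 D hD).2 hz
    have e2 : x1 ∉ D := fun h => hy ((hx1 D hD).1 h)
    rcases ini_total hC hC' hD.2 with h | h
    · exact e2 (h hx1')
    · exact hw2' (h e1)

theorem sin_img {C K : Set U} {g : U ≃[L] U} (hK : g '' K = K) (h : Sin C K) :
    Sin (g '' C) K := by
  obtain ⟨⟨x, hx, hx'⟩, ⟨y, hy, hy'⟩⟩ := h
  refine ⟨⟨g x, ?_, (mem_img_iff g C x).2 hx'⟩, ⟨g y, ?_, fun h => hy' ((mem_img_iff g C y).1 h)⟩⟩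
  · rw [← hK]
    exact ⟨x, hx, rfl⟩
  · rw [← hK]
    exact ⟨y, hy, rfl⟩

/-- a definable point is alone in its cells -/
theorem cel_def {A : Set U} {z : U} (hz : ¬ Nd L A z) (j : κ) : cel L R o A j z = {z} := by
  unfold Nd at hz
  rw [not_not] at hz
  apply Subset.antisymm
  · intro y hy
    by_contra hne
    have hne' : y ≠ z := hne
    have d1 : Dc L R o A j {x | R (o j) x z} :=
      ⟨def_close hC.mon hz (fun B => (lt_dc hC j z B).1), (lt_dc hC j z ∅).2⟩
    have d2 : Dc L R o A j {x | ¬ R (o j) z x} :=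
      ⟨def_close hC.mon hz (fun B => (le_dc hC j z B).1), (le_dc hC j z ∅).2⟩
    rcases hC.tot j y z hne' with h | h
    · exact hC.irr j z ((hy _ d1).1 h)
    · have h1 : z ∈ {x | ¬ R (o j) z x} := hC.irr j z
      exact (hy _ d2).2 h1 h
  · intro y hy
    have : y = z := hy
    rw [this]
    exact mem_cel A j z

/-- points of a cell: not definable -/
theorem nd_cel {A : Set U} {j : κ} {y z : U} (hz : Nd L A z) (hy : y ∈ cel L R o A j z) :
    Nd L A y := by
  by_contra hcon
  have h1 := cel_def hC hcon j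
  have h2 := cel_symm hy
  rw [h1] at h2
  have h3 : z = y := h2
  rw [h3] at hz
  exact hcon hz

omit hC in
theorem nd_anti {A B : Set U} (hAB : A ⊆ B) {z : U} (h : Nd L B z) : Nd L A z :=
  fun h' => h (def_mono hAB h')

theorem nd_img {A : Set U} {z : U} (g : U ≃[L] U) : Nd L (g '' A) (g z) ↔ Nd L A z := by
  unfold Nd
  rw [not_iff_not]
  constructor
  · intro h
    have h1 := def_img hC.mon g.symm h
    rw [img_symm_img, image_singleton, g.symm_apply_apply] at h1
    exact h1
  · intro h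
    have h1 := def_img hC.mon g h
    rw [image_singleton] at h1
    exact h1

theorem nd_fx {A : Set U} {z : U} {g : U ≃[L] U} (hg : Fx L A g) : Nd L A (g z) ↔ Nd L A z := by
  unfold Nd
  rw [not_iff_not]
  constructor
  · intro h
    have h1 : g.symm (g z) = g z := (def_mem h (fx_symm hg) (g z)).2 rfl
    rw [g.symm_apply_apply] at h1
    rw [h1]
    exact h
  · intro h
    have h1 : g z = z := (def_mem h hg z).2 rfl
    rw [h1]
    exact h

/-- a set with a strictly inner cut contains two points, so the cell is not a point -/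
theorem nd_of_sin {A : Set U} {j : κ} {z : U} {C : Set U} (h : Sin C (cel L R o A j z)) :
    Nd L A z := by
  by_contra hcon
  rw [cel_def hC hcon j] at h
  obtain ⟨⟨x, hx, hx'⟩, ⟨y, hy, hy'⟩⟩ := h
  have e1 : x = z := hx
  have e2 : y = z := hy
  rw [e1] at hx'
  rw [e2] at hy'
  exact hy' hx'

omit hC in
theorem lts_true (j : κ) (x y : U) : lts R o true j x y ↔ R (o j) x y := by
  unfold lts
  rw [if_pos rfl]

omit hC in
theorem lts_false (j : κ) (x y : U) : lts R o false j x y ↔ R (o j) y x := by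
  unfold lts
  rw [if_neg (by decide)]

theorem lts_def (b : Bool) (j : κ) :
    (∅ : Set U).Definable L {v : Fin 2 → U | lts R o b j (v 0) (v 1)} := by
  cases b
  · have h1 : {v : Fin 2 → U | lts R o false j (v 0) (v 1)} =
        {v : Fin 2 → U | R (o j) (v 1) (v 0)} := by
      ext v
      exact lts_false j _ _
    rw [h1]
    exact rel_swap (hC.dfn (o j))
  · have h1 : {v : Fin 2 → U | lts R o true j (v 0) (v 1)} =
        {v : Fin 2 → U | R (o j) (v 0) (v 1)} := by
      ext v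
      exact lts_true j _ _
    rw [h1]
    exact hC.dfn (o j)

theorem lts_irr (b : Bool) (j : κ) (x : U) : ¬ lts R o b j x x := by
  cases b
  · rw [lts_false]
    exact hC.irr j x
  · rw [lts_true]
    exact hC.irr j x

theorem lts_trans (b : Bool) (j : κ) {x y z : U} (h : lts R o b j x y) (h' : lts R o b j y z) :
    lts R o b j x z := by
  cases b
  · rw [lts_false] at *
    exact hC.tra j z y x h' h
  · rw [lts_true] at *
    exact hC.tra j x y z h h'

theorem lts_tot (b : Bool) (j : κ) {x y : U} (h : x ≠ y) :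
    lts R o b j x y ∨ lts R o b j y x := by
  cases b
  · rw [lts_false, lts_false]
    exact (hC.tot j x y h).symm
  · rw [lts_true, lts_true]
    exact hC.tot j x y h

theorem lts_img (b : Bool) (j : κ) (x y : U) (g : U ≃[L] U) :
    lts R o b j (g x) (g y) ↔ lts R o b j x y := by
  cases b
  · rw [lts_false, lts_false]
    exact R_img hC (o j) y x g
  · rw [lts_true, lts_true]
    exact R_img hC (o j) x y g

/-- definable sets are convexly closed up to cells -/
theorem hull_cel {A s : Set U} (hs : A.Definable₁ L s) (b : Bool) {j : κ} {x y : U}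
    (hxy : x ∈ cel L R o A j y) (hy : y ∈ s) : ∃ w ∈ s, ¬ lts R o b j w x := by
  have h1 : A.Definable₁ L {v | ∃ w ∈ s, ¬ lts R o b j w v} := rel_hull (lts_def hC b j) hs
  have hy1 : y ∈ {v | ∃ w ∈ s, ¬ lts R o b j w v} := ⟨y, hy, lts_irr hC b j y⟩
  cases b
  · have h2 : Dc L R o A j {v | ∃ w ∈ s, ¬ lts R o false j w v}ᶜ := by
      refine ⟨def_compl h1, ?_⟩
      intro v hv v' hv' hcon
      obtain ⟨w, hw, hw'⟩ := hcon
      refine hv ⟨w, hw, ?_⟩
      intro h3
      apply hw'
      rw [lts_false] at h3 ⊢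
      exact hC.tra j _ _ _ hv' h3
    by_contra hcon
    exact (hxy _ h2).1 hcon hy1
  · have h2 : Dc L R o A j {v | ∃ w ∈ s, ¬ lts R o true j w v} := by
      refine ⟨h1, ?_⟩
      rintro v ⟨w, hw, hw'⟩ v' hv'
      refine ⟨w, hw, ?_⟩
      intro h3
      apply hw'
      rw [lts_true] at h3 ⊢
      exact hC.tra j _ _ _ h3 hv'
    exact (hxy _ h2).2 hy1

/-- [MOVE] conjugates are cofinal and coinitial in a cell -/
theorem move {A : Set U} (hA : A.Finite) {j : κ} {x y z : U} (hz : Nd L A z)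
    (hx : x ∈ cel L R o A j z) (hy : y ∈ cel L R o A j z) (b : Bool) :
    ∃ g : U ≃[L] U, Fx L A g ∧ lts R o b j x (g y) := by
  by_contra hcon
  have hF : ∀ s ∈ ({s | A.Definable₁ L s ∧ y ∈ s} ∪ {{v | lts R o b j x v}} : Set (Set U)),
      (insert x A).Definable₁ L s := by
    rintro s (hs | hs)
    · exact def_mono (subset_insert x A) hs.1
    · have : s = {v | lts R o b j x v} := hs
      rw [this]
      exact rel_def2 (lts_def hC b j) x A
  have h1 : ∃ G ⊆ ({s | A.Definable₁ L s ∧ y ∈ s} ∪ {{v | lts R o b j x v}} : Set (Set U)),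
      G.Finite ∧ ∀ v, ∃ s ∈ G, v ∉ s := by
    by_contra hno
    push Not at hno
    obtain ⟨v, hv⟩ := sat_fam hC.mon (hA.insert x) hF hno
    obtain ⟨g, hg, hgy⟩ := conj_of_def hC.mon hA (x := y) (y := v)
      (fun s hs hys => hv s (Or.inl ⟨hs, hys⟩))
    apply hcon
    refine ⟨g, hg, ?_⟩
    rw [hgy]
    exact hv _ (Or.inr rfl)
  obtain ⟨G, hGF, hGfin, hG⟩ := h1
  have hGs : (G ∩ {s | A.Definable₁ L s ∧ y ∈ s}).Finite := hGfin.inter_of_left _
  have hs : A.Definable₁ L (⋂₀ (G ∩ {s | A.Definable₁ L s ∧ y ∈ s})) := by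
    have key : ∀ (H : Set (Set U)), H.Finite → (∀ s ∈ H, A.Definable₁ L s) →
        A.Definable₁ L (⋂₀ H) := by
      intro H hH
      refine Set.Finite.induction_on _ hH ?_ ?_
      · intro _
        rw [sInter_empty]
        exact Set.definable_univ
      · intro a H ha _ ih hH'
        rw [sInter_insert]
        exact def_inter (hH' a (mem_insert a H)) (ih (fun s hs => hH' s (mem_insert_of_mem a hs)))
    exact key _ hGs (fun s hs => hs.2.1)
  have hys : y ∈ ⋂₀ (G ∩ {s | A.Definable₁ L s ∧ y ∈ s}) := fun s hs => hs.2.2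
  have hno : ∀ v ∈ ⋂₀ (G ∩ {s | A.Definable₁ L s ∧ y ∈ s}), ¬ lts R o b j x v := by
    intro v hv hxv
    obtain ⟨s, hsG, hvs⟩ := hG v
    rcases hGF hsG with h | h
    · exact hvs (hv s ⟨hsG, h⟩)
    · have : s = {v | lts R o b j x v} := h
      rw [this] at hvs
      exact hvs hxv
  have hxy : x ∈ cel L R o A j y := by
    rw [cel_eq hy]
    exact hx
  obtain ⟨w, hw, hwx⟩ := hull_cel hC hs b hxy hys
  have hwx' : w = x := by
    by_contra hne
    rcases lts_tot hC b j hne with h | h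
    · exact hwx h
    · exact hno w hw h
  rw [hwx'] at hw
  -- `x` is the last point of `s`
  have hxd : A.Definable₁ L {x} := by
    have h0 : (insert x A).Definable₁ L {x} := by
      have h1 : ({x} : Set U) = {v | ¬ R (o j) x v} ∩ {v | R (o j) v x}ᶜ := by
        ext v
        constructor
        · intro hv
          have : v = x := hv
          rw [this]
          exact ⟨hC.irr j x, hC.irr j x⟩
        · rintro ⟨h1, h2⟩
          by_contra hne
          rcases hC.tot j v x hne with h | h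
          · exact h2 h
          · exact h1 h
      rw [h1]
      exact def_inter (le_dc hC j x A).1 (def_compl (lt_dc hC j x A).1)
    refine def_of_fix hC.mon hA (hA.insert x) h0 ?_
    intro g hg v hv
    have hv' : v = x := hv
    rw [hv']
    have e1 := hno _ ((def_mem hs hg x).2 hw)
    have e2 := hno _ ((def_mem hs (fx_symm hg) x).2 hw)
    by_contra hne
    have hne' : g x ≠ x := hne
    rcases lts_tot hC b j hne' with h | h
    · apply e2
      have h3 : lts R o b j (g x) (g (g.symm x)) := by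
        rw [g.apply_symm_apply]
        exact h
      exact (lts_img hC b j _ _ g).1 h3
    · exact e1 h
  exact nd_cel hC hz hx hxd

/-- a cell has no last and no first point -/
theorem exists_lts {A : Set U} (hA : A.Finite) {j : κ} {x z : U} (hz : Nd L A z)
    (hx : x ∈ cel L R o A j z) (b : Bool) : ∃ y ∈ cel L R o A j z, lts R o b j x y := by
  obtain ⟨g, hg, h⟩ := move hC hA hz hx hx b
  exact ⟨g x, (fx_mem_cel hC j x z hg).2 hx, h⟩

/-- a nondefinable point cuts its own cells -/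
theorem sin_self {A : Set U} (hA : A.Finite) (j : κ) {z : U} (hz : Nd L A z) :
    Sin {x | R (o j) x z} (cel L R o A j z) := by
  obtain ⟨y, hy, hy'⟩ := exists_lts hC hA hz (mem_cel A j z) false
  rw [lts_false] at hy'
  exact ⟨⟨y, hy, hy'⟩, ⟨z, mem_cel A j z, hC.irr j z⟩⟩

/-- [SATK] saturation inside a cell -/
theorem sat_cel {A B : Set U} (hB : B.Finite) (hAB : A ⊆ B) {j : κ} {z : U} {F : Set (Set U)}
    (hF : ∀ s ∈ F, B.Definable₁ L s)
    (h : ∀ G ⊆ F, G.Finite → ∃ v ∈ cel L R o A j z, ∀ s ∈ G, v ∈ s) :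
    ∃ v ∈ cel L R o A j z, ∀ s ∈ F, v ∈ s := by
  have hF' : ∀ s ∈ F ∪ {s | A.Definable₁ L s ∧ cel L R o A j z ⊆ s}, B.Definable₁ L s := by
    rintro s (hs | hs)
    · exact hF s hs
    · exact def_mono hAB hs.1
  obtain ⟨v, hv⟩ := sat_fam hC.mon hB hF' (by
    intro G hG hGfin
    obtain ⟨v, hv, hv'⟩ := h (G ∩ F) inter_subset_right (hGfin.inter_of_left _)
    refine ⟨v, fun s hs => ?_⟩
    rcases hG hs with h1 | h1
    · exact hv' s ⟨hs, h1⟩
    · exact h1.2 hv)
  refine ⟨v, ?_, fun s hs => hv s (Or.inl hs)⟩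
  intro C hCC
  constructor
  · intro hvC
    by_contra hzC
    exact hv Cᶜ (Or.inr ⟨def_compl hCC.1, fun y hy hyC => hzC ((hy C hCC).1 hyC)⟩) hvC
  · intro hzC
    exact hv C (Or.inr ⟨hCC.1, fun y hy => (hy C hCC).2 hzC⟩)

/-- a cell over `A` which is not cut by `B` is a cell over `B` -/
theorem cel_of_not_ct {A B : Set U} (hAB : A ⊆ B) {j : κ} {z : U}
    (h : ¬ Ct L R o B j (cel L R o A j z)) : cel L R o B j z = cel L R o A j z := by
  apply Subset.antisymm (cel_anti hAB j z)
  intro y hy C hCC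
  constructor
  · intro hyC
    by_contra hzC
    exact h ⟨C, hCC, ⟨y, hy, hyC⟩, ⟨z, mem_cel A j z, hzC⟩⟩
  · intro hzC
    by_contra hyC
    exact h ⟨C, hCC, ⟨z, mem_cel A j z, hzC⟩, ⟨y, hy, hyC⟩⟩

/-! ### Links and pieces -/

omit hC in
theorem sin_mono {C K K' : Set U} (hK : K ⊆ K') (h : Sin C K) : Sin C K' := by
  obtain ⟨⟨x, hx, hx'⟩, ⟨y, hy, hy'⟩⟩ := h
  exact ⟨⟨x, hK hx, hx'⟩, ⟨y, hK hy, hy'⟩⟩

omit hC in
theorem img_insert' (g : U ≃[L] U) (x : U) (A : Set U) : g '' (insert x A) = insert (g x) (g '' A) :=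
  Set.image_insert_eq

theorem ct_img {A : Set U} {j : κ} {K : Set U} (g : U ≃[L] U) (h : Ct L R o A j K) :
    Ct L R o (g '' A) j (g '' K) := by
  obtain ⟨C, hCd, ⟨x, hx, hx'⟩, ⟨y, hy, hy'⟩⟩ := h
  refine ⟨g '' C, dc_img hC hCd g, ⟨g x, ⟨x, hx, rfl⟩, ⟨x, hx', rfl⟩⟩, ⟨g y, ⟨y, hy, rfl⟩, ?_⟩⟩
  intro h1
  exact hy' ((mem_img_iff g C y).1 h1)

omit hC in
theorem ct_mono {A B : Set U} (hAB : A ⊆ B) {j : κ} {K : Set U} (h : Ct L R o A j K) :
    Ct L R o B j K := by
  obtain ⟨C, hCd, hS⟩ := h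
  exact ⟨C, dc_mono hAB hCd, hS⟩

theorem lk_img1 {A : Set U} {u z : U} (g : U ≃[L] U) (h : Lk L R o A u z) :
    Lk L R o (g '' A) (g u) (g z) := by
  obtain ⟨j, hj⟩ := h
  refine ⟨j, ?_⟩
  have h1 := ct_img hC g hj
  rw [img_cel hC, img_insert'] at h1
  exact h1

theorem lk_img {A : Set U} {u z : U} (g : U ≃[L] U) :
    Lk L R o (g '' A) (g u) (g z) ↔ Lk L R o A u z := by
  constructor
  · intro h
    have h1 := lk_img1 hC g.symm h
    rw [img_symm_img, g.symm_apply_apply, g.symm_apply_apply] at h1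
    exact h1
  · exact lk_img1 hC g

/-- the second point of a link may be changed inside its cell -/
theorem lk_cel2 {A : Set U} {u z z' : U} {j : κ} (hz : z' ∈ cel L R o A j z)
    (h : Lk L R o A u z) : Lk L R o A u z' := by
  obtain ⟨j', hj⟩ := h
  have e : j' = j := hC.uni j' j
  subst e
  refine ⟨j', ?_⟩
  rw [cel_eq hz]
  exact hj

omit hC in
theorem fx_img (A : Set U) {g : U ≃[L] U} (hg : Fx L A g) : g '' A = A := by
  ext x
  constructor
  · rintro ⟨y, hy, rfl⟩
    rw [hg y hy]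
    exact hy
  · intro hx
    exact ⟨x, hx, hg x hx⟩

theorem lk_fx1 {A : Set U} {u z : U} {g h : U ≃[L] U} (hg : Fx L A g) (hh : Fx L A h)
    (H : Lk L R o A u z) : Lk L R o A (g u) (h z) := by
  obtain ⟨j⟩ := hC.ne
  have h1 := lk_img1 hC g H
  rw [fx_img A hg] at h1
  refine lk_cel2 hC (j := j) ?_ h1
  have h2 := fx_cel hC j z hg
  have h3 := fx_cel hC j z hh
  rw [cel_eq h2]
  exact h3

theorem lk_fx {A : Set U} {u z : U} {g h : U ≃[L] U} (hg : Fx L A g) (hh : Fx L A h) :
    Lk L R o A (g u) (h z) ↔ Lk L R o A u z := by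
  constructor
  · intro H
    have h1 := lk_fx1 hC (fx_symm hg) (fx_symm hh) H
    rw [g.symm_apply_apply, h.symm_apply_apply] at h1
    exact h1
  · exact lk_fx1 hC hg hh

theorem lk_self {A : Set U} (hA : A.Finite) {z y : U} (hz : Nd L A z) (j : κ)
    (hy : y ∈ cel L R o A j z) : Lk L R o A z y := by
  refine ⟨j, {x | R (o j) x z}, lt_dc hC j z A, ?_⟩
  rw [cel_eq hy]
  exact sin_self hC hA j hz

theorem lk_nd {A : Set U} {u z : U} (h : Lk L R o A u z) : Nd L A u ∧ Nd L A z := by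
  obtain ⟨j, C, hCd, hS⟩ := h
  refine ⟨?_, ?_⟩
  · intro hcon
    have h1 : A.Definable₁ L C := def1_close hcon hCd.1
    exact not_sin_cel ⟨h1, hCd.2⟩ z hS
  · by_contra hcon
    rw [cel_def hC hcon j] at hS
    obtain ⟨⟨x, hx, hx'⟩, ⟨y, hy, hy'⟩⟩ := hS
    have e1 : x = z := hx
    have e2 : y = z := hy
    rw [e1] at hx'
    rw [e2] at hy'
    exact hy' hx'

omit hC in
theorem mem_pc (A : Set U) (z : U) : z ∈ Pc L R o A z := Relation.EqvGen.refl z

omit hC in
theorem pc_eq {A : Set U} {y z : U} (h : y ∈ Pc L R o A z) :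
    Pc L R o A y = Pc L R o A z := by
  ext x
  constructor
  · intro hx
    exact Relation.EqvGen.trans _ _ _ h hx
  · intro hx
    exact Relation.EqvGen.trans _ _ _ (Relation.EqvGen.symm _ _ h) hx

omit hC in
theorem cls_pc (A : Set U) (z : U) : Cls L R o A (Pc L R o A z) := by
  intro u v huv
  constructor
  · intro hu
    exact Relation.EqvGen.trans _ _ _ hu (Relation.EqvGen.rel _ _ huv)
  · intro hv
    exact Relation.EqvGen.trans _ _ _ hv (Relation.EqvGen.symm _ _ (Relation.EqvGen.rel _ _ huv))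

omit hC in
theorem cls_compl {A Q : Set U} (hQ : Cls L R o A Q) : Cls L R o A Qᶜ :=
  fun u v huv => not_congr (hQ u v huv)

omit hC in
theorem cls_eqv {A Q : Set U} (hQ : Cls L R o A Q) {y z : U}
    (h : Relation.EqvGen (Lk L R o A) y z) : y ∈ Q ↔ z ∈ Q := by
  induction h with
  | rel a b hab => exact hQ a b hab
  | refl a => exact Iff.rfl
  | symm a b _ ih => exact ih.symm
  | trans a b c _ _ ih1 ih2 => exact ih1.trans ih2

omit hC in
theorem pc_sub {A Q : Set U} (hQ : Cls L R o A Q) {z : U} (hz : z ∈ Q) :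
    Pc L R o A z ⊆ Q :=
  fun y hy => (cls_eqv hQ hy).1 hz

theorem pc_nd_aux {A : Set U} {y z : U} (h : Relation.EqvGen (Lk L R o A) y z) :
    y = z ∨ (Nd L A y ∧ Nd L A z) := by
  induction h with
  | rel a b hab => exact Or.inr (lk_nd hC hab)
  | refl a => exact Or.inl rfl
  | symm a b _ ih =>
    rcases ih with h | h
    · exact Or.inl h.symm
    · exact Or.inr h.symm
  | trans a b c _ _ ih1 ih2 =>
    rcases ih1 with h | h
    · rw [h]
      exact ih2
    · rcases ih2 with h' | h'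
      · rw [← h']
        exact Or.inr h
      · exact Or.inr ⟨h.1, h'.2⟩

theorem pc_nd {A : Set U} {y z : U} (h : y ∈ Pc L R o A z) : Nd L A y ↔ Nd L A z := by
  rcases pc_nd_aux hC h with h1 | h1
  · rw [h1]
  · exact ⟨fun _ => h1.1, fun _ => h1.2⟩

theorem pc_def {A : Set U} {z : U} (h : ¬ Nd L A z) : Pc L R o A z = {z} := by
  apply Subset.antisymm
  · intro y hy
    rcases pc_nd_aux hC hy with h1 | h1
    · exact h1.symm
    · exact absurd h1.1 h
  · intro y hy
    have : y = z := hy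
    rw [this]
    exact mem_pc A z

theorem cel_sub_pc {A : Set U} (hA : A.Finite) (j : κ) (z : U) :
    cel L R o A j z ⊆ Pc L R o A z := by
  intro y hy
  by_cases hz : Nd L A z
  · exact Relation.EqvGen.rel _ _ (lk_self hC hA hz j hy)
  · rw [cel_def hC hz j] at hy
    have : y = z := hy
    rw [this]
    exact mem_pc A z

/-- unions of pieces are invariant -/
theorem cls_fx {A Q : Set U} (hA : A.Finite) (hQ : Cls L R o A Q) {g : U ≃[L] U}
    (hg : Fx L A g) (x : U) : g x ∈ Q ↔ x ∈ Q := by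
  by_cases hx : Nd L A x
  · obtain ⟨j⟩ := hC.ne
    exact (hQ x (g x) (lk_self hC hA hx j (fx_cel hC j x hg))).symm
  · unfold Nd at hx
    rw [not_not] at hx
    have h1 : g x = x := (def_mem hx hg x).2 rfl
    rw [h1]

/-- unions of pieces are unions of cells -/
theorem cls_cel {A Q : Set U} (hA : A.Finite) (hQ : Cls L R o A Q) {j : κ} {x y : U}
    (hy : y ∈ cel L R o A j x) : y ∈ Q ↔ x ∈ Q :=
  ((cls_eqv hQ (cel_sub_pc hC hA j x hy))).symm

theorem img_pc_sub {A : Set U} (z : U) (g : U ≃[L] U) :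
    g '' Pc L R o A z ⊆ Pc L R o (g '' A) (g z) := by
  rintro _ ⟨y, hy, rfl⟩
  have hy' : Relation.EqvGen (Lk L R o A) z y := hy
  show Relation.EqvGen (Lk L R o (g '' A)) (g z) (g y)
  induction hy' with
  | rel a b hab => exact Relation.EqvGen.rel _ _ (lk_img1 hC g hab)
  | refl a => exact Relation.EqvGen.refl _
  | symm a b hab ih => exact Relation.EqvGen.symm _ _ (ih hab)
  | trans a b c hab hbc ih1 ih2 => exact Relation.EqvGen.trans _ _ _ (ih1 hab) (ih2 hbc)

theorem img_pc {A : Set U} (z : U) (g : U ≃[L] U) :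
    g '' Pc L R o A z = Pc L R o (g '' A) (g z) := by
  apply Subset.antisymm (img_pc_sub hC z g)
  intro y hy
  have h1 : g.symm y ∈ Pc L R o (g.symm '' (g '' A)) (g.symm (g z)) :=
    img_pc_sub hC (g z) g.symm ⟨y, hy, rfl⟩
  rw [img_symm_img, g.symm_apply_apply] at h1
  exact ⟨g.symm y, h1, g.apply_symm_apply y⟩

end cuts

end Pool.Agent.MNO
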