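import Pool.Agent.MNO.StB
import Pool.Agent.MNO.LBase

/-!
MNO (text of PMC): [BTW] points between finite sets.
-/

set_option autoImplicit false
set_option linter.unusedVariables false

namespace Pool.Agent.MNO

open FirstOrder.Language Set
open scoped FirstOrder
open Pool.Agent.WOM (tp Mon IsEl IsoM CtU Fx Orb)
open Pool.Agent.PMC (Ini ct Dc cel Sin Nd Ct lts ext XS Ex Fa Ll LL Itv Sm Md NPf sd fx_refl fx_symm
  fx_comp fx_mono comp_apply' def_img def_mono def_compl def_inter def_union def_mem def_fix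
  def_of_fix conj_of_def exists_isd exists_fin_def isEl_of_orb mem_orb orb_meets sat_fam rel_fx
  rel_def1 rel_def2 rel_hull rel_swap def_close)

/-- a finite nonempty chain of sets has a least member -/
private theorem BTW_least {U : Type} {G : Set (Set U)} (hG : G.Finite) :
    (∀ a ∈ G, ∀ b ∈ G, a ⊆ b ∨ b ⊆ a) → G.Nonempty → ∃ m ∈ G, ∀ s ∈ G, m ⊆ s := by
  refine Set.Finite.induction_on G hG ?_ ?_
  · rintro - ⟨x, hx⟩
    exact absurd hx (Set.notMem_empty x)
  · intro a S ha hS ih hch _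
    by_cases hne : S.Nonempty
    · obtain ⟨m, hm, hmin⟩ := ih (fun x hx y hy => hch x (Set.mem_insert_of_mem a hx) y
        (Set.mem_insert_of_mem a hy)) hne
      rcases hch a (Set.mem_insert a S) m (Set.mem_insert_of_mem a hm) with h | h
      · refine ⟨a, Set.mem_insert a S, fun s hs => ?_⟩
        rcases hs with rfl | hs
        · exact fun _ hx => hx
        · exact h.trans (hmin s hs)
      · refine ⟨m, Set.mem_insert_of_mem a hm, fun s hs => ?_⟩
        rcases hs with rfl | hs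
        · exact h
        · exact hmin s hs
    · refine ⟨a, Set.mem_insert a S, fun s hs => ?_⟩
      rcases hs with rfl | hs
      · exact fun _ hx => hx
      · exact absurd ⟨s, hs⟩ hne

/-- the side of a cut -/
private def BTW_side {U : Type} (s b : Bool) (C : Set U) : Set U := {y | y ∈ C ↔ s ≠ b}

private theorem BTW_side_eq {U : Type} (s b : Bool) (C : Set U) :
    BTW_side s b C = if s = b then Cᶜ else C := by
  ext y
  by_cases h : s = b
  · simp [BTW_side, h]
  · simp [BTW_side, h]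

private theorem BTW_side_mono {U : Type} (s b : Bool) {C C' : Set U} (h : C ⊆ C' ∨ C' ⊆ C) :
    BTW_side s b C ⊆ BTW_side s b C' ∨ BTW_side s b C' ⊆ BTW_side s b C := by
  rw [BTW_side_eq, BTW_side_eq]
  by_cases hs : s = b
  · rw [if_pos hs, if_pos hs]
    rcases h with h | h
    · exact Or.inr (Set.compl_subset_compl.2 h)
    · exact Or.inl (Set.compl_subset_compl.2 h)
  · rw [if_neg hs, if_neg hs]
    exact h

private theorem BTW_side_def {L : FirstOrder.Language.{0, 0}} {U : Type} [L.Structure U]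
    {B : Set U} (s b : Bool) {C : Set U} (h : B.Definable₁ L C) :
    B.Definable₁ L (BTW_side s b C) := by
  rw [BTW_side_eq]
  split_ifs
  · exact def_compl h
  · exact h

private theorem BTW_side_sin {U : Type} (s b : Bool) {C K : Set U} (h : Sin C K) :
    ∃ x ∈ K, x ∈ BTW_side s b C := by
  rw [BTW_side_eq]
  obtain ⟨⟨x, hx, hxC⟩, y, hy, hyC⟩ := h
  split_ifs
  · exact ⟨y, hy, hyC⟩
  · exact ⟨x, hx, hxC⟩

theorem thm_BTW (h1 : St_FAI) (h2 : St_FTW) (h3 : St_ORD) : St_BTW := by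
  intro L U _ κ R o hC A E sg hO D V hD hV hDE hVE hLL z hz j
  obtain ⟨-, hFa, -⟩ := h1 L U κ R o hC A E sg hO
  obtain ⟨hsym, -⟩ := h3 L U κ R o hC A E sg hO
  have hftw := h2 L U κ R o hC A E sg hO
  set K := cel L R o A j z with hK
  set s := sg (o j) z with hs
  have hB : (A ∪ D ∪ V).Finite := (hO.fin.union hD).union hV
  let F1 : Set (Set U) := {S | ∃ d ∈ D, ∃ C, Dc L R o (insert d A) j C ∧ Sin C K ∧
    S = BTW_side s true C}
  let F2 : Set (Set U) := {S | ∃ v ∈ V, ∃ C, Dc L R o (insert v A) j C ∧ Sin C K ∧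
    S = BTW_side s false C}
  have hdef : ∀ S ∈ F1 ∪ F2, (A ∪ D ∪ V).Definable₁ L S := by
    rintro S (⟨d, hd, C, hCd, -, rfl⟩ | ⟨v, hv, C, hCd, -, rfl⟩)
    · refine BTW_side_def s true (def_mono ?_ hCd.1)
      rintro x (rfl | hx)
      · exact Or.inl (Or.inr hd)
      · exact Or.inl (Or.inl hx)
    · refine BTW_side_def s false (def_mono ?_ hCd.1)
      rintro x (rfl | hx)
      · exact Or.inr hv
      · exact Or.inl (Or.inl hx)
  have hfin : ∀ G ⊆ F1 ∪ F2, G.Finite → ∃ v ∈ cel L R o A j z, ∀ S ∈ G, v ∈ S := by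
    intro G hG hGf
    have hch1 : ∀ a ∈ G ∩ F1, ∀ b ∈ G ∩ F1, a ⊆ b ∨ b ⊆ a := by
      rintro a ⟨-, d, -, C, hCd, -, rfl⟩ b ⟨-, d', -, C', hCd', -, rfl⟩
      exact BTW_side_mono s true (ini_total hC hCd.2 hCd'.2)
    have hch2 : ∀ a ∈ G ∩ F2, ∀ b ∈ G ∩ F2, a ⊆ b ∨ b ⊆ a := by
      rintro a ⟨-, d, -, C, hCd, -, rfl⟩ b ⟨-, d', -, C', hCd', -, rfl⟩
      exact BTW_side_mono s false (ini_total hC hCd.2 hCd'.2)
    by_cases hn1 : (G ∩ F1).Nonempty
    · obtain ⟨m1, ⟨-, d, hd, C, hCd, hCs, rfl⟩, hmin1⟩ := BTW_least (hGf.inter_of_left F1) hch1 hn1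
      by_cases hn2 : (G ∩ F2).Nonempty
      · obtain ⟨m2, ⟨-, v, hv, C', hCv, hCs', rfl⟩, hmin2⟩ :=
          BTW_least (hGf.inter_of_left F2) hch2 hn2
        have hfv : Fa L R o A sg false v d :=
          (hsym d (hDE hd) v (hVE hv) true).1 (hLL d hd v hv)
        obtain ⟨y, hy, hy1, hy2⟩ := hftw v (hVE hv) d (hDE hd) false hfv z hz j C C' hCd hCv hCs hCs'
        refine ⟨y, hy, fun S hS => ?_⟩
        rcases hG hS with h | h
        · exact hmin1 S ⟨hS, h⟩ hy1
        · exact hmin2 S ⟨hS, h⟩ hy2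
      · obtain ⟨y, hy, hy1⟩ := BTW_side_sin s true hCs
        refine ⟨y, hy, fun S hS => ?_⟩
        rcases hG hS with h | h
        · exact hmin1 S ⟨hS, h⟩ hy1
        · exact absurd ⟨S, hS, h⟩ hn2
    · by_cases hn2 : (G ∩ F2).Nonempty
      · obtain ⟨m2, ⟨-, v, hv, C', hCv, hCs', rfl⟩, hmin2⟩ :=
          BTW_least (hGf.inter_of_left F2) hch2 hn2
        obtain ⟨y, hy, hy1⟩ := BTW_side_sin s false hCs'
        refine ⟨y, hy, fun S hS => ?_⟩
        rcases hG hS with h | h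
        · exact absurd ⟨S, hS, h⟩ hn1
        · exact hmin2 S ⟨hS, h⟩ hy1
      · refine ⟨z, mem_cel A j z, fun S hS => ?_⟩
        rcases hG hS with h | h
        · exact absurd ⟨S, hS, h⟩ hn1
        · exact absurd ⟨S, hS, h⟩ hn2
  obtain ⟨p, hp, hpF⟩ := sat_cel hC hB (fun x hx => Or.inl (Or.inl hx)) hdef hfin
  have hpE : p ∈ E := pc_sub hO.clo hz (cel_sub_pc hC hO.fin j z hp)
  have hcel : cel L R o A j p = K := cel_eq hp
  have hsg : sg (o j) p = s := hO.cst j z hz p hp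
  refine ⟨p, hp, ?_, ?_⟩
  · rintro d hd v rfl
    refine hFa d (hDE hd) v hpE true j ?_
    intro C hCd hCs
    rw [hcel] at hCs
    rw [hsg]
    exact hpF (BTW_side s true C) (Or.inl ⟨d, hd, C, hCd, hCs, rfl⟩)
  · rintro d rfl v hv
    refine (hsym d hpE v (hVE hv) true).2 ?_
    refine hFa v (hVE hv) d hpE false j ?_
    intro C hCd hCs
    rw [hcel] at hCs
    rw [hsg]
    exact hpF (BTW_side s false C) (Or.inr ⟨v, hv, C, hCd, hCs, rfl⟩)

end Pool.Agent.MNO
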