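import Pool.Agent.MNO.Base

/-!
MNO: base lemmas, second part, module NBA: finite equivalence relations on tuples, strong types,
the automorphisms `Nx L A g` (helper30).
-/

set_option autoImplicit false
set_option linter.unusedVariables false
set_option linter.unusedSectionVars false

namespace Pool.Agent.MNO

open FirstOrder.Language Set
open scoped FirstOrder
open Pool.Agent.WOM (tp Mon IsEl IsoM CtU Fx Orb)
open Pool.Agent.PMC (Ini ct Dc cel Sin Nd Ct lts ext XS Ex Fa Ll LL Itv Sm Md NPf fx_refl fx_symm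
  fx_comp fx_mono comp_apply' def_img def_mono def_compl def_inter def_union def_mem def_fix
  def_of_fix conj_of_def exists_isd exists_fin_def isEl_of_orb mem_orb orb_meets sat_fam rel_fx
  rel_def1 rel_def2 rel_hull rel_swap def_close)

variable {L : FirstOrder.Language.{0, 0}} {U : Type} [L.Structure U] {κ : Type}
  {R : κ → U → U → Prop} {o : κ → κ}

/-! ### NBA: finite equivalence relations, strong types, the group -/

section nba

variable {α β : Type}

/-- finitely many representatives, transported along a relation -/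
private theorem fin_cover {X Y : Type} {s : Set Y} (hs : s.Finite) {Q : X → Y → Prop}
    (h : ∀ x, ∃ y ∈ s, Q x y) :
    ∃ t : Set X, t.Finite ∧ ∀ x, ∃ x' ∈ t, ∃ y ∈ s, Q x y ∧ Q x' y := by
  choose r hr hQ using h
  obtain ⟨t, -, ht⟩ := exists_subset_bijOn (univ : Set X) r
  have h1 : (r '' (univ : Set X)).Finite := hs.subset (by
    rintro _ ⟨x, -, rfl⟩
    exact hr x)
  refine ⟨t, Set.Finite.of_finite_image (by rw [ht.image_eq]; exact h1) ht.injOn, fun x => ?_⟩
  have h2 : r x ∈ r '' t := by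
    rw [ht.image_eq]
    exact ⟨x, mem_univ x, rfl⟩
  obtain ⟨x', hx', e⟩ := h2
  refine ⟨x', hx', r x, hr x, hQ x, ?_⟩
  rw [← e]
  exact hQ x'

theorem fe_mono {A B : Set U} (hAB : A ⊆ B) {E : (α → U) → (α → U) → Prop} (h : FE L A E) :
    FE L B E := ⟨dp_mono hAB h.dfn, h.eqv, h.fin⟩

theorem fe_top (A : Set U) : FE L A (fun _ _ : α → U => True) := by
  refine ⟨dp_true, ⟨fun _ => trivial, fun _ => trivial, fun _ _ => trivial⟩, ?_⟩
  obtain ⟨t, ht, h⟩ := fin_cover (X := α → U) (s := (univ : Set Unit)) finite_univ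
    (Q := fun _ _ => True) (fun x => ⟨(), mem_univ _, trivial⟩)
  refine ⟨t, ht, fun x => ?_⟩
  obtain ⟨x', hx', -⟩ := h x
  exact ⟨x', hx', trivial⟩

theorem fe_inter {A : Set U} {E E' : (α → U) → (α → U) → Prop} (h : FE L A E) (h' : FE L A E') :
    FE L A (fun x y => E x y ∧ E' x y) := by
  refine ⟨dp_and h.dfn h'.dfn, ?_, ?_⟩
  · exact ⟨fun x => ⟨h.eqv.refl x, h'.eqv.refl x⟩,
      fun hxy => ⟨h.eqv.symm hxy.1, h'.eqv.symm hxy.2⟩,
      fun hxy hyz => ⟨h.eqv.trans hxy.1 hyz.1, h'.eqv.trans hxy.2 hyz.2⟩⟩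
  · obtain ⟨s, hs, hs'⟩ := h.fin
    obtain ⟨t, ht, ht'⟩ := h'.fin
    obtain ⟨r, hr, hr'⟩ := fin_cover (X := α → U) (hs.prod ht)
      (Q := fun x p => E x p.1 ∧ E' x p.2) (by
      intro x
      obtain ⟨a, ha, hxa⟩ := hs' x
      obtain ⟨b, hb, hxb⟩ := ht' x
      exact ⟨(a, b), ⟨ha, hb⟩, hxa, hxb⟩)
    refine ⟨r, hr, fun x => ?_⟩
    obtain ⟨x', hx', p, -, h1, h2⟩ := hr' x
    exact ⟨x', hx', h.eqv.trans h1.1 (h.eqv.symm h2.1), h'.eqv.trans h1.2 (h'.eqv.symm h2.2)⟩

/-- finitely many finite equivalence relations have a common refinement -/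
theorem fe_inf {A : Set U} {G : Set ((α → U) → (α → U) → Prop)} (hG : G.Finite)
    (h : ∀ E ∈ G, FE L A E) : ∃ E, FE L A E ∧ ∀ E' ∈ G, ∀ x y, E x y → E' x y := by
  induction G, hG using Set.Finite.induction_on with
  | empty => exact ⟨_, fe_top A, fun E' h => absurd h (notMem_empty _)⟩
  | @insert a t _ _ ih =>
    obtain ⟨E, hE, hE'⟩ := ih (fun E hE => h E (mem_insert_of_mem a hE))
    refine ⟨_, fe_inter (h a (mem_insert a t)) hE, ?_⟩
    rintro F (rfl | hF) x y ⟨h1, h2⟩
    · exact h1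
    · exact hE' F hF x y h2

/-- substitution of variables -/
theorem fe_sub {A : Set U} {E : (α → U) → (α → U) → Prop} (h : FE L A E) (f : α → β) :
    FE L A (fun x y : β → U => E (fun i => x (f i)) (fun i => y (f i))) := by
  refine ⟨dp_sub h.dfn (Sum.map f f), ?_, ?_⟩
  · exact ⟨fun x => h.eqv.refl _, fun hxy => h.eqv.symm hxy, fun hxy hyz => h.eqv.trans hxy hyz⟩
  · obtain ⟨s, hs, hs'⟩ := h.fin
    obtain ⟨r, hr, hr'⟩ := fin_cover (X := β → U) hs
      (Q := fun x p => E (fun i => x (f i)) p) (fun x => hs' _)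
    refine ⟨r, hr, fun x => ?_⟩
    obtain ⟨x', hx', p, -, h1, h2⟩ := hr' x
    exact ⟨x', hx', h.eqv.trans h1 (h.eqv.symm h2)⟩

/-- the classes are definable -/
theorem fe_def [Finite α] {A : Set U} {E : (α → U) → (α → U) → Prop} (h : FE L A E) (x : α → U) :
    Dp L (A ∪ range x) (fun y => E x y) := by
  have h1 : Dp L (A ∪ range x) (fun v : α ⊕ α → U =>
      E (fun i => v (Sum.inr i)) (fun i => v (Sum.inl i))) :=
    dp_sub (dp_mono subset_union_left h.dfn) Sum.swap
  exact dp_par h1 x (fun i => Or.inr ⟨i, rfl⟩)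

/-- membership in an `A`-definable set -/
theorem fe_of_dp {A : Set U} {P : (α → U) → Prop} (h : Dp L A P) :
    FE L A (fun x y => P x ↔ P y) := by
  refine ⟨dp_iff (dp_sub h Sum.inl) (dp_sub h Sum.inr), ?_, ?_⟩
  · exact ⟨fun x => Iff.rfl, fun hxy => hxy.symm, fun hxy hyz => hxy.trans hyz⟩
  · obtain ⟨r, hr, hr'⟩ := fin_cover (X := α → U) (s := (univ : Set Prop)) finite_univ
      (Q := fun x p => P x ↔ p) (fun x => ⟨P x, mem_univ _, Iff.rfl⟩)
    refine ⟨r, hr, fun x => ?_⟩
    obtain ⟨x', hx', p, -, h1, h2⟩ := hr' x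
    exact ⟨x', hx', h1.trans h2.symm⟩

/-- the image of a finite equivalence relation -/
private theorem fe_img {A : Set U} {E : (α → U) → (α → U) → Prop} (h : FE L A E) (g : U ≃[L] U) :
    FE L (g '' A) (fun x y => E (fun i => g.symm (x i)) (fun i => g.symm (y i))) := by
  refine ⟨dp_img h.dfn g, ?_, ?_⟩
  · exact ⟨fun x => h.eqv.refl _, fun hxy => h.eqv.symm hxy, fun hxy hyz => h.eqv.trans hxy hyz⟩
  · obtain ⟨s, hs, hs'⟩ := h.fin
    obtain ⟨r, hr, hr'⟩ := fin_cover (X := α → U) hs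
      (Q := fun x p => E (fun i => g.symm (x i)) p) (fun x => hs' _)
    refine ⟨r, hr, fun x => ?_⟩
    obtain ⟨x', hx', p, -, h1, h2⟩ := hr' x
    exact ⟨x', hx', h.eqv.trans h1 (h.eqv.symm h2)⟩

theorem sq_refl (A : Set U) (x : α → U) : Sq L A x x := fun E hE => hE.eqv.refl x

theorem sq_symm {A : Set U} {x y : α → U} (h : Sq L A x y) : Sq L A y x :=
  fun E hE => hE.eqv.symm (h E hE)

theorem sq_trans {A : Set U} {x y z : α → U} (h : Sq L A x y) (h' : Sq L A y z) :
    Sq L A x z := fun E hE => hE.eqv.trans (h E hE) (h' E hE)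

theorem sq_mono {A B : Set U} (hAB : A ⊆ B) {x y : α → U} (h : Sq L B x y) : Sq L A x y :=
  fun E hE => h E (fe_mono hAB hE)

/-- subtuples -/
theorem sq_sub {A : Set U} {x y : α → U} (h : Sq L A x y) (f : β → α) :
    Sq L A (fun i => x (f i)) (fun i => y (f i)) := fun E hE => h _ (fe_sub hE f)

/-- parameters may be added to the tuples -/
theorem sq_add {A : Set U} {x y : α → U} (h : Sq L A x y) (c : β → U) (hc : ∀ i, c i ∈ A) :
    Sq L A (Sum.elim x c) (Sum.elim y c) := by
  intro E hE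
  refine h (fun x y => E (Sum.elim x c) (Sum.elim y c)) ⟨?_, ?_, ?_⟩
  · have h1 := dp_par (dp_sub hE.dfn (Sum.elim
      (Sum.elim (fun i => Sum.inl (Sum.inl i)) (fun j => Sum.inr j))
      (Sum.elim (fun i => Sum.inl (Sum.inr i)) (fun j => Sum.inr j)) :
        (α ⊕ β) ⊕ (α ⊕ β) → (α ⊕ α) ⊕ β)) c hc
    refine dp_congr h1 (fun v => iff_of_eq ?_)
    congr 1
    · funext i
      rcases i with i | i <;> rfl
    · funext i
      rcases i with i | i <;> rfl
  · exact ⟨fun x => hE.eqv.refl _, fun hxy => hE.eqv.symm hxy,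
      fun hxy hyz => hE.eqv.trans hxy hyz⟩
  · obtain ⟨s, hs, hs'⟩ := hE.fin
    obtain ⟨r, hr, hr'⟩ := fin_cover (X := α → U) hs
      (Q := fun x p => E (Sum.elim x c) p) (fun x => hs' _)
    refine ⟨r, hr, fun x => ?_⟩
    obtain ⟨x', hx', p, -, h1, h2⟩ := hr' x
    exact ⟨x', hx', hE.eqv.trans h1 (hE.eqv.symm h2)⟩

/-- definable properties -/
theorem sq_dp {A : Set U} {x y : α → U} (h : Sq L A x y) {P : (α → U) → Prop} (hP : Dp L A P) :
    P x ↔ P y := h _ (fe_of_dp hP)

/-- automorphisms move strong types -/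
theorem sq_img {A : Set U} {x y : α → U} (g : U ≃[L] U) (h : Sq L A x y) :
    Sq L (g '' A) (fun i => g (x i)) (fun i => g (y i)) := by
  intro E hE
  have h1 := fe_img hE g.symm
  rw [img_symm_img] at h1
  exact h _ h1

theorem sq_fx {A : Set U} {x y : α → U} {g : U ≃[L] U} (hg : Fx L A g) :
    Sq L A (fun i => g (x i)) (fun i => g (y i)) ↔ Sq L A x y := by
  constructor
  · intro h
    have h1 := sq_img g.symm h
    rw [fx_img A (fx_symm hg)] at h1
    have e : ∀ z : α → U, (fun i => g.symm (g (z i))) = z := by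
      intro z
      funext i
      exact g.symm_apply_apply (z i)
    have h2 : Sq L A (fun i => g.symm (g (x i))) (fun i => g.symm (g (y i))) := h1
    rw [e x, e y] at h2
    exact h2
  · intro h
    have h1 := sq_img g h
    rw [fx_img A hg] at h1
    exact h1

theorem nx_fx {A : Set U} {g : U ≃[L] U} (h : Nx L A g) : Fx L A g := h.1

/-- `Nx` and tuples over any finite index type -/
theorem nx_sq [Finite α] {A : Set U} {g : U ≃[L] U} (h : Nx L A g) (x : α → U) :
    Sq L A x (fun i => g (x i)) := by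
  obtain ⟨n, ⟨e⟩⟩ := Finite.exists_equiv_fin α
  have h1 := sq_sub (h.2 n (fun i => x (e.symm i))) e
  have e1 : (fun i => x (e.symm (e i))) = x := by
    funext i
    rw [e.symm_apply_apply]
  have e2 : (fun i => g (x (e.symm (e i)))) = fun i => g (x i) := by
    funext i
    rw [e.symm_apply_apply]
  have h2 : Sq L A (fun i => x (e.symm (e i))) (fun i => g (x (e.symm (e i)))) := h1
  rw [e1, e2] at h2
  exact h2

theorem nx_refl (A : Set U) : Nx L A (FirstOrder.Language.Equiv.refl L U) :=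
  ⟨fx_refl A, fun n x => sq_refl A x⟩

theorem nx_symm {A : Set U} {g : U ≃[L] U} (h : Nx L A g) : Nx L A g.symm := by
  refine ⟨fx_symm h.1, fun n x => ?_⟩
  have h1 := h.2 n (fun i => g.symm (x i))
  have e : (fun i => g (g.symm (x i))) = x := by
    funext i
    exact g.apply_symm_apply (x i)
  rw [e] at h1
  exact sq_symm h1

theorem nx_comp {A : Set U} {g h : U ≃[L] U} (hg : Nx L A g) (hh : Nx L A h) :
    Nx L A (g.comp h) :=
  ⟨fx_comp hg.1 hh.1, fun n x => sq_trans (hh.2 n x) (hg.2 n (fun i => h (x i)))⟩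

theorem nx_mono {A B : Set U} (hAB : A ⊆ B) {g : U ≃[L] U} (h : Nx L B g) : Nx L A g :=
  ⟨fx_mono hAB h.1, fun n x => sq_mono hAB (h.2 n x)⟩

/-- conjugates; `A` may be fixed by `g` or not -/
theorem nx_conj (hM : Mon L U) {A : Set U} (g : U ≃[L] U) {h : U ≃[L] U} (hh : Nx L A h) :
    Nx L (g '' A) (g.comp (h.comp g.symm)) := by
  refine ⟨?_, fun n x => ?_⟩
  · rintro _ ⟨a, ha, rfl⟩
    rw [comp_apply', comp_apply', g.symm_apply_apply, hh.1 a ha]
  · have h1 := sq_img g (hh.2 n (fun i => g.symm (x i)))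
    have e : (fun i => g (g.symm (x i))) = x := by
      funext i
      exact g.apply_symm_apply (x i)
    rw [e] at h1
    exact h1

theorem nx_conj_fx (hM : Mon L U) {A : Set U} {g h : U ≃[L] U} (hg : Fx L A g) (hh : Nx L A h) :
    Nx L A (g.comp (h.comp g.symm)) := by
  have h1 := nx_conj hM g hh
  rw [fx_img A hg] at h1
  exact h1

/-- an automorphism which is on every finite set in `Nx` is in `Nx` -/
theorem nx_glue {A : Set U} {h : U ≃[L] U}
    (H : ∀ s : Set U, s.Finite → ∃ g : U ≃[L] U, Nx L A g ∧ ∀ x ∈ s, g x = h x) :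
    Nx L A h := by
  refine ⟨fun a ha => ?_, fun n x => ?_⟩
  · obtain ⟨g, hg, hga⟩ := H {a} (finite_singleton a)
    rw [← hga a rfl]
    exact hg.1 a ha
  · obtain ⟨g, hg, hgx⟩ := H (range x) (finite_range x)
    have e : (fun i => h (x i)) = fun i => g (x i) := by
      funext i
      exact (hgx (x i) ⟨i, rfl⟩).symm
    rw [e]
    exact hg.2 n x

/-- limits: a permutation which is on every finite set in `Nx` is an automorphism in `Nx` -/
theorem nx_lim {A : Set U} (f : U ≃ U)
    (H : ∀ s : Set U, s.Finite → ∃ g : U ≃[L] U, Nx L A g ∧ ∀ x ∈ s, g x = f x) :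
    ∃ h : U ≃[L] U, Nx L A h ∧ ∀ x, h x = f x := by
  have h1 : ∀ {n : ℕ} (F : L.Functions n) (x : Fin n → U),
      f (FirstOrder.Language.Structure.funMap F x) =
        FirstOrder.Language.Structure.funMap F (f ∘ x) := by
    intro n F x
    obtain ⟨g, hg, hgx⟩ := H (insert (FirstOrder.Language.Structure.funMap F x) (range x))
      ((finite_range x).insert _)
    have e : f ∘ x = g ∘ x := by
      funext i
      exact (hgx (x i) (mem_insert_of_mem _ ⟨i, rfl⟩)).symm
    rw [e, ← hgx _ (mem_insert _ _)]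
    exact FirstOrder.Language.HomClass.map_fun g F x
  have h2 : ∀ {n : ℕ} (r : L.Relations n) (x : Fin n → U),
      FirstOrder.Language.Structure.RelMap r (f ∘ x) ↔
        FirstOrder.Language.Structure.RelMap r x := by
    intro n r x
    obtain ⟨g, hg, hgx⟩ := H (range x) (finite_range x)
    have e : f ∘ x = g ∘ x := by
      funext i
      exact (hgx (x i) ⟨i, rfl⟩).symm
    rw [e]
    exact FirstOrder.Language.StrongHomClass.map_rel g r x
  let h : U ≃[L] U := { toEquiv := f, map_fun' := h1, map_rel' := h2 }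
  refine ⟨h, nx_glue (fun s hs => ?_), fun x => rfl⟩
  obtain ⟨g, hg, hgx⟩ := H s hs
  exact ⟨g, hg, hgx⟩

end nba

end Pool.Agent.MNO
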