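import Pool.Agent.MNO.StD

/-!
MNO: [END] the count (helper50).
-/

set_option autoImplicit false
set_option linter.unusedVariables false

namespace Pool.Agent.MNO

open FirstOrder.Language Set
open scoped FirstOrder
open Pool.Agent.WOM (tp Mon IsEl IsoM CtU Fx Orb CtT PerfT ThS Small)
open Pool.Agent.PMC (Ini ct Dc cel Sin Nd Ct lts ext XS Ex Fa Ll LL Itv Sm Md NPf rel)

/-- countably many classes from countably many values -/
private theorem MEND_ct {L : FirstOrder.Language.{0, 0}} {U : Type} [L.Structure U] {T : Type}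
    [Countable T] (c : T → Set U → Prop)
    (h1 : ∀ M, IsEl L M → ∃ t, c t M)
    (h2 : ∀ M M' t, IsEl L M → IsEl L M' → c t M → c t M' → IsoM L M M') : CtU L U := by
  classical
  rcases isEmpty_or_nonempty T with hT | hT
  · refine ⟨fun _ => ∅, fun M hM => ?_⟩
    obtain ⟨t, -⟩ := h1 M hM
    exact hT.elim t
  · obtain ⟨e, he⟩ := exists_surjective_nat T
    refine ⟨fun n => if h : ∃ M, IsEl L M ∧ c (e n) M then h.choose else ∅, fun M hM => ?_⟩
    obtain ⟨t, ht⟩ := h1 M hM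
    obtain ⟨n, rfl⟩ := he t
    have h : ∃ M, IsEl L M ∧ c (e n) M := ⟨M, hM, ht⟩
    refine ⟨n, ?_⟩
    simp only [dif_pos h]
    exact h2 M _ (e n) hM h.choose_spec.1 ht h.choose_spec.2

theorem thm_END (hFIN : St_FIN) (hNRF : St_NRF) (hPCC : St_PCC) (hSMN : St_SMN) : St_END := by
  classical
  intro L U _ κ R o hC hN
  have hFN : FinN L U := hFIN L U κ R o hC hN
  obtain ⟨-, s2, s3, -, s5, s6, -, s8⟩ := hSMN L U κ R o hC
  set N : Set (Set U) :=
    {Q : Set U | ∃ z, Q = Pc L R o ∅ z ∧ ∃ M, Md L ∅ M ∧ ¬ SmN L ∅ (M ∩ Q) Q} with hNdef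
  have hfin : N.Finite := hNRF L U κ R o hC hN hFN ∅ Set.finite_empty
  have hNf : Finite N := hfin
  have hc : ∀ Q : N, ∃ c : ℕ → Set U, ∀ M : Set U, IsEl L M → ∃ n,
      SmN L ∅ (M ∩ (Q : Set U)) (c n ∩ (Q : Set U)) := by
    rintro ⟨Q, z, rfl, hz⟩
    exact hPCC L U κ R o hC hN hFN z
  choose c hc using hc
  refine MEND_ct (T := N → ℕ)
    (fun t M => ∀ Q : N, SmN L ∅ (M ∩ (Q : Set U)) (c Q (t Q) ∩ (Q : Set U))) ?_ ?_
  · intro M hM
    choose t ht using fun Q => hc Q M hM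
    exact ⟨t, ht⟩
  · intro M M' t hM hM' h h'
    have hpc : ∀ v : U, SmN L ∅ (M ∩ Pc L R o ∅ v) (M' ∩ Pc L R o ∅ v) := by
      intro v
      by_cases hv : Pc L R o ∅ v ∈ N
      · exact s3 _ _ _ _ (h ⟨_, hv⟩) (s2 _ _ _ (h' ⟨_, hv⟩))
      · have hr : ∀ M'' : Set U, IsEl L M'' → SmN L ∅ (M'' ∩ Pc L R o ∅ v) (Pc L R o ∅ v) := by
          intro M'' hM''
          by_contra hcon
          exact hv ⟨v, rfl, M'', ⟨hM'', Set.empty_subset _⟩, hcon⟩
        exact s3 _ _ _ _ (hr M hM) (s2 _ _ _ (hr M' hM'))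
    have h1 := s6 ∅ Set.univ M M' Set.finite_empty (fun x y _ => by simp) (fun z _ => hpc z)
    rw [Set.inter_univ, Set.inter_univ] at h1
    exact (s8 ∅ M M' M' (s5 ∅ ∅ M M' (Set.Subset.refl _) h1).2).2.2

end Pool.Agent.MNO
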