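
import Pool.Agent.MNO.StB
import Pool.Agent.MNO.LBase

/-!
MNO: extreme cells.
-/

set_option autoImplicit false
set_option linter.unusedVariables false

namespace Pool.Agent.MNO

open FirstOrder.Language Set
open scoped FirstOrder
open Pool.Agent.WOM (tp Mon IsEl IsoM CtU Fx Orb)
open Pool.Agent.PMC (Ini ct Dc cel Sin Nd Ct lts ext XS Ex Fa Ll LL Itv Sm Md NPf fx_refl fx_symm
  fx_comp fx_mono comp_apply' def_img def_mono def_compl def_inter def_union def_mem def_fix
  def_of_fix conj_of_def exists_isd exists_fin_def isEl_of_orb mem_orb orb_meets sat_fam rel_fx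
  rel_def1 rel_def2 rel_hull rel_swap def_close)

section EXB

variable {L : FirstOrder.Language.{0, 0}} {U : Type} [L.Structure U] {κ : Type}
  {R : κ → U → U → Prop} {o : κ → κ}

private theorem EXB_trans (hC : Cx L R o) {b : Bool} {j : κ} {x y z : U}
    (h1 : lts R o b j x y) (h2 : lts R o b j y z) : lts R o b j x z := by
  cases b
  · simp only [lts, Bool.false_eq_true, if_false] at *
    exact hC.tra j _ _ _ h2 h1
  · simp only [lts, if_true] at *
    exact hC.tra j _ _ _ h1 h2

private theorem EXB_irr (hC : Cx L R o) {b : Bool} {j : κ} {x : U} : ¬ lts R o b j x x := by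
  cases b
  · simp only [lts, Bool.false_eq_true, if_false]
    exact hC.irr j x
  · simp only [lts, if_true]
    exact hC.irr j x

private theorem EXB_tot (hC : Cx L R o) {b : Bool} {j : κ} {x y : U} (h : x ≠ y) :
    lts R o b j x y ∨ lts R o b j y x := by
  cases b
  · simp only [lts, Bool.false_eq_true, if_false]
    exact (hC.tot j x y h).symm
  · simp only [lts, if_true]
    exact hC.tot j x y h

/-- a cut in the direction `b` -/
private def EXB_side (b : Bool) (C : Set U) : Set U := {x | x ∈ C ↔ b = false}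

private theorem EXB_up {b : Bool} {j : κ} {C : Set U} (hI : Ini R o j C) {x y : U}
    (hx : x ∈ EXB_side b C) (hxy : lts R o b j x y) : y ∈ EXB_side b C := by
  cases b
  · simp only [lts, Bool.false_eq_true, if_false, EXB_side, Set.mem_ofPred_eq, iff_true] at *
    exact hI x hx y hxy
  · simp only [lts, if_true, EXB_side, Set.mem_ofPred_eq, Bool.true_eq_false, iff_false] at *
    exact fun hy => hx (hI y hy x hxy)

private theorem EXB_def {b : Bool} {B C : Set U} (hd : B.Definable₁ L C) :
    B.Definable₁ L (EXB_side b C) := by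
  cases b
  · have : EXB_side false C = C := by
      ext x; simp [EXB_side]
    rw [this]; exact hd
  · have : EXB_side true C = Cᶜ := by
      ext x; simp [EXB_side]
    rw [this]; exact def_compl hd

private theorem EXB_sin {b : Bool} {C K : Set U} (h : Sin C K) : ∃ x ∈ K, x ∈ EXB_side b C := by
  cases b
  · obtain ⟨⟨x, hx, hxC⟩, -⟩ := h
    exact ⟨x, hx, by simpa [EXB_side] using hxC⟩
  · obtain ⟨-, ⟨x, hx, hxC⟩⟩ := h
    exact ⟨x, hx, by simpa [EXB_side] using hxC⟩

private theorem EXB_one (hC : Cx L R o) {A B : Set U} {j : κ} {z : U} {b : Bool} (hAB : A ⊆ B)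
    (hB : B.Finite) : (ext L R o b B j (cel L R o A j z)).Nonempty := by
  obtain ⟨v, hv, hv2⟩ := sat_cel hC hB hAB (j := j) (z := z)
    (F := {s | ∃ C, Dc L R o B j C ∧ Sin C (cel L R o A j z) ∧ s = EXB_side b C})
    (by
      rintro s ⟨C, hD, -, rfl⟩
      exact EXB_def hD.1)
    (by
      intro G hG hGf
      induction G, hGf using Set.Finite.induction_on with
      | empty => exact ⟨z, mem_cel A j z, by simp⟩
      | insert hn hf ih =>
        rename_i s G
        obtain ⟨v, hv, hvG⟩ := ih (fun t ht => hG (Set.mem_insert_of_mem _ ht))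
        obtain ⟨C, hD, hS, hs⟩ := hG (Set.mem_insert s G)
        obtain ⟨x, hx, hxC⟩ := EXB_sin (b := b) hS
        by_cases hvx : v = x
        · refine ⟨x, hx, ?_⟩
          intro t ht
          rcases ht with rfl | ht
          · rw [hs]; exact hxC
          · exact hvx ▸ hvG t ht
        · rcases EXB_tot hC (b := b) (j := j) hvx with h | h
          · refine ⟨x, hx, ?_⟩
            intro t ht
            rcases ht with rfl | ht
            · rw [hs]; exact hxC
            · obtain ⟨C', hD', hS', ht'⟩ := hG (Set.mem_insert_of_mem s ht)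
              have := hvG t ht
              rw [ht'] at this ⊢
              exact EXB_up hD'.2 this h
          · refine ⟨v, hv, ?_⟩
            intro t ht
            rcases ht with rfl | ht
            · rw [hs]; exact EXB_up hD.2 hxC h
            · exact hvG t ht)
  exact ⟨v, hv, fun C hD hS => hv2 _ ⟨C, hD, hS, rfl⟩⟩

private theorem EXB_two (hC : Cx L R o) {A B : Set U} {j : κ} {z : U} {b : Bool} (hAB : A ⊆ B)
    {v : U} (hv : v ∈ ext L R o b B j (cel L R o A j z)) :
    cel L R o B j v = ext L R o b B j (cel L R o A j z) := by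
  apply Set.Subset.antisymm
  · intro v' hv'
    refine ⟨?_, fun C hD hS => ?_⟩
    · have h1 := cel_anti hAB j v hv'
      rwa [cel_eq hv.1] at h1
    · exact (hv' C hD).trans (hv.2 C hD hS)
  · intro v' hv' C hD
    by_cases hS : Sin C (cel L R o A j z)
    · exact (hv'.2 C hD hS).trans (hv.2 C hD hS).symm
    · constructor
      · intro h
        by_contra hn
        exact hS ⟨⟨v', hv'.1, h⟩, ⟨v, hv.1, hn⟩⟩
      · intro h
        by_contra hn
        exact hS ⟨⟨v, hv.1, h⟩, ⟨v', hv'.1, hn⟩⟩

private theorem EXB_four (hC : Cx L R o) {A B : Set U} {j : κ} {z : U} {b : Bool} (hAB : A ⊆ B)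
    (hB : B.Finite) (hz : Nd L A z) {p : U} (hp : p ∈ cel L R o A j z) :
    ∃ v ∈ ext L R o b B j (cel L R o A j z), lts R o b j p v := by
  obtain ⟨v, hv⟩ := EXB_one hC (A := A) (B := insert p B) (j := j) (z := z) (b := b)
    (hAB.trans (Set.subset_insert p B)) (hB.insert p)
  refine ⟨v, ⟨hv.1, fun C hD hS => hv.2 C (dc_mono (Set.subset_insert p B) hD) hS⟩, ?_⟩
  obtain ⟨y, hy, hpy⟩ := exists_lts hC (hB.subset hAB) hz hp b
  cases b
  · have h1 := hv.2 _ (lt_dc hC j p B) ⟨⟨y, hy, by simpa [lts] using hpy⟩,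
      ⟨p, hp, by simpa using hC.irr j p⟩⟩
    simp only [lts, Bool.false_eq_true, if_false]
    simpa using h1
  · have h1 := hv.2 _ (le_dc hC j p B) ⟨⟨p, hp, by simpa using hC.irr j p⟩,
      ⟨y, hy, by simpa [lts] using hpy⟩⟩
    simp only [lts, if_true]
    simpa using h1

theorem thm_EXB : St_EXB := by
  intro L U _ κ R o hC A B j z b hAB hB hz
  have h3 : ∀ v ∈ ext L R o b B j (cel L R o A j z), Nd L B v := by
    intro v hv hd
    obtain ⟨v', hv', hlt⟩ := EXB_four hC (b := b) hAB hB hz hv.1
    rw [← EXB_two hC hAB hv, cel_def hC (fun h => h hd) j] at hv'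
    rw [Set.mem_singleton_iff] at hv'
    subst hv'
    exact EXB_irr hC hlt
  refine ⟨EXB_one hC hAB hB, fun v hv => EXB_two hC hAB hv, h3,
    fun p hp => EXB_four hC hAB hB hz hp, ?_, ?_, ?_⟩
  · intro v hv p hp
    obtain ⟨v', hv', hlt⟩ := EXB_four hC (b := b) hAB hB hz hp
    rw [← EXB_two hC hAB hv] at hv'
    obtain ⟨g, hg, hgl⟩ := nx_move hC hB (h3 v hv) hv' (mem_cel B j v) b
    exact ⟨g, hg, EXB_trans hC hlt hgl⟩
  · intro v hv p hp hvp
    refine ⟨hp, fun C hD hS => ?_⟩
    exact EXB_up hD.2 (show v ∈ EXB_side b C from hv.2 C hD hS) hvp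
  · rintro ⟨C, hD, hS⟩ v hv hv'
    have h1 := hv.2 C hD hS
    have h2 := hv'.2 C hD hS
    cases b
    · simp at h1 h2
      exact h2 h1
    · simp at h1 h2
      exact h1 h2

end EXB

end Pool.Agent.MNO
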