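import Pool.Agent.MNO.StC
import Pool.Agent.MNO.STG
import Pool.Agent.MNO.NBA

/-!
MNO module FE1 (helper18): finite equivalence relations on `U`.
-/

set_option autoImplicit false
set_option linter.unusedVariables false

namespace Pool.Agent.MNO

open FirstOrder.Language Set
open scoped FirstOrder
open Pool.Agent.WOM (tp Mon IsEl IsoM CtU Fx Orb)
open Pool.Agent.PMC (Ini ct Dc cel Sin Nd Ct lts ext XS Ex Fa Ll LL Itv Sm Md NPf def_mono def_compl
  def_inter)

section fe1

variable {L : FirstOrder.Language.{0, 0}} {U : Type} [L.Structure U]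

private theorem fin1_eta (a : Fin 1 → U) : (fun _ : Fin 1 => a 0) = a := by
  funext i
  rw [Subsingleton.elim i 0]

private theorem fe1_of_fe {A : Set U} {E : (Fin 1 → U) → (Fin 1 → U) → Prop} (hE : FE L A E) :
    FE1 L A (fun x y => E (fun _ => x) (fun _ => y)) := by
  have h : (fun a b : Fin 1 → U => E (fun _ => a 0) (fun _ => b 0)) = E := by
    funext a b
    rw [fin1_eta, fin1_eta]
  unfold FE1
  rw [h]
  exact hE

private theorem fe1_eqv {A : Set U} {F : U → U → Prop} (hF : FE1 L A F) : Equivalence F :=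
  ⟨fun x => hF.eqv.refl (fun _ => x),
    fun {x y} h => hF.eqv.symm (x := fun _ => x) (y := fun _ => y) h,
    fun {x y z} h h' => hF.eqv.trans (x := fun _ => x) (y := fun _ => y) (z := fun _ => z) h h'⟩

private theorem fe1_def {A : Set U} {F : U → U → Prop} (hF : FE1 L A F) (x : U) :
    (insert x A).Definable₁ L {y | F x y} := by
  have h1 : Dp L A (fun v : Unit ⊕ Unit → U => F (v (Sum.inr ())) (v (Sum.inl ()))) :=
    dp_sub hF.dfn (Sum.elim (fun _ => Sum.inr ()) (fun _ => Sum.inl ()))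
  exact def1_of_dp1 (dp_par1 (dp_mono (subset_insert x A) h1) (mem_insert x A))

private theorem fe1_max {A M : Set U} {F : U → U → Prop} (hF : FE1 L A F) :
    ∃ t : Set U, t.Finite ∧ t ⊆ M ∧ ∀ y ∈ M, ∃ z ∈ t, F z y := by
  obtain ⟨s, hs, hs'⟩ := hF.fin
  have hE := fe1_eqv hF
  have h1 : ∀ z : Fin 1 → U, ∃ y : U, (∃ y ∈ M, F (z 0) y) → (y ∈ M ∧ F (z 0) y) := by
    intro z
    by_cases hz : ∃ y ∈ M, F (z 0) y
    · obtain ⟨y, hy, hy'⟩ := hz
      exact ⟨y, fun _ => ⟨hy, hy'⟩⟩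
    · exact ⟨z 0, fun h' => absurd h' hz⟩
  choose f hf using h1
  refine ⟨f '' {z | z ∈ s ∧ ∃ y ∈ M, F (z 0) y}, (hs.subset (fun z hz => hz.1)).image f, ?_, ?_⟩
  · rintro _ ⟨z, ⟨hz, hz'⟩, rfl⟩
    exact (hf z hz').1
  · intro y hy
    obtain ⟨z, hz, hyz⟩ := hs' (fun _ => y)
    have hzy : F (z 0) y := hE.symm hyz
    refine ⟨f z, ⟨z, ⟨hz, y, hy, hzy⟩, rfl⟩, ?_⟩
    exact hE.trans (hE.symm (hf z ⟨y, hy, hzy⟩).2) hzy

private theorem fe1_compl {A M : Set U} (hAM : A ⊆ M) {F : U → U → Prop} (hF : FE1 L A F)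
    {t : Set U} (ht : t.Finite) (htM : t ⊆ M) : M.Definable₁ L {x | ∀ y ∈ t, ¬ F y x} := by
  induction t, ht using Set.Finite.induction_on with
  | empty =>
    have h1 : {x : U | ∀ y ∈ (∅ : Set U), ¬ F y x} = Set.univ := by
      ext x
      constructor
      · intro _
        exact mem_univ x
      · intro _ y hy
        exact absurd hy (notMem_empty y)
    rw [h1]
    have h2 : A.Definable₁ L (Set.univ : Set U) := definable_univ
    exact def_mono hAM h2
  | @insert z t hn hfin ih =>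
    have h1 : {x : U | ∀ y ∈ insert z t, ¬ F y x} =
        {x | F z x}ᶜ ∩ {x : U | ∀ y ∈ t, ¬ F y x} := by
      ext x
      constructor
      · intro hx
        exact ⟨hx z (mem_insert z t), fun y hy => hx y (mem_insert_of_mem z hy)⟩
      · rintro ⟨hx, hx'⟩ y hy
        rcases hy with rfl | hy
        · exact hx
        · exact hx' y hy
    rw [h1]
    have hz : z ∈ M := htM (mem_insert z t)
    have h2 : M.Definable₁ L {x | F z x} :=
      def_mono (insert_subset hz hAM) (fe1_def hF z)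
    exact def_inter (def_compl h2) (ih (fun y hy => htM (mem_insert_of_mem z hy)))

private theorem fe1_meets {A M : Set U} (hMd : Md L A M) {F : U → U → Prop} (hF : FE1 L A F)
    (x : U) : ∃ y ∈ M, F x y := by
  obtain ⟨t, ht, htM, htE⟩ := fe1_max (M := M) hF
  have hdef : M.Definable₁ L {x | ∀ y ∈ t, ¬ F y x} := fe1_compl hMd.2 hF ht htM
  by_contra hcon
  push Not at hcon
  have hx : x ∈ {x | ∀ y ∈ t, ¬ F y x} := by
    intro y hy hyx
    exact hcon y (htM hy) ((fe1_eqv hF).symm hyx)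
  obtain ⟨y, hy, hyM⟩ := hMd.1 _ hdef ⟨x, hx⟩
  obtain ⟨z, hz, hzy⟩ := htE y hyM
  exact hy z hz hzy

end fe1

/-- [FE1] -/
theorem thm_FE1 : St_FE1 := by
  intro L U _ κ R o hC A hA
  refine ⟨fe_top A, fun F F' h h' => fe_inter h h', ?_, ?_, ?_, ?_, ?_, ?_, ?_⟩
  · intro F hF g hg x
    exact hg.2 1 (fun _ => x) _ hF
  · intro x y h
    obtain ⟨g, hg, hg'⟩ := nx_of_sq hC.mon hA (x := fun _ : Fin 1 => x) (y := fun _ => y)
      (fun E hE => h _ (fe1_of_fe hE))
    exact ⟨g, hg, hg' 0⟩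
  · intro F hF x
    exact fe1_def hF x
  · intro F hF g hg x y
    exact dp_fx hF.dfn hg (Sum.elim (fun _ => x) (fun _ => y))
  · intro F hF M hM x
    exact fe1_meets hM hF x
  · exact ⟨fun s _ hs => by rwa [inter_univ], subset_univ A⟩
  · intro F hF j x
    exact ⟨x, mem_univ x, mem_cel A j x, (fe1_eqv hF).refl x⟩

end Pool.Agent.MNO
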