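import Pool.Agent.MNO.StB
import Pool.Agent.MNO.LBase

/-!
MNO [GLC]: the points of a good piece beyond `w` form a union of pieces over `insert w A`.
-/

set_option autoImplicit false
set_option linter.unusedVariables false

namespace Pool.Agent.MNO

open FirstOrder.Language Set
open scoped FirstOrder
open Pool.Agent.WOM (tp Mon IsEl IsoM CtU Fx Orb)
open Pool.Agent.PMC (Ini ct Dc cel Sin Nd Ct lts ext XS Ex Fa Ll LL Itv Sm Md NPf sd)

private theorem GLC_ext {L : FirstOrder.Language.{0, 0}} {U : Type} [L.Structure U] {κ : Type}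
    {R : κ → U → U → Prop} {o : κ → κ} (A : Set U) (sg : κ → U → Bool) (b : Bool) (w : U) (j : κ)
    (z : U) : Ex L R o A sg b w j z ↔
      z ∈ ext L R o (sd b (sg (o j) z)) (insert w A) j (cel L R o A j z) := by
  have h1 : (sd b (sg (o j) z) = false) ↔ sg (o j) z ≠ b := by
    cases b <;> cases sg (o j) z <;> simp [sd]
  constructor
  · intro h
    exact ⟨fun C _ => Iff.rfl, fun C hC hS => (h C hC hS).trans h1.symm⟩
  · intro h C hC hS
    exact (h.2 C hC hS).trans h1

private theorem GLC_bool (b s b' : Bool) : b' = sd b s ∨ b' = sd (!b) s := by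
  cases b <;> cases s <;> cases b' <;> simp [sd]

private theorem GLC_one (hAV : St_AV) (hFAI : St_FAI) {L : FirstOrder.Language.{0, 0}} {U : Type}
    [L.Structure U] {κ : Type} {R : κ → U → U → Prop} {o : κ → κ} (hC : Cx L R o) {A E : Set U}
    {sg : κ → U → Bool} (hO : Ori L R o A E sg) {w : U} (hw : w ∈ E) (b : Bool) {u z : U}
    (hu : u ∈ E) (hz : z ∈ E) (hl : Lk L R o (insert w A) u z) (hf : Fa L R o A sg b w z) :
    Fa L R o A sg b w u := by
  obtain ⟨-, hF2, -⟩ := hFAI L U κ R o hC A E sg hO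
  have hB : (insert w A).Finite := hO.fin.insert w
  obtain ⟨j⟩ := hC.ne
  by_contra hcon
  have hz1 := (GLC_ext A sg b w j z).1 (hf j)
  have hwB : ∃ v ∈ insert w A, v ∈ E := ⟨w, Set.mem_insert w A, hw⟩
  by_cases hf' : Fa L R o A sg (!b) w u
  · have hu1 := (GLC_ext A sg (!b) w j u).1 (hf' j)
    cases b
    · have h1 : z ∈ ext L R o (!sg (o j) z) (insert w A) j (cel L R o A j z) := by
        have e : sd false (sg (o j) z) = !sg (o j) z := by simp [sd]
        rw [e] at hz1
        exact hz1
      have h2 : u ∈ ext L R o (sg (o j) u) (insert w A) j (cel L R o A j u) := by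
        have e : sd (!false) (sg (o j) u) = sg (o j) u := by simp [sd]
        rw [e] at hu1
        exact hu1
      exact hO.god (insert w A) hB (Set.subset_insert w A) hwB j z hz u hu h1 h2
        (lk_symm hC hB hl)
    · have h1 : z ∈ ext L R o (sg (o j) z) (insert w A) j (cel L R o A j z) := by
        have e : sd true (sg (o j) z) = sg (o j) z := by simp [sd]
        rw [e] at hz1
        exact hz1
      have h2 : u ∈ ext L R o (!sg (o j) u) (insert w A) j (cel L R o A j u) := by
        have e : sd (!true) (sg (o j) u) = !sg (o j) u := by simp [sd]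
        rw [e] at hu1
        exact hu1
      exact hO.god (insert w A) hB (Set.subset_insert w A) hwB j u hu z hz h2 h1 hl
  · refine hAV L U κ R o hC A (insert w A) j z u (sd b (sg (o j) z)) (Set.subset_insert w A) hB
      (hO.nd z hz) (hO.nd u hu) hz1 (fun b' hb' => ?_) (lk_symm hC hB hl)
    rcases GLC_bool b (sg (o j) u) b' with h | h
    · rw [h] at hb'
      exact hcon (hF2 w hw u hu b j ((GLC_ext A sg b w j u).2 hb'))
    · rw [h] at hb'
      exact hf' (hF2 w hw u hu (!b) j ((GLC_ext A sg (!b) w j u).2 hb'))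

/-- [GLC] -/
theorem thm_GLC (hAV : St_AV) (hFAI : St_FAI) : St_GLC := by
  intro L U _ κ R o hC A E sg hO w hw b u z hl
  have hB : (insert w A).Finite := hO.fin.insert w
  have hE : u ∈ E ↔ z ∈ E := cls_anti hC (Set.subset_insert w A) hB hO.clo u z hl
  constructor
  · rintro ⟨hu, hf⟩
    exact ⟨hE.1 hu, GLC_one hAV hFAI hC hO hw b (hE.1 hu) hu (lk_symm hC hB hl) hf⟩
  · rintro ⟨hz, hf⟩
    exact ⟨hE.2 hz, GLC_one hAV hFAI hC hO hw b (hE.2 hz) hz hl hf⟩

end Pool.Agent.MNO
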