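import Pool.Agent.MNO.StB

/-!
MNO [GLE]: gluing over one point.
-/

set_option autoImplicit false
set_option linter.unusedVariables false

namespace Pool.Agent.MNO

open FirstOrder.Language Set
open scoped FirstOrder
open Pool.Agent.WOM (tp Mon IsEl IsoM CtU Fx Orb)
open Pool.Agent.PMC (Ini ct Dc cel Sin Nd Ct lts ext XS Ex Fa Ll LL Itv Sm Md NPf sd)

/-- [GLE] -/
theorem thm_GLE (hPRD : St_PRD) (hGLC : St_GLC) : St_GLE := by
  intro L U _ κ R o hC A E sg hO w hw b g hg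
  obtain ⟨h, hh1, hh2, hh3⟩ := hPRD L U κ R o hC (insert w A) {z | z ∈ E ∧ Fa L R o A sg b w z}
    (hO.fin.insert w) (hGLC L U κ R o hC A E sg hO w hw b) g hg
  exact ⟨h, hh1, fun z hz hz' => hh2 z ⟨hz, hz'⟩, fun z hz => hh3 z hz⟩

end Pool.Agent.MNO
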