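import Pool.Agent.MNO.StT
import Pool.Agent.MNO.Ext

/-!
MNO [GLM] (helper41): strong types over an additional far element.
-/

set_option autoImplicit false
set_option linter.unusedVariables false
set_option linter.unusedSectionVars false

namespace Pool.Agent.MNO

open FirstOrder.Language Set
open scoped FirstOrder
open Pool.Agent.WOM (tp Mon IsEl IsoM CtU Fx Orb)
open Pool.Agent.PMC (Ini ct Dc cel Sin Nd Ct lts ext XS Ex Fa Ll LL Itv Sm Md NPf fx_refl fx_symm
  fx_comp fx_mono comp_apply' def_img def_mono def_compl def_inter def_union def_mem def_fix)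

section

variable {L : FirstOrder.Language.{0, 0}} {U : Type} [L.Structure U] {κ : Type}
  {R : κ → U → U → Prop} {o : κ → κ} {α : Type}

/-! ### Points of a cell -/

/-- extreme points over `B` are moved over `B` to extreme points over a larger set -/
private theorem GLM_mv (hC : Cx L R o) {A B D : Set U} {j : κ} {z y : U} {b : Bool} (hAB : A ⊆ B)
    (hBD : B ⊆ D) (hD : D.Finite) (hz : Nd L A z) (hy : y ∈ ext L R o b B j (cel L R o A j z)) :
    ∃ g : U ≃[L] U, Fx L B g ∧ g y ∈ ext L R o b D j (cel L R o A j z) := by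
  obtain ⟨p0, hp0⟩ := (thm_EXT L U κ R o hC A D j z b (hAB.trans hBD) hD hz).1
  obtain ⟨g, hg, hlt⟩ :=
    (thm_EXT L U κ R o hC A B j z b hAB (hD.subset hBD) hz).2.2.2.2.1 y hy p0 hp0.1
  refine ⟨g, hg, (thm_EXT L U κ R o hC A D j z b (hAB.trans hBD) hD hz).2.2.2.2.2.1 p0 hp0 (g y)
    ?_ hlt⟩
  exact (fx_mem_cel hC j y z (fx_mono hAB hg)).2 hy.1

private theorem GLM_bd2 (hC : Cx L R o) {A : Set U} (hA : A.Finite) {j : κ} {z p q : U} {b : Bool}
    (hz : Nd L A z) (hp : p ∈ cel L R o A j z) (hq : q ∈ cel L R o A j z) :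
    ∃ d ∈ cel L R o A j z, lts R o b j p d ∧ lts R o b j q d := by
  obtain ⟨e, he, hpe⟩ := exists_lts hC hA hz hp b
  by_cases h : e = q
  · obtain ⟨e', he', h'⟩ := exists_lts hC hA hz he b
    exact ⟨e', he', lts_trans hC b j hpe h', h ▸ h'⟩
  · rcases lts_tot hC b j h with h1 | h1
    · obtain ⟨e', he', h'⟩ := exists_lts hC hA hz hq b
      exact ⟨e', he', lts_trans hC b j (lts_trans hC b j hpe h1) h', h'⟩
    · exact ⟨e, he, hpe, h1⟩

private theorem GLM_bd (hC : Cx L R o) {A : Set U} (hA : A.Finite) {j : κ} {z : U} {b : Bool}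
    (hz : Nd L A z) (n : ℕ) (w : Fin n → U) (hw : ∀ i, w i ∈ cel L R o A j z) :
    ∃ d ∈ cel L R o A j z, ∀ i, lts R o b j (w i) d := by
  induction n with
  | zero => exact ⟨z, mem_cel A j z, fun i => i.elim0⟩
  | succ n ih =>
    obtain ⟨d, hd, hd'⟩ := ih (fun i => w i.castSucc) (fun i => hw _)
    obtain ⟨e, he, h1, h2⟩ := GLM_bd2 hC hA (b := b) hz hd (hw (Fin.last n))
    refine ⟨e, he, fun i => ?_⟩
    induction i using Fin.lastCases with
    | last => exact h2
    | cast i => exact lts_trans hC b j (hd' i) h1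

private theorem GLM_ext_fx (hC : Cx L R o) {A : Set U} {g : U ≃[L] U} (hg : Fx L A g) {b : Bool}
    {j : κ} {z y : U} (u : α → U) (hy : y ∈ ext L R o b (A ∪ range u) j (cel L R o A j z)) :
    g y ∈ ext L R o b (A ∪ range fun i => g (u i)) j (cel L R o A j z) := by
  have h1 := ext_img1 hC g b (A ∪ range u) j (cel L R o A j z) ⟨y, hy, rfl⟩
  rw [fx_img_cel hC j z hg, image_union, fx_img A hg, ← range_comp] at h1
  exact h1

/-! ### Compactness -/

private theorem GLM_cpt (hM : Mon L U) [Finite α] {B : Set U} (hB : B.Finite) {ι : Type}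
    (T : Set ι) (m : ι → (α → U) → Prop) (hm : ∀ t ∈ T, Dp L B (m t)) {Q : (α → U) → Prop}
    (hQ : Dp L B Q) (h : ∀ y, (∀ t ∈ T, m t y) → Q y) :
    ∃ T' ⊆ T, T'.Finite ∧ ∀ y, (∀ t ∈ T', m t y) → Q y := by
  by_contra hcon
  push Not at hcon
  obtain ⟨y, hy⟩ := dp_sat hM hB (F := m '' T ∪ {fun y => ¬ Q y}) (by
    rintro P (⟨t, ht, rfl⟩ | rfl)
    · exact hm t ht
    · exact dp_not hQ) (by
    intro G hG hfin
    obtain ⟨T', hT', hfT', hT'2⟩ := (Set.exists_subset_image_finite_and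
      (p := fun s => s = G ∩ m '' T)).1 ⟨G ∩ m '' T, inter_subset_right,
        hfin.subset inter_subset_left, rfl⟩
    obtain ⟨y, hy, hyQ⟩ := hcon T' hT' hfT'
    refine ⟨y, fun P hP => ?_⟩
    rcases hG hP with h1 | h1
    · have h2 : P ∈ m '' T' := by
        rw [hT'2]
        exact ⟨hP, h1⟩
      obtain ⟨t, ht, rfl⟩ := h2
      exact hy t ht
    · have h2 : P = fun y => ¬ Q y := h1
      rw [h2]
      exact hyQ)
  exact hy (fun y => ¬ Q y) (Or.inr rfl) (h y fun t ht => hy _ (Or.inl ⟨t, ht, rfl⟩))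

/-! ### The relations -/

/-- the relation at `y` -/
private def GEq (Q : ((α ⊕ α) ⊕ Unit → U) → Prop) (y : U) (u u' : α → U) : Prop :=
  Q (Sum.elim (Sum.elim u u') (fun _ => y))

private theorem geq_fx {A : Set U} {Q : ((α ⊕ α) ⊕ Unit → U) → Prop} (hQ : Dp L A Q)
    {g : U ≃[L] U} (hg : Fx L A g) (y : U) (u u' : α → U) :
    GEq Q (g y) (fun i => g (u i)) (fun i => g (u' i)) ↔ GEq Q y u u' := by
  have h1 := dp_fx hQ hg (Sum.elim (Sum.elim u u') (fun _ => y))
  unfold GEq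
  rw [← h1]
  apply iff_of_eq
  congr 1
  funext i
  rcases i with (i | i) | i <;> rfl

/-- the relation at a conjugate of `v` -/
private theorem geq_conj {A : Set U} {Q : ((α ⊕ α) ⊕ Unit → U) → Prop} (hQ : Dp L A Q) {v : U}
    {E1 : (α → U) → (α → U) → Prop} (hE : ∀ u u', E1 u u' ↔ GEq Q v u u')
    {g : U ≃[L] U} (hg : Fx L A g) (u u' : α → U) :
    GEq Q (g v) u u' ↔ E1 (fun i => g.symm (u i)) (fun i => g.symm (u' i)) := by
  rw [hE, ← geq_fx hQ hg v]
  simp only [FirstOrder.Language.Equiv.apply_symm_apply]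

private theorem geq_eqv {A : Set U} {Q : ((α ⊕ α) ⊕ Unit → U) → Prop} (hQ : Dp L A Q) {v : U}
    {E1 : (α → U) → (α → U) → Prop} (hE : ∀ u u', E1 u u' ↔ GEq Q v u u') (hEq : Equivalence E1)
    {y : U} (hy : ∃ g : U ≃[L] U, Fx L A g ∧ y = g v) : Equivalence (GEq Q y) := by
  obtain ⟨g, hg, rfl⟩ := hy
  refine ⟨fun u => ?_, fun {u u'} h => ?_, fun {u u' u''} h h' => ?_⟩
  · exact (geq_conj hQ hE hg u u).2 (hEq.refl _)
  · exact (geq_conj hQ hE hg u' u).2 (hEq.symm ((geq_conj hQ hE hg u u').1 h))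
  · exact (geq_conj hQ hE hg u u'').2 (hEq.trans ((geq_conj hQ hE hg u u').1 h)
      ((geq_conj hQ hE hg u' u'').1 h'))

/-- a bounded number of classes -/
private theorem geq_card {A : Set U} {Q : ((α ⊕ α) ⊕ Unit → U) → Prop} (hQ : Dp L A Q) {v : U}
    {E1 : (α → U) → (α → U) → Prop} (hE : ∀ u u', E1 u u' ↔ GEq Q v u u') (hEq : Equivalence E1)
    {s : Set (α → U)} (hs : s.Finite) (hs' : ∀ x, ∃ y ∈ s, E1 x y)
    {y : U} (hy : ∃ g : U ≃[L] U, Fx L A g ∧ y = g v) {X : Type} (u : X → α → U) :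
    (range fun l => {w | GEq Q y (u l) w}).ncard ≤ s.ncard := by
  obtain ⟨g, hg, rfl⟩ := hy
  have h1 : (range fun l => {w | GEq Q (g v) (u l) w}) ⊆
      (fun t : α → U => {w : α → U | E1 t (fun i => g.symm (w i))}) '' s := by
    rintro _ ⟨l, rfl⟩
    obtain ⟨t, ht, ht'⟩ := hs' (fun i => g.symm (u l i))
    refine ⟨t, ht, ?_⟩
    ext w
    show E1 t (fun i => g.symm (w i)) ↔ GEq Q (g v) (u l) w
    rw [geq_conj hQ hE hg]
    exact ⟨fun h => hEq.trans ht' h, fun h => hEq.trans (hEq.symm ht') h⟩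
  exact (ncard_le_ncard h1 (hs.image _)).trans (ncard_image_le hs)

variable (L R o) in
/-- the invariant relation -/
private def GS (A : Set U) (j : κ) (z v : U) (b : Bool) (Q : ((α ⊕ α) ⊕ Unit → U) → Prop)
    (u u' : α → U) : Prop :=
  ∀ y, (∃ g : U ≃[L] U, Fx L A g ∧ y = g v) → y ∈ ext L R o b (A ∪ range u) j (cel L R o A j z) →
    y ∈ ext L R o b (A ∪ range u') j (cel L R o A j z) → GEq Q y u u'

private theorem gs_inv (hC : Cx L R o) {A : Set U} {j : κ} {z v : U} {b : Bool}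
    {Q : ((α ⊕ α) ⊕ Unit → U) → Prop} (hQ : Dp L A Q) (g : U ≃[L] U) (hg : Fx L A g)
    (u u' : α → U) (h : GS L R o A j z v b Q u u') :
    GS L R o A j z v b Q (fun i => g (u i)) (fun i => g (u' i)) := by
  rintro y ⟨g1, hg1, rfl⟩ hy hy'
  have h1 := GLM_ext_fx hC (fx_symm hg) (fun i => g (u i)) hy
  have h2 := GLM_ext_fx hC (fx_symm hg) (fun i => g (u' i)) hy'
  simp only [FirstOrder.Language.Equiv.symm_apply_apply] at h1 h2
  have h3 := h (g.symm (g1 v)) ⟨g.symm.comp g1, fx_comp (fx_symm hg) hg1, rfl⟩ h1 h2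
  have h4 := (geq_fx hQ hg (g.symm (g1 v)) u u').2 h3
  rw [FirstOrder.Language.Equiv.apply_symm_apply] at h4
  exact h4

variable (L R o) in
/-- the hypothesis of GLM -/
private def GH (A : Set U) (j : κ) (z : U) (b : Bool) (x : α → U) : Prop :=
  ∀ (n : ℕ) (u : Fin n → α → U), 0 < n →
    (∀ i, ∃ g : U ≃[L] U, Fx L A g ∧ u i = fun k => g (x k)) → ∀ w ∈ cel L R o A j z,
    (∀ i, w ∈ ext L R o b (A ∪ range (u i)) j (cel L R o A j z)) →
    w ∈ ext L R o b (A ∪ ⋃ i, range (u i)) j (cel L R o A j z)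

private theorem GLM_two (hC : Cx L R o) {A : Set U} {j : κ} {z : U} {b : Bool} (hz : Nd L A z)
    {x : α → U} (hH : GH L R o A j z b x) {u u' : α → U}
    (hu : ∃ g : U ≃[L] U, Fx L A g ∧ u = fun k => g (x k))
    (hu' : ∃ g : U ≃[L] U, Fx L A g ∧ u' = fun k => g (x k)) {y : U}
    (hy : y ∈ ext L R o b (A ∪ range u) j (cel L R o A j z))
    (hy' : y ∈ ext L R o b (A ∪ range u') j (cel L R o A j z)) {D : Set U} (hD : D.Finite)
    (hAD : A ⊆ D) (hDu : range u ⊆ D) (hDu' : range u' ⊆ D) :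
    ∃ g : U ≃[L] U, Fx L (A ∪ (range u ∪ range u')) g ∧
      g y ∈ ext L R o b D j (cel L R o A j z) := by
  have h1 := hH 2 ![u, u'] (by norm_num) (by
    intro i
    fin_cases i
    · exact hu
    · exact hu') y hy.1 (by
    intro i
    fin_cases i
    · exact hy
    · exact hy')
  have h2 : (⋃ i, range ((![u, u'] : Fin 2 → α → U) i)) = range u ∪ range u' := by
    ext w
    simp only [mem_iUnion, Fin.exists_fin_two, mem_union]
    rfl
  rw [h2] at h1
  exact GLM_mv hC subset_union_left (union_subset hAD (union_subset hDu hDu')) hD hz h1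

private theorem gs_trans (hC : Cx L R o) [Finite α] {A : Set U} (hA : A.Finite) {j : κ} {z v : U}
    {b : Bool} (hz : Nd L A z) {x : α → U} (hH : GH L R o A j z b x)
    {Q : ((α ⊕ α) ⊕ Unit → U) → Prop} (hQ : Dp L A Q)
    {E1 : (α → U) → (α → U) → Prop} (hE : ∀ u u', E1 u u' ↔ GEq Q v u u') (hEq : Equivalence E1)
    {u1 u2 u3 : α → U}
    (hu1 : ∃ g : U ≃[L] U, Fx L A g ∧ u1 = fun k => g (x k))
    (hu3 : ∃ g : U ≃[L] U, Fx L A g ∧ u3 = fun k => g (x k))
    (h12 : GS L R o A j z v b Q u1 u2) (h23 : GS L R o A j z v b Q u2 u3) :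
    GS L R o A j z v b Q u1 u3 := by
  intro y hyq hy1 hy3
  obtain ⟨g, hg, hgy⟩ := GLM_two hC hz hH hu1 hu3 hy1 hy3
    (D := A ∪ (range u1 ∪ (range u2 ∪ range u3)))
    (hA.union ((finite_range u1).union ((finite_range u2).union (finite_range u3))))
    subset_union_left (subset_union_left.trans subset_union_right)
    ((subset_union_right.trans subset_union_right).trans subset_union_right)
  have hgA : Fx L A g := fx_mono subset_union_left hg
  have hq : ∃ g' : U ≃[L] U, Fx L A g' ∧ g y = g' v := by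
    obtain ⟨g1, hg1, rfl⟩ := hyq
    exact ⟨g.comp g1, fx_comp hgA hg1, rfl⟩
  have e1 : g y ∈ ext L R o b (A ∪ range u1) j (cel L R o A j z) :=
    ext_anti (union_subset_union_right A subset_union_left) b j _ hgy
  have e2 : g y ∈ ext L R o b (A ∪ range u2) j (cel L R o A j z) :=
    ext_anti (union_subset_union_right A (subset_union_left.trans subset_union_right)) b j _ hgy
  have e3 : g y ∈ ext L R o b (A ∪ range u3) j (cel L R o A j z) :=
    ext_anti (union_subset_union_right A (subset_union_right.trans subset_union_right)) b j _ hgy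
  have h13 := (geq_eqv hQ hE hEq hq).trans (h12 (g y) hq e1 e2) (h23 (g y) hq e2 e3)
  have f1 : (fun i => g (u1 i)) = u1 := by
    funext i
    exact hg _ (Or.inr (Or.inl ⟨i, rfl⟩))
  have f3 : (fun i => g (u3 i)) = u3 := by
    funext i
    exact hg _ (Or.inr (Or.inr ⟨i, rfl⟩))
  have h4 := geq_fx hQ hgA y u1 u3
  rw [f1, f3] at h4
  exact h4.1 h13

/-- sequences of pairwise inequivalent elements -/
private theorem GLM_seq {X : Type} (p : Set X) (S : X → X → Prop)
    (h : ¬ ∃ F ⊆ p, F.Finite ∧ ∀ u ∈ p, ∃ v ∈ F, S u v) (n : ℕ) :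
    ∃ u : Fin n → X, (∀ i, u i ∈ p) ∧ ∀ i i', i < i' → ¬ S (u i') (u i) := by
  induction n with
  | zero => exact ⟨fun i => i.elim0, fun i => i.elim0, fun i => i.elim0⟩
  | succ n ih =>
    obtain ⟨u, hu, hu'⟩ := ih
    have h1 : ∃ w ∈ p, ∀ v ∈ range u, ¬ S w v := by
      by_contra hcon
      push Not at hcon
      refine h ⟨range u, ?_, finite_range u, hcon⟩
      rintro _ ⟨i, rfl⟩
      exact hu i
    obtain ⟨w, hw, hw'⟩ := h1
    refine ⟨Fin.snoc u w, fun i => ?_, fun i i' hii => ?_⟩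
    · induction i using Fin.lastCases with
      | last => rw [Fin.snoc_last]; exact hw
      | cast i => rw [Fin.snoc_castSucc]; exact hu i
    · induction i' using Fin.lastCases with
      | last =>
        induction i using Fin.lastCases with
        | last => exact absurd hii (lt_irrefl _)
        | cast i =>
          rw [Fin.snoc_last, Fin.snoc_castSucc]
          exact hw' _ ⟨i, rfl⟩
      | cast i' =>
        induction i using Fin.lastCases with
        | last =>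
          exact absurd hii (not_lt.2 (Fin.le_last _))
        | cast i =>
          rw [Fin.snoc_castSucc, Fin.snoc_castSucc]
          exact hu' i i' (by simpa using hii)

private theorem gs_fin (hC : Cx L R o) [Finite α] (hRMS : St_RMS) {A : Set U} (hA : A.Finite)
    {j : κ} {z v : U} {b : Bool} (hz : Nd L A z) (hvK : v ∈ cel L R o A j z)
    {x : α → U} (hH : GH L R o A j z b x)
    {Q : ((α ⊕ α) ⊕ Unit → U) → Prop} (hQ : Dp L A Q)
    {E1 : (α → U) → (α → U) → Prop} (hE : ∀ u u', E1 u u' ↔ GEq Q v u u') (hEq : Equivalence E1)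
    {s : Set (α → U)} (hs : s.Finite) (hs' : ∀ x, ∃ y ∈ s, E1 x y)
    {p : Set (α → U)} (hp : p = {u | ∃ g : U ≃[L] U, Fx L A g ∧ u = fun i => g (x i)}) :
    ∃ F ⊆ p, F.Finite ∧ ∀ u ∈ p, ∃ w ∈ F, GS L R o A j z v b Q u w := by
  subst hp
  by_contra hcon
  have hseq := GLM_seq _ _ hcon
  -- the array
  obtain ⟨k, hk⟩ := cod' hC hA (α := Fin 2 × α) (β := Fin 2)
    (P := fun u d y => lts R o b j (d 0) y ∧ lts R o b j y (d 1) ∧
      ¬ GEq Q y (fun i => u (0, i)) (fun i => u (1, i))) (by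
      refine dp_and (dp_lts hC b j (Sum.inl (Sum.inr 0)) (Sum.inr ()))
        (dp_and (dp_lts hC b j (Sum.inr ()) (Sum.inl (Sum.inr 1))) (dp_not ?_))
      refine dp_congr (dp_sub hQ (Sum.elim (Sum.elim (fun i => Sum.inl (Sum.inl (0, i)))
        (fun i => Sum.inl (Sum.inl (1, i)))) (fun _ => Sum.inr ()) :
          (α ⊕ α) ⊕ Unit → ((Fin 2 × α) ⊕ Fin 2) ⊕ Unit)) (fun w => ?_)
      unfold GEq
      apply iff_of_eq
      congr 1
      funext i
      rcases i with (i | i) | i <;> rfl)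
  obtain ⟨N, hN⟩ := hRMS k s.ncard
  obtain ⟨u, hu, hu'⟩ := hseq N
  -- symmetric
  have hne : ∀ i i', i ≠ i' → ∃ y, (∃ g : U ≃[L] U, Fx L A g ∧ y = g v) ∧
      y ∈ ext L R o b (A ∪ range (u i)) j (cel L R o A j z) ∧
      y ∈ ext L R o b (A ∪ range (u i')) j (cel L R o A j z) ∧ ¬ GEq Q y (u i) (u i') := by
    intro i i' hii
    rcases lt_or_gt_of_ne hii with h | h
    · have h1 := hu' i i' h
      unfold GS at h1
      push Not at h1
      obtain ⟨y, hyq, hy1, hy2, hy3⟩ := h1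
      exact ⟨y, hyq, hy2, hy1, fun h => hy3 ((geq_eqv hQ hE hEq hyq).symm h)⟩
    · have h1 := hu' i' i h
      unfold GS at h1
      push Not at h1
      obtain ⟨y, hyq, hy1, hy2, hy3⟩ := h1
      exact ⟨y, hyq, hy1, hy2, hy3⟩
  -- the large set
  have hBf : (A ∪ ⋃ i, range (u i)).Finite := hA.union (finite_iUnion fun i => finite_range _)
  have hAB : A ⊆ A ∪ ⋃ i, range (u i) := subset_union_left
  have huB : ∀ i, range (u i) ⊆ A ∪ ⋃ i, range (u i) := fun i =>
    (subset_iUnion (fun i => range (u i)) i).trans subset_union_right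
  generalize (A ∪ ⋃ i, range (u i)) = B at hBf hAB huB
  have hy : ∀ i i', ∃ y, (∃ g : U ≃[L] U, Fx L A g ∧ y = g v) ∧
      (i ≠ i' → y ∈ ext L R o b B j (cel L R o A j z) ∧ ¬ GEq Q y (u i) (u i')) := by
    intro i i'
    by_cases hii : i = i'
    · exact ⟨v, ⟨_, fx_refl A, rfl⟩, fun h => absurd hii h⟩
    · obtain ⟨y, ⟨g1, hg1, rfl⟩, hy1, hy2, hy3⟩ := hne i i' hii
      obtain ⟨g, hg, hgy⟩ := GLM_two hC hz hH (hu i) (hu i') hy1 hy2 hBf hAB (huB i) (huB i')
      have hgA : Fx L A g := fx_mono subset_union_left hg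
      refine ⟨g (g1 v), ⟨g.comp g1, fx_comp hgA hg1, rfl⟩, fun _ => ⟨hgy, ?_⟩⟩
      have f1 : (fun l => g (u i l)) = u i := by
        funext l
        exact hg _ (Or.inr (Or.inl ⟨l, rfl⟩))
      have f2 : (fun l => g (u i' l)) = u i' := by
        funext l
        exact hg _ (Or.inr (Or.inr ⟨l, rfl⟩))
      have h4 := geq_fx hQ hgA (g1 v) (u i) (u i')
      rw [f1, f2] at h4
      exact fun h => hy3 (h4.1 h)
  choose y hyq hyB using hy
  obtain ⟨c, a, a', hc, hca⟩ := hN (Fin N) (Set (α → U))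
    (fun i i' l => {w | GEq Q (y i i') (u l) w}) (by simp) (by
      intro i i' hii h
      have h1 : u i' ∈ {w | GEq Q (y i i') (u i') w} := (geq_eqv hQ hE hEq (hyq i i')).refl _
      have h' : {w | GEq Q (y i i') (u i) w} = {w | GEq Q (y i i') (u i') w} := h
      rw [← h'] at h1
      exact (hyB i i' hii).2 h1) (by
      intro i i'
      exact geq_card hQ hE hEq hs hs' (hyq i i') u)
  have hca' : ∀ l l', GEq Q (y (c l).1 (c l).2) (u (a l')) (u (a' l')) ↔ l ≠ l' := by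
    intro l l'
    rw [← hca l l']
    have hh := geq_eqv hQ hE hEq (hyq (c l).1 (c l).2)
    constructor
    · intro h
      ext w
      exact ⟨fun h1 => hh.trans (hh.symm h) h1, fun h1 => hh.trans h h1⟩
    · intro h
      have h1 : u (a' l') ∈ {w | GEq Q (y (c l).1 (c l).2) (u (a' l')) w} := hh.refl _
      have h' : {w | GEq Q (y (c l).1 (c l).2) (u (a l')) w} =
        {w | GEq Q (y (c l).1 (c l).2) (u (a' l')) w} := h
      rw [← h'] at h1
      exact h1
  -- the steps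
  have hstep : ∀ d : {d // d ∈ cel L R o A j z}, ∃ (g : Fin k → (U ≃[L] U))
      (d' : {d // d ∈ cel L R o A j z}), (∀ l, Fx L B (g l)) ∧
      ∀ l, lts R o b j d (g l (y (c l).1 (c l).2)) ∧ lts R o b j (g l (y (c l).1 (c l).2)) d' := by
    intro d
    have h1 : ∀ l, ∃ g : U ≃[L] U, Fx L B g ∧ lts R o b j d (g (y (c l).1 (c l).2)) := fun l =>
      (thm_EXT L U κ R o hC A B j z b hAB hBf hz).2.2.2.2.1 _ (hyB _ _ (hc l)).1 d d.2
    choose g hg hg' using h1
    obtain ⟨d', hd', hd''⟩ := GLM_bd hC hA (b := b) hz k (fun l => g l (y (c l).1 (c l).2))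
      (fun l => (fx_mem_cel hC j _ z (fx_mono hAB (hg l))).2 (hyB _ _ (hc l)).1.1)
    exact ⟨g, ⟨d', hd'⟩, hg, fun l => ⟨hg' l, hd'' l⟩⟩
  choose G D' hG hGD using hstep
  let d : ℕ → {d // d ∈ cel L R o A j z} := fun m => Nat.rec ⟨v, hvK⟩ (fun _ e => D' e) m
  have hd : ∀ (m : ℕ) (l : Fin k), lts R o b j (d m).1 (G (d m) l (y (c l).1 (c l).2)) ∧
      lts R o b j (G (d m) l (y (c l).1 (c l).2)) (d (m + 1)).1 := fun m l => hGD (d m) l
  have hmono : ∀ (l : Fin k) (m m' : ℕ), m < m' → lts R o b j (d m).1 (d m').1 := by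
    intro l m m' hmm
    induction m' with
    | zero => exact absurd hmm (Nat.not_lt_zero m)
    | succ m' ih =>
      have h1 : lts R o b j (d m').1 (d (m' + 1)).1 :=
        lts_trans hC b j (hd m' l).1 (hd m' l).2
      rcases Nat.lt_succ_iff_lt_or_eq.1 hmm with h | h
      · exact lts_trans hC b j (ih h) h1
      · rw [h]
        exact h1
  apply hk
  refine ⟨fun i t => Sum.elim (fun _ => u (a i) t.2) (fun _ => u (a' i) t.2)
    (if t.1 = 0 then Sum.inl () else Sum.inr ()), fun m t => if t = 0 then (d m).1 else (d (m + 1)).1,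
    fun l m => G (d m) l (y (c l).1 (c l).2), ?_⟩
  intro i m l m'
  have e1 : GEq Q (G (d m') l (y (c l).1 (c l).2)) (u (a i)) (u (a' i)) ↔ l ≠ i := by
    rw [← hca' l i]
    have f1 : (fun t => G (d m') l (u (a i) t)) = u (a i) := by
      funext t
      exact hG _ _ _ (huB _ ⟨t, rfl⟩)
    have f2 : (fun t => G (d m') l (u (a' i) t)) = u (a' i) := by
      funext t
      exact hG _ _ _ (huB _ ⟨t, rfl⟩)
    have h4 := geq_fx hQ (fx_mono hAB (hG (d m') l)) (y (c l).1 (c l).2) (u (a i)) (u (a' i))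
    rw [f1, f2] at h4
    exact h4
  show (lts R o b j (d m).1 (G (d m') l (y (c l).1 (c l).2)) ∧
    lts R o b j (G (d m') l (y (c l).1 (c l).2)) (d (m + 1)).1 ∧
    ¬ GEq Q (G (d m') l (y (c l).1 (c l).2)) (u (a i)) (u (a' i))) ↔ i = l ∧ m = m'
  rw [e1, not_not]
  constructor
  · rintro ⟨h1, h2, h3⟩
    refine ⟨h3.symm, ?_⟩
    rcases lt_trichotomy (m : ℕ) (m' : ℕ) with h | h | h
    · exfalso
      have h4 := hd m' l
      rcases Nat.lt_or_ge (m + 1) m' with h5 | h5
      · exact lts_irr hC b j _ (lts_trans hC b j (lts_trans hC b j h2 (hmono l _ _ h5)) h4.1)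
      · have h6 : (m : ℕ) + 1 = m' := le_antisymm h h5
        rw [h6] at h2
        exact lts_irr hC b j _ (lts_trans hC b j h2 h4.1)
    · exact Fin.ext h
    · exfalso
      have h4 := hd m' l
      rcases Nat.lt_or_ge (m' + 1) m with h5 | h5
      · exact lts_irr hC b j _ (lts_trans hC b j (lts_trans hC b j h4.2 (hmono l _ _ h5)) h1)
      · have h6 : (m' : ℕ) + 1 = m := le_antisymm h h5
        rw [h6] at h4
        exact lts_irr hC b j _ (lts_trans hC b j h4.2 h1)
  · rintro ⟨rfl, rfl⟩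
    exact ⟨(hd m i).1, (hd m i).2, rfl⟩

/-- members of families at conjugate tuples are strictly inside the cell together -/
private theorem GLM_sin (hC : Cx L R o) {A : Set U} {j : κ} {z : U} {x u w : α → U}
    {C : (α → U) → Set U} (hCF : DF L A C)
    (hu : ∃ g : U ≃[L] U, Fx L A g ∧ u = fun k => g (x k))
    (hw : ∃ g : U ≃[L] U, Fx L A g ∧ w = fun k => g (x k))
    (h : Sin (C u) (cel L R o A j z)) : Sin (C w) (cel L R o A j z) := by
  obtain ⟨g, hg, rfl⟩ := hu
  obtain ⟨g', hg', rfl⟩ := hw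
  have h1 : Fx L A (g'.comp g.symm) := fx_comp hg' (fx_symm hg)
  have h2 := sin_img hC (g := g'.comp g.symm) (fx_img_cel hC j z h1) h
  rw [df_img hCF h1] at h2
  have h3 : (fun i => (g'.comp g.symm) (g (x i))) = fun k => g' (x k) := by
    funext i
    show g' (g.symm (g (x i))) = g' (x i)
    rw [FirstOrder.Language.Equiv.symm_apply_apply]
  rw [h3] at h2
  exact h2

/-- the conditions for the compactness argument -/
private def GM (b : Bool) (t : ((Unit → U) → Prop) ⊕ (((α → U) → Set U) × Bool)) (w : α ⊕ α → U)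
    (y : U) : Prop :=
  Sum.elim (fun θ : (Unit → U) → Prop => θ (fun _ => y))
    (fun t : ((α → U) → Set U) × Bool =>
      (y ∈ t.1 (fun k => w (cond t.2 (Sum.inl k) (Sum.inr k))) ↔ b = false)) t

private theorem gs_open (hC : Cx L R o) [Finite α] {A : Set U} (hA : A.Finite)
    {j : κ} {z v : U} {b : Bool} (hz : Nd L A z) (hvK : v ∈ cel L R o A j z)
    {x : α → U} {Q : ((α ⊕ α) ⊕ Unit → U) → Prop} (hQ : Dp L A Q) {u u' : α → U}
    (hu : ∃ g : U ≃[L] U, Fx L A g ∧ u = fun k => g (x k))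
    (hu' : ∃ g : U ≃[L] U, Fx L A g ∧ u' = fun k => g (x k))
    (hS : GS L R o A j z v b Q u u') :
    ∃ E : (α ⊕ α → U) → Prop, Dp L A E ∧ E (Sum.elim u u') ∧
      ∀ w, (∃ g : U ≃[L] U, Fx L A g ∧ w = fun k => g (x k)) →
      ∀ w', (∃ g : U ≃[L] U, Fx L A g ∧ w' = fun k => g (x k)) →
      E (Sum.elim w w') → GS L R o A j z v b Q w w' := by
  have hAB : A ⊆ A ∪ (range u ∪ range u') := subset_union_left
  obtain ⟨T', hT', hfin, hT⟩ := GLM_cpt hC.mon (α := Unit) (B := A ∪ (range u ∪ range u'))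
    (hA.union ((finite_range u).union (finite_range u')))
    {t : ((Unit → U) → Prop) ⊕ (((α → U) → Set U) × Bool) |
      (∃ θ : (Unit → U) → Prop, t = Sum.inl θ ∧ Dp L A θ ∧ θ (fun _ => v)) ∨
      ∃ (C : (α → U) → Set U) (i : Bool), t = Sum.inr (C, i) ∧ DF L A C ∧
        (∀ x, Ini R o j (C x)) ∧ Sin (C (cond i u u')) (cel L R o A j z)}
    (fun t y => GM b t (Sum.elim u u') (y ())) (by
      rintro t (⟨θ, rfl, hθ, -⟩ | ⟨C, i, rfl, hCF, hCI, -⟩)
      · exact dp_congr (dp_mono hAB hθ) (fun y => Iff.rfl)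
      · have h1 : (A ∪ (range u ∪ range u')).Definable₁ L (C (cond i u u')) := by
          refine df_def hCF _ hAB (fun k => ?_)
          cases i
          · exact Or.inr (Or.inr ⟨k, rfl⟩)
          · exact Or.inr (Or.inl ⟨k, rfl⟩)
        refine dp_congr (dp_iff (dp_of_def1 h1 (i := ())) (dp_const (b = false))) (fun y => ?_)
        cases i <;> exact Iff.rfl)
    (Q := fun y => GEq Q (y ()) u u') (by
      have h1 := dp_sub hQ (Sum.elim (fun i => Sum.inr i) (fun _ => Sum.inl ()) :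
        (α ⊕ α) ⊕ Unit → Unit ⊕ (α ⊕ α))
      have h2 := dp_par (dp_mono hAB h1) (Sum.elim u u') (by
        rintro (k | k)
        · exact Or.inr (Or.inl ⟨k, rfl⟩)
        · exact Or.inr (Or.inr ⟨k, rfl⟩))
      refine dp_congr h2 (fun y => ?_)
      unfold GEq
      apply iff_of_eq
      congr 1
      funext i
      rcases i with (i | i) | i <;> rfl) (by
      intro y hy
      obtain ⟨g, hg, hgv⟩ := dp_hom hC.mon hA (a := fun _ : Unit => v) (b := y) (by
        intro P hP hPv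
        exact hy (Sum.inl P) (Or.inl ⟨P, rfl, hP, hPv⟩))
      have hyv : g v = y () := hgv ()
      have hyK : y () ∈ cel L R o A j z := by
        rw [← hyv]
        exact (fx_mem_cel hC j v z hg).2 hvK
      refine hS (y ()) ⟨g, hg, hyv.symm⟩ ⟨hyK, fun C0 hD hSi => ?_⟩ ⟨hyK, fun C0 hD hSi => ?_⟩
      · obtain ⟨C, hCF, hCI, rfl⟩ := cuf hC u hD
        exact hy (Sum.inr (C, true)) (Or.inr ⟨C, true, rfl, hCF, hCI, hSi⟩)
      · obtain ⟨C, hCF, hCI, rfl⟩ := cuf hC u' hD
        exact hy (Sum.inr (C, false)) (Or.inr ⟨C, false, rfl, hCF, hCI, hSi⟩))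
  refine ⟨fun w => ∀ y : U, (∀ t ∈ T', GM b t w y) → Q (Sum.elim w (fun _ => y)), ?_, ?_, ?_⟩
  · refine dp_all1 (P := fun w' : (α ⊕ α) ⊕ Unit → U =>
      (∀ t ∈ T', GM b t (fun i => w' (Sum.inl i)) (w' (Sum.inr ()))) → Q w')
      (dp_imp (dp_ball hfin (fun t ht => ?_)) hQ)
    rcases hT' ht with ⟨θ, rfl, hθ, -⟩ | ⟨C, i, rfl, hCF, hCI, -⟩
    · exact dp_sub hθ (fun _ : Unit => (Sum.inr () : (α ⊕ α) ⊕ Unit))
    · exact dp_iff (df_mem hCF (Sum.inr ()) (fun k => Sum.inl (cond i (Sum.inl k) (Sum.inr k))))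
        (dp_const (b = false))
  · intro y hy
    exact hT (fun _ => y) hy
  · intro w hw w' hw' hE
    rintro y ⟨g, hg, rfl⟩ hy hy'
    refine hE (g v) (fun t ht => ?_)
    rcases hT' ht with ⟨θ, rfl, hθ, hθv⟩ | ⟨C, i, rfl, hCF, hCI, hSi⟩
    · exact (dp_fx hθ hg (fun _ => v)).2 hθv
    · cases i
      · exact hy'.2 (C w') ⟨df_def hCF _ subset_union_left (fun k => Or.inr ⟨k, rfl⟩), hCI w'⟩
          (GLM_sin hC hCF hu' hw' hSi)
      · exact hy.2 (C w) ⟨df_def hCF _ subset_union_left (fun k => Or.inr ⟨k, rfl⟩), hCI w⟩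
          (GLM_sin hC hCF hu hw hSi)

end

/-- **[GLM]** -/
theorem thm_GLM (hRMS : St_RMS) (hOFL : St_OFL) : St_GLM := by
  intro L U _ κ R o hC α _ A j z v b x x' hA hz hH hSq hv hv' E1 hE1
  obtain ⟨Q, hQ, hQE⟩ := dp_fam1 hE1.dfn
  have hE : ∀ u u', E1 u u' ↔ GEq Q v u u' := fun u u' => hQE (Sum.elim u u')
  obtain ⟨s, hs, hs'⟩ := hE1.fin
  have hEq := hE1.eqv
  have hvK : v ∈ cel L R o A j z := hv.1
  have hGH : GH L R o A j z b x := hH
  have hx' : ∃ g : U ≃[L] U, Fx L A g ∧ x' = fun i => g (x i) := by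
    obtain ⟨g, hg, h⟩ := dp_hom hC.mon hA (a := x) (b := x') (by
      intro P hP hPx
      refine (hSq (fun u u' => (P u ↔ P u')) ⟨?_, ?_, ?_⟩).1 hPx
      · exact dp_iff (dp_sub hP Sum.inl) (dp_sub hP Sum.inr)
      · exact ⟨fun u => Iff.rfl, fun h => h.symm, fun h h' => h.trans h'⟩
      · by_cases h1 : ∃ w, ¬ P w
        · obtain ⟨w, hw⟩ := h1
          refine ⟨{x, w}, toFinite _, fun u => ?_⟩
          by_cases hu : P u
          · exact ⟨x, Or.inl rfl, ⟨fun _ => hPx, fun _ => hu⟩⟩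
          · exact ⟨w, Or.inr rfl, ⟨fun h => absurd h hu, fun h => absurd h hw⟩⟩
        · push Not at h1
          exact ⟨{x}, toFinite _, fun u => ⟨x, rfl, ⟨fun _ => hPx, fun _ => h1 u⟩⟩⟩)
    exact ⟨g, hg, (funext h).symm⟩
  have h1 := hOFL L U κ R o hC α A x (GS L R o A j z v b Q)
    {u | ∃ g : U ≃[L] U, Fx L A g ∧ u = fun i => g (x i)} hA rfl
    (fun g hg u u' => gs_inv hC hQ g hg u u')
    (fun u _ y hy _ _ => (geq_eqv hQ hE hEq hy).refl u)
    (fun u _ w _ h y hy h1 h2 => (geq_eqv hQ hE hEq hy).symm (h y hy h2 h1))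
    (fun u hu w _ w' hw' h h' => gs_trans hC hA hz hGH hQ hE hEq hu hw' h h')
    (gs_fin hC hRMS hA hz hvK hGH hQ hE hEq hs hs' rfl)
    (fun u hu w hw h => gs_open hC hA hz hvK hQ hu hw h)
    x ⟨_, fx_refl A, rfl⟩ x' hx' hSq
  exact (hE x x').2 (h1 v ⟨_, fx_refl A, rfl⟩ hv hv')

end Pool.Agent.MNO
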