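import Pool.Agent.MNO.StB
import Pool.Agent.MNO.NBase

/-!
MNO [GPR]: definability of cuts over one point.
-/

set_option autoImplicit false
set_option linter.unusedVariables false

namespace Pool.Agent.MNO

open FirstOrder.Language Set
open scoped FirstOrder
open Pool.Agent.WOM (tp Mon IsEl IsoM CtU Fx Orb)
open Pool.Agent.PMC (Ini ct Dc cel Sin Nd Ct lts ext XS Ex Fa Ll LL Itv Sm Md NPf sd fx_mono
  comp_apply' def_mem)

/-- [GPR] -/
theorem thm_GPR (hGLE : St_GLE) (hFAI : St_FAI) : St_GPR := by
  classical
  intro L U _ κ R o hC A E sg hE w hw b D hD hDE hDF z hz j C hDC hSin hNS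
  have hA : A.Finite := hE.fin
  refine nx_cut hC (hA.insert w) (hA.union hD) hDC ?_
  intro g hg
  obtain ⟨h, hh, hh1, hh2⟩ := hGLE L U κ R o hC A E sg hE w hw b g hg
  have hhA : Fx L A h := fx_mono (subset_insert w A) hh.1
  have hgA : Fx L A g := fx_mono (subset_insert w A) hg.1
  -- `h` and `g` agree on `A ∪ D`
  have hag : ∀ a ∈ A ∪ D, h a = g a := by
    rintro a (ha | ha)
    · rw [hhA a ha, hgA a ha]
    · exact hh1 a (hDE ha) (hDF a ha)
  have hfx : Fx L (A ∪ D) (h.symm.comp g) := by
    intro a ha
    rw [comp_apply', ← hag a ha]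
    exact h.symm_apply_apply a
  -- `h` preserves `C`
  have hKE : cel L R o A j z ⊆ E :=
    (cel_sub_pc hC hA j z).trans (pc_sub hE.clo hz)
  have hfa := (hFAI L U κ R o hC A E sg hE).2.2.1 h hhA
  have hFw : ∀ y ∈ E, (Fa L R o A sg b w (h y) ↔ Fa L R o A sg b w y) := by
    intro y hy
    have h1 := hfa.2 w hw y hy b
    rw [hh.1 w (mem_insert w A)] at h1
    exact h1
  obtain ⟨⟨x1, hx1, hx1'⟩, ⟨x2, hx2, hx2'⟩⟩ := hSin
  have hCh : ∀ y, h y ∈ C ↔ y ∈ C := by
    intro y
    by_cases hyK : y ∈ cel L R o A j z
    · have hhyK : h y ∈ cel L R o A j z := (fx_mem_cel hC j y z hhA).2 hyK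
      have hyE : y ∈ E := hKE hyK
      by_cases hyF : Fa L R o A sg b w y
      · have hhyF : Fa L R o A sg b w (h y) := (hFw y hyE).2 hyF
        constructor
        · intro h3
          by_contra h4
          exact hNS ⟨⟨h y, ⟨hhyK, hhyF⟩, h3⟩, ⟨y, ⟨hyK, hyF⟩, h4⟩⟩
        · intro h3
          by_contra h4
          exact hNS ⟨⟨y, ⟨hyK, hyF⟩, h3⟩, ⟨h y, ⟨hhyK, hhyF⟩, h4⟩⟩
      · rw [hh2 y (fun h3 => hyF h3.2)]
    · -- outside of the cell
      have hhyK : h y ∉ cel L R o A j z := fun h3 => hyK ((fx_mem_cel hC j y z hhA).1 h3)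
      have hyc : h y ∈ cel L R o A j y := fx_cel hC j y hhA
      -- `y` below or above the cell
      have hout : ∀ v, v ∉ cel L R o A j z → (v ∈ C ↔ R (o j) v z) := by
        intro v hv
        constructor
        · intro hvC
          by_contra hvz
          have hne : v ≠ z := by
            rintro rfl
            exact hv (mem_cel A j v)
          have hzv : R (o j) z v := (hC.tot j v z hne).resolve_left hvz
          -- `x2 ∉ C`, so `v` is below `x2`
          have hx2v : ¬ R (o j) x2 v := fun h3 => hx2' (hDC.2 v hvC x2 h3)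
          exact hv (cel_conv hC (mem_cel A j z) hx2 (fun h3 => hvz h3) hx2v)
        · intro hvz
          by_contra hvC
          have hx1v : ¬ R (o j) v x1 := fun h3 => hvC (hDC.2 x1 hx1' v h3)
          exact hv (cel_conv hC hx1 (mem_cel A j z) hx1v (asymm' hC j hvz))
      rw [hout y hyK, hout (h y) hhyK]
      -- the cells of `y` and `z` are separated
      have hsep : ∀ v, v ∈ cel L R o A j y → (R (o j) v z ↔ R (o j) y z) := by
        intro v hv
        constructor
        · intro h3
          by_contra h4
          have hne : y ≠ z := by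
            rintro rfl
            exact hyK (mem_cel A j y)
          have hzy : R (o j) z y := (hC.tot j y z hne).resolve_left h4
          exact hyK (cel_symm (cel_conv hC hv (mem_cel A j y) (asymm' hC j h3)
            (asymm' hC j hzy)))
        · intro h3
          by_contra h4
          have hne : v ≠ z := by
            rintro rfl
            exact hyK (cel_symm hv)
          have hzv : R (o j) z v := (hC.tot j v z hne).resolve_left h4
          exact hyK (cel_symm (cel_conv hC (mem_cel A j y) hv (asymm' hC j h3)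
            (asymm' hC j hzv)))
      exact hsep (h y) hyc
  intro x hx
  have h3 : (h.symm.comp g) x ∈ C := (def_mem hDC.1 hfx x).2 hx
  rw [comp_apply'] at h3
  have h4 := (hCh (h.symm (g x))).2 h3
  rw [h.apply_symm_apply] at h4
  exact h4

end Pool.Agent.MNO
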