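import Pool.Agent.MNO.StB
import Pool.Agent.MNO.StC
import Pool.Agent.MNO.NBA

/-!
MNO [GRP]: gluing of automorphisms along clusters (helper33, after helper63's `PMC/GRP.lean`).
-/

set_option autoImplicit false
set_option linter.unusedVariables false

namespace Pool.Agent.MNO

open FirstOrder.Language Set
open scoped FirstOrder
open Pool.Agent.WOM (tp Mon IsEl IsoM CtU Fx Orb)
open Pool.Agent.PMC (Ini ct Dc cel Sin Nd Ct lts ext XS Ex Fa Ll LL Itv Sm Md NPf comp_apply')

/-- last points of finite sets, for a strict order on `E` -/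
private theorem GRP_last {U : Type} {E : Set U} {lt : U → U → Prop}
    (hirr : ∀ w ∈ E, ¬ lt w w)
    (htra : ∀ u ∈ E, ∀ v ∈ E, ∀ w ∈ E, lt u v → lt v w → lt u w)
    {F : Set U} (hF : F.Finite) : F ⊆ E → F.Nonempty → ∃ x ∈ F, ∀ y ∈ F, ¬ lt x y := by
  induction F, hF using Set.Finite.induction_on with
  | empty => intro _ h; exact absurd h Set.not_nonempty_empty
  | @insert a s has hs ih =>
    intro hsub _
    have haE : a ∈ E := hsub (mem_insert a s)
    have hsE : s ⊆ E := fun x hx => hsub (mem_insert_of_mem a hx)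
    rcases s.eq_empty_or_nonempty with h0 | h0
    · refine ⟨a, mem_insert a s, fun y hy => ?_⟩
      rcases hy with rfl | hy
      · exact hirr _ haE
      · rw [h0] at hy; exact absurd hy (Set.notMem_empty y)
    · obtain ⟨x, hx, hxm⟩ := ih hsE h0
      by_cases hxa : lt x a
      · refine ⟨a, mem_insert a s, fun y hy => ?_⟩
        rcases hy with rfl | hy
        · exact hirr _ haE
        · intro hay
          exact hxm y hy (htra x (hsE hx) a haE y (hsE hy) hxa hay)
      · refine ⟨x, mem_insert_of_mem a hx, fun y hy => ?_⟩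
        rcases hy with rfl | hy
        · exact hxa
        · exact hxm y hy

theorem thm_GRP (h1 : St_FAI) (h2 : St_ORD) (h3 : St_ORT) : St_GRP := by
  intro L U _ κ R o hC A E sg hO
  obtain ⟨-, -, hI, -⟩ := h1 L U κ R o hC A E sg hO
  obtain ⟨-, hirr, hO3, hO4, -⟩ := h2 L U κ R o hC A E sg hO
  obtain ⟨-, hT2, -⟩ := h3 L U κ R o hC A E sg hO
  have key : ∀ n : ℕ, ∀ (F : Set U) (t : U → U), F.Finite → F.ncard = n → F ⊆ E →
      (∀ x ∈ F, t x ∈ E) →
      (∀ x ∈ F, ∀ y ∈ F, Ll L R o A sg x y → Ll L R o A sg (t x) (t y)) →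
      (∀ x ∈ F, ∃ g : U ≃[L] U, Nx L A g ∧
        ∀ y ∈ F, ¬ Ll L R o A sg x y → ¬ Ll L R o A sg y x → g y = t y) →
      ∃ g : U ≃[L] U, Nx L A g ∧ ∀ x ∈ F, g x = t x := by
    intro n
    induction n using Nat.strong_induction_on with
    | _ n ih =>
      intro F t hF hn hFE htE hmon hloc
      rcases F.eq_empty_or_nonempty with h0 | h0
      · refine ⟨_, nx_refl A, fun x hx => ?_⟩
        rw [h0] at hx
        exact absurd hx (Set.notMem_empty x)
      obtain ⟨x0, hx0, hlast⟩ := GRP_last (lt := Ll L R o A sg)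
        (fun w hw => hirr w hw true) hO4 hF hFE h0
      set W : Set U := {x | x ∈ F ∧ Ll L R o A sg x x0} with hW
      set S : Set U := {x | x ∈ F ∧ ¬ Ll L R o A sg x x0} with hS
      have hWF : W ⊆ F := fun x hx => hx.1
      have hSF : S ⊆ F := fun x hx => hx.1
      have hx0W : x0 ∉ W := fun h => hirr x0 (hFE hx0) true h.2
      have hlt : W.ncard < n := by
        rw [← hn]
        exact Set.ncard_lt_ncard ⟨hWF, fun h => hx0W (h hx0)⟩ hF
      obtain ⟨g', hg', hg't⟩ := ih W.ncard hlt W t (hF.subset hWF) rfl (hWF.trans hFE)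
        (fun x hx => htE x hx.1) (fun x hx y hy h => hmon x hx.1 y hy.1 h)
        (fun x hx => by
          obtain ⟨g, hg, hgt⟩ := hloc x hx.1
          exact ⟨g, hg, fun y hy => hgt y hy.1⟩)
      obtain ⟨g0, hg0, hg0t⟩ := hloc x0 hx0
      have hg0S : ∀ s ∈ S, g0 s = t s := fun s hs => hg0t s hs.1 (hlast s hs.1) hs.2
      have hWS : LL L R o A sg W S := by
        intro w hw s hs
        rcases hO3 w (hFE hw.1) x0 (hFE hx0) hw.2 s (hFE hs.1) with h | h
        · exact h
        · exact absurd h hs.2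
      have hk : Nx L A (g'.symm.comp g0) := nx_comp (nx_symm hg') hg0
      have hWk : LL L R o A sg W ((g'.symm.comp g0) '' S) := by
        rintro w hw _ ⟨s, hs, rfl⟩
        have e1 : Ll L R o A sg (g' w) (g0 s) := by
          rw [hg't w hw, hg0S s hs]
          exact hmon w hw.1 s hs.1 (hWS w hw s hs)
        have e2 : g' w ∈ E := by rw [hg't w hw]; exact htE w hw.1
        have e3 : g0 s ∈ E := by rw [hg0S s hs]; exact htE s hs.1
        have e4 := ((hI g'.symm (nx_symm hg').1).2 (g' w) e2 (g0 s) e3 true).2 e1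
        rw [g'.symm_apply_apply] at e4
        exact e4
      obtain ⟨h, hh, hhW, hhS⟩ := hT2 S W (hF.subset hSF) (hF.subset hWF) (hSF.trans hFE)
        (hWF.trans hFE) hWS (g'.symm.comp g0) hk hWk
      refine ⟨g'.comp h, nx_comp hg' hh, fun x hx => ?_⟩
      by_cases hxW : Ll L R o A sg x x0
      · have e1 : h x = x := hhW x ⟨hx, hxW⟩
        rw [comp_apply', e1]
        exact hg't x ⟨hx, hxW⟩
      · have hxS : x ∈ S := ⟨hx, hxW⟩
        rw [comp_apply', hhS x hxS, comp_apply', g'.apply_symm_apply]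
        exact hg0S x hxS
  intro F t hF hFE htE hmon hloc
  exact key F.ncard F t hF rfl hFE htE hmon hloc

end Pool.Agent.MNO
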