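import Pool.Agent.PMC.Base
import Pool.Agent.MST.SAU

/-!
MNO, toolkit: definable properties of finite tuples (helper47).
`Dp L A P`: the property `P : (α → U) → Prop` is definable with parameters in `A`.
-/

set_option autoImplicit false
set_option linter.unusedVariables false
set_option linter.unusedSectionVars false

namespace Pool.Agent.MNO

open FirstOrder.Language Set
open scoped FirstOrder
open Pool.Agent.WOM (tp Mon IsEl IsoM CtU Fx Orb)

variable {L : FirstOrder.Language.{0, 0}} {U : Type} [L.Structure U]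

variable (L) in
/-- `A`-definable properties of tuples -/
def Dp (A : Set U) {α : Type} (P : (α → U) → Prop) : Prop := A.Definable L {v | P v}

section closure

variable {A B : Set U} {α β γ : Type}

theorem dp_congr {P Q : (α → U) → Prop} (h : Dp L A P) (hPQ : ∀ v, Q v ↔ P v) : Dp L A Q := by
  have h1 : {v | Q v} = {v | P v} := by
    ext v
    exact hPQ v
  unfold Dp
  rw [h1]
  exact h

theorem dp_mono (hAB : A ⊆ B) {P : (α → U) → Prop} (h : Dp L A P) : Dp L B P :=
  Set.Definable.mono h hAB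

theorem dp_not {P : (α → U) → Prop} (h : Dp L A P) : Dp L A (fun v => ¬ P v) :=
  Set.Definable.compl h

theorem dp_and {P Q : (α → U) → Prop} (h : Dp L A P) (h' : Dp L A Q) :
    Dp L A (fun v => P v ∧ Q v) := Set.Definable.inter h h'

theorem dp_or {P Q : (α → U) → Prop} (h : Dp L A P) (h' : Dp L A Q) :
    Dp L A (fun v => P v ∨ Q v) := Set.Definable.union h h'

theorem dp_imp {P Q : (α → U) → Prop} (h : Dp L A P) (h' : Dp L A Q) :
    Dp L A (fun v => P v → Q v) :=
  dp_congr (dp_or (dp_not h) h') (fun v => imp_iff_not_or)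

theorem dp_iff {P Q : (α → U) → Prop} (h : Dp L A P) (h' : Dp L A Q) :
    Dp L A (fun v => P v ↔ Q v) :=
  dp_congr (dp_and (dp_imp h h') (dp_imp h' h)) (fun v => iff_def)

theorem dp_true : Dp L A (fun _ : α → U => True) := by
  have h := Set.definable_univ (A := A) (L := L) (α := α)
  exact h

theorem dp_false : Dp L A (fun _ : α → U => False) :=
  dp_congr (dp_not dp_true) (fun v => by simp)

theorem dp_const (p : Prop) : Dp L A (fun _ : α → U => p) := by
  by_cases hp : p
  · exact dp_congr dp_true (fun v => by simp [hp])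
  · exact dp_congr dp_false (fun v => by simp [hp])

/-- finite conjunctions -/
theorem dp_ball {ι : Type} {s : Set ι} (hs : s.Finite) {P : ι → (α → U) → Prop}
    (h : ∀ i ∈ s, Dp L A (P i)) : Dp L A (fun v => ∀ i ∈ s, P i v) := by
  induction s, hs using Set.Finite.induction_on with
  | empty => exact dp_congr dp_true (fun v => by simp)
  | @insert a t _ _ ih =>
    have h1 := dp_and (h a (mem_insert a t)) (ih (fun i hi => h i (mem_insert_of_mem a hi)))
    exact dp_congr h1 (fun v => by simp)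

/-- finite disjunctions -/
theorem dp_bex {ι : Type} {s : Set ι} (hs : s.Finite) {P : ι → (α → U) → Prop}
    (h : ∀ i ∈ s, Dp L A (P i)) : Dp L A (fun v => ∃ i ∈ s, P i v) := by
  have h1 := dp_not (dp_ball hs (fun i hi => dp_not (h i hi)))
  exact dp_congr h1 (fun v => by push Not; rfl)

theorem dp_all_fin {ι : Type} [Finite ι] {P : ι → (α → U) → Prop} (h : ∀ i, Dp L A (P i)) :
    Dp L A (fun v => ∀ i, P i v) :=
  dp_congr (dp_ball (s := univ) finite_univ (fun i _ => h i)) (fun v => by simp)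

theorem dp_ex_fin {ι : Type} [Finite ι] {P : ι → (α → U) → Prop} (h : ∀ i, Dp L A (P i)) :
    Dp L A (fun v => ∃ i, P i v) :=
  dp_congr (dp_bex (s := univ) finite_univ (fun i _ => h i)) (fun v => by simp)

/-- substitution of variables -/
theorem dp_sub {P : (α → U) → Prop} (h : Dp L A P) (f : α → β) :
    Dp L A (fun v : β → U => P (fun i => v (f i))) := by
  have h1 := Set.Definable.preimage_comp f h
  exact h1

/-- a formula -/
theorem dp_form {P : (α → U) → Prop} (h : Dp L A P) :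
    ∃ φ : L.Formula (A ⊕ α), ∀ v, P v ↔ φ.Realize (Sum.elim (fun a : A => (a : U)) v) := by
  unfold Dp at h
  rw [definable_iff_exists_formula_sum] at h
  obtain ⟨φ, hφ⟩ := h
  refine ⟨φ, fun v => ?_⟩
  have h3 := congrArg (fun t : Set (α → U) => v ∈ t) hφ
  exact iff_of_eq h3

theorem dp_of_form {P : (α → U) → Prop} (φ : L.Formula (A ⊕ α))
    (h : ∀ v, P v ↔ φ.Realize (Sum.elim (fun a : A => (a : U)) v)) : Dp L A P := by
  unfold Dp
  rw [definable_iff_exists_formula_sum]
  refine ⟨φ, ?_⟩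
  ext v
  exact h v

/-- quantifiers over finite tuples -/
theorem dp_ex [Finite β] {P : (α ⊕ β → U) → Prop} (h : Dp L A P) :
    Dp L A (fun v : α → U => ∃ x : β → U, P (Sum.elim v x)) := by
  obtain ⟨φ, hφ⟩ := dp_form h
  refine dp_of_form ((φ.relabel (Sum.elim (fun a => Sum.inl (Sum.inl a))
    (Sum.elim (fun a => Sum.inl (Sum.inr a)) (fun b => Sum.inr b)) :
      A ⊕ (α ⊕ β) → (A ⊕ α) ⊕ β)).iExs β) (fun v => ?_)
  rw [FirstOrder.Language.Formula.realize_iExs]
  refine exists_congr (fun x => ?_)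
  rw [hφ, FirstOrder.Language.Formula.realize_relabel]
  apply iff_of_eq
  congr 1
  funext i
  rcases i with i | i | i <;> rfl

theorem dp_all [Finite β] {P : (α ⊕ β → U) → Prop} (h : Dp L A P) :
    Dp L A (fun v : α → U => ∀ x : β → U, P (Sum.elim v x)) :=
  dp_congr (dp_not (dp_ex (dp_not h))) (fun v => by push Not; rfl)

/-- quantifiers over elements -/
theorem dp_ex1 {P : (α ⊕ Unit → U) → Prop} (h : Dp L A P) :
    Dp L A (fun v : α → U => ∃ x : U, P (Sum.elim v (fun _ => x))) := by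
  refine dp_congr (dp_ex h) (fun v => ?_)
  constructor
  · rintro ⟨x, hx⟩
    exact ⟨fun _ => x, hx⟩
  · rintro ⟨x, hx⟩
    refine ⟨x (), ?_⟩
    have h1 : x = fun _ => x () := by
      funext i
      rfl
    rw [h1] at hx
    exact hx

theorem dp_all1 {P : (α ⊕ Unit → U) → Prop} (h : Dp L A P) :
    Dp L A (fun v : α → U => ∀ x : U, P (Sum.elim v (fun _ => x))) :=
  dp_congr (dp_not (dp_ex1 (dp_not h))) (fun v => by push Not; rfl)

/-- parameters -/
theorem dp_par {P : (α ⊕ β → U) → Prop} (h : Dp L A P) (b : β → U) (hb : ∀ i, b i ∈ A) :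
    Dp L A (fun v : α → U => P (Sum.elim v b)) := by
  obtain ⟨φ, hφ⟩ := dp_form h
  refine dp_of_form (φ.relabel (Sum.elim (fun a => Sum.inl a)
    (Sum.elim (fun a => Sum.inr a) (fun i => Sum.inl ⟨b i, hb i⟩)) :
      A ⊕ (α ⊕ β) → A ⊕ α)) (fun v => ?_)
  rw [hφ, FirstOrder.Language.Formula.realize_relabel]
  apply iff_of_eq
  congr 1
  funext i
  rcases i with i | i | i <;> rfl

theorem dp_par1 {P : (α ⊕ Unit → U) → Prop} (h : Dp L A P) {b : U} (hb : b ∈ A) :
    Dp L A (fun v : α → U => P (Sum.elim v (fun _ => b))) :=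
  dp_par h (fun _ => b) (fun _ => hb)

/-- parameters become variables -/
theorem dp_fam {b : β → U} {P : (α → U) → Prop} (h : Dp L (A ∪ range b) P) :
    ∃ Q : (α ⊕ β → U) → Prop, Dp L A Q ∧ ∀ v, P v ↔ Q (Sum.elim v b) := by
  classical
  obtain ⟨φ, hφ⟩ := dp_form h
  have hc : ∀ c : (A ∪ range b : Set U), (c : U) ∉ A → ∃ i, b i = c := by
    intro c hc
    rcases c.2 with h1 | h1
    · exact absurd h1 hc
    · exact h1
  let f : (A ∪ range b : Set U) ⊕ α → A ⊕ (α ⊕ β) :=
    Sum.elim (fun c => if hcA : (c : U) ∈ A then Sum.inl ⟨c, hcA⟩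
      else Sum.inr (Sum.inr (hc c hcA).choose)) (fun a => Sum.inr (Sum.inl a))
  let ψ : L.Formula (A ⊕ (α ⊕ β)) := φ.relabel f
  refine ⟨fun w => ψ.Realize (Sum.elim (fun a : A => (a : U)) w), dp_of_form ψ (fun v => Iff.rfl),
    fun v => ?_⟩
  show P v ↔ (φ.relabel f).Realize (Sum.elim (fun a : A => (a : U)) (Sum.elim v b))
  rw [hφ, FirstOrder.Language.Formula.realize_relabel]
  apply iff_of_eq
  congr 1
  funext i
  rcases i with i | i
  · by_cases hi : (i : U) ∈ A
    · show (i : U) = Sum.elim (fun a : A => (a : U)) (Sum.elim v b)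
        (if hcA : (i : U) ∈ A then Sum.inl ⟨i, hcA⟩ else Sum.inr (Sum.inr (hc i hcA).choose))
      rw [dif_pos hi]
      rfl
    · show (i : U) = Sum.elim (fun a : A => (a : U)) (Sum.elim v b)
        (if hcA : (i : U) ∈ A then Sum.inl ⟨i, hcA⟩ else Sum.inr (Sum.inr (hc i hcA).choose))
      rw [dif_neg hi]
      exact (hc i hi).choose_spec.symm
  · rfl

theorem dp_fam0 {b : β → U} {P : (α → U) → Prop} (h : Dp L (range b) P) :
    ∃ Q : (α ⊕ β → U) → Prop, Dp L (∅ : Set U) Q ∧ ∀ v, P v ↔ Q (Sum.elim v b) := by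
  have h1 : Dp L ((∅ : Set U) ∪ range b) P := by
    rw [empty_union]
    exact h
  exact dp_fam h1

theorem dp_fam1 {b : U} {P : (α → U) → Prop} (h : Dp L (insert b A) P) :
    ∃ Q : (α ⊕ Unit → U) → Prop, Dp L A Q ∧ ∀ v, P v ↔ Q (Sum.elim v (fun _ => b)) := by
  have h1 : Dp L (A ∪ range (fun _ : Unit => b)) P := by
    refine dp_mono ?_ h
    rintro x (rfl | hx)
    · exact Or.inr ⟨(), rfl⟩
    · exact Or.inl hx
  exact dp_fam h1

/-- a formula without parameters in the set, with a tuple -/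
theorem dp_form0 {b : β → U} {P : (α → U) → Prop} (h : Dp L (range b) P) :
    ∃ φ : L.Formula (α ⊕ β), ∀ v, P v ↔ φ.Realize (Sum.elim v b) := by
  obtain ⟨Q, hQ, hPQ⟩ := dp_fam0 h
  obtain ⟨φ, hφ⟩ := dp_form hQ
  refine ⟨φ.relabel (Sum.elim (fun a => absurd a.2 (notMem_empty _)) (fun i => i)), fun v => ?_⟩
  rw [hPQ, hφ, FirstOrder.Language.Formula.realize_relabel]
  apply iff_of_eq
  congr 1
  funext i
  rcases i with i | i
  · exact absurd i.2 (notMem_empty _)
  · rfl

theorem dp_of_form0 {b : β → U} {P : (α → U) → Prop} (φ : L.Formula (α ⊕ β))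
    (h : ∀ v, P v ↔ φ.Realize (Sum.elim v b)) : Dp L (range b) P := by
  refine dp_of_form (φ.relabel (Sum.elim (fun a => Sum.inr a) (fun i => Sum.inl ⟨b i, i, rfl⟩) :
    α ⊕ β → (range b) ⊕ α)) (fun v => ?_)
  rw [h, FirstOrder.Language.Formula.realize_relabel]
  apply iff_of_eq
  congr 1
  funext i
  rcases i with i | i <;> rfl

/-- definable properties are preserved by automorphisms -/
theorem dp_fx {P : (α → U) → Prop} (h : Dp L A P) {g : U ≃[L] U} (hg : Fx L A g) (v : α → U) :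
    P (fun i => g (v i)) ↔ P v := by
  obtain ⟨φ, hφ⟩ := dp_form h
  have h4 : g ∘ Sum.elim (fun a : A => (a : U)) v =
      Sum.elim (fun a : A => (a : U)) (fun i => g (v i)) := by
    funext i
    rcases i with i | i
    · exact hg i i.2
    · rfl
  rw [hφ, hφ, ← h4]
  exact FirstOrder.Language.StrongHomClass.realize_formula g φ

/-- images of definable properties under automorphisms -/
theorem dp_img {P : (α → U) → Prop} (h : Dp L A P) (g : U ≃[L] U) :
    Dp L (g '' A) (fun v => P (fun i => g.symm (v i))) := by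
  obtain ⟨φ, hφ⟩ := dp_form h
  refine dp_of_form (φ.relabel (Sum.elim (fun a => Sum.inl ⟨g a, a, a.2, rfl⟩)
    (fun i => Sum.inr i) : A ⊕ α → (g '' A : Set U) ⊕ α)) (fun v => ?_)
  rw [hφ, FirstOrder.Language.Formula.realize_relabel]
  rw [← FirstOrder.Language.StrongHomClass.realize_formula g φ]
  apply iff_of_eq
  congr 1
  funext i
  rcases i with i | i
  · rfl
  · exact g.apply_symm_apply (v i)

/-- finitely many parameters suffice -/
theorem dp_fin {P : (α → U) → Prop} (h : Dp L A P) :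
    ∃ B : Set U, B.Finite ∧ B ⊆ A ∧ Dp L B P := by
  unfold Dp at h
  rw [definable_iff_finitely_definable] at h
  obtain ⟨B, hB, hB'⟩ := h
  exact ⟨B, B.finite_toSet, hB, hB'⟩

/-- sets of elements -/
theorem dp_of_def1 {s : Set U} (h : A.Definable₁ L s) {i : α} : Dp L A (fun v : α → U => v i ∈ s) := by
  have h1 : Dp L A (fun v : Fin 1 → U => v 0 ∈ s) := h
  exact dp_sub h1 (fun _ : Fin 1 => i)

theorem def1_of_dp {P : (Unit → U) → Prop} (h : Dp L A P) :
    A.Definable₁ L {x | P (fun _ => x)} := by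
  have h1 := dp_sub h (fun _ : Unit => (0 : Fin 1))
  exact h1

theorem def1_of_dp1 {P : U → Prop} (h : Dp L A (fun v : Unit → U => P (v ()))) :
    A.Definable₁ L {x | P x} := def1_of_dp h

theorem dp_eq (i j : α) : Dp L A (fun v : α → U => v i = v j) := by
  refine dp_of_form (((FirstOrder.Language.Term.var (Sum.inr i)).equal
    (FirstOrder.Language.Term.var (Sum.inr j)) : L.Formula (A ⊕ α))) (fun v => ?_)
  simp [FirstOrder.Language.Formula.realize_equal]

theorem dp_eqc (i : α) {a : U} (ha : a ∈ A) : Dp L A (fun v : α → U => v i = a) := by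
  have h1 := dp_par1 (dp_eq (L := L) (A := A) (Sum.inl i : α ⊕ Unit) (Sum.inr ())) ha
  exact h1

/-- parameters which are definable may be omitted -/
theorem dp_close {u : U} (hu : A.Definable₁ L {u}) {P : (α → U) → Prop}
    (h : Dp L (insert u A) P) : Dp L A P := by
  obtain ⟨Q, hQ, hPQ⟩ := dp_fam1 h
  have h1 : Dp L A (fun v : α ⊕ Unit → U => v (Sum.inr ()) ∈ ({u} : Set U)) := dp_of_def1 hu
  refine dp_congr (dp_ex1 (dp_and hQ h1)) (fun v => ?_)
  rw [hPQ]
  constructor
  · intro hv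
    exact ⟨u, hv, rfl⟩
  · rintro ⟨x, hx, hxu⟩
    have e : x = u := hxu
    rw [e] at hx
    exact hx

theorem def1_close {u : U} (hu : A.Definable₁ L {u}) {s : Set U}
    (h : (insert u A).Definable₁ L s) : A.Definable₁ L s := by
  have h1 : Dp L (insert u A) (fun v : Fin 1 → U => v 0 ∈ s) := h
  exact dp_close hu h1

end closure

section sat

variable {α : Type}

/-- enumeration of a finite set -/
theorem exists_enum {B : Set U} (hB : B.Finite) : ∃ (n : ℕ) (b : Fin n → U), range b = B := by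
  obtain ⟨n, b, -, hb⟩ := Finite.fin_param hB
  exact ⟨n, b, hb⟩

/-- saturation for properties of finite tuples -/
theorem dp_sat (hM : Mon L U) [Finite α] {B : Set U} (hB : B.Finite) {F : Set ((α → U) → Prop)}
    (hF : ∀ P ∈ F, Dp L B P) (h : ∀ G ⊆ F, G.Finite → ∃ v, ∀ P ∈ G, P v) :
    ∃ v, ∀ P ∈ F, P v := by
  obtain ⟨n, b, rfl⟩ := exists_enum hB
  have h1 := (Pool.Agent.MST.thm_SAU L U hM).1 α (Fin n) b
    {φ : L.Formula (α ⊕ Fin n) | ∃ P ∈ F, ∀ v, P v ↔ φ.Realize (Sum.elim v b)} (by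
      intro G hG hfin
      have h2 : ∀ φ : L.Formula (α ⊕ Fin n), ∃ P : (α → U) → Prop, φ ∈ G →
          P ∈ F ∧ ∀ v, P v ↔ φ.Realize (Sum.elim v b) := by
        intro φ
        by_cases hφ : φ ∈ G
        · obtain ⟨P, hP, hP'⟩ := hG hφ
          exact ⟨P, fun _ => ⟨hP, hP'⟩⟩
        · exact ⟨fun _ => True, fun h => absurd h hφ⟩
      choose p hp using h2
      obtain ⟨v, hv⟩ := h (p '' G) (by
        rintro _ ⟨φ, hφ, rfl⟩
        exact (hp φ hφ).1) (hfin.image p)
      exact ⟨v, fun φ hφ => ((hp φ hφ).2 v).1 (hv _ (mem_image_of_mem p hφ))⟩)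
  obtain ⟨v, hv⟩ := h1
  refine ⟨v, fun P hP => ?_⟩
  obtain ⟨φ, hφ⟩ := dp_form0 (hF P hP)
  exact (hφ v).2 (hv φ ⟨P, hP, hφ⟩)

/-- homogeneity over finite sets -/
theorem dp_hom (hM : Mon L U) [Finite α] {A : Set U} (hA : A.Finite) {a b : α → U}
    (h : ∀ P : (α → U) → Prop, Dp L A P → P a → P b) :
    ∃ g : U ≃[L] U, Fx L A g ∧ ∀ i, g (a i) = b i := by
  obtain ⟨n, c, hc⟩ := exists_enum hA
  have h0 : ∀ P : (α → U) → Prop, Dp L A P → (P a ↔ P b) := by
    intro P hP
    refine ⟨h P hP, fun hb => ?_⟩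
    by_contra hcon
    exact h _ (dp_not hP) hcon hb
  obtain ⟨g, hg⟩ := (Pool.Agent.MST.thm_SAU L U hM).2 (α ⊕ Fin n) (Sum.elim a c) (Sum.elim b c) (by
    intro φ
    refine h0 (fun v => φ.Realize (Sum.elim v c)) ?_
    rw [← hc]
    exact dp_of_form0 φ (fun v => Iff.rfl))
  refine ⟨g, ?_, fun i => hg (Sum.inl i)⟩
  intro x hx
  rw [← hc] at hx
  obtain ⟨i, rfl⟩ := hx
  exact hg (Sum.inr i)

/-- properties definable over a finite set and invariant over `A` are `A`-definable -/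
theorem dp_inv (hM : Mon L U) [Finite α] {A B : Set U} (hA : A.Finite) (hB : B.Finite)
    {P : (α → U) → Prop} (hP : Dp L B P)
    (h : ∀ g : U ≃[L] U, Fx L A g → ∀ v, P v → P (fun i => g (v i))) : Dp L A P := by
  have hAB : (A ∪ B).Finite := hA.union hB
  -- step 1
  have h1 : ∀ v, P v → ∃ Q : (α → U) → Prop, Dp L A Q ∧ Q v ∧ ∀ w, Q w → P w := by
    intro v hv
    by_contra hcon
    obtain ⟨w, hw⟩ := dp_sat hM hAB (F := {Q | (Dp L A Q ∧ Q v) ∨ Q = fun w => ¬ P w}) (by
      rintro Q (⟨hQ, -⟩ | rfl)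
      · exact dp_mono subset_union_left hQ
      · exact dp_mono subset_union_right (dp_not hP)) (by
      intro G hG hfin
      have h2 : Dp L A (fun w => ∀ Q ∈ {Q | Q ∈ G ∧ Dp L A Q ∧ Q v}, Q w) :=
        dp_ball (hfin.subset (fun Q hQ => hQ.1)) (fun Q hQ => hQ.2.1)
      by_contra hcon2
      apply hcon
      refine ⟨_, h2, fun Q hQ => hQ.2.2, fun w hw => ?_⟩
      by_contra hPw
      apply hcon2
      refine ⟨w, fun Q hQ => ?_⟩
      rcases hG hQ with h3 | rfl
      · exact hw Q ⟨hQ, h3⟩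
      · exact hPw)
    obtain ⟨g, hg, hgv⟩ := dp_hom hM hA (a := v) (b := w) (fun Q hQ hQv => hw Q (Or.inl ⟨hQ, hQv⟩))
    have h3 : (fun i => g (v i)) = w := funext hgv
    have h4 := h g hg v hv
    rw [h3] at h4
    exact hw _ (Or.inr rfl) h4
  -- step 2
  by_contra hcon
  obtain ⟨w, hw⟩ := dp_sat hM hAB
    (F := {Q | (∃ Q' : (α → U) → Prop, Dp L A Q' ∧ (∀ w, Q' w → P w) ∧ Q = fun w => ¬ Q' w) ∨ Q = P}) (by
    rintro Q (⟨Q', hQ', -, rfl⟩ | rfl)
    · exact dp_mono subset_union_left (dp_not hQ')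
    · exact dp_mono subset_union_right hP) (by
    intro G hG hfin
    by_contra hcon2
    apply hcon
    have h2 : Dp L A (fun w => ∃ Q ∈ {Q | Q ∈ G ∧ Dp L A Q ∧ ∀ w, ¬ Q w → P w}, ¬ Q w) :=
      dp_bex (hfin.subset (fun Q hQ => hQ.1)) (fun Q hQ => dp_not hQ.2.1)
    refine dp_congr h2 (fun w => ?_)
    constructor
    · intro hw
      by_contra hcon3
      apply hcon2
      refine ⟨w, fun Q hQ => ?_⟩
      rcases hG hQ with ⟨Q', hQ', hQP, rfl⟩ | rfl
      · by_contra hcon4
        exact hcon3 ⟨_, ⟨hQ, dp_not hQ', fun w hw => hQP w (not_not.1 hw)⟩, not_not.2 hcon4⟩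
      · exact hw
    · rintro ⟨Q, ⟨-, -, hQ⟩, hQw⟩
      exact hQ w hQw)
  have hPw : P w := hw P (Or.inr rfl)
  obtain ⟨Q, hQ, hQw, hQP⟩ := h1 w hPw
  exact hw (fun w => ¬ Q w) (Or.inl ⟨Q, hQ, hQP, rfl⟩) hQw

end sat

end Pool.Agent.MNO
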