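import Pool.Agent.MNO.StU
import Pool.Agent.MNO.Kit
import Pool.Agent.MST.CMS
import Pool.Agent.MST.SAW
import Pool.Agent.MST.ELX
import Pool.Agent.PMC.HYU

/-!
MNO, modules INA and HYC: the hypotheses in the saturated model (helper47).
-/

set_option autoImplicit false
set_option linter.unusedVariables false

namespace Pool.Agent.MNO

open FirstOrder.Language Set
open scoped FirstOrder
open Pool.Agent.WOM (tp Mon IsEl IsoM CtU Fx Orb CtT PerfT ThS)
open Pool.Agent.PMC (rel NPf)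

namespace HYC

variable {L : FirstOrder.Language.{0, 0}}

/-- the variables of an infinite array -/
abbrev Vr (m n : ℕ) : Type := ((ℕ × Fin m) ⊕ (ℕ × Fin n)) ⊕ (ℕ × ℕ)

/-- the renaming for the entry `(i, j)` and `(a, b)` -/
def ren (m n : ℕ) (p : (ℕ × ℕ) × (ℕ × ℕ)) : (Fin m ⊕ Fin n) ⊕ Unit → Vr m n ⊕ Empty :=
  Sum.elim (Sum.elim (fun t => Sum.inl (Sum.inl (Sum.inl (p.1.1, t))))
    (fun t => Sum.inl (Sum.inl (Sum.inr (p.1.2, t))))) (fun _ => Sum.inl (Sum.inr p.2))

open Classical in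
/-- the condition for the entry `(i, j)` and `(a, b)` -/
noncomputable def cnd (m n : ℕ) (φ : L.Formula ((Fin m ⊕ Fin n) ⊕ Unit)) (p : (ℕ × ℕ) × (ℕ × ℕ)) :
    L.Formula (Vr m n ⊕ Empty) :=
  if p.1 = p.2 then φ.relabel (ren m n p) else (φ.relabel (ren m n p)).not

theorem cnd_iff {V : Type} [L.Structure V] (m n : ℕ) (φ : L.Formula ((Fin m ⊕ Fin n) ⊕ Unit))
    (p : (ℕ × ℕ) × (ℕ × ℕ)) (v : Vr m n → V) (c : Empty → V) :
    (cnd m n φ p).Realize (Sum.elim v c) ↔
      (φ.Realize (Sum.elim (Sum.elim (fun t => v (Sum.inl (Sum.inl (p.1.1, t))))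
        (fun t => v (Sum.inl (Sum.inr (p.1.2, t))))) (fun _ => v (Sum.inr p.2))) ↔ p.1 = p.2) := by
  have e : (Sum.elim v c) ∘ ren m n p = (Sum.elim (Sum.elim (fun t => v (Sum.inl (Sum.inl (p.1.1, t))))
        (fun t => v (Sum.inl (Sum.inr (p.1.2, t))))) (fun _ => v (Sum.inr p.2))) := by
    funext i
    rcases i with (i | i) | i <;> rfl
  unfold cnd
  by_cases hp : p.1 = p.2
  · rw [if_pos hp, FirstOrder.Language.Formula.realize_relabel, e]
    simp [hp]
  · rw [if_neg hp, FirstOrder.Language.Formula.realize_not, FirstOrder.Language.Formula.realize_relabel, e]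
    simp [hp]

end HYC

open HYC in
theorem thm_INA_of (hSAW : Pool.Agent.MST.St_SAW) (hCMS : Pool.Agent.MST.St_CMS) : St_INA := by
  classical
  intro L hL U _ hU m n φ hex
  obtain ⟨V, _, hV, ⟨j⟩⟩ := hSAW L hL U inferInstance
  have hVi : Infinite V := Infinite.of_injective j j.injective
  -- the infinite array in `V`
  obtain ⟨v, hv⟩ := hV (Vr m n) Empty (fun e => e.elim) (range (cnd m n φ)) (by
    intro G hG hGf
    -- bound for the indices
    obtain ⟨N, hN⟩ : ∃ N : ℕ, ∀ ψ ∈ G, ∃ p : (ℕ × ℕ) × (ℕ × ℕ), cnd m n φ p = ψ ∧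
        p.1.1 < N ∧ p.1.2 < N ∧ p.2.1 < N ∧ p.2.2 < N := by
      induction G, hGf using Set.Finite.induction_on with
      | empty => exact ⟨0, fun ψ hψ => absurd hψ (notMem_empty ψ)⟩
      | @insert ψ t _ _ ih =>
        obtain ⟨N, hN⟩ := ih (fun x hx => hG (mem_insert_of_mem _ hx))
        obtain ⟨p, hp⟩ := hG (mem_insert ψ t)
        refine ⟨N + p.1.1 + p.1.2 + p.2.1 + p.2.2 + 1, ?_⟩
        intro ψ' hψ'
        rcases hψ' with rfl | hψ'
        · exact ⟨p, hp, by omega, by omega, by omega, by omega⟩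
        · obtain ⟨q, hq, h1, h2, h3, h4⟩ := hN ψ' hψ'
          exact ⟨q, hq, by omega, by omega, by omega, by omega⟩
    obtain ⟨x, y, z, hxyz⟩ := hex N
    obtain ⟨u0⟩ : Nonempty U := inferInstance
    let w : Vr m n → U := Sum.elim
      (Sum.elim (fun q => if h : q.1 < N then x ⟨q.1, h⟩ q.2 else u0)
        (fun q => if h : q.1 < N then y ⟨q.1, h⟩ q.2 else u0))
      (fun q => if h : q.1 < N ∧ q.2 < N then z ⟨q.1, h.1⟩ ⟨q.2, h.2⟩ else u0)
    refine ⟨fun i => j (w i), fun ψ hψ => ?_⟩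
    obtain ⟨p, rfl, h1, h2, h3, h4⟩ := hN ψ hψ
    rw [cnd_iff]
    have e1 : (Sum.elim (Sum.elim (fun t => j (w (Sum.inl (Sum.inl (p.1.1, t)))))
        (fun t => j (w (Sum.inl (Sum.inr (p.1.2, t)))))) (fun _ => j (w (Sum.inr p.2))) :
          (Fin m ⊕ Fin n) ⊕ Unit → V) =
        j ∘ (Sum.elim (Sum.elim (x ⟨p.1.1, h1⟩) (y ⟨p.1.2, h2⟩))
          (fun _ => z ⟨p.2.1, h3⟩ ⟨p.2.2, h4⟩)) := by
      funext i
      rcases i with (i | i) | i
      · simp only [w, Sum.elim_inl, Function.comp_apply, dif_pos h1]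
      · simp only [w, Sum.elim_inl, Sum.elim_inr, Function.comp_apply, dif_pos h2]
      · simp only [w, Sum.elim_inr, Function.comp_apply, dif_pos (And.intro h3 h4)]
    rw [e1, j.map_formula]
    refine (hxyz ⟨p.1.1, h1⟩ ⟨p.1.2, h2⟩ ⟨p.2.1, h3⟩ ⟨p.2.2, h4⟩).trans ?_
    rw [Fin.mk.injEq, Fin.mk.injEq, Prod.ext_iff])
  -- the countable model
  obtain ⟨S, i, hi, hX, hel, hmod, hreal⟩ := hCMS L hL V hVi (range v) (countable_range v)
  have hch : ∀ q : Vr m n, ∃ k : ℕ, i k = v q := fun q => hX ⟨q, rfl⟩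
  choose c hc using hch
  refine ⟨S, ?_, fun a t => c (Sum.inl (Sum.inl (a, t))), fun b t => c (Sum.inl (Sum.inr (b, t))),
    fun a b => c (Sum.inr (a, b)), ?_⟩
  · have e : L.completeTheory U = L.completeTheory V := j.elementarilyEquivalent
    rw [e]
    exact hmod
  · intro a b a' b'
    rw [hreal]
    have h1 := hv _ ⟨((a, b), (a', b')), rfl⟩
    rw [cnd_iff] at h1
    have e1 : (i ∘ (Sum.elim (Sum.elim (fun t => c (Sum.inl (Sum.inl (a, t))))
        (fun t => c (Sum.inl (Sum.inr (b, t))))) fun _ => c (Sum.inr (a', b'))) :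
          (Fin m ⊕ Fin n) ⊕ Unit → V) =
        (Sum.elim (Sum.elim (fun t => v (Sum.inl (Sum.inl (a, t))))
        (fun t => v (Sum.inl (Sum.inr (b, t))))) (fun _ => v (Sum.inr (a', b')))) := by
      funext t
      rcases t with (t | t) | t <;> exact hc _
    rw [e1]
    refine h1.trans ?_
    rw [Prod.ext_iff]

theorem thm_INA : St_INA :=
  thm_INA_of Pool.Agent.MST.thm_SAW (Pool.Agent.MST.thm_CMS Pool.Agent.MST.thm_ELX)

theorem hyc_of (hINA : St_INA) : St_HYC := by
  classical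
  intro L hL T lt hT U _ hUT hM
  have hctb : Countable U := hM.ctb
  have hinf : Infinite U := hM.inf
  -- the order
  obtain ⟨e⟩ : Nonempty (U ≃ ℕ) := nonempty_equiv_of_countable
  let S0 : L.Structure ℕ := e.inducedStructure
  let E : @FirstOrder.Language.Equiv L U ℕ _ S0 := e.inducedStructureEquiv
  have hmod0 : @FirstOrder.Language.Theory.Model L ℕ S0 T :=
    FirstOrder.Language.StrongHomClass.theory_model E
  have hH := hT S0 hmod0
  have hirr : ∀ x : U, ¬ rel L U lt x x := fun x hx => hH.irr (E x) ((Pool.Agent.PMC.HYU.rel_iso E lt x x).2 hx)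
  have htra : ∀ x y z : U, rel L U lt x y → rel L U lt y z → rel L U lt x z := fun x y z h1 h2 =>
    (Pool.Agent.PMC.HYU.rel_iso E _ x z).1
      (hH.tra (E x) (E y) (E z) ((Pool.Agent.PMC.HYU.rel_iso E _ x y).2 h1)
        ((Pool.Agent.PMC.HYU.rel_iso E _ y z).2 h2))
  have htot : ∀ x y : U, x ≠ y → rel L U lt x y ∨ rel L U lt y x := fun x y hxy => by
    rcases hH.tot (E x) (E y) (fun he => hxy (E.injective he)) with h1 | h1
    · exact Or.inl ((Pool.Agent.PMC.HYU.rel_iso E _ x y).1 h1)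
    · exact Or.inr ((Pool.Agent.PMC.HYU.rel_iso E _ y x).1 h1)
  refine ⟨hM, ⟨()⟩, fun _ _ => rfl, ?_, fun _ => rfl, fun _ => hirr, fun _ => htra, fun _ => htot,
    ?_, ?_⟩
  · intro _
    rw [Set.empty_definable_iff]
    refine ⟨lt, ?_⟩
    ext v
    have hv : (![v 0, v 1] : Fin 2 → U) = v := by
      funext i
      fin_cases i <;> rfl
    simp only [Set.mem_ofPred_eq]
    unfold rel
    rw [hv]
  · intro _ u x hx y hy
    exact htra y x u hy hx
  · intro m n P hP
    by_contra hcon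
    push Not at hcon
    obtain ⟨ψ, hψ⟩ := dp_form hP
    let φ : L.Formula ((Fin m ⊕ Fin n) ⊕ Unit) :=
      ψ.relabel (Sum.elim (fun a => absurd a.2 (notMem_empty _)) (fun i => i))
    have hφ : ∀ (x : Fin m → U) (y : Fin n → U) (z : U), P x y z ↔
        φ.Realize (Sum.elim (Sum.elim x y) fun _ => z) := by
      intro x y z
      have h1 := hψ (Sum.elim (Sum.elim x y) fun _ => z)
      refine h1.trans ?_
      show _ ↔ (ψ.relabel _).Realize _
      rw [FirstOrder.Language.Formula.realize_relabel]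
      apply iff_of_eq
      congr 1
      funext i
      rcases i with i | i
      · exact absurd i.2 (notMem_empty _)
      · rfl
    obtain ⟨S, hmod, x, y, z, hxyz⟩ := hINA L hL U hinf m n φ (fun k => by
      obtain ⟨x, y, z, h⟩ := hcon k
      exact ⟨x, y, z, fun i j a b => (hφ _ _ _).symm.trans (h i j a b)⟩)
    have hmodT : @FirstOrder.Language.Theory.Model L ℕ S T := by
      refine @FirstOrder.Language.Theory.Model.mk L ℕ S _ fun χ hχ => ?_
      refine @FirstOrder.Language.Theory.realize_sentence_of_mem L ℕ S _ hmod χ ?_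
      have h2 : U ⊨ χ := FirstOrder.Language.Theory.realize_sentence_of_mem T hχ
      exact h2
    obtain ⟨g, hg⟩ := exists_surjective_nat (Finset ℕ)
    obtain ⟨k, hk⟩ := (hT S hmodT).nip {w | ∃ a b, w = z a b ∧ a ∈ g b} m n φ
    have hcode : ∀ s : Set (Fin k), ∃ b : ℕ, ∀ i : Fin k, (i : ℕ) ∈ g b ↔ i ∈ s := by
      intro s
      have hfin : ((fun i : Fin k => (i : ℕ)) '' s).Finite := s.toFinite.image _
      obtain ⟨b, hb⟩ := hg hfin.toFinset
      refine ⟨b, fun i => ?_⟩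
      rw [hb, Set.Finite.mem_toFinset]
      constructor
      · rintro ⟨i', h1, h2⟩
        rwa [Fin.val_injective h2] at h1
      · intro h1
        exact ⟨i, h1, rfl⟩
    choose b hb using hcode
    refine hk ⟨fun i => x i, fun s => y (b s), fun i s => ?_⟩
    rw [← hb s i]
    constructor
    · rintro ⟨w, ⟨a, b', rfl, hab⟩, hw⟩
      obtain ⟨h1, h2⟩ := (hxyz _ _ _ _).1 hw
      rw [h1, h2]
      exact hab
    · intro h1
      exact ⟨_, ⟨i, b s, rfl, h1⟩, (hxyz _ _ _ _).2 ⟨rfl, rfl⟩⟩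

theorem thm_HYC : St_HYC := hyc_of thm_INA

end Pool.Agent.MNO
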