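import Pool.Agent.MNO.StC
import Pool.Agent.MNO.StB
import Pool.Agent.MNO.Base
import Pool.Agent.PMC.DNF
import Mathlib.Data.Prod.Lex
import Mathlib.Order.WithBot

/-!
MNO: insertion of copies of an interval of a model into a rich model: `St_INS` (helper13; the text follows
`Pool/Agent/PMC/INS.lean`, helper62).
-/

set_option autoImplicit false
set_option linter.unusedVariables false

namespace Pool.Agent.MNO

open FirstOrder.Language Set
open scoped FirstOrder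
open Pool.Agent.WOM (tp Mon IsEl IsoM CtU Fx Orb)
open Pool.Agent.PMC (Ini ct Dc cel Sin Nd Ct lts ext XS Ex Fa Ll LL Itv Sm Md NPf)

namespace InsProof

section order

variable {O : Type} [LinearOrder O] {U : Type} {E : Set U} {c : ℚ → U}

/-- the order of the indices, with one additional first element -/
abbrev W (O : Type) : Type := WithBot O ×ₗ WithBot ℚ

/-- the first element -/
def w0 : W O := toLex (⊥, ⊥)

/-- the rational points -/
def rat (a : WithBot O) (r : ℚ) : W O := toLex (a, (r : WithBot ℚ))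

theorem above_bot (hc : ∀ z ∈ E, ∀ a b : ℚ, a < b → ∃ q, a < q ∧ q < b ∧ c q = z)
    {z : U} (hz : z ∈ E) (β : WithBot ℚ) : ∃ r : ℚ, c r = z ∧ β < (r : WithBot ℚ) := by
  induction β using WithBot.recBotCoe with
  | bot =>
    obtain ⟨r, _, _, hr⟩ := hc z hz 0 1 (by norm_num)
    exact ⟨r, hr, WithBot.bot_lt_coe r⟩
  | coe b =>
    obtain ⟨r, h1, _, hr⟩ := hc z hz b (b + 1) (by linarith)
    exact ⟨r, hr, WithBot.coe_lt_coe.2 h1⟩

theorem between_bot (hc : ∀ z ∈ E, ∀ a b : ℚ, a < b → ∃ q, a < q ∧ q < b ∧ c q = z)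
    {z : U} (hz : z ∈ E) (β β' : WithBot ℚ) (h : β < β') :
    ∃ r : ℚ, c r = z ∧ β < (r : WithBot ℚ) ∧ (r : WithBot ℚ) < β' := by
  induction β' using WithBot.recBotCoe with
  | bot => exact absurd h (not_lt_bot)
  | coe b' =>
    induction β using WithBot.recBotCoe with
    | bot =>
      obtain ⟨r, _, h2, hr⟩ := hc z hz (b' - 1) b' (by linarith)
      exact ⟨r, hr, WithBot.bot_lt_coe r, WithBot.coe_lt_coe.2 h2⟩
    | coe b =>
      obtain ⟨r, h1, h2, hr⟩ := hc z hz b b' (WithBot.coe_lt_coe.1 h)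
      exact ⟨r, hr, WithBot.coe_lt_coe.2 h1, WithBot.coe_lt_coe.2 h2⟩

theorem above_rat (hc : ∀ z ∈ E, ∀ a b : ℚ, a < b → ∃ q, a < q ∧ q < b ∧ c q = z)
    {z : U} (hz : z ∈ E) (d : W O) : ∃ (a : WithBot O) (r : ℚ), c r = z ∧ d < rat a r := by
  obtain ⟨r, h1, h2⟩ := above_bot hc hz (ofLex d).2
  exact ⟨(ofLex d).1, r, h1, (Prod.Lex.lt_iff).2 (Or.inr ⟨rfl, h2⟩)⟩

theorem between_rat (hc : ∀ z ∈ E, ∀ a b : ℚ, a < b → ∃ q, a < q ∧ q < b ∧ c q = z)
    {z : U} (hz : z ∈ E) (d d' : W O) (h : d < d') :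
    ∃ (a : WithBot O) (r : ℚ), c r = z ∧ d < rat a r ∧ rat a r < d' := by
  rcases (Prod.Lex.lt_iff).1 h with h | ⟨h, h'⟩
  · obtain ⟨r, h1, h2⟩ := above_bot hc hz (ofLex d).2
    exact ⟨(ofLex d).1, r, h1, (Prod.Lex.lt_iff).2 (Or.inr ⟨rfl, h2⟩),
      (Prod.Lex.lt_iff).2 (Or.inl h)⟩
  · obtain ⟨r, h1, h2, h3⟩ := between_bot hc hz _ _ h'
    exact ⟨(ofLex d).1, r, h1, (Prod.Lex.lt_iff).2 (Or.inr ⟨rfl, h2⟩),
      (Prod.Lex.lt_iff).2 (Or.inr ⟨h, h3⟩)⟩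

theorem w0_lt (d : W O) (h : d ≠ w0) : w0 < d := by
  rcases lt_trichotomy w0 d with h1 | h1 | h1
  · exact h1
  · exact absurd h1.symm h
  · exfalso
    rcases (Prod.Lex.lt_iff).1 h1 with h2 | ⟨_, h2⟩
    · exact absurd h2 not_lt_bot
    · exact absurd h2 not_lt_bot

omit [LinearOrder O] in
theorem rat_ne (a : WithBot O) (r : ℚ) : (rat a r : W O) ≠ w0 := by
  intro h
  have h1 : (ofLex (rat a r : W O)).2 = (ofLex (w0 : W O)).2 := by rw [h]
  exact WithBot.coe_ne_bot h1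

/-- the model of an index -/
def mo (M0 M : Set U) (β : WithBot ℚ) : Set U :=
  WithBot.recBotCoe (C := fun _ => Set U) M (fun _ => M0) β

/-- the point of an index -/
def po (p : U) (c : ℚ → U) (β : WithBot ℚ) : U := WithBot.recBotCoe (C := fun _ => U) p c β

theorem po_mem {p : U} (hp : p ∈ E) (hc : ∀ r, c r ∈ E) (β : WithBot ℚ) : po p c β ∈ E := by
  induction β using WithBot.recBotCoe with
  | bot => exact hp
  | coe r => exact hc r

theorem po_mo {M0 M : Set U} {p : U} (hp : p ∈ M) (hc : ∀ r, c r ∈ M0) (β : WithBot ℚ) :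
    po p c β ∈ mo M0 M β := by
  induction β using WithBot.recBotCoe with
  | bot => exact hp
  | coe r => exact hc r

theorem po_lt {lt : U → U → Prop} {p q : U} (h : ¬ lt q p) (hc : ∀ r, ¬ lt (c r) (c r))
    (β : WithBot ℚ) : ¬ lt (po q c β) (po p c β) := by
  induction β using WithBot.recBotCoe with
  | bot => exact h
  | coe r => exact hc r

end order

end InsProof

open InsProof in
theorem ins_core (h2 : St_PLC) (h3 : St_SUM) {L : FirstOrder.Language.{0, 0}} {U : Type}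
    [L.Structure U] {κ : Type} {R : κ → U → U → Prop} {o : κ → κ} (hC : Cx L R o) {A E : Set U}
    {sg : κ → U → Bool} (hO : Ori L R o A E sg)
    (irr : ∀ w ∈ E, ¬ Ll L R o A sg w w)
    (oCmp : ∀ u ∈ E, ∀ w ∈ E, Ll L R o A sg u w → ∀ v ∈ E, Ll L R o A sg u v ∨ Ll L R o A sg v w)
    (oTr : ∀ u ∈ E, ∀ v ∈ E, ∀ w ∈ E, Ll L R o A sg u v → Ll L R o A sg v w → Ll L R o A sg u w)
    (inv : ∀ g : U ≃[L] U, Nx L A g → ∀ w ∈ E, ∀ z ∈ E,
      (Ll L R o A sg (g w) (g z) ↔ Ll L R o A sg w z))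
    {M0 M : Set U} {p q : U} (hM0 : Ric L R o A M0) (hM : Md L A M) (hpM : p ∈ M) (hpE : p ∈ E)
    (hqM : q ∈ M) (hqE : q ∈ E) (hqp : ¬ Ll L R o A sg q p) (O : Type) [LinearOrder O]
    [Countable O] :
    ∃ (X0 : Set U) (r : O → (U ≃[L] U)), (∀ a, Nx L A (r a)) ∧ (∀ x ∉ E, (x ∈ X0 ↔ x ∈ M0)) ∧
      (∀ T : Set O, IsEl L (X0 ∪ ⋃ a ∈ T, (r a) '' Itv L R o A E sg M p q)) ∧
      (∀ a, ∀ x ∈ (r a) '' Itv L R o A E sg M p q, x ∉ X0) ∧
      (∀ a a', a < a' → ∀ x ∈ (r a) '' Itv L R o A E sg M p q,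
        ∀ y ∈ (r a') '' Itv L R o A E sg M p q, Ll L R o A sg x y) ∧
      (∀ x ∈ X0, x ∈ E → ∀ a, (∀ y ∈ (r a) '' Itv L R o A E sg M p q, Ll L R o A sg x y) ∨
        ∀ y ∈ (r a) '' Itv L R o A E sg M p q, Ll L R o A sg y x) ∧
      (∀ x ∈ X0, x ∈ E → ∃ z ∈ M0, z ∈ E ∧ ∃ g : U ≃[L] U, Nx L A g ∧
        x ∈ g '' Itv L R o A E sg M0 z z ∧ ∀ y ∈ E, ¬ Ll L R o A sg x y → ¬ Ll L R o A sg y x →
          (y ∈ X0 ↔ y ∈ g '' Itv L R o A E sg M0 z z)) ∧
      (∀ x ∈ E, ∀ y ∈ E, (x ∈ X0 ∨ ∃ a, x ∈ (r a) '' Itv L R o A E sg M p q) →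
        (y ∈ X0 ∨ ∃ a, y ∈ (r a) '' Itv L R o A E sg M p q) → Ll L R o A sg x y →
        (¬ ∃ a, x ∈ (r a) '' Itv L R o A E sg M p q ∧ y ∈ (r a) '' Itv L R o A E sg M p q) →
        ∀ z ∈ M0, z ∈ E → ∃ g : U ≃[L] U, Nx L A g ∧ g z ∈ X0 ∧ Ll L R o A sg x (g z) ∧
          Ll L R o A sg (g z) y ∧ ∀ w ∈ E, ¬ Ll L R o A sg (g z) w → ¬ Ll L R o A sg w (g z) →
            (w ∈ X0 ↔ w ∈ g '' Itv L R o A E sg M0 z z)) ∧
      (∃ y ∈ X0, ∃ y' ∈ X0, y ∈ E ∧ y' ∈ E ∧ Ll L R o A sg y y' ∧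
        ∀ a, ∀ x ∈ (r a) '' Itv L R o A E sg M p q, Ll L R o A sg y' x) := by
  have invE : ∀ g : U ≃[L] U, Nx L A g → ∀ x, g x ∈ E ↔ x ∈ E :=
    fun g hg x => cls_fx hC hO.fin hO.clo hg.1 x
  have := hC.mon.ctb
  have hric : ∀ x ∈ E, ∀ F, FE1 L A F → ∀ j, ∃ y ∈ M0 ∩ E, y ∈ cel L R o A j x ∧ F x y := by
    intro x hx F hF j
    obtain ⟨y, hy, hyc, hFy⟩ := hM0.2 F hF j x
    exact ⟨y, ⟨hy, (cls_cel hC hO.fin hO.clo hyc).2 hx⟩, hyc, hFy⟩
  have hZne : (M0 ∩ E).Nonempty := by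
    obtain ⟨x, hx⟩ := hO.ne
    obtain ⟨j⟩ := hC.ne
    have hF : FE1 L A (fun _ _ : U => True) := by
      refine ⟨dp_true, ⟨fun _ => trivial, fun _ => trivial, fun _ _ => trivial⟩,
        {fun _ => x}, Set.finite_singleton _, fun y => ⟨fun _ => x, rfl, trivial⟩⟩
    obtain ⟨y, hy, _⟩ := hric x hx _ hF j
    exact ⟨y, hy⟩
  obtain ⟨c, hcZ, hc⟩ := Pool.Agent.PMC.thm_DNF U (M0 ∩ E) (Set.to_countable _) hZne
  have hcE : ∀ r, c r ∈ E := fun r => (hcZ r).2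
  have hcM : ∀ r, c r ∈ M0 := fun r => (hcZ r).1
  have : Countable (WithBot O) := inferInstanceAs (Countable (Option O))
  have : Countable (WithBot ℚ) := inferInstanceAs (Countable (Option ℚ))
  have : Countable (W O) := inferInstanceAs (Countable (WithBot O × WithBot ℚ))
  let D := {d : W O // d ≠ w0}
  let s2 : D → WithBot ℚ := fun d => (ofLex d.1).2
  let mm : D → Set U := fun d => mo M0 M (s2 d)
  let pp : D → U := fun d => po p c (s2 d)
  let qq : D → U := fun d => po q c (s2 d)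
  have hpp : ∀ d, pp d ∈ E := fun d => po_mem hpE hcE _
  have hqq : ∀ d, qq d ∈ E := fun d => po_mem hqE hcE _
  have hqp' : ∀ d, ¬ Ll L R o A sg (qq d) (pp d) := fun d =>
    po_lt hqp (fun r => irr _ (hcE r)) _
  obtain ⟨g, hg, hlt⟩ := h2 L U κ R o hC A E sg hO D pp qq hpp hqq hqp'
  let P : D → Set U := fun d => (g d) '' Itv L R o A E sg (mm d) (pp d) (qq d)
  have hPE : ∀ d, ∀ x ∈ P d, x ∈ E := by
    rintro d _ ⟨x, hx, rfl⟩
    exact (invE _ (hg d) x).2 hx.2.1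
  have hPp : ∀ d, ∀ x ∈ P d, ¬ Ll L R o A sg x (g d (pp d)) := by
    rintro d _ ⟨x, hx, rfl⟩ h
    exact hx.2.2.1 ((inv _ (hg d) x hx.2.1 _ (hpp d)).1 h)
  have hPq : ∀ d, ∀ x ∈ P d, ¬ Ll L R o A sg (g d (qq d)) x := by
    rintro d _ ⟨x, hx, rfl⟩ h
    exact hx.2.2.2 ((inv _ (hg d) _ (hqq d) x hx.2.1).1 h)
  have hgp : ∀ d, g d (pp d) ∈ E := fun d => (invE _ (hg d) _).2 (hpp d)
  have hgq : ∀ d, g d (qq d) ∈ E := fun d => (invE _ (hg d) _).2 (hqq d)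
  have hPlt : ∀ d d', d < d' → ∀ x ∈ P d, ∀ y ∈ P d', Ll L R o A sg x y := by
    intro d d' hd x hx y hy
    have e1 : Ll L R o A sg x (g d' (pp d')) := by
      rcases oCmp _ (hgq d) _ (hgp d') (hlt d d' hd) x (hPE d x hx) with h | h
      · exact absurd h (hPq d x hx)
      · exact h
    rcases oCmp _ (hPE d x hx) _ (hgp d') e1 y (hPE d' y hy) with h | h
    · exact h
    · exact absurd h (hPp d' y hy)
  -- the indices
  have hia : ∀ a : O, (toLex ((a : WithBot O), (⊥ : WithBot ℚ)) : W O) ≠ w0 := by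
    intro a h
    have h' : (ofLex (toLex ((a : WithBot O), (⊥ : WithBot ℚ)) : W O)).1
        = (ofLex (w0 : W O)).1 := by rw [h]
    exact WithBot.coe_ne_bot h'
  let ia : O → D := fun a => ⟨toLex ((a : WithBot O), (⊥ : WithBot ℚ)), hia a⟩
  let ra : WithBot O → ℚ → D := fun a r => ⟨rat a r, rat_ne a r⟩
  have ia_of : ∀ d : D, s2 d = ⊥ → ∃ a, d = ia a := by
    rintro ⟨d, hd⟩ h
    have h' : (ofLex d).2 = ⊥ := h
    rcases hα : (ofLex d).1 with _ | a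
    · exfalso
      apply hd
      show d = toLex (⊥, ⊥)
      have : ofLex d = (⊥, ⊥) := Prod.ext hα h'
      rw [← this]
      rfl
    · refine ⟨a, Subtype.ext ?_⟩
      have : ofLex d = ((a : WithBot O), ⊥) := Prod.ext hα h'
      show d = toLex ((a : WithBot O), ⊥)
      rw [← this]
      rfl
  have ia_lt : ∀ a a', a < a' → ia a < ia a' := by
    intro a a' h
    exact (Prod.Lex.lt_iff).2 (Or.inl (WithBot.coe_lt_coe.2 h))
  have ia_ne : ∀ a (d : D), s2 d ≠ ⊥ → d ≠ ia a := by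
    rintro a d hd rfl
    exact hd rfl
  have ra_ne : ∀ a r, s2 (ra a r) ≠ ⊥ := fun a r => WithBot.coe_ne_bot
  have ra_mem : ∀ a r, g (ra a r) (c r) ∈ P (ra a r) := by
    intro a r
    exact ⟨c r, ⟨hcM r, hcE r, irr _ (hcE r), irr _ (hcE r)⟩, rfl⟩
  have btw : ∀ d d' : D, d < d' → ∀ z ∈ M0 ∩ E, ∃ (a : WithBot O) (r : ℚ), c r = z ∧
      d < ra a r ∧ ra a r < d' := by
    intro d d' h z hz
    obtain ⟨a, r, e1, e2, e3⟩ := between_rat hc hz d.1 d'.1 h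
    exact ⟨a, r, e1, e2, e3⟩
  have abv : ∀ d : D, ∀ z ∈ M0 ∩ E, ∃ (a : WithBot O) (r : ℚ), c r = z ∧ d < ra a r := by
    intro d z hz
    obtain ⟨a, r, e1, e2⟩ := above_rat hc hz d.1
    exact ⟨a, r, e1, e2⟩
  have blw : ∀ d : D, ∀ z ∈ M0 ∩ E, ∃ (a : WithBot O) (r : ℚ), c r = z ∧ ra a r < d := by
    intro d z hz
    obtain ⟨a, r, e1, _, e3⟩ := between_rat hc hz w0 d.1 (w0_lt d.1 d.2)
    exact ⟨a, r, e1, e3⟩
  let X0 : Set U := {x | (x ∈ M0 ∧ x ∉ E) ∨ ∃ d, s2 d ≠ ⊥ ∧ x ∈ P d}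
  have hX0 : ∀ x ∈ X0, x ∈ E → ∃ d, s2 d ≠ ⊥ ∧ x ∈ P d := by
    rintro x (h | h) hx
    · exact absurd hx h.2
    · exact h
  -- points of a rational index
  have hcl : ∀ d, s2 d ≠ ⊥ → ∃ r, mm d = M0 ∧ pp d = c r ∧ qq d = c r := by
    intro d hd
    show ∃ r, mo M0 M (s2 d) = M0 ∧ po p c (s2 d) = c r ∧ po q c (s2 d) = c r
    rcases hβ : s2 d with _ | r
    · exact absurd hβ hd
    · exact ⟨r, rfl, rfl, rfl⟩
  -- the cluster of a point of a rational index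
  have hclu : ∀ d, s2 d ≠ ⊥ → ∀ v ∈ P d, ∀ w ∈ E, ¬ Ll L R o A sg v w → ¬ Ll L R o A sg w v →
      (w ∈ X0 ↔ w ∈ P d) := by
    intro d hd v hv w hw h1 h2
    constructor
    · intro hw0
      obtain ⟨d', hd', hwd'⟩ := hX0 w hw0 hw
      rcases lt_trichotomy d d' with h | h | h
      · exact absurd (hPlt _ _ h v hv w hwd') h1
      · rw [h]
        exact hwd'
      · exact absurd (hPlt _ _ h w hwd' v hv) h2
    · intro h
      exact Or.inr ⟨d, hd, h⟩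
  -- transport of a finite equivalence relation
  have hFg : ∀ F, FE1 L A F → ∀ h : U ≃[L] U, Nx L A h → ∀ x y, F x y → F x (h y) := by
    intro F hF h hh x y hxy
    have e1 : F y (h y) := hh.2 1 (fun _ => y) _ hF
    exact hF.eqv.trans (x := fun _ => x) (y := fun _ => y) (z := fun _ => h y) hxy e1
  refine ⟨X0, fun a => g (ia a), fun a => hg _, ?_, ?_, ?_, ?_, ?_, ?_, ?_, ?_⟩
  · intro x hx
    constructor
    · rintro (h | ⟨d, _, hd⟩)
      · exact h.1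
      · exact absurd (hPE d x hd) hx
    · intro h
      exact Or.inl ⟨h, hx⟩
  · intro S
    let D' := {d : D // ∀ a, d = ia a → a ∈ S}
    let rb : WithBot O → ℚ → D' := fun a r => ⟨ra a r, fun b hb => absurd hb (ia_ne b _ (ra_ne a r))⟩
    have key := h3 L U κ R o hC A E sg hO D' {d | s2 d.1 ≠ ⊥} M0 (fun d => mm d.1)
      (fun d => pp d.1) (fun d => qq d.1) (fun d => g d.1) (fun d => hg _) hM0.1 ?_ ?_ ?_ ?_ ?_
    · have : (X0 ∪ ⋃ a ∈ S, (g (ia a)) '' Itv L R o A E sg M p q) =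
          (M0 \ E) ∪ ⋃ d : D', (g d.1) '' Itv L R o A E sg (mm d.1) (pp d.1) (qq d.1) := by
        ext x
        constructor
        · rintro ((h | ⟨d, hd, hx⟩) | h)
          · exact Or.inl h
          · exact Or.inr (mem_iUnion.2 ⟨⟨d, fun b hb => absurd hb (ia_ne b _ hd)⟩, hx⟩)
          · obtain ⟨a, ha, hx⟩ := mem_iUnion₂.1 h
            refine Or.inr (mem_iUnion.2 ⟨⟨ia a, fun b hb => ?_⟩, hx⟩)
            have e1 : (ofLex (ia a).1).1 = (ofLex (ia b).1).1 := by rw [hb]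
            have e2 : a = b := WithBot.coe_injective e1
            rw [← e2]
            exact ha
        · rintro (h | h)
          · exact Or.inl (Or.inl h)
          · obtain ⟨⟨d, hd⟩, hx⟩ := mem_iUnion.1 h
            by_cases hb : s2 d = ⊥
            · obtain ⟨a, rfl⟩ := ia_of d hb
              exact Or.inr (mem_iUnion₂.2 ⟨a, hd a rfl, hx⟩)
            · exact Or.inl (Or.inr ⟨d, hb, hx⟩)
      rw [this]
      exact key
    · intro d
      by_cases hb : s2 d.1 = ⊥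
      · obtain ⟨a, ha⟩ := ia_of d.1 hb
        have e1 : mm d.1 = M := by rw [ha]; rfl
        show Md L A (mm d.1)
        rw [e1]
        exact hM
      · show Md L A (mm d.1)
        obtain ⟨r, e1, _⟩ := hcl d.1 hb
        rw [e1]
        exact hM0.1
    · exact fun d => ⟨po_mo hpM hcM _, hpp _⟩
    · exact fun d => ⟨po_mo hqM hcM _, hqq _⟩
    · exact fun d d' h => hlt d.1 d'.1 h
    · intro x hx F hF j
      obtain ⟨y, hyZ, hyc, hFy⟩ := hric x hx F hF j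
      have hgy : ∀ a r, c r = y → ∃ x' ∈ P (ra a r), x' ∈ cel L R o A j x ∧ F x x' := by
        intro a r e1
        refine ⟨g (ra a r) y, ?_, ?_, hFg F hF _ (hg _) x y hFy⟩
        · rw [← e1]
          exact ra_mem a r
        · exact (fx_mem_cel hC j y x (hg _).1).2 hyc
      refine ⟨?_, ?_, ?_, ?_⟩
      · obtain ⟨r, e1, _⟩ := above_bot hc hyZ ⊥
        exact ⟨rb ⊥ r, ra_ne _ _, hgy ⊥ r e1⟩
      · intro d
        obtain ⟨a, r, e1, e2⟩ := blw d.1 y hyZ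
        exact ⟨rb a r, ra_ne _ _, e2, hgy a r e1⟩
      · intro d
        obtain ⟨a, r, e1, e2⟩ := abv d.1 y hyZ
        exact ⟨rb a r, ra_ne _ _, e2, hgy a r e1⟩
      · intro d d' h
        obtain ⟨a, r, e1, e2, e3⟩ := btw d.1 d'.1 h y hyZ
        exact ⟨rb a r, ra_ne _ _, e2, e3, hgy a r e1⟩
  · intro a x hx hx0
    have hxa : x ∈ P (ia a) := hx
    obtain ⟨d, hd, hxd⟩ := hX0 x hx0 (hPE _ x hxa)
    rcases lt_trichotomy d (ia a) with h | h | h
    · exact irr x (hPE _ x hxa) (hPlt d _ h x hxd x hxa)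
    · exact ia_ne a d hd h
    · exact irr x (hPE _ x hxa) (hPlt _ d h x hxa x hxd)
  · intro a a' h x hx y hy
    exact hPlt (ia a) (ia a') (ia_lt a a' h) x hx y hy
  · intro x hx0 hx a
    obtain ⟨d, hd, hxd⟩ := hX0 x hx0 hx
    rcases lt_trichotomy d (ia a) with h | h | h
    · exact Or.inl fun y hy => hPlt d _ h x hxd y hy
    · exact absurd h (ia_ne a d hd)
    · exact Or.inr fun y hy => hPlt _ d h y hy x hxd
  · intro x hx0 hx
    obtain ⟨d, hd, hxd⟩ := hX0 x hx0 hx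
    obtain ⟨r, e1, e2, e3⟩ := hcl d hd
    have e4 : P d = (g d) '' Itv L R o A E sg M0 (c r) (c r) := by
      show (g d) '' Itv L R o A E sg (mm d) (pp d) (qq d) = _
      rw [e1, e2, e3]
    refine ⟨c r, hcM r, hcE r, g d, hg d, ?_, fun y hy h1 h2 => ?_⟩
    · rw [← e4]
      exact hxd
    · rw [← e4]
      exact hclu d hd x hxd y hy h1 h2
  · intro x hx y hy hx0 hy0 hxy hno z hzM hzE
    have idx : ∀ x ∈ E, (x ∈ X0 ∨ ∃ a, x ∈ (g (ia a)) '' Itv L R o A E sg M p q) →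
        ∃ d, x ∈ P d := by
      rintro x hx (h | ⟨a, ha⟩)
      · obtain ⟨d, _, hd⟩ := hX0 x h hx
        exact ⟨d, hd⟩
      · exact ⟨ia a, ha⟩
    obtain ⟨d, hd⟩ := idx x hx hx0
    obtain ⟨d', hd'⟩ := idx y hy hy0
    rcases lt_trichotomy d d' with h | h | h
    · obtain ⟨a, r, e1, e2, e3⟩ := btw d d' h z ⟨hzM, hzE⟩
      have e4 := ra_mem a r
      have e5 : P (ra a r) = (g (ra a r)) '' Itv L R o A E sg M0 (c r) (c r) := rfl
      rw [e1] at e4 e5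
      refine ⟨g (ra a r), hg _, Or.inr ⟨_, ra_ne a r, e4⟩, hPlt _ _ e2 x hd _ e4,
        hPlt _ _ e3 _ e4 y hd', fun w hw h1 h2 => ?_⟩
      rw [← e5]
      exact hclu _ (ra_ne a r) _ e4 w hw h1 h2
    · exfalso
      subst h
      by_cases hb : s2 d = ⊥
      · obtain ⟨a, rfl⟩ := ia_of d hb
        exact hno ⟨a, hd, hd'⟩
      · obtain ⟨r, e1, e2, e3⟩ := hcl d hb
        rcases oCmp _ hx _ hy hxy _ (hgp d) with h' | h'
        · exact hPp d x hd h'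
        · apply hPq d y hd'
          rw [e3, ← e2]
          exact h'
    · exact absurd (oTr _ hx _ hy _ hx hxy (hPlt _ _ h y hd' x hd)) (irr x hx)
  · have h01 : ra ⊥ 0 < ra ⊥ 1 :=
      (Prod.Lex.lt_iff).2 (Or.inr ⟨rfl, WithBot.coe_lt_coe.2 (by norm_num)⟩)
    refine ⟨g (ra ⊥ 0) (c 0), Or.inr ⟨_, ra_ne _ _, ra_mem _ _⟩, g (ra ⊥ 1) (c 1),
      Or.inr ⟨_, ra_ne _ _, ra_mem _ _⟩, hPE _ _ (ra_mem _ _), hPE _ _ (ra_mem _ _),
      hPlt _ _ h01 _ (ra_mem _ _) _ (ra_mem _ _), ?_⟩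
    intro a x hx
    have h1a : ra ⊥ 1 < ia a := (Prod.Lex.lt_iff).2 (Or.inl (WithBot.bot_lt_coe a))
    exact hPlt _ _ h1a _ (ra_mem _ _) x hx

/-- **INS** -/
theorem thm_INS (h2 : St_PLC) (h3 : St_SUM) (h4 : St_ORD) (h5 : St_FAI) : St_INS := by
  intro L U _ κ R o hC A E sg hO M0 M p q hM0 hM hpM hpE hqM hqE hqp O _ _
  obtain ⟨_, oIrr, oCmp, oTr, _, _⟩ := h4 L U κ R o hC A E sg hO
  obtain ⟨_, _, fInv, _, _, _, _, _⟩ := h5 L U κ R o hC A E sg hO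
  exact ins_core h2 h3 hC hO (fun w hw => oIrr w hw true) oCmp oTr
    (fun g hg w hw z hz => (fInv g hg.1).2 w hw z hz true) hM0 hM hpM hpE hqM hqE hqp O

end Pool.Agent.MNO
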