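import Pool.Agent.MNO.StB
import Pool.Agent.MNO.LBase

/-!
MNO: [MKO] extreme pieces are good, with the orientation outwards (helper25, after GRK/MKO).
-/

set_option autoImplicit false
set_option linter.unusedVariables false

namespace Pool.Agent.MNO

open FirstOrder.Language Set
open scoped FirstOrder
open Pool.Agent.WOM (tp Mon IsEl IsoM CtU Fx Orb)
open Pool.Agent.PMC (Ini ct Dc cel Sin Nd Ct lts ext XS Ex Fa Ll LL Itv Sm Md NPf)

theorem thm_MKO (hAV : St_AV) (hAG : St_AG) (hEXB : St_EXB) (hXSP : St_XSP) : St_MKO := by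
  intro L U _ κ R o hC A x z0 hA hx hz0 hX0
  obtain ⟨B, hBdef⟩ : ∃ B : Set U, B = insert x A := ⟨_, rfl⟩
  rw [← hBdef] at hX0 ⊢
  have hAB : A ⊆ B := hBdef ▸ subset_insert x A
  have hxB : x ∈ B := hBdef ▸ mem_insert x A
  have hB : B.Finite := hBdef ▸ hA.insert x
  obtain ⟨j0⟩ := hC.ne
  have hEA : Pc L R o B z0 ⊆ Pc L R o A x := by
    intro y hy
    rw [← pc_eq hz0]
    exact pc_anti hC hAB hB z0 hy
  have hEX : Pc L R o B z0 ⊆ XS L R o A B := pc_sub (hXSP L U κ R o hC A B hAB hB).2 hX0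
  have hndA : ∀ z ∈ Pc L R o B z0, Nd L A z := fun z hz => (hEX hz).1
  have hcutA : ∀ z ∈ Pc L R o B z0, ∀ j, Ct L R o B j (cel L R o A j z) := fun z hz =>
    hAG L U κ R o hC A B x z hAB hB hxB hx (hEA hz)
  have hoo : ∀ (b : Bool) (j : κ) (z : U), ext L R o b B (o j) (cel L R o A (o j) z) =
      ext L R o b B j (cel L R o A j z) := by
    intro b j z
    rw [hC.uni (o j) j]
  classical
  obtain ⟨sg, hsgdef⟩ : ∃ sg : κ → U → Bool, ∀ j z,
      sg j z = decide (z ∈ ext L R o true B j (cel L R o A j z)) := ⟨fun j z => decide _, fun _ _ => rfl⟩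
  have hsg : ∀ z ∈ Pc L R o B z0, ∀ j, z ∈ ext L R o (sg (o j) z) B j (cel L R o A j z) := by
    intro z hz j
    rw [hsgdef, hoo]
    by_cases h : z ∈ ext L R o true B j (cel L R o A j z)
    · rw [decide_eq_true h]
      exact h
    · rw [decide_eq_false h]
      obtain ⟨b, hb⟩ := (hEX hz).2 j
      cases b
      · exact hb
      · exact absurd hb h
  have huniq : ∀ z ∈ Pc L R o B z0, ∀ j b, z ∈ ext L R o b B j (cel L R o A j z) →
      b = sg (o j) z := by
    intro z hz j b hb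
    by_contra hne
    have hb' : (!b) = sg (o j) z := by
      generalize sg (o j) z = s at hne
      cases b <;> cases s <;> first | rfl | exact absurd rfl hne
    have h1 := hsg z hz j
    rw [← hb'] at h1
    exact (hEXB L U κ R o hC A B j z b hAB hB (hndA z hz)).2.2.2.2.2.2 (hcutA z hz j) z hb h1
  have hcel : ∀ z ∈ Pc L R o B z0, ∀ j, cel L R o B j z =
      ext L R o (sg (o j) z) B j (cel L R o A j z) := fun z hz j =>
    (hEXB L U κ R o hC A B j z _ hAB hB (hndA z hz)).2.1 z (hsg z hz j)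
  have hndB : ∀ z ∈ Pc L R o B z0, Nd L B z := fun z hz =>
    (hEXB L U κ R o hC A B j0 z _ hAB hB (hndA z hz)).2.2.1 z (hsg z hz j0)
  have hcut : ∀ w ∈ Pc L R o B z0, ∀ z ∈ Pc L R o B z0, ∀ j,
      Ct L R o (insert w B) j (cel L R o B j z) := by
    intro w hw z hz
    refine hAG L U κ R o hC B (insert w B) w z (subset_insert w B) (hB.insert w)
      (mem_insert w B) (hndB w hw) ?_
    rw [pc_eq hw]
    exact hz
  have hcst : ∀ j, ∀ z ∈ Pc L R o B z0, ∀ y ∈ cel L R o B j z, sg (o j) y = sg (o j) z := by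
    intro j z hz y hy
    have hyE : y ∈ Pc L R o B z0 := by
      rw [← pc_eq hz]
      exact cel_sub_pc hC hB j z hy
    have hyA : y ∈ cel L R o A j z := cel_anti hAB j z hy
    symm
    refine huniq y hyE j _ ?_
    rw [cel_eq hyA, ← hcel z hz j]
    exact hy
  refine ⟨sg, ⟨hB, ⟨z0, mem_pc B z0⟩, hndB, cls_pc B z0, hcut, hcst, ?_⟩, hsg, hEA⟩
  rintro B' hB' hBB' ⟨w, hwB', hw⟩ j x1 hx1 y1 hy1 hxe hye hlk
  have hsub : insert w B ⊆ B' := insert_subset hwB' hBB'
  -- the point `y1` is extreme over `B'` in its cell over `A`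
  have h1 : y1 ∈ ext L R o (sg (o j) y1) B' j (cel L R o A j y1) := by
    refine ⟨mem_cel A j y1, fun C hD hS => ?_⟩
    by_cases hS' : Sin C (cel L R o B j y1)
    · exact hye.2 C hD hS'
    · have h4 := (hEXB L U κ R o hC A B j y1 (sg (o j) y1) hAB hB (hndA y1 hy1)).2.2.2.1
      rw [← hcel y1 hy1 j] at h4
      obtain ⟨⟨c, hc, hcC⟩, ⟨c', hc', hcC'⟩⟩ := hS
      generalize sg (o j) y1 = t at h4
      cases t
      · refine ⟨fun _ => rfl, fun _ => ?_⟩
        by_contra hy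
        obtain ⟨v, hv, hcv⟩ := h4 c hc
        exact hS' ⟨⟨v, hv, hD.2 c hcC v ((lts_false j c v).1 hcv)⟩, ⟨y1, mem_cel B j y1, hy⟩⟩
      · refine ⟨fun hy => ?_, fun h => Bool.noConfusion h⟩
        exfalso
        obtain ⟨v, hv, hcv⟩ := h4 c' hc'
        refine hS' ⟨⟨y1, mem_cel B j y1, hy⟩, ⟨v, hv, fun hvC => hcC' ?_⟩⟩
        exact hD.2 v hvC c' ((lts_true j c' v).1 hcv)
  -- the point `x1` is not extreme over `B'` in its cell over `A`
  have h2 : ∀ b', x1 ∉ ext L R o b' B' j (cel L R o A j x1) := by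
    intro b' hb
    obtain ⟨C, hD, hS⟩ := hcut w hw x1 hx1 j
    obtain ⟨C', hD', hS'⟩ := hcutA x1 hx1 j
    have e1 := hxe.2 C (dc_mono hsub hD) hS
    have e2 := hb.2 C (dc_mono hsub hD) (sin_mono (cel_anti hAB j x1) hS)
    have e3 := (hsg x1 hx1 j).2 C' hD' hS'
    have e4 := hb.2 C' (dc_mono hBB' hD') hS'
    generalize sg (o j) x1 = s at e1 e3
    cases s <;> cases b' <;> simp_all
  exact hAV L U κ R o hC A B' j y1 x1 (sg (o j) y1) (hAB.trans hBB') hB' (hndA y1 hy1)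
    (hndA x1 hx1) h1 h2 (lk_symm hC hB' hlk)

end Pool.Agent.MNO
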