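import Pool.Agent.MNO.StC
import Pool.Agent.MNO.StB
import Pool.Agent.MNO.StD
import Pool.Agent.MNO.NBA
import Pool.Agent.PMC.StC

/-!
MNO: all labels occur between any two clusters of a model (adapted from `Pool/Agent/PMC/NWI.lean`).
-/

set_option autoImplicit false
set_option linter.unusedVariables false

namespace Pool.Agent.MNO

open FirstOrder.Language Set
open scoped FirstOrder
open Pool.Agent.WOM (tp Mon IsEl IsoM CtU Fx Orb)
open Pool.Agent.PMC (Ini ct Dc cel Sin Nd Ct lts ext XS Ex Fa Ll LL Itv Sm Md NPf St_CNO St_COD)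

section

variable {L : FirstOrder.Language.{0, 0}} {U : Type} [L.Structure U]

private theorem NWI_sgl {A : Set U} {a : U} (ha : a ∈ A) : A.Definable₁ L {a} := by
  unfold Set.Definable₁
  rw [Set.definable_iff_exists_formula_sum]
  refine ⟨(FirstOrder.Language.Term.var (Sum.inr 0)).equal
    (FirstOrder.Language.Term.var (Sum.inl ⟨a, ha⟩)), ?_⟩
  ext v
  simp [FirstOrder.Language.Formula.realize_equal]

/-- `e` is given on finite sets by automorphisms over `A` -/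
private def NWI_H (L : FirstOrder.Language.{0, 0}) {U : Type} [L.Structure U] (A : Set U)
    {X X' : Set U} (e : X ≃ X') : Prop :=
  ∀ s : Set X, s.Finite → ∃ g : U ≃[L] U, Fx L A g ∧ ∀ x ∈ s, g x = e x

private theorem NWI_img {A : Set U} {g : U ≃[L] U} (hg : Nx L A g) (X : Set U) :
    SmN L A X (g '' X) := by
  refine ⟨Equiv.Set.image g X g.injective, fun s hs => ⟨g, hg, fun x hx => ?_⟩⟩
  rfl

/-- the restriction of a bijection -/
private def NWI_eq {X X' Y Y' : Set U} (e : X ≃ X') (hY : Y ⊆ X) (hY' : Y' ⊆ X')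
    (h : ∀ x : X, (x : U) ∈ Y ↔ ((e x : X') : U) ∈ Y') : Y ≃ Y' where
  toFun y := ⟨e ⟨y, hY y.2⟩, (h _).1 y.2⟩
  invFun y := ⟨e.symm ⟨y, hY' y.2⟩, (h _).2 (by
    rw [e.apply_symm_apply]
    exact y.2)⟩
  left_inv y := by
    apply Subtype.ext
    show ((e.symm ⟨((e ⟨y, hY y.2⟩ : X') : U), _⟩ : X) : U) = y
    rw [Subtype.coe_eta, e.symm_apply_apply]
  right_inv y := by
    apply Subtype.ext
    show ((e ⟨((e.symm ⟨y, hY' y.2⟩ : X) : U), _⟩ : X') : U) = y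
    rw [Subtype.coe_eta, e.apply_symm_apply]

private theorem NWI_H.symm {A X X' : Set U} {e : X ≃ X'} (he : NWI_H L A e) :
    NWI_H L A e.symm := by
  intro s hs
  obtain ⟨g, hg, hg'⟩ := he (e.symm '' s) (hs.image _)
  refine ⟨g.symm, Pool.Agent.PMC.fx_symm hg, fun x hx => ?_⟩
  have h1 := hg' (e.symm x) (mem_image_of_mem _ hx)
  rw [e.apply_symm_apply] at h1
  rw [← h1, g.symm_apply_apply]

/-- similarity is preserved by `e` -/
private theorem NWI_conj (hM : Mon L U) {A X X' Y Y' Z Z' : Set U} (e : X ≃ X')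
    (he : NWI_H L A e) (hY : Y ⊆ X) (hY' : Y' ⊆ X')
    (h : ∀ x : X, (x : U) ∈ Y ↔ ((e x : X') : U) ∈ Y') (hZ : Z ⊆ X) (hZ' : Z' ⊆ X')
    (k : ∀ x : X, (x : U) ∈ Z ↔ ((e x : X') : U) ∈ Z') (hs : SmN L A Y Z) : SmN L A Y' Z' := by
  obtain ⟨b, hb⟩ := hs
  refine ⟨(NWI_eq e hY hY' h).symm.trans (b.trans (NWI_eq e hZ hZ' k)), fun s hs => ?_⟩
  obtain ⟨φ, hφ⟩ : ∃ φ : Y ≃ Y', φ = NWI_eq e hY hY' h := ⟨_, rfl⟩
  obtain ⟨ψ, hψ⟩ : ∃ ψ : Z ≃ Z', ψ = NWI_eq e hZ hZ' k := ⟨_, rfl⟩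
  have hφ1 : ∀ y : Y, ((φ y : Y') : U) = e ⟨y, hY y.2⟩ := fun y => by rw [hφ]; rfl
  have hψ1 : ∀ y : Z, ((ψ y : Z') : U) = e ⟨y, hZ y.2⟩ := fun y => by rw [hψ]; rfl
  rw [← hφ, ← hψ]
  obtain ⟨g1, hg1, hg1'⟩ := hb (φ.symm '' s) (hs.image _)
  obtain ⟨g, hg, hg'⟩ := he
    ((fun y : Y' => (⟨φ.symm y, hY (φ.symm y).2⟩ : X)) '' s ∪
      (fun y : Y' => (⟨b (φ.symm y), hZ (b (φ.symm y)).2⟩ : X)) '' s)
    ((hs.image _).union (hs.image _))
  refine ⟨g.comp (g1.comp g.symm), nx_conj_fx hM hg hg1, fun y hy => ?_⟩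
  have h1 := hg' _ (mem_union_left _ (mem_image_of_mem _ hy))
  have h2 := hg' _ (mem_union_right _ (mem_image_of_mem _ hy))
  have h3 := hg1' _ (mem_image_of_mem _ hy)
  have h4 := hφ1 (φ.symm y)
  rw [φ.apply_symm_apply] at h4
  rw [← h4] at h1
  have h5 := hψ1 (b (φ.symm y))
  rw [← h5] at h2
  show g (g1 (g.symm y)) = ((ψ (b (φ.symm y)) : Z') : U)
  rw [← h1, g.symm_apply_apply]
  show g (g1 ((φ.symm y : Y) : U)) = _
  rw [h3]
  exact h2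

/-- the points of `X ∩ E` between the clusters of `p` and `q` -/
private def NWI_I {U : Type} (E : Set U) (lt : U → U → Prop) (X : Set U) (p q : U) : Set U :=
  {z | z ∈ X ∧ z ∈ E ∧ ¬ lt z p ∧ ¬ lt q z}

/-- the weak order -/
private structure NWI_W (L : FirstOrder.Language.{0, 0}) {U : Type} [L.Structure U] (A E : Set U)
    (lt : U → U → Prop) : Prop where
  irr : ∀ w ∈ E, ¬ lt w w
  neg : ∀ u ∈ E, ∀ w ∈ E, lt u w → ∀ v ∈ E, lt u v ∨ lt v w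
  tra : ∀ u ∈ E, ∀ v ∈ E, ∀ w ∈ E, lt u v → lt v w → lt u w
  ie : ∀ g : U ≃[L] U, Fx L A g → ∀ x, g x ∈ E ↔ x ∈ E
  il : ∀ g : U ≃[L] U, Fx L A g → ∀ w ∈ E, ∀ z ∈ E, (lt (g w) (g z) ↔ lt w z)

private theorem NWI_W.asy {A E : Set U} {lt : U → U → Prop} (h : NWI_W L A E lt) :
    ∀ u ∈ E, ∀ v ∈ E, lt u v → ¬ lt v u :=
  fun u hu v hv h1 h2 => h.irr u hu (h.tra u hu v hv u hu h1 h2)

/-- the conclusion of `St_INS` -/
private structure NWI_N (L : FirstOrder.Language.{0, 0}) {U : Type} [L.Structure U] (A E : Set U)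
    (lt : U → U → Prop) (M : Set U) (p q : U) {O : Type} [LinearOrder O] (X0 : Set U)
    (r : O → (U ≃[L] U)) : Prop where
  nx : ∀ a, Nx L A (r a)
  out : ∀ x ∉ E, x ∈ X0
  el : ∀ S : Set O, IsEl L (X0 ∪ ⋃ a ∈ S, (r a) '' NWI_I E lt M p q)
  c1 : ∀ a, ∀ x ∈ (r a) '' NWI_I E lt M p q, x ∉ X0
  c2 : ∀ a a', a < a' → ∀ x ∈ (r a) '' NWI_I E lt M p q,
    ∀ y ∈ (r a') '' NWI_I E lt M p q, lt x y
  c3 : ∀ x ∈ X0, x ∈ E → ∀ a, (∀ y ∈ (r a) '' NWI_I E lt M p q, lt x y) ∨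
    ∀ y ∈ (r a) '' NWI_I E lt M p q, lt y x
  e : ∀ x ∈ E, ∀ y ∈ E, (x ∈ X0 ∨ ∃ a, x ∈ (r a) '' NWI_I E lt M p q) →
    (y ∈ X0 ∨ ∃ a, y ∈ (r a) '' NWI_I E lt M p q) → lt x y →
    (¬ ∃ a, x ∈ (r a) '' NWI_I E lt M p q ∧ y ∈ (r a) '' NWI_I E lt M p q) →
    ∀ z ∈ E, ∃ g : U ≃[L] U, Nx L A g ∧ g z ∈ X0 ∧ lt x (g z) ∧ lt (g z) y ∧
      ∀ w ∈ E, ¬ lt (g z) w → ¬ lt w (g z) → (w ∈ X0 ↔ w ∈ g '' NWI_I E lt univ z z)
  f : ∃ y ∈ X0, ∃ y' ∈ X0, y ∈ E ∧ y' ∈ E ∧ lt y y' ∧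
    ∀ a, ∀ x ∈ (r a) '' NWI_I E lt M p q, lt y' x

/-- `x << y` and some cluster of `X` is not similar to a cluster between -/
private def NWI_bad (L : FirstOrder.Language.{0, 0}) {U : Type} [L.Structure U] (A E : Set U)
    (lt : U → U → Prop) (X : Set U) (x y : U) : Prop :=
  lt x y ∧ ∃ w ∈ X, w ∈ E ∧ ¬ ∃ z' ∈ X, z' ∈ E ∧ lt x z' ∧ lt z' y ∧
    SmN L A (NWI_I E lt X z' z') (NWI_I E lt X w w)

private theorem NWI_core {A E : Set U} {lt : U → U → Prop} (hM : Mon L U) (hW : NWI_W L A E lt)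
    (hAE : ∀ a ∈ A, a ∉ E) (hA : A.Finite) (hNP : NPf L U)
    (hsy : ∀ X Y : Set U, SmN L A X Y → SmN L A Y X)
    (htr : ∀ X Y Z : Set U, SmN L A X Y → SmN L A Y Z → SmN L A X Z) (hCNO : St_CNO)
    (hCOD : St_COD)
    (hNWL : ∀ (M' : Set U) (w : U), Md L A M' → w ∈ M' → w ∈ E →
      ∃ z ∈ E, SmN L A (NWI_I E lt M' w w) (NWI_I E lt univ z z))
    {M : Set U} {p q : U} (hp : p ∈ M) (hpE : p ∈ E) (hq : q ∈ M) (hqE : q ∈ E) (hpq : lt p q)
    {z : U} (hz : z ∈ E)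
    (hI : ∀ (O : Type) [LinearOrder O] [Countable O], ∃ (X0 : Set U) (r : O → (U ≃[L] U)),
      NWI_N L A E lt M p q X0 r) :
    ∃ z' ∈ M, z' ∈ E ∧ lt p z' ∧ lt z' q ∧
      SmN L A (NWI_I E lt M z' z') (NWI_I E lt univ z z) := by
  by_contra hcon
  obtain ⟨O, iO, iC, S, hScl, hSiso⟩ := hCNO
  obtain ⟨X0, r, hN⟩ := hI O
  have hasy := hW.asy
  have hfx : ∀ a, Fx L A (r a) := fun a => (hN.nx a).1
  -- the blocks
  obtain ⟨P, hP⟩ : ∃ P : O → Set U, ∀ a, P a = (r a) '' NWI_I E lt M p q := ⟨_, fun _ => rfl⟩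
  have hPm : ∀ a x, x ∈ P a ↔ ∃ w ∈ NWI_I E lt M p q, r a w = x := fun a x => by
    rw [hP]
    rfl
  have hPE : ∀ a, ∀ x ∈ P a, x ∈ E := by
    intro a x hx
    obtain ⟨w, hw, rfl⟩ := (hPm a x).1 hx
    exact (hW.ie (r a) (hfx a) w).2 hw.2.1
  have hpI : p ∈ NWI_I E lt M p q := ⟨hp, hpE, hW.irr p hpE, hasy p hpE q hqE hpq⟩
  have hqI : q ∈ NWI_I E lt M p q := ⟨hq, hqE, hasy p hpE q hqE hpq, hW.irr q hqE⟩
  have hc1 : ∀ a, ∀ x ∈ P a, x ∉ X0 := fun a x hx => hN.c1 a x (hP a ▸ hx)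
  have hc2 : ∀ a a', a < a' → ∀ x ∈ P a, ∀ y ∈ P a', lt x y := fun a a' h x hx y hy =>
    hN.c2 a a' h x (hP a ▸ hx) y (hP a' ▸ hy)
  have hc3 : ∀ x ∈ X0, x ∈ E → ∀ a, (∀ y ∈ P a, lt x y) ∨ ∀ y ∈ P a, lt y x := by
    intro x hx hxE a
    rw [hP]
    exact hN.c3 x hx hxE a
  have huni : ∀ a a' x, x ∈ P a → x ∈ P a' → a = a' := by
    intro a a' x hx hx'
    rcases lt_trichotomy a a' with h | h | h
    · exact absurd (hc2 a a' h x hx x hx') (hW.irr x (hPE a x hx))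
    · exact h
    · exact absurd (hc2 a' a h x hx' x hx) (hW.irr x (hPE a x hx))
  -- the models
  obtain ⟨X, hX⟩ : ∃ X : (ℕ → Bool) → Set U, ∀ f, X f = X0 ∪ ⋃ a ∈ S f, P a := ⟨_, fun _ => rfl⟩
  have hXm : ∀ f x, x ∈ X f ↔ x ∈ X0 ∨ ∃ a ∈ S f, x ∈ P a := by
    intro f x
    rw [hX]
    simp only [mem_union, mem_iUnion, exists_prop]
  have hMd : ∀ f, Md L A (X f) := by
    intro f
    refine ⟨?_, fun a ha => (hXm f a).2 (Or.inl (hN.out a (hAE a ha)))⟩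
    rw [hX]
    have h1 := hN.el (S f)
    have h2 : (⋃ a ∈ S f, P a) = ⋃ a ∈ S f, (r a) '' NWI_I E lt M p q := by
      simp only [hP]
    rw [h2]
    exact h1
  have hcl : ∀ v, IsClopen {f | v ∈ X f} := by
    intro v
    by_cases h1 : v ∈ X0
    · have : {f | v ∈ X f} = univ := by
        ext f
        simp only [mem_ofPred_eq, mem_univ, iff_true]
        exact (hXm f v).2 (Or.inl h1)
      rw [this]
      exact isClopen_univ
    · by_cases h2 : ∃ a, v ∈ P a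
      · obtain ⟨a, ha⟩ := h2
        have : {f | v ∈ X f} = {f | a ∈ S f} := by
          ext f
          simp only [mem_ofPred_eq]
          rw [hXm]
          constructor
          · rintro (h | ⟨a', ha', h⟩)
            · exact absurd h h1
            · rw [huni a a' v ha h]
              exact ha'
          · intro h
            exact Or.inr ⟨a, h, ha⟩
        rw [this]
        exact hScl a
      · have : {f | v ∈ X f} = ∅ := by
          ext f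
          simp only [mem_ofPred_eq, mem_empty_iff_false, iff_false]
          rw [hXm]
          rintro (h | ⟨a, -, h⟩)
          · exact h1 h
          · exact h2 ⟨a, h⟩
        rw [this]
        exact isClopen_empty
  -- clusters of images
  have hclg : ∀ f, ∀ z1 ∈ E, ∀ g : U ≃[L] U, Nx L A g → g z1 ∈ X0 →
      (∀ w ∈ E, ¬ lt (g z1) w → ¬ lt w (g z1) → (w ∈ X0 ↔ w ∈ g '' NWI_I E lt univ z1 z1)) →
      NWI_I E lt (X f) (g z1) (g z1) = g '' NWI_I E lt univ z1 z1 := by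
    intro f z1 hz1 g hgN hg0 hcl1
    have hg := hgN.1
    have hgE : g z1 ∈ E := (hW.ie g hg z1).2 hz1
    ext w
    constructor
    · rintro ⟨-, hwE, h5, h6⟩
      refine ⟨g.symm w, ⟨mem_univ _, ?_, ?_, ?_⟩, g.apply_symm_apply w⟩
      · rw [← hW.ie g hg, g.apply_symm_apply]
        exact hwE
      · have h7 : g.symm w ∈ E := by
          rw [← hW.ie g hg, g.apply_symm_apply]
          exact hwE
        rw [← hW.il g hg _ h7 _ hz1, g.apply_symm_apply]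
        exact h5
      · have h7 : g.symm w ∈ E := by
          rw [← hW.ie g hg, g.apply_symm_apply]
          exact hwE
        rw [← hW.il g hg _ hz1 _ h7, g.apply_symm_apply]
        exact h6
    · rintro ⟨v, ⟨hvu, hvE, h5, h6⟩, rfl⟩
      have h7 : g v ∈ E := (hW.ie g hg v).2 hvE
      have h8 : ¬ lt (g v) (g z1) := by
        rw [hW.il g hg _ hvE _ hz1]
        exact h5
      have h9 : ¬ lt (g z1) (g v) := by
        rw [hW.il g hg _ hz1 _ hvE]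
        exact h6
      exact ⟨(hXm f _).2 (Or.inl ((hcl1 (g v) h7 h9 h8).2 ⟨v, ⟨hvu, hvE, h5, h6⟩, rfl⟩)), h7,
        h8, h9⟩
  -- a cluster of `X0` similar to the one of `z`
  obtain ⟨w0, hw00, hw0E, hw0⟩ : ∃ w0 ∈ X0, w0 ∈ E ∧
      ∀ f, SmN L A (NWI_I E lt (X f) w0 w0) (NWI_I E lt univ z z) := by
    obtain ⟨y1, hy1, y2, hy2, hy1E, hy2E, hy12, -⟩ := hN.f
    obtain ⟨g, hg, hg0, hg1, hg2, hg3⟩ := hN.e y1 hy1E y2 hy2E (Or.inl hy1) (Or.inl hy2) hy12 (by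
      rintro ⟨a, h4, h5⟩
      exact hN.c1 a y1 h4 hy1) z hz
    refine ⟨g z, hg0, (hW.ie g hg.1 z).2 hz, fun f => ?_⟩
    rw [hclg f z hz g hg hg0 hg3]
    exact hsy _ _ (NWI_img hg _)
  -- bad pairs
  have hbad : ∀ f, ∀ x ∈ X f, x ∈ E → ∀ y ∈ X f, y ∈ E →
      (NWI_bad L A E lt (X f) x y ↔ lt x y ∧ ∃ a ∈ S f, x ∈ P a ∧ y ∈ P a) := by
    intro f x hx hxE y hy hyE
    constructor
    · rintro ⟨hxy, w1, hw1, hw1E, hno⟩
      refine ⟨hxy, ?_⟩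
      by_contra h1
      have h2 : ¬ ∃ a, x ∈ P a ∧ y ∈ P a := by
        rintro ⟨a, hxa, hya⟩
        rcases (hXm f x).1 hx with h3 | ⟨a', ha', h3⟩
        · exact hc1 a x hxa h3
        · rw [← huni a a' x hxa h3] at ha'
          exact h1 ⟨a, ha', hxa, hya⟩
      have h3 : ∀ v, v ∈ X f → (v ∈ X0 ∨ ∃ a, v ∈ (r a) '' NWI_I E lt M p q) := by
        intro v hv
        rcases (hXm f v).1 hv with h4 | ⟨a, -, h4⟩
        · exact Or.inl h4
        · exact Or.inr ⟨a, hP a ▸ h4⟩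
      obtain ⟨z1, hz1, hz1s⟩ := hNWL (X f) w1 (hMd f) hw1 hw1E
      obtain ⟨g, hg, hg0, hg1, hg2, hg3⟩ := hN.e x hxE y hyE (h3 x hx) (h3 y hy) hxy (by
        rintro ⟨a, h4, h5⟩
        exact h2 ⟨a, by rw [hP]; exact h4, by rw [hP]; exact h5⟩) z1 hz1
      have hgE : g z1 ∈ E := (hW.ie g hg.1 z1).2 hz1
      apply hno
      refine ⟨g z1, (hXm f _).2 (Or.inl hg0), hgE, hg1, hg2, ?_⟩
      rw [hclg f z1 hz1 g hg hg0 hg3]
      exact htr _ _ _ (hsy _ _ (NWI_img hg _)) (hsy _ _ hz1s)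
    · rintro ⟨hxy, a, haS, hxa, hya⟩
      refine ⟨hxy, w0, (hXm f w0).2 (Or.inl hw00), hw0E, ?_⟩
      rintro ⟨z', hz', hz'E, h1, h2, h3⟩
      -- a point comparable with the block
      have hcmp : ∀ w ∈ X f, w ∈ E → w ∉ P a → (∀ v ∈ P a, lt w v) ∨ ∀ v ∈ P a, lt v w := by
        intro w hw hwE hwa
        rcases (hXm f w).1 hw with h4 | ⟨a', -, h4⟩
        · exact hc3 w h4 hwE a
        · rcases lt_trichotomy a a' with h | h | h
          · exact Or.inr fun v hv => hc2 a a' h v hv w h4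
          · rw [h] at hwa
            exact absurd h4 hwa
          · exact Or.inl fun v hv => hc2 a' a h w h4 v hv
      have hz'a : z' ∈ P a := by
        by_contra h4
        rcases hcmp z' hz' hz'E h4 with h5 | h5
        · exact hasy x hxE z' hz'E h1 (h5 x hxa)
        · exact hasy z' hz'E y hyE h2 (h5 y hya)
      obtain ⟨w, hw, rfl⟩ := (hPm a z').1 hz'a
      obtain ⟨x0, hx0, rfl⟩ := (hPm a x).1 hxa
      obtain ⟨y0, hy0, rfl⟩ := (hPm a y).1 hya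
      have hwE : w ∈ E := hw.2.1
      rw [hW.il (r a) (hfx a) _ hx0.2.1 _ hwE] at h1
      rw [hW.il (r a) (hfx a) _ hwE _ hy0.2.1] at h2
      have hpw : lt p w := (hW.neg x0 hx0.2.1 w hwE h1 p hpE).resolve_left hx0.2.2.1
      have hwq : lt w q := (hW.neg w hwE y0 hy0.2.1 h2 q hqE).resolve_right hy0.2.2.2
      have h4 : NWI_I E lt (X f) (r a w) (r a w) = r a '' NWI_I E lt M w w := by
        ext v
        constructor
        · rintro ⟨hv, hvE, h5, h6⟩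
          have h7 : v ∈ P a := by
            by_contra h8
            rcases hcmp v hv hvE h8 with h9 | h9
            · exact h5 (h9 _ hz'a)
            · exact h6 (h9 _ hz'a)
          obtain ⟨v0, hv0, rfl⟩ := (hPm a v).1 h7
          rw [hW.il (r a) (hfx a) _ hv0.2.1 _ hwE] at h5
          rw [hW.il (r a) (hfx a) _ hwE _ hv0.2.1] at h6
          exact ⟨v0, ⟨hv0.1, hv0.2.1, h5, h6⟩, rfl⟩
        · rintro ⟨v0, ⟨hv0, hv0E, h5, h6⟩, rfl⟩
          have h7 : v0 ∈ NWI_I E lt M p q := by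
            refine ⟨hv0, hv0E, fun h8 => ?_, fun h8 => ?_⟩
            · exact h5 (hW.tra v0 hv0E p hpE w hwE h8 hpw)
            · exact h6 (hW.tra w hwE q hqE v0 hv0E hwq h8)
          refine ⟨(hXm f _).2 (Or.inr ⟨a, haS, (hPm a _).2 ⟨v0, h7, rfl⟩⟩),
            (hW.ie (r a) (hfx a) v0).2 hv0E, ?_, ?_⟩
          · rw [hW.il (r a) (hfx a) _ hv0E _ hwE]
            exact h5
          · rw [hW.il (r a) (hfx a) _ hwE _ hv0E]
            exact h6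
      rw [h4] at h3
      exact hcon ⟨w, hw.1, hwE, hpw, hwq, htr _ _ _ (NWI_img (hN.nx a) _)
        (htr _ _ _ h3 (hw0 f))⟩
  -- the union of the blocks
  have hNm : ∀ f x, (∃ a ∈ S f, x ∈ P a) ↔ (x ∈ X f ∧ x ∈ E ∧ ∃ y ∈ X f, y ∈ E ∧
      (NWI_bad L A E lt (X f) x y ∨ NWI_bad L A E lt (X f) y x)) := by
    intro f x
    constructor
    · rintro ⟨a, ha, hx⟩
      have hxX : x ∈ X f := (hXm f x).2 (Or.inr ⟨a, ha, hx⟩)
      have hxE := hPE a x hx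
      refine ⟨hxX, hxE, ?_⟩
      obtain ⟨x0, hx0, rfl⟩ := (hPm a x).1 hx
      rcases hW.neg p hpE q hqE hpq x0 hx0.2.1 with h1 | h1
      · have hy : r a p ∈ P a := (hPm a _).2 ⟨p, hpI, rfl⟩
        have hyX : r a p ∈ X f := (hXm f _).2 (Or.inr ⟨a, ha, hy⟩)
        have hyE := hPE a _ hy
        refine ⟨r a p, hyX, hyE, Or.inr ?_⟩
        rw [hbad f _ hyX hyE _ hxX hxE]
        exact ⟨(hW.il (r a) (hfx a) _ hpE _ hx0.2.1).2 h1, a, ha, hy, hx⟩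
      · have hy : r a q ∈ P a := (hPm a _).2 ⟨q, hqI, rfl⟩
        have hyX : r a q ∈ X f := (hXm f _).2 (Or.inr ⟨a, ha, hy⟩)
        have hyE := hPE a _ hy
        refine ⟨r a q, hyX, hyE, Or.inl ?_⟩
        rw [hbad f _ hxX hxE _ hyX hyE]
        exact ⟨(hW.il (r a) (hfx a) _ hx0.2.1 _ hqE).2 h1, a, ha, hx, hy⟩
    · rintro ⟨hxX, hxE, y, hyX, hyE, h | h⟩
      · rw [hbad f _ hxX hxE _ hyX hyE] at h
        obtain ⟨-, a, ha, h1, -⟩ := h
        exact ⟨a, ha, h1⟩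
      · rw [hbad f _ hyX hyE _ hxX hxE] at h
        obtain ⟨-, a, ha, -, h1⟩ := h
        exact ⟨a, ha, h1⟩
  -- the isomorphism
  obtain ⟨f, f', hne, e, he⟩ := hNP A X hA hMd hcl
  have he' : NWI_H L A e := he
  have eE : ∀ x : X f, ((x : U) ∈ E ↔ ((e x : X f') : U) ∈ E) := by
    intro x
    obtain ⟨g, hg, hg'⟩ := he' {x} (finite_singleton x)
    rw [← hg' x rfl]
    exact (hW.ie g hg x).symm
  have el : ∀ x y : X f, (x : U) ∈ E → (y : U) ∈ E →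
      (lt x y ↔ lt ((e x : X f') : U) ((e y : X f') : U)) := by
    intro x y hx hy
    obtain ⟨g, hg, hg'⟩ := he' {x, y} ((finite_singleton y).insert x)
    rw [← hg' x (mem_insert _ _), ← hg' y (mem_insert_of_mem _ rfl)]
    exact (hW.il g hg x hx y hy).symm
  have eI : ∀ x : X f, (x : U) ∈ E → ∀ y : X f, (y : U) ∈ NWI_I E lt (X f) x x ↔
      ((e y : X f') : U) ∈ NWI_I E lt (X f') ((e x : X f') : U) ((e x : X f') : U) := by
    intro x hx y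
    constructor
    · rintro ⟨-, hyE, h1, h2⟩
      rw [el y x hyE hx] at h1
      rw [el x y hx hyE] at h2
      exact ⟨(e y).2, (eE y).1 hyE, h1, h2⟩
    · rintro ⟨-, hyE, h1, h2⟩
      have hyE' := (eE y).2 hyE
      rw [← el y x hyE' hx] at h1
      rw [← el x y hx hyE'] at h2
      exact ⟨y.2, hyE', h1, h2⟩
  have eI' : ∀ x : X f, (x : U) ∈ E → ∀ y : X f', (y : U) ∈ NWI_I E lt (X f')
      ((e x : X f') : U) ((e x : X f') : U) ↔ ((e.symm y : X f) : U) ∈ NWI_I E lt (X f) x x := by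
    intro x hx y
    rw [eI x hx (e.symm y), e.apply_symm_apply]
  have eS : ∀ x y : X f, (x : U) ∈ E → (y : U) ∈ E →
      (SmN L A (NWI_I E lt (X f) x x) (NWI_I E lt (X f) y y) ↔
        SmN L A (NWI_I E lt (X f') ((e x : X f') : U) ((e x : X f') : U))
          (NWI_I E lt (X f') ((e y : X f') : U) ((e y : X f') : U))) := by
    intro x y hx hy
    constructor
    · exact NWI_conj hM e he' (fun y hy => hy.1) (fun y hy => hy.1) (eI x hx) (fun y hy => hy.1)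
        (fun y hy => hy.1) (eI y hy)
    · exact NWI_conj hM e.symm he'.symm (fun y hy => hy.1) (fun y hy => hy.1) (eI' x hx)
        (fun y hy => hy.1) (fun y hy => hy.1) (eI' y hy)
  have eb : ∀ x y : X f, (x : U) ∈ E → (y : U) ∈ E →
      (NWI_bad L A E lt (X f) x y ↔
        NWI_bad L A E lt (X f') ((e x : X f') : U) ((e y : X f') : U)) := by
    intro x y hx hy
    unfold NWI_bad
    rw [el x y hx hy]
    refine and_congr_right fun _ => ?_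
    constructor
    · rintro ⟨w1, hw1, hw1E, hno⟩
      refine ⟨(e ⟨w1, hw1⟩ : X f'), (e ⟨w1, hw1⟩).2, (eE ⟨w1, hw1⟩).1 hw1E, ?_⟩
      rintro ⟨w', hw', hwE', h1, h2, h3⟩
      obtain ⟨w, hw⟩ : ∃ w : X f, e w = ⟨w', hw'⟩ := ⟨e.symm ⟨w', hw'⟩, e.apply_symm_apply _⟩
      have hww : ((e w : X f') : U) = w' := by rw [hw]
      rw [← hww] at hwE' h1 h2 h3
      have hwE : (w : U) ∈ E := (eE w).2 hwE'
      exact hno ⟨w, w.2, hwE, (el x w hx hwE).2 h1, (el w y hwE hy).2 h2,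
        (eS w ⟨w1, hw1⟩ hwE hw1E).2 h3⟩
    · rintro ⟨w1', hw1', hw1E', hno⟩
      obtain ⟨w1, hw1⟩ : ∃ w1 : X f, e w1 = ⟨w1', hw1'⟩ :=
        ⟨e.symm ⟨w1', hw1'⟩, e.apply_symm_apply _⟩
      have hww1 : ((e w1 : X f') : U) = w1' := by rw [hw1]
      rw [← hww1] at hw1E' hno
      have hw1E : (w1 : U) ∈ E := (eE w1).2 hw1E'
      refine ⟨w1, w1.2, hw1E, ?_⟩
      rintro ⟨w, hw, hwE, h1, h2, h3⟩
      exact hno ⟨(e ⟨w, hw⟩ : X f'), (e ⟨w, hw⟩).2, (eE ⟨w, hw⟩).1 hwE,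
        (el x ⟨w, hw⟩ hx hwE).1 h1, (el ⟨w, hw⟩ y hwE hy).1 h2, (eS ⟨w, hw⟩ w1 hwE hw1E).1 h3⟩
  have hsub : ∀ f, {x : U | ∃ a ∈ S f, x ∈ P a} ⊆ X f := fun f x hx => ((hNm f x).1 hx).1
  have eN : ∀ x : X f, ((x : U) ∈ {x : U | ∃ a ∈ S f, x ∈ P a} ↔
      ((e x : X f') : U) ∈ {x : U | ∃ a ∈ S f', x ∈ P a}) := by
    intro x
    rw [mem_ofPred_eq, mem_ofPred_eq, hNm f x, hNm f' (e x)]
    constructor
    · rintro ⟨-, hxE, y, hy, hyE, h⟩
      refine ⟨(e x).2, (eE x).1 hxE, (e ⟨y, hy⟩ : X f'), (e ⟨y, hy⟩).2, (eE ⟨y, hy⟩).1 hyE, ?_⟩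
      exact h.imp (eb x ⟨y, hy⟩ hxE hyE).1 (eb ⟨y, hy⟩ x hyE hxE).1
    · rintro ⟨-, hxE, y', hy', hyE', h⟩
      obtain ⟨y, hy⟩ : ∃ y : X f, e y = ⟨y', hy'⟩ := ⟨e.symm ⟨y', hy'⟩, e.apply_symm_apply _⟩
      have hyy : ((e y : X f') : U) = y' := by rw [hy]
      rw [← hyy] at hyE' h
      have hxE' := (eE x).2 hxE
      have hyE : (y : U) ∈ E := (eE y).2 hyE'
      exact ⟨x.2, hxE', y, y.2, hyE, h.imp (eb x y hxE' hyE).2 (eb y x hyE hxE').2⟩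
  -- the same block
  have hblk : ∀ f, ∀ x y : U, (∃ a ∈ S f, x ∈ P a) → (∃ a ∈ S f, y ∈ P a) →
      ((∃ a ∈ S f, x ∈ P a ∧ y ∈ P a) ↔ NWI_bad L A E lt (X f) x y ∨
        NWI_bad L A E lt (X f) y x ∨ (¬ lt x y ∧ ¬ lt y x)) := by
    intro f x y hx hy
    obtain ⟨hxX, hxE, -⟩ := (hNm f x).1 hx
    obtain ⟨hyX, hyE, -⟩ := (hNm f y).1 hy
    rw [hbad f _ hxX hxE _ hyX hyE, hbad f _ hyX hyE _ hxX hxE]
    constructor
    · rintro ⟨a, ha, h1, h2⟩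
      by_cases h3 : lt x y
      · exact Or.inl ⟨h3, a, ha, h1, h2⟩
      · by_cases h4 : lt y x
        · exact Or.inr (Or.inl ⟨h4, a, ha, h2, h1⟩)
        · exact Or.inr (Or.inr ⟨h3, h4⟩)
    · rintro (⟨-, a, ha, h1, h2⟩ | ⟨-, a, ha, h1, h2⟩ | ⟨h3, h4⟩)
      · exact ⟨a, ha, h1, h2⟩
      · exact ⟨a, ha, h2, h1⟩
      · obtain ⟨a, ha, h1⟩ := hx
        obtain ⟨a', ha', h2⟩ := hy
        rcases lt_trichotomy a a' with h | h | h
        · exact absurd (hc2 a a' h x h1 y h2) h3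
        · subst h
          exact ⟨a, ha, h1, h2⟩
        · exact absurd (hc2 a' a h y h2 x h1) h4
  -- decoding
  apply hne
  apply hSiso
  have hE1 : ∀ (f : ℕ → Bool) (x : U), (∃ a ∈ S f, x ∈ P a) → x ∈ E := fun f x hx =>
    ((hNm f x).1 hx).2.1
  refine hCOD U O (fun x y => x ∈ E ∧ y ∈ E ∧ lt x y) P (S f) (S f')
    (NWI_eq e (hsub f) (hsub f') eN) (fun a => ⟨r a p, (hPm a _).2 ⟨p, hpI, rfl⟩⟩)
    (fun x h => hW.irr x h.1 h.2.2) (fun x y h h' => hasy x h.1 y h.2.1 h.2.2 h'.2.2)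
    (fun a b hab x hx y hy => ⟨hPE a x hx, hPE b y hy, hc2 a b hab x hx y hy⟩) ?_ ?_
  · intro x y
    have hx := x.2
    have hy := y.2
    have hxE := hE1 f x hx
    have hyE := hE1 f y hy
    have hx' := (eN ⟨x, hsub f hx⟩).1 hx
    have hy' := (eN ⟨y, hsub f hy⟩).1 hy
    rw [hblk f x y hx hy]
    have h1 := hblk f' _ _ hx' hy'
    have h2 : (∃ a ∈ S f', ((NWI_eq e (hsub f) (hsub f') eN x :
        {x : U // ∃ a ∈ S f', x ∈ P a}) : U) ∈ P a ∧ ((NWI_eq e (hsub f) (hsub f') eN y :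
        {x : U // ∃ a ∈ S f', x ∈ P a}) : U) ∈ P a) ↔
        (∃ a ∈ S f', ((e ⟨x, hsub f hx⟩ : X f') : U) ∈ P a ∧
          ((e ⟨y, hsub f hy⟩ : X f') : U) ∈ P a) := Iff.rfl
    rw [h2, h1, eb ⟨x, hsub f hx⟩ ⟨y, hsub f hy⟩ hxE hyE,
      eb ⟨y, hsub f hy⟩ ⟨x, hsub f hx⟩ hyE hxE,
      el ⟨x, hsub f hx⟩ ⟨y, hsub f hy⟩ hxE hyE, el ⟨y, hsub f hy⟩ ⟨x, hsub f hx⟩ hyE hxE]
  · intro x y _
    have hx := x.2
    have hy := y.2
    have hxE := hE1 f x hx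
    have hyE := hE1 f y hy
    have hx' := (eE ⟨x, hsub f hx⟩).1 hxE
    have hy' := (eE ⟨y, hsub f hy⟩).1 hyE
    have h1 := el ⟨x, hsub f hx⟩ ⟨y, hsub f hy⟩ hxE hyE
    constructor
    · rintro ⟨-, -, h⟩
      exact ⟨hx', hy', h1.1 h⟩
    · rintro ⟨-, -, h⟩
      exact ⟨hxE, hyE, h1.2 h⟩

end

theorem thm_NWI (h1 : St_CNO) (h2 : St_COD) (h0 : St_FE1) (h3 : St_INS) (h4 : St_FAI)
    (h5 : St_ORD) (h6 : St_SMN) : St_NWI := by
  intro hNWL L U _ κ R o hC hNP A E sg hO M p q hM hp hpE hq hqE hpq z hz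
  obtain ⟨-, -, hinv, -, -, -, -, -⟩ := h4 L U κ R o hC A E sg hO
  obtain ⟨-, hirr, hneg, htra, -, -⟩ := h5 L U κ R o hC A E sg hO
  obtain ⟨-, hsy, htr, -, -, -, -, -⟩ := h6 L U κ R o hC
  obtain ⟨-, -, -, -, -, -, -, hric⟩ := h0 L U κ R o hC A hO.fin
  have hW : NWI_W L A E (Ll L R o A sg) :=
    ⟨fun w hw => hirr w hw true, hneg, htra, fun g hg => (hinv g hg).1,
      fun g hg w hw z hz => (hinv g hg).2 w hw z hz true⟩
  have hasy := hW.asy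
  refine NWI_core hC.mon hW (fun a ha haE => hO.nd a haE (NWI_sgl ha)) hO.fin hNP (hsy A) (htr A)
    h1 h2 ?_ hp hpE hq hqE hpq hz fun O _ _ => ?_
  · intro M' w hM' hw hwE
    obtain ⟨z1, -, hz1, hs⟩ := hNWL L U κ R o hC hNP A E sg hO univ M' w hric hM' hw hwE
    exact ⟨z1, hz1, hs⟩
  · obtain ⟨X0, r, a1, a2, a3, a4, a5, a6, -, a8, a9⟩ := h3 L U κ R o hC A E sg hO univ M p q hric
      hM hp hpE hq hqE (hasy p hpE q hqE hpq) O
    exact ⟨X0, r, a1, fun x hx => (a2 x hx).2 (mem_univ x), a3, a4, a5, a6,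
      fun x hx y hy hx0 hy0 hxy hne z hz => a8 x hx y hy hx0 hy0 hxy hne z (mem_univ z) hz, a9⟩

end Pool.Agent.MNO
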