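import Pool.Agent.MNO.StB
import Pool.Agent.MNO.NBA
import Pool.Agent.MNO.STG

/-!
MNO module ORS (helper85): orthogonality over one point.
-/

set_option autoImplicit false
set_option linter.unusedVariables false
set_option linter.unusedSectionVars false

namespace Pool.Agent.MNO

open FirstOrder.Language Set
open scoped FirstOrder
open Pool.Agent.WOM (tp Mon IsEl IsoM CtU Fx Orb)
open Pool.Agent.PMC (Ini ct Dc cel Sin Nd Ct lts ext XS Ex Fa Ll LL Itv Sm Md NPf sd)

private theorem ORS_sd (b s : Bool) : sd (!b) s = false ↔ s ≠ (!b) := by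
  cases b <;> cases s <;> simp [sd]

theorem thm_ORS (hGLM : St_GLM) (hFAI : St_FAI) (hORD : St_ORD) (hTUP : St_TUP) : St_ORS := by
  intro L U _ κ R o hC A E sg hO S v b hS hSE hv hSv g hg hgv
  obtain ⟨-, f2, f3, -⟩ := hFAI L U κ R o hC A E sg hO
  obtain ⟨o1, -⟩ := hORD L U κ R o hC A E sg hO
  obtain ⟨j⟩ := hC.ne
  have key : ∀ D : Set U, D.Finite → D ⊆ E → ∀ y ∈ cel L R o A j v,
      (y ∈ ext L R o (sd (!b) (sg (o j) v)) (A ∪ D) j (cel L R o A j v) ↔
        ∀ d ∈ D, Fa L R o A sg b y d) := by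
    intro D hD hDE y hy
    have hyE : y ∈ E := (cls_cel hC hO.fin hO.clo hy).2 hv
    constructor
    · intro h d hd
      rw [o1 y hyE d (hDE hd) b]
      refine f2 d (hDE hd) y hyE (!b) j fun C hC1 hC2 => ?_
      rw [cel_eq hy] at hC2
      have h1 : insert d A ⊆ A ∪ D := by
        rintro x (rfl | hx)
        · exact Or.inr hd
        · exact Or.inl hx
      rw [h.2 C (dc_mono h1 hC1) hC2, hO.cst j v hv y hy]
      exact ORS_sd b _
    · intro h
      refine ⟨hy, fun C hC1 hC2 => ?_⟩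
      rw [hTUP L U κ R o hC A E sg hO D hD hDE v hv j C hC1 hC2 y hy b h]
      exact (ORS_sd b _).symm
  have hgE : ∀ k : U ≃[L] U, Fx L A k → ∀ x ∈ E, k x ∈ E := fun k hk x hx =>
    ((f3 k hk).1 x).2 hx
  obtain ⟨n, u, rfl⟩ := exists_enum hS
  have hE2 : range (fun i => g (u i)) ⊆ E := by
    rintro _ ⟨i, rfl⟩
    exact hgE g (nx_fx hg) _ (hSE ⟨i, rfl⟩)
  have h1 : Sq L (insert v A) u (fun i => g (u i)) := by
    refine hGLM L U κ R o hC (Fin n) A j v v (sd (!b) (sg (o j) v)) u (fun i => g (u i)) hO.fin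
      (hO.nd v hv) ?_ (nx_sq hg u) ?_ ?_
    · intro m w hm hw y hy h
      have hwE : ∀ i, range (w i) ⊆ E := by
        intro i
        obtain ⟨k, hk, hk'⟩ := hw i
        rintro _ ⟨l, rfl⟩
        rw [hk']
        exact hgE k hk _ (hSE ⟨l, rfl⟩)
      refine (key _ (finite_iUnion fun i => finite_range _) (iUnion_subset hwE) y hy).2 ?_
      intro d hd
      obtain ⟨i, hi⟩ := mem_iUnion.1 hd
      exact (key _ (finite_range _) (hwE i) y hy).1 (h i) d hi
    · exact (key _ (finite_range _) hSE v (mem_cel A j v)).2 hSv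
    · refine (key _ (finite_range _) hE2 v (mem_cel A j v)).2 ?_
      rintro _ ⟨i, rfl⟩
      exact hgv _ ⟨i, rfl⟩
  obtain ⟨h, hh, hh'⟩ := nx_of_sq hC.mon (hO.fin.insert v) h1
  refine ⟨h, hh, ?_⟩
  rintro _ ⟨i, rfl⟩
  exact hh' i

end Pool.Agent.MNO
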