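import Pool.Agent.MNO.StB
import Pool.Agent.MNO.NBA

/-!
MNO module ORT (helper69): orthogonality.
-/

set_option autoImplicit false
set_option linter.unusedVariables false

namespace Pool.Agent.MNO

open FirstOrder.Language Set
open scoped FirstOrder
open Pool.Agent.WOM (tp Mon IsEl IsoM CtU Fx Orb)
open Pool.Agent.PMC (Ini ct Dc cel Sin Nd Ct lts ext XS Ex Fa Ll LL Itv Sm Md NPf sd fx_refl
  fx_symm fx_comp fx_mono comp_apply')

section ORT

variable {L : FirstOrder.Language.{0, 0}} {U : Type} [L.Structure U] {κ : Type}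
  {R : κ → U → U → Prop} {o : κ → κ}

private theorem ORT_sub (h1 : St_FAI) (hC : Cx L R o) {A E : Set U} {sg : κ → U → Bool}
    (hO : Ori L R o A E sg) {g : U ≃[L] U} (hg : Fx L A g) {S : Set U} (hS : S ⊆ E) :
    g '' S ⊆ E := by
  rintro _ ⟨x, hx, rfl⟩
  exact (((h1 L U κ R o hC A E sg hO).2.2.1 g hg).1 x).2 (hS hx)

private theorem ORT_min (h2 : St_ORD) (hC : Cx L R o) {A E : Set U} {sg : κ → U → Bool}
    (hO : Ori L R o A E sg) {W : Set U} (hW : W.Finite) (hWE : W ⊆ E) (hne : W.Nonempty) :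
    ∃ w1 ∈ W, ∀ w ∈ W, ¬ Ll L R o A sg w w1 := by
  obtain ⟨-, hirr, -, htr, -, -⟩ := h2 L U κ R o hC A E sg hO
  induction W, hW using Set.Finite.induction_on with
  | empty => exact absurd rfl hne.ne_empty
  | @insert a W _ hf ih =>
    have haE : a ∈ E := hWE (mem_insert a W)
    have hWE' : W ⊆ E := (subset_insert a W).trans hWE
    rcases W.eq_empty_or_nonempty with rfl | hne'
    · refine ⟨a, mem_insert a _, ?_⟩
      rintro w (rfl | hw)
      · exact hirr _ haE true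
      · exact absurd hw (notMem_empty _)
    · obtain ⟨w1, hw1, hmin⟩ := ih hWE' hne'
      by_cases h : Ll L R o A sg a w1
      · refine ⟨a, mem_insert a _, ?_⟩
        rintro w (rfl | hw)
        · exact hirr _ haE true
        · exact fun h' => hmin w hw (htr w (hWE' hw) a haE w1 (hWE' hw1) h' h)
      · refine ⟨w1, mem_insert_of_mem _ hw1, ?_⟩
        rintro w (rfl | hw)
        · exact h
        · exact hmin w hw

private theorem ORT_one (hORS : St_ORS) (hGLE : St_GLE) (h2 : St_ORD) (hC : Cx L R o)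
    {A E : Set U} {sg : κ → U → Bool} (hO : Ori L R o A E sg) (S W : Set U) (hS : S.Finite)
    (hW : W.Finite) (hSE : S ⊆ E) (hWE : W ⊆ E) (hSW : LL L R o A sg S W) (g : U ≃[L] U)
    (hg : Nx L A g) (hgE : g '' S ⊆ E) (hgW : LL L R o A sg (g '' S) W) :
    ∃ h : U ≃[L] U, Nx L A h ∧ (∀ w ∈ W, h w = w) ∧ ∀ b ∈ S, h b = g b := by
  rcases W.eq_empty_or_nonempty with rfl | hne
  · exact ⟨g, hg, fun w hw => absurd hw (notMem_empty _), fun b _ => rfl⟩
  obtain ⟨hsw, -, -, -, -, -⟩ := h2 L U κ R o hC A E sg hO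
  obtain ⟨w1, hw1, hmin⟩ := ORT_min h2 hC hO hW hWE hne
  have hw1E := hWE hw1
  have k1 : ∀ x ∈ S, Fa L R o A sg false w1 x := fun x hx =>
    (hsw w1 hw1E x (hSE hx) false).2 (hSW x hx w1 hw1)
  have k2 : ∀ x ∈ S, Fa L R o A sg false w1 (g x) := fun x hx =>
    (hsw w1 hw1E (g x) (hgE ⟨x, hx, rfl⟩) false).2 (hgW (g x) ⟨x, hx, rfl⟩ w1 hw1)
  obtain ⟨h1, hh1, hh1'⟩ := hORS L U κ R o hC A E sg hO S w1 false hS hSE hw1E k1 g hg k2
  obtain ⟨h, hh, hha, hhb⟩ := hGLE L U κ R o hC A E sg hO w1 hw1E false h1 hh1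
  refine ⟨h, nx_mono (subset_insert w1 A) hh, fun w hw => hhb w ?_, fun x hx => ?_⟩
  · rintro ⟨-, h3⟩
    exact hmin w hw ((hsw w1 hw1E w (hWE hw) false).1 h3)
  · rw [hha x (hSE hx) (k1 x hx), hh1' x hx]

private theorem ORT_rev (h1 : St_FAI) (h2 : St_ORD) (hC : Cx L R o)
    {A E : Set U} {sg : κ → U → Bool} (hO : Ori L R o A E sg) {D V : Set U} (hD : D ⊆ E)
    (hV : V ⊆ E) : LL L R o A (fun j z => !sg j z) D V ↔ LL L R o A sg V D := by
  have hex := (h1 L U κ R o hC A E sg hO).1.2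
  have hsw := (h2 L U κ R o hC A E sg hO).1
  have key : ∀ d ∈ E, ∀ v ∈ E, (Ll L R o A (fun j z => !sg j z) d v ↔ Ll L R o A sg v d) := by
    intro d hd v hv
    have a1 : Ll L R o A (fun j z => !sg j z) d v ↔ Fa L R o A sg false d v := by
      constructor
      · intro h j
        exact (hex true d j v).1 (h j)
      · intro h j
        exact (hex true d j v).2 (h j)
    rw [a1, hsw d hd v hv false]
    exact Iff.rfl
  constructor
  · intro h v hv d hd
    exact (key d (hD hd) v (hV hv)).1 (h d hd v hv)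
  · intro h d hd v hv
    exact (key d (hD hd) v (hV hv)).2 (h v hv d hd)

end ORT

/-- [ORT] -/
theorem thm_ORT (hORS : St_ORS) (hGLE : St_GLE) (hMVT : St_MVT) (hFAI : St_FAI)
    (hORD : St_ORD) : St_ORT := by
  intro L U _ κ R o hC A E sg hO
  have hO' : Ori L R o A E (fun j z => !sg j z) := (hFAI L U κ R o hC A E sg hO).1.1
  have p1 : ∀ (S W : Set U), S.Finite → W.Finite → S ⊆ E → W ⊆ E → LL L R o A sg S W →
      ∀ g : U ≃[L] U, Nx L A g → LL L R o A sg (g '' S) W →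
      ∃ h : U ≃[L] U, Nx L A h ∧ (∀ w ∈ W, h w = w) ∧ ∀ b ∈ S, h b = g b := by
    intro S W hS hW hSE hWE hSW g hg hgW
    exact ORT_one hORS hGLE hORD hC hO S W hS hW hSE hWE hSW g hg
      (ORT_sub hFAI hC hO hg.1 hSE) hgW
  have p2 : ∀ (S W : Set U), S.Finite → W.Finite → S ⊆ E → W ⊆ E → LL L R o A sg W S →
      ∀ g : U ≃[L] U, Nx L A g → LL L R o A sg W (g '' S) →
      ∃ h : U ≃[L] U, Nx L A h ∧ (∀ w ∈ W, h w = w) ∧ ∀ b ∈ S, h b = g b := by
    intro S W hS hW hSE hWE hWS g hg hWg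
    exact ORT_one hORS hGLE hORD hC hO' S W hS hW hSE hWE
      ((ORT_rev hFAI hORD hC hO hSE hWE).2 hWS) g hg (ORT_sub hFAI hC hO hg.1 hSE)
      ((ORT_rev hFAI hORD hC hO (ORT_sub hFAI hC hO hg.1 hSE) hWE).2 hWg)
  refine ⟨p1, p2, ?_, ?_⟩
  · intro D M V hD hM hV hDE hME hVE hDV hDM hMV g hg hDg hgV
    obtain ⟨k1, hk1, hk1f, hk1'⟩ := p1 M V hM hV hME hVE hMV g hg hgV
    have e1 : k1 '' (M ∪ V) = g '' M ∪ V := by
      rw [Set.image_union]
      congr 1
      · exact Set.image_congr hk1'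
      · ext x
        constructor
        · rintro ⟨y, hy, rfl⟩
          rw [hk1f y hy]
          exact hy
        · intro hx
          exact ⟨x, hx, hk1f x hx⟩
    obtain ⟨k2, hk2, hk2f, hk2'⟩ := p2 (M ∪ V) D (hM.union hV) hD (Set.union_subset hME hVE) hDE
      (fun d hd v hv => hv.elim (hDM d hd v) (hDV d hd v)) k1 hk1
      (by rw [e1]; exact fun d hd v hv => hv.elim (hDg d hd v) (hDV d hd v))
    refine ⟨k2, hk2, hk2f, fun w hw => ?_, fun m hm => ?_⟩
    · rw [hk2' w (Or.inr hw)]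
      exact hk1f w hw
    · rw [hk2' m (Or.inl hm)]
      exact hk1' m hm
  · intro D V Z hD hV hZ hDE hVE hZE hDV
    obtain ⟨g1, hg1, -, hg1V⟩ := (hMVT L U κ R o hC A E sg hO ∅ V Z Set.finite_empty hV hZ
      (Set.empty_subset _) hVE hZE (fun d hd => absurd hd (notMem_empty _))).1
      (fun d hd => absurd hd (notMem_empty _))
    have hg1A : Nx L A g1 := nx_mono Set.subset_union_left hg1
    obtain ⟨g2, hg2, hD2, hV2⟩ := (hMVT L U κ R o hC A E sg hO D V (g1 '' Z) hD hV (hZ.image g1)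
      hDE hVE (ORT_sub hFAI hC hO hg1A.1 hZE) hDV).2 hg1V
    have e : (g2.comp g1) '' Z = g2 '' (g1 '' Z) := by
      rw [Set.image_image]
      rfl
    refine ⟨g2.comp g1, nx_comp (nx_mono Set.subset_union_left hg2) hg1A, ?_, ?_⟩
    · rw [e]
      exact hD2
    · rw [e]
      exact hV2

end Pool.Agent.MNO
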