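import Pool.Agent.MNO.StB
import Pool.Agent.MNO.StC
import Pool.Agent.PMC.PLC

/-!
MNO [PLC] (helper67): placement of a countable family of intervals.
-/

set_option autoImplicit false
set_option linter.unusedVariables false

namespace Pool.Agent.MNO

open FirstOrder.Language Set
open scoped FirstOrder
open Pool.Agent.WOM (tp Mon IsEl IsoM CtU Fx Orb)
open Pool.Agent.PMC (Ini ct Dc cel Sin Nd Ct lts ext XS Ex Fa Ll LL Itv Sm Md NPf)

/-- **PLC** -/
theorem thm_PLC (h1 : St_ORT) : St_PLC := by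
  classical
  intro L U _ κ R o hC A E sg hO D _ _ p q hp hq _
  obtain ⟨-, -, -, h4⟩ := h1 L U κ R o hC A E sg hO
  have hE : ∀ g : U ≃[L] U, Nx L A g → ∀ x, x ∈ E → g x ∈ E := fun g hg x hx =>
    (cls_fx hC hO.fin hO.clo hg.1 x).2 hx
  obtain ⟨g, hg⟩ := Pool.Agent.PMC.PLC.build (D := D) (X := U ≃[L] U)
    (fun F g => (∀ d ∈ F, Nx L A (g d)) ∧ ∀ d ∈ F, ∀ d' ∈ F, d < d' →
      Ll L R o A sg (g d (q d)) (g d' (p d')))
    (fun _ => FirstOrder.Language.Equiv.refl L U)
    ⟨fun d hd => absurd hd (Set.notMem_empty d), fun d hd => absurd hd (Set.notMem_empty d)⟩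
    (by
      rintro F g hF ⟨hg1, hg2⟩ d hd
      obtain ⟨t, ht, ht1, ht2⟩ := h4 ((fun c => g c (q c)) '' {c | c ∈ F ∧ c < d})
        ((fun c => g c (p c)) '' {c | c ∈ F ∧ d < c}) {p d, q d}
        ((hF.subset fun c hc => hc.1).image _) ((hF.subset fun c hc => hc.1).image _)
        (by simp)
        (by
          rintro _ ⟨c, hc, rfl⟩
          exact hE _ (hg1 c hc.1) _ (hq c))
        (by
          rintro _ ⟨c, hc, rfl⟩
          exact hE _ (hg1 c hc.1) _ (hp c))
        (by
          rintro x (rfl | rfl)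
          · exact hp d
          · exact hq d)
        (by
          rintro _ ⟨c, hc, rfl⟩ _ ⟨c', hc', rfl⟩
          exact hg2 c hc.1 c' hc'.1 (hc.2.trans hc'.2))
      have hne : ∀ c ∈ F, c ≠ d := fun c hc h => hd (h ▸ hc)
      refine ⟨Function.update g d t, fun c hc => Function.update_of_ne (hne c hc) _ _, ?_, ?_⟩
      · rintro c (rfl | hc)
        · rw [Function.update_self]
          exact ht
        · rw [Function.update_of_ne (hne c hc)]
          exact hg1 c hc
      · rintro c (rfl | hc) c' (rfl | hc') hcc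
        · exact absurd hcc (lt_irrefl _)
        · rw [Function.update_self, Function.update_of_ne (hne c' hc')]
          exact ht2 _ ⟨q c, by simp, rfl⟩ _ ⟨c', ⟨hc', hcc⟩, rfl⟩
        · rw [Function.update_self, Function.update_of_ne (hne c hc)]
          exact ht1 _ ⟨c, ⟨hc, hcc⟩, rfl⟩ _ ⟨p c', by simp, rfl⟩
        · rw [Function.update_of_ne (hne c hc), Function.update_of_ne (hne c' hc')]
          exact hg2 c hc c' hc' hcc)
    (by
      rintro F F' g g' hFF hgg ⟨hg1, hg2⟩
      refine ⟨fun d hd => ?_, fun d hd d' hd' hdd => ?_⟩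
      · rw [hgg d hd]
        exact hg1 d (hFF hd)
      · rw [hgg d hd, hgg d' hd']
        exact hg2 d (hFF hd) d' (hFF hd') hdd)
  refine ⟨g, fun d => (hg {d} (Set.finite_singleton d)).1 d rfl, fun d d' hdd => ?_⟩
  exact (hg {d, d'} (by simp)).2 d (by simp) d' (by simp) hdd

end Pool.Agent.MNO
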