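import Pool.Agent.MNO.StT
import Pool.Agent.MNO.Ext
import Pool.Agent.MNO.NBA

/-!
MNO, module PRD: gluing along unions of pieces (helper38), from PRL.
-/

set_option autoImplicit false
set_option linter.unusedVariables false

namespace Pool.Agent.MNO

open FirstOrder.Language Set
open scoped FirstOrder
open Pool.Agent.WOM (tp Mon IsEl IsoM CtU Fx Orb)
open Pool.Agent.PMC (Ini ct Dc cel Sin Nd Ct lts ext XS Ex Fa Ll LL Itv Sm Md NPf fx_refl fx_symm
  fx_comp fx_mono comp_apply' def_img def_mono def_compl def_inter def_union def_mem def_fix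
  def_of_fix conj_of_def exists_isd exists_fin_def isEl_of_orb mem_orb orb_meets sat_fam rel_fx
  rel_def1 rel_def2 rel_hull rel_swap def_close)

/-- a permutation which preserves the strong types of all finite tuples is an automorphism in `Nx` -/
theorem nx_of_perm {L : FirstOrder.Language.{0, 0}} {U : Type} [L.Structure U] {A : Set U}
    (f : U ≃ U) (H : ∀ (α : Type) [Finite α] (x : α → U), Sq L A x (fun i => f (x i))) :
    ∃ h : U ≃[L] U, Nx L A h ∧ ∀ x, h x = f x := by
  have h1 : ∀ {n : ℕ} (F : L.Functions n) (x : Fin n → U),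
      f (FirstOrder.Language.Structure.funMap F x) =
        FirstOrder.Language.Structure.funMap F (f ∘ x) := by
    intro n F x
    have hd : Dp L A (fun v : Fin n ⊕ Unit → U =>
        v (Sum.inr ()) = FirstOrder.Language.Structure.funMap F (fun i => v (Sum.inl i))) := by
      refine dp_of_form (((FirstOrder.Language.Term.var (Sum.inr (Sum.inr ()))).equal
        (FirstOrder.Language.Term.func F (fun i => FirstOrder.Language.Term.var
          (Sum.inr (Sum.inl i)))) : L.Formula (A ⊕ (Fin n ⊕ Unit)))) (fun v => ?_)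
      simp [FirstOrder.Language.Formula.realize_equal]
    have h2 := (sq_dp (H (Fin n ⊕ Unit)
      (Sum.elim x (fun _ => FirstOrder.Language.Structure.funMap F x))) hd).1 rfl
    exact h2
  have h2 : ∀ {n : ℕ} (r : L.Relations n) (x : Fin n → U),
      FirstOrder.Language.Structure.RelMap r (f ∘ x) ↔
        FirstOrder.Language.Structure.RelMap r x := by
    intro n r x
    have hd : Dp L A (fun v : Fin n → U => FirstOrder.Language.Structure.RelMap r v) := by
      refine dp_of_form ((FirstOrder.Language.Relations.formula r (fun i =>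
        FirstOrder.Language.Term.var (Sum.inr i)) : L.Formula (A ⊕ Fin n))) (fun v => ?_)
      rw [FirstOrder.Language.Formula.realize_rel]
      rfl
    exact (sq_dp (H (Fin n) x) hd).symm
  refine ⟨{ toEquiv := f, map_fun' := h1, map_rel' := h2 }, ⟨fun a ha => ?_, fun n x => ?_⟩,
    fun x => rfl⟩
  · exact (sq_dp (H Unit (fun _ => a)) (dp_eqc (L := L) () ha)).1 rfl
  · exact H (Fin n) x

theorem thm_PRD (hPRL : St_PRL) : St_PRD := by
  intro L U _ κ R o hC A Q hA hQ g hg
  classical
  have hgQ : ∀ x, g x ∈ Q ↔ x ∈ Q := fun x => cls_fx hC hA hQ hg.1 x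
  have hsQ : ∀ x, g.symm x ∈ Q ↔ x ∈ Q := fun x => cls_fx hC hA hQ (fx_symm hg.1) x
  let f : U → U := fun x => if x ∈ Q then g x else x
  let f' : U → U := fun x => if x ∈ Q then g.symm x else x
  have f1 : ∀ x, x ∈ Q → f x = g x := fun x hx => if_pos hx
  have f2 : ∀ x, x ∉ Q → f x = x := fun x hx => if_neg hx
  have f3 : ∀ x, x ∈ Q → f' x = g.symm x := fun x hx => if_pos hx
  have f4 : ∀ x, x ∉ Q → f' x = x := fun x hx => if_neg hx
  have hl : ∀ x, f' (f x) = x := by
    intro x
    by_cases hx : x ∈ Q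
    · rw [f1 x hx, f3 _ ((hgQ x).2 hx)]
      exact g.symm_apply_apply x
    · rw [f2 x hx, f4 x hx]
  have hr : ∀ x, f (f' x) = x := by
    intro x
    by_cases hx : x ∈ Q
    · rw [f3 x hx, f1 _ ((hsQ x).2 hx)]
      exact g.apply_symm_apply x
    · rw [f4 x hx, f2 x hx]
  have key : ∀ (α : Type) [Finite α] (x : α → U), Sq L A x (fun i => f (x i)) := by
    intro α _ x
    have h1 : Sq L A (fun i : {i // x i ∈ Q} => x i) (fun i => g (x i)) :=
      nx_sq hg (fun i : {i // x i ∈ Q} => x i)
    have h2 : Sq L (A ∪ range (fun i : {i // x i ∉ Q} => x i))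
        (fun i : {i // x i ∈ Q} => x i) (fun i => g (x i)) :=
      hPRL L U κ R o hC {i // x i ∈ Q} {i // x i ∉ Q} A Qᶜ (fun i => x i) _ _ hA
        (cls_compl hQ) (fun i => i.2) (fun i => not_not.2 i.2) h1
    have h3 := sq_add h2 (fun i : {i // x i ∉ Q} => x i) (fun i => Or.inr ⟨i, rfl⟩)
    have h4 := sq_mono subset_union_left (sq_sub h3 (fun i : α =>
      if h : x i ∈ Q then (Sum.inl ⟨i, h⟩ : {i // x i ∈ Q} ⊕ {i // x i ∉ Q})
      else Sum.inr ⟨i, h⟩))
    have e1 : (fun i : α => Sum.elim (fun i : {i // x i ∈ Q} => x i)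
        (fun i : {i // x i ∉ Q} => x i)
        (if h : x i ∈ Q then (Sum.inl ⟨i, h⟩ : {i // x i ∈ Q} ⊕ {i // x i ∉ Q})
          else Sum.inr ⟨i, h⟩)) = x := by
      funext i
      by_cases hi : x i ∈ Q
      · rw [dif_pos hi]
        rfl
      · rw [dif_neg hi]
        rfl
    have e2 : (fun i : α => Sum.elim (fun i : {i // x i ∈ Q} => g (x i))
        (fun i : {i // x i ∉ Q} => x i)
        (if h : x i ∈ Q then (Sum.inl ⟨i, h⟩ : {i // x i ∈ Q} ⊕ {i // x i ∉ Q})
          else Sum.inr ⟨i, h⟩)) = fun i => f (x i) := by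
      funext i
      by_cases hi : x i ∈ Q
      · rw [dif_pos hi, f1 _ hi]
        rfl
      · rw [dif_neg hi, f2 _ hi]
        rfl
    rw [e1, e2] at h4
    exact h4
  obtain ⟨h, hh, hh'⟩ := nx_of_perm (L := L) (A := A) ⟨f, f', hl, hr⟩ (fun α _ x => key α x)
  exact ⟨h, hh, fun x hx => (hh' x).trans (f1 x hx), fun x hx => (hh' x).trans (f2 x hx)⟩

end Pool.Agent.MNO
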