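import Pool.Agent.MNO.NBA
import Pool.Agent.MNO.StB

/-!
MNO, [PRF]: gluing of finitely many automorphisms on disjoint unions of pieces (text of PMC, helper82).
-/

set_option autoImplicit false

namespace Pool.Agent.MNO

open FirstOrder.Language Set
open scoped FirstOrder
open Pool.Agent.WOM (tp Mon IsEl IsoM CtU Fx Orb)
open Pool.Agent.PMC (Ini ct Dc cel Sin Nd Ct lts ext XS Ex Fa Ll LL Itv Sm Md NPf comp_apply')

/-- [PRF] -/
theorem thm_PRF (hPRD : St_PRD) : St_PRF := by
  intro L U _ κ R o hC A hA n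
  induction n with
  | zero =>
    intro Q _ _ g _
    exact ⟨FirstOrder.Language.Equiv.refl L U, nx_refl A, fun i => i.elim0, fun x _ => rfl⟩
  | succ n ih =>
    intro Q hQ hd g hg
    obtain ⟨h₁, h₁A, h₁Q, h₁n⟩ := ih (fun i => Q i.succ) (fun i => hQ i.succ)
      (fun i j hij => hd i.succ j.succ fun h => hij (Fin.succ_injective n h))
      (fun i => g i.succ) (fun i => hg i.succ)
    obtain ⟨h₀, h₀A, h₀Q, h₀n⟩ := hPRD L U κ R o hC A (Q 0) hA (hQ 0) (g 0) (hg 0)
    refine ⟨h₀.comp h₁, nx_comp h₀A h₁A, ?_, ?_⟩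
    · intro i x hx
      rw [comp_apply']
      refine Fin.cases ?_ ?_ i (motive := fun i => x ∈ Q i → h₀ (h₁ x) = g i x) hx
      · intro hx0
        rw [h₁n x fun i hi => Set.disjoint_left.1 (hd 0 i.succ (Fin.succ_ne_zero i).symm) hx0 hi]
        exact h₀Q x hx0
      · intro k hxk
        rw [h₁Q k x hxk]
        refine h₀n _ fun h => ?_
        exact Set.disjoint_left.1 (hd 0 k.succ (Fin.succ_ne_zero k).symm) h
          ((cls_fx hC hA (hQ k.succ) (nx_fx (hg k.succ)) x).2 hxk)
    · intro x hx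
      rw [comp_apply', h₁n x fun i => hx i.succ]
      exact h₀n x (hx 0)

end Pool.Agent.MNO
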