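import Pool.Agent.MNO.StT
import Pool.Agent.MNO.Ext

/-!
MNO: [PRL] strong types of tuples outside of a union of pieces over a tuple in it.
-/

set_option autoImplicit false
set_option linter.unusedVariables false

namespace Pool.Agent.MNO

open FirstOrder.Language Set
open scoped FirstOrder
open Pool.Agent.WOM (tp Mon IsEl IsoM CtU Fx Orb)
open Pool.Agent.PMC (Ini ct Dc cel Sin Nd Ct lts ext XS Ex Fa Ll LL Itv Sm Md NPf)

/-- definable properties have the same value at tuples with the same strong type -/
theorem prl_dp {L : FirstOrder.Language.{0, 0}} {U : Type} [L.Structure U] {A : Set U} {α : Type}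
    {w w' : α → U} (h : Sq L A w w') {P : (α → U) → Prop} (hP : Dp L A P) : P w ↔ P w' := by
  classical
  have h1 : FE L A (fun v v' => P v ↔ P v') := by
    refine ⟨dp_iff (dp_sub hP Sum.inl) (dp_sub hP Sum.inr), ⟨fun _ => Iff.rfl, fun h => h.symm,
      fun h h' => h.trans h'⟩, ?_⟩
    by_cases h2 : ∃ a, P a
    · by_cases h3 : ∃ b, ¬ P b
      · obtain ⟨a, ha⟩ := h2
        obtain ⟨b, hb⟩ := h3
        refine ⟨{a, b}, by simp, fun x => ?_⟩
        by_cases hx : P x
        · exact ⟨a, by simp, by simp [hx, ha]⟩
        · exact ⟨b, by simp, by simp [hx, hb]⟩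
      · push Not at h3
        exact ⟨{w}, finite_singleton w, fun x => ⟨w, mem_singleton w, by simp [h3]⟩⟩
    · push Not at h2
      exact ⟨{w}, finite_singleton w, fun x => ⟨w, mem_singleton w, by simp [h2]⟩⟩
  exact h _ h1

/-- parameters which are definable may be omitted in strong types -/
theorem prl_close {L : FirstOrder.Language.{0, 0}} {U : Type} [L.Structure U] {A : Set U}
    {α : Type} {w w' : α → U} {u : U} (hu : ¬ Nd L A u) (h : Sq L A w w') :
    Sq L (insert u A) w w' := by
  intro E hE
  unfold Nd at hu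
  rw [not_not] at hu
  exact h E ⟨dp_close hu hE.dfn, hE.eqv, hE.fin⟩

theorem thm_PRL (hGLM : St_GLM) (hTRV : St_TRV) (hNNL : St_NNL) : St_PRL := by
  intro L U _ κ R o hC α β _ _ A Q u w w' hA hQ huQ hwQ hS
  have key : ∀ V : Set U, V.Finite → V ⊆ Q → Sq L (A ∪ V) w w' := by
    intro V hV
    induction V, hV using Set.Finite.induction_on with
    | empty =>
      intro _
      rw [union_empty]
      exact hS
    | @insert u1 V hn hf ih =>
      intro hVQ
      have hVQ' : V ⊆ Q := (subset_insert u1 V).trans hVQ
      have hu1 : u1 ∈ Q := hVQ (mem_insert u1 V)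
      have hSB := ih hVQ'
      have hBf : (A ∪ V).Finite := hA.union hf
      have hQB : Cls L R o (A ∪ V) Q :=
        (hNNL L U κ R o hC A (A ∪ V) subset_union_left hBf).2.1 Q hQ
      have e1 : A ∪ insert u1 V = insert u1 (A ∪ V) := by
        rw [union_insert]
      rw [e1]
      by_cases hnd : Nd L (A ∪ V) u1
      · obtain ⟨j⟩ := hC.ne
        -- no image of an entry of `w` is linked to `u1`
        have hno : ∀ (C : Set U), C.Finite → (∀ x ∈ C, ∃ (g : U ≃[L] U) (k : α),
            Fx L (A ∪ V) g ∧ x = g (w k)) →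
            ¬ Ct L R o ((A ∪ V) ∪ C) j (cel L R o (A ∪ V) j u1) := by
          intro C hCf hCw
          refine hTRV L U κ R o hC (A ∪ V) ((A ∪ V) ∪ C) j u1 subset_union_left
            (hBf.union hCf) hnd ?_
          rintro b (hb | hb) hct
          · rw [insert_eq_of_mem hb] at hct
            obtain ⟨D, hD, hDS⟩ := hct
            exact not_sin_cel hD u1 hDS
          · obtain ⟨g, k, hg, rfl⟩ := hCw b hb
            have h1 : Lk L R o (A ∪ V) (g (w k)) u1 := ⟨j, hct⟩
            have h2 := (hQB _ _ h1).2 hu1
            exact hwQ k ((cls_fx hC hBf hQB hg (w k)).1 h2)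
        obtain ⟨g0, hg0, hg0w⟩ := dp_hom hC.mon hBf (a := w) (b := w')
          (fun P hP hPw => (prl_dp hSB hP).1 hPw)
        refine hGLM L U κ R o hC α (A ∪ V) j u1 u1 true w w' hBf hnd ?_ hSB ?_ ?_
        · intro n v hn hv x hx _
          rw [ext_of_not_ct]
          · exact hx
          · refine hno _ (finite_iUnion fun i => finite_range (v i)) ?_
            intro y hy
            obtain ⟨i, k, rfl⟩ := mem_iUnion.1 hy
            obtain ⟨g, hg, hgv⟩ := hv i
            exact ⟨g, k, hg, congrFun hgv k⟩
        · rw [ext_of_not_ct]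
          · exact mem_cel _ j u1
          · refine hno _ (finite_range w) ?_
            rintro _ ⟨k, rfl⟩
            exact ⟨FirstOrder.Language.Equiv.refl L U, k, fun x _ => rfl, rfl⟩
        · rw [ext_of_not_ct]
          · exact mem_cel _ j u1
          · refine hno _ (finite_range w') ?_
            rintro _ ⟨k, rfl⟩
            exact ⟨g0, k, hg0, (hg0w k).symm⟩
      · exact prl_close hnd hSB
  exact key (range u) (finite_range u) (by
    rintro _ ⟨i, rfl⟩
    exact huQ i)

end Pool.Agent.MNO
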