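import Pool.Agent.PMC.StD
import Pool.Agent.WOM.DEFF
import Pool.Agent.WOM.DEF1
import Pool.Agent.WOM.EMB
import Pool.Agent.WOM.TRP
import Pool.Agent.WOM.PULL

/-!
MNO, module MOR: Morleyization, `PMC.St_NPU` for languages with function symbols (helper47).
-/

set_option autoImplicit false
set_option linter.unusedVariables false

namespace Pool.Agent.MNO

open FirstOrder.Language Set
open scoped FirstOrder
open Pool.Agent.WOM (tp Mon IsEl IsoM CtU Fx Orb CtT PerfT ThS)
open Pool.Agent.PMC (rel NPf Sm Md St_NPU)

namespace MOR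

/-- the relational language with a relation symbol for every formula of `L` -/
def Lm (L : FirstOrder.Language.{0, 0}) : FirstOrder.Language.{0, 0} :=
  ⟨fun _ => Empty, fun n => L.Formula (Fin n)⟩

variable {L : FirstOrder.Language.{0, 0}}

instance (n : ℕ) : IsEmpty ((Lm L).Functions n) := inferInstanceAs (IsEmpty Empty)

/-- the expansion of a structure -/
@[instance_reducible]
def str (M : Type) (S : L.Structure M) : (Lm L).Structure M where
  funMap := fun {n} f => isEmptyElim f
  RelMap := fun {n} (φ : L.Formula (Fin n)) v => @FirstOrder.Language.Formula.Realize L M S _ φ v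

/-- terms are variables -/
def trT {α : Type} : (Lm L).Term α → α
  | .var x => x
  | .func f _ => isEmptyElim f

theorem trT_real {α M : Type} (S : L.Structure M) (t : (Lm L).Term α) (v : α → M) :
    @FirstOrder.Language.Term.realize (Lm L) M (str M S) α v t = v (trT t) := by
  cases t with
  | var x => rfl
  | func f _ => exact isEmptyElim f

/-- translation of formulas -/
def tr {α : Type} : ∀ {n : ℕ}, (Lm L).BoundedFormula α n → L.BoundedFormula α n
  | _, .falsum => .falsum
  | _, .equal t1 t2 => .equal (Term.var (trT t1)) (Term.var (trT t2))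
  | _, .rel (l := k) R ts =>
    (show L.BoundedFormula (Fin k) 0 from R).relabel (fun i => trT (ts i))
  | _, .imp f g => .imp (tr f) (tr g)
  | _, .all f => .all (tr f)

theorem tr_iff {α M : Type} (S : L.Structure M) {n : ℕ} (ψ : (Lm L).BoundedFormula α n) (v : α → M)
    (xs : Fin n → M) :
    @FirstOrder.Language.BoundedFormula.Realize (Lm L) M (str M S) α n ψ v xs ↔
      (tr ψ).Realize v xs := by
  induction ψ with
  | falsum => rfl
  | equal t1 t2 =>
    show @FirstOrder.Language.Term.realize (Lm L) M (str M S) _ _ t1 =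
      @FirstOrder.Language.Term.realize (Lm L) M (str M S) _ _ t2 ↔ _
    rw [trT_real, trT_real]
    rfl
  | @rel n k R ts =>
    have h1 := @FirstOrder.Language.BoundedFormula.realize_relabel L M S (Fin k) α n 0
      (show L.BoundedFormula (Fin k) 0 from R) (fun i => trT (ts i)) v xs
    refine Iff.trans ?_ h1.symm
    show @FirstOrder.Language.BoundedFormula.Realize L M S (Fin k) 0 R
      (fun i => @FirstOrder.Language.Term.realize (Lm L) M (str M S) _ (Sum.elim v xs) (ts i))
        default ↔ _
    have e1 : (fun i => @FirstOrder.Language.Term.realize (Lm L) M (str M S) _ (Sum.elim v xs) (ts i)) =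
        Sum.elim v (xs ∘ Fin.castAdd 0) ∘ fun i => trT (ts i) := by
      funext i
      rw [trT_real]
      rfl
    rw [e1]
    apply iff_of_eq
    congr 1
    exact Subsingleton.elim _ _
  | imp f g ihf ihg =>
    exact imp_congr (ihf xs) (ihg xs)
  | all f ih =>
    exact forall_congr' fun x => ih _

theorem trF_iff {α M : Type} (S : L.Structure M) (ψ : (Lm L).Formula α) (v : α → M) :
    @FirstOrder.Language.Formula.Realize (Lm L) M (str M S) α ψ v ↔
      @FirstOrder.Language.Formula.Realize L M S α (tr ψ) v := tr_iff S ψ v _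

/-- the atomic formula -/
def atm {n : ℕ} (φ : L.Formula (Fin n)) : (Lm L).Formula (Fin n) :=
  Relations.formula (L := Lm L) (show (Lm L).Relations n from φ) (fun i => Term.var i)

theorem atm_iff' {M : Type} (N : (Lm L).Structure M) {n : ℕ} (φ : L.Formula (Fin n)) (v : Fin n → M) :
    @FirstOrder.Language.Formula.Realize (Lm L) M N _ (atm φ) v ↔
      @Structure.RelMap (Lm L) M N n φ v := by
  unfold atm
  rw [@FirstOrder.Language.Formula.realize_rel (Lm L) M N]
  rfl

theorem atm_iff {M : Type} (S : L.Structure M) {n : ℕ} (φ : L.Formula (Fin n)) (v : Fin n → M) :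
    @FirstOrder.Language.Formula.Realize (Lm L) M (str M S) _ (atm φ) v ↔
      @FirstOrder.Language.Formula.Realize L M S _ φ v := atm_iff' (str M S) φ v

/-- definable sets -/
theorem def_of {M : Type} [S : L.Structure M] {A : Set M} {α : Type} {s : Set (α → M)}
    (h : @Set.Definable M A (Lm L) (str M S) α s) : A.Definable L s := by
  let _ : (Lm L).Structure M := str M S
  rw [definable_iff_exists_formula_sum] at h
  obtain ⟨φ, hφ⟩ := h
  rw [definable_iff_exists_formula_sum]
  refine ⟨tr φ, ?_⟩
  rw [hφ]
  ext v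
  exact trF_iff S φ _

/-- definable sets of elements -/
theorem def1_to {M : Type} (S : L.Structure M) {A : Set M} {s : Set M}
    (h : A.Definable₁ L s) : @Set.Definable₁ M A (Lm L) (str M S) s := by
  obtain ⟨B, hBA, hB⟩ := (Set.definable_iff_finitely_definable (L := L) (A := A)).1 h
  obtain ⟨n, a, ha⟩ := B.finite_toSet.fin_embedding
  have h1 : (range a).Definable₁ L s := by
    rw [ha]
    exact hB
  obtain ⟨φ, hφ⟩ := ((Pool.Agent.WOM.thm_DEF1 Pool.Agent.WOM.thm_DEFF L M n a).1 s).1 h1
  have h2 : @Set.Definable₁ M (range a) (Lm L) (str M S) s := by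
    refine ((@Pool.Agent.WOM.thm_DEF1 Pool.Agent.WOM.thm_DEFF (Lm L) M (str M S) n a).1 s).2
      ⟨atm φ, ?_⟩
    rw [hφ]
    ext x
    exact (atm_iff S φ _).symm
  rw [ha] at h2
  exact @Set.Definable.mono M B (Lm L) (str M S) _ A _ h2 hBA

/-- a bijection which preserves all formulas -/
def eqOf {M N : Type} (S : L.Structure M) (S' : L.Structure N) (g : M ≃ N)
    (h : ∀ (n : ℕ) (φ : L.Formula (Fin n)) (v : Fin n → M),
      @FirstOrder.Language.Formula.Realize L N S' _ φ (g ∘ v) ↔
        @FirstOrder.Language.Formula.Realize L M S _ φ v) :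
    @FirstOrder.Language.Equiv L M N S S' :=
  @FirstOrder.Language.Equiv.mk L M N S S' g
    (by
      intro n f v
      have h1 := h (n + 1) (Term.equal (Term.func f (fun i => Term.var (Fin.castSucc i)))
        (Term.var (Fin.last n))) (Fin.snoc v (@Structure.funMap L M S n f v))
      rw [@FirstOrder.Language.Formula.realize_equal L M S] at h1
      rw [@FirstOrder.Language.Formula.realize_equal L N S'] at h1
      have h2 := h1.2 (by
        show @Structure.funMap L M S n f (fun i => Fin.snoc (α := fun _ => M) v _ (Fin.castSucc i)) =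
          Fin.snoc (α := fun _ => M) v _ (Fin.last n)
        rw [Fin.snoc_last]
        congr 1
        funext i
        rw [Fin.snoc_castSucc])
      have h3 : @Structure.funMap L N S' n f (fun i => g (Fin.snoc (α := fun _ => M) v
          (@Structure.funMap L M S n f v) (Fin.castSucc i))) =
          g (Fin.snoc (α := fun _ => M) v (@Structure.funMap L M S n f v) (Fin.last n)) := h2
      rw [Fin.snoc_last] at h3
      have h4 : (fun i => g (Fin.snoc (α := fun _ => M) v (@Structure.funMap L M S n f v)
          (Fin.castSucc i))) = g ∘ v := by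
        funext i
        rw [Fin.snoc_castSucc]
        rfl
      rw [h4] at h3
      exact h3.symm)
    (by
      intro n r v
      have h1 := h n (r.formula (fun i => Term.var i)) v
      rw [@FirstOrder.Language.Formula.realize_rel L M S, @FirstOrder.Language.Formula.realize_rel L N S'] at h1
      exact h1)

/-- isomorphisms are isomorphisms of the expansions -/
def eqUp {M N : Type} (S : L.Structure M) (S' : L.Structure N)
    (g : @FirstOrder.Language.Equiv L M N S S') :
    @FirstOrder.Language.Equiv (Lm L) M N (str M S) (str N S') :=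
  @FirstOrder.Language.Equiv.mk (Lm L) M N (str M S) (str N S')
    (@FirstOrder.Language.Equiv.toEquiv L M N S S' g)
    (by
      intro n f v
      exact isEmptyElim f)
    (by
      intro n r v
      exact FirstOrder.Language.StrongHomClass.realize_formula g (show L.Formula (Fin n) from r))

/-- isomorphisms of the expansions are isomorphisms -/
def eqDn {M N : Type} (S : L.Structure M) (S' : L.Structure N)
    (g : @FirstOrder.Language.Equiv (Lm L) M N (str M S) (str N S')) :
    @FirstOrder.Language.Equiv L M N S S' :=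
  eqOf S S' (@FirstOrder.Language.Equiv.toEquiv (Lm L) M N (str M S) (str N S') g)
    (fun n φ v => @FirstOrder.Language.Equiv.map_rel (Lm L) M N (str M S) (str N S') g n φ v)

theorem ctb (h : Countable L.Symbols) : Countable (Lm L).Symbols := by
  have h1 : ∀ n, Countable (L.Formula (Fin n)) := fun n => inferInstance
  have h2 : ∀ n, Countable ((Lm L).Relations n) := h1
  have h3 : ∀ n, Countable ((Lm L).Functions n) := fun n => inferInstanceAs (Countable Empty)
  exact inferInstanceAs (Countable ((Σ n, (Lm L).Functions n) ⊕ (Σ n, (Lm L).Relations n)))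

/-- the saturated model -/
theorem mon {U : Type} (S : L.Structure U) (hM : @Mon L U S) : @Mon (Lm L) U (str U S) := by
  let _ : (Lm L).Structure U := str U S
  refine ⟨hM.inf, hM.ctb, fun A hA F hF hG => hM.sat A hA F (fun s hs => def_of (hF s hs)) hG, ?_⟩
  intro n a b hab
  have h1 : @tp L U S n a = @tp L U S n b := by
    ext φ
    have h2 : atm φ ∈ @tp (Lm L) U (str U S) n a ↔ atm φ ∈ @tp (Lm L) U (str U S) n b := by
      rw [hab]
    exact ((atm_iff S φ a).symm.trans h2).trans (atm_iff S φ b)
  obtain ⟨g, hg⟩ := hM.hom n a b h1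
  exact ⟨eqUp S S g, hg⟩

/-- sentences -/
theorem sent_iff {M : Type} (S : L.Structure M) (χ : (Lm L).Sentence) :
    @FirstOrder.Language.Sentence.Realize (Lm L) M (str M S) χ ↔
      @FirstOrder.Language.Sentence.Realize L M S (tr χ) := trF_iff S χ _

theorem thS {U : Type} (S : L.Structure U) (S0 : L.Structure ℕ)
    (h : @FirstOrder.Language.Theory.Model L U S (ThS L S0)) :
    @FirstOrder.Language.Theory.Model (Lm L) U (str U S) (ThS (Lm L) (str ℕ S0)) := by
  refine @FirstOrder.Language.Theory.Model.mk (Lm L) U (str U S) _ fun χ hχ => ?_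
  have h1 : @FirstOrder.Language.Sentence.Realize (Lm L) ℕ (str ℕ S0) χ := hχ
  rw [sent_iff] at h1
  rw [sent_iff]
  exact @FirstOrder.Language.Theory.realize_sentence_of_mem L U S _ h _ h1

/-- reconstruction -/
theorem rec_ (U : Type) (S : L.Structure U) (hM : @Mon L U S) (S0 : L.Structure ℕ)
    (h : @FirstOrder.Language.Theory.Model L U S (ThS L S0)) (N : (Lm L).Structure ℕ)
    (hN : @FirstOrder.Language.Theory.Model (Lm L) ℕ N (ThS (Lm L) (str ℕ S0)))
    (hEMB : Pool.Agent.WOM.St_EMB) (hPULL : Pool.Agent.WOM.St_PULL) :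
    ∃ S1 : L.Structure ℕ, N = str ℕ S1 ∧ @FirstOrder.Language.Theory.Model L ℕ S1 (ThS L S0) := by
  have h1 := thS S S0 h
  have h2 : ThS (Lm L) N = ThS (Lm L) (str ℕ S0) := by
    ext χ
    constructor
    · intro hχ
      by_contra hcon
      have h3 : χ.not ∈ ThS (Lm L) (str ℕ S0) := by
        show @FirstOrder.Language.Sentence.Realize (Lm L) ℕ (str ℕ S0) χ.not
        rw [@FirstOrder.Language.Sentence.realize_not (Lm L) ℕ (str ℕ S0)]
        exact hcon
      have h4 := @FirstOrder.Language.Theory.realize_sentence_of_mem (Lm L) ℕ N _ hN _ h3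
      rw [@FirstOrder.Language.Sentence.realize_not (Lm L) ℕ N] at h4
      exact h4 hχ
    · intro hχ
      exact @FirstOrder.Language.Theory.realize_sentence_of_mem (Lm L) ℕ N _ hN _ hχ
  have hM' := mon S hM
  rw [← h2] at h1
  obtain ⟨f, hf, hf1, hf2⟩ := @hEMB (Lm L) U (str U S) hM' N h1
  have hel : @IsEl L U S (range f) := by
    intro s hs hne
    exact hf2 s (def1_to S hs) hne
  obtain ⟨S1, hS1⟩ := @hPULL L U S f hf hel
  have h5 : ∀ (n : ℕ) (φ : L.Formula (Fin n)) (v : Fin n → ℕ), @Structure.RelMap (Lm L) ℕ N n φ v ↔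
      @FirstOrder.Language.Formula.Realize L ℕ S1 _ φ v := by
    intro n φ v
    have h6 : atm φ ∈ @tp (Lm L) ℕ N n v ↔ atm φ ∈ @tp (Lm L) U (str U S) n (f ∘ v) := by
      rw [hf1 n v]
    have h7 : φ ∈ @tp L ℕ S1 n v ↔ φ ∈ @tp L U S n (f ∘ v) := by
      rw [hS1 n v]
    exact ((atm_iff' N φ v).symm.trans h6).trans ((atm_iff S φ (f ∘ v)).trans h7.symm)
  refine ⟨S1, ?_, ?_⟩
  · apply FirstOrder.Language.Structure.ext
    · funext n g
      exact isEmptyElim g
    · funext n φ v
      exact propext (h5 n φ v)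
  · refine @FirstOrder.Language.Theory.Model.mk L ℕ S1 _ fun χ hχ => ?_
    have h8 := @FirstOrder.Language.Theory.realize_sentence_of_mem L U S _ h χ hχ
    exact (@Pool.Agent.WOM.TRP_sent L U S S1 f hS1 χ).2 h8

/-- perfectly many models -/
theorem perf (U : Type) (S : L.Structure U) (hM : @Mon L U S) (S0 : L.Structure ℕ)
    (h : @FirstOrder.Language.Theory.Model L U S (ThS L S0))
    (hEMB : Pool.Agent.WOM.St_EMB) (hPULL : Pool.Agent.WOM.St_PULL)
    (hP : PerfT (Lm L) (ThS (Lm L) (str ℕ S0))) : PerfT L (ThS L S0) := by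
  obtain ⟨f, h1, h2, h3, -⟩ := hP
  choose g hg1 hg2 using fun x => rec_ U S hM S0 h (f x) (h1 x) hEMB hPULL
  have hcl : ∀ (n : ℕ) (φ : L.Formula (Fin n)) (a : Fin n → ℕ),
      IsClopen {x : ℕ → Bool | @FirstOrder.Language.Formula.Realize L ℕ (g x) _ φ a} := by
    intro n φ a
    have h4 := h3 n φ a
    have h5 : {x : ℕ → Bool | @Structure.RelMap (Lm L) ℕ (f x) n φ a} =
        {x : ℕ → Bool | @FirstOrder.Language.Formula.Realize L ℕ (g x) _ φ a} := by
      ext x
      show @Structure.RelMap (Lm L) ℕ (f x) n φ a ↔ _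
      rw [hg1 x]
      exact Iff.rfl
    rw [← h5]
    exact h4
  refine ⟨g, hg2, fun x y ⟨e⟩ => h2 x y ?_, ?_, ?_⟩
  · rw [hg1 x, hg1 y]
    exact ⟨eqUp (g x) (g y) e⟩
  · intro n R a
    have h4 := hcl n (R.formula (fun i => Term.var i)) a
    have h5 : {x : ℕ → Bool | @Structure.RelMap L ℕ (g x) n R a} =
        {x : ℕ → Bool | @FirstOrder.Language.Formula.Realize L ℕ (g x) _
          (R.formula (fun i => Term.var i)) a} := by
      ext x
      show _ ↔ @FirstOrder.Language.Formula.Realize L ℕ (g x) _ _ a
      rw [@FirstOrder.Language.Formula.realize_rel L ℕ (g x)]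
      exact Iff.rfl
    rw [h5]
    exact h4
  · intro n F a b
    have h4 := (hcl (n + 1) (Term.equal (Term.func F (fun i => Term.var (Fin.castSucc i)))
        (Term.var (Fin.last n))) (Fin.snoc a b)).isOpen
    have h5 : {x : ℕ → Bool | @Structure.funMap L ℕ (g x) n F a = b} =
        {x : ℕ → Bool | @FirstOrder.Language.Formula.Realize L ℕ (g x) _
          (Term.equal (Term.func F (fun i => Term.var (Fin.castSucc i)))
        (Term.var (Fin.last n))) (Fin.snoc a b)} := by
      ext x
      show _ ↔ @FirstOrder.Language.Formula.Realize L ℕ (g x) _ _ (Fin.snoc a b)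
      rw [@FirstOrder.Language.Formula.realize_equal L ℕ (g x)]
      show _ ↔ @Structure.funMap L ℕ (g x) n F (fun i => Fin.snoc (α := fun _ => ℕ) a b (Fin.castSucc i)) =
          Fin.snoc (α := fun _ => ℕ) a b (Fin.last n)
      rw [Fin.snoc_last]
      have h6 : (fun i => Fin.snoc (α := fun _ => ℕ) a b (Fin.castSucc i)) = a := by
        funext i
        rw [Fin.snoc_castSucc]
      rw [h6]
      exact Iff.rfl
    rw [h5]
    exact h4

/-- families of submodels -/
theorem npf (U : Type) (S : L.Structure U)
    (h : @NPf (Lm L) U (str U S)) : @NPf L U S := by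
  intro A X hA hX hc
  obtain ⟨f, f', hne, e, he⟩ := h A X hA
    (fun f => ⟨fun s hs hs' => (hX f).1 s (def_of hs) hs', (hX f).2⟩) hc
  refine ⟨f, f', hne, e, fun s hs => ?_⟩
  obtain ⟨g, hg1, hg2⟩ := he s hs
  exact ⟨eqDn S S g, hg1, hg2⟩

end MOR

/-- `PMC.St_NPU` for languages with function symbols -/
def St_NPG : Prop :=
  ∀ (L : FirstOrder.Language.{0, 0}), Countable L.Symbols →
    ∀ (U : Type) [L.Structure U], Mon L U → ∀ S : L.Structure ℕ, U ⊨ ThS L S →
    ¬ PerfT L (ThS L S) → NPf L U

theorem thm_NPG (hNPU : St_NPU) : St_NPG := by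
  intro L hL U _ hM S hU hP
  have hDEF1 := Pool.Agent.WOM.thm_DEF1 Pool.Agent.WOM.thm_DEFF
  refine MOR.npf U inferInstance ?_
  refine @hNPU (MOR.Lm L) (MOR.ctb hL) inferInstance U (MOR.str U inferInstance)
    (MOR.mon inferInstance hM) (MOR.str ℕ S) (MOR.thS inferInstance S hU) (fun hP' => hP ?_)
  exact MOR.perf U inferInstance hM S hU (Pool.Agent.WOM.thm_EMB hDEF1)
    (Pool.Agent.WOM.thm_PULL hDEF1) hP'

end Pool.Agent.MNO
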