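import Pool.Agent.MNO.StU
import Pool.Agent.PMC.TOP
import Pool.Agent.MNO.MOR

/-!
MNO, module TOP: assembly (helper47).
-/

set_option autoImplicit false

namespace Pool.Agent.MNO

open FirstOrder.Language Set
open scoped FirstOrder
open Pool.Agent.WOM (Mon CtU CtT PerfT ThS Small)
open Pool.Agent.PMC (rel St_NPU)

theorem TOP_of (hULT : Pool.Agent.WOM.St_ULT) (hSUBM : Pool.Agent.WOM.St_SUBM)
    (hHOMG : Pool.Agent.WOM.St_HOMG) (hINC : Pool.Agent.WOM.St_INC)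
    (hNSM : Pool.Agent.WOM.St_NSM) (hTRC : Pool.Agent.WOM.St_TRC)
    (hEND : St_END) (hHYC : St_HYC) (hNPG : St_NPG) : St_MAIN := by
  intro L hL T lt hT
  refine hINC L hL T fun S hS => ?_
  by_cases hp : PerfT L (ThS L S)
  · exact Or.inr hp
  · have hsm : Small L (ThS L S) := by
      by_contra h
      exact hp (hNSM L hL _ h)
    obtain ⟨V, _, _, hV, hsV⟩ := hULT L hL S
    obtain ⟨U, _, hc, hi, hU, hsU⟩ := hSUBM L hL S hsm V hV hsV
    have hM : Mon L U := hHOMG L U hc hi hsU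
    have hC := hHYC L hL T lt hT U (Pool.Agent.WOM.TOP_mono L T S hS U hU) hM
    have hN := hNPG L hL U hM S hU hp
    exact Or.inl (hTRC L U hM (hEND L U Unit _ id hC hN) S hU)

theorem thm_TOP (hEND : St_END) (hHYC : St_HYC) (hNPU : St_NPU) : St_MAIN := by
  have hDEF1 := Pool.Agent.WOM.thm_DEF1 Pool.Agent.WOM.thm_DEFF
  have hREAL := Pool.Agent.WOM.thm_REAL Pool.Agent.WOM.thm_MEAS
  exact TOP_of (Pool.Agent.WOM.thm_ULT hDEF1) (Pool.Agent.WOM.thm_SUBM hDEF1)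
    (Pool.Agent.WOM.thm_HOMG hDEF1) (Pool.Agent.WOM.thm_INC Pool.Agent.WOM.thm_MEAS hREAL)
    (Pool.Agent.WOM.thm_NSM Pool.Agent.WOM.thm_MEAS hREAL)
    (Pool.Agent.WOM.thm_TRC (Pool.Agent.WOM.thm_EMB hDEF1)) hEND hHYC (thm_NPG hNPU)

end Pool.Agent.MNO
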