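import Pool.Agent.MNO.HYC
import Pool.Agent.MNO.TOP
import Pool.Agent.MNO.NFE

/-!
MNO, module PRM: linear orders which are definable with parameters (helper58).  Naming the finite set
`A` of parameters: the language `L[[A]]`.
-/

set_option autoImplicit false
set_option linter.unusedVariables false

namespace Pool.Agent.MNO

open FirstOrder.Language Set
open scoped FirstOrder
open Pool.Agent.WOM (tp Mon IsEl IsoM CtU Fx Orb CtT PerfT ThS)
open Pool.Agent.PMC (Ini ct Dc cel Sin Nd Ct lts ext XS Ex Fa Ll LL Itv Sm Md NPf rel St_NPU)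

namespace PRM

variable {L : FirstOrder.Language.{0, 0}} {U : Type} [L.Structure U] {A : Set U} {α : Type}

theorem dp_down {B : Set U} {P : (α → U) → Prop} (h : Dp (L[[A]]) B P) : Dp L (A ∪ B) P := by
  obtain ⟨φ, hφ⟩ := dp_form h
  have h1 : Dp L A (fun w : B ⊕ α → U => φ.Realize w) := ⟨φ, rfl⟩
  have h2 : Dp L A (fun w : α ⊕ B → U => φ.Realize (fun i => w (Sum.swap i))) := dp_sub h1 Sum.swap
  have h3 := dp_par (dp_mono (subset_union_left (s := A) (t := B)) h2) (fun b : B => (b : U))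
    (fun b => Or.inr b.2)
  refine dp_congr h3 (fun v => ?_)
  rw [hφ]
  apply iff_of_eq
  congr 1
  funext i
  rcases i with i | i <;> rfl

theorem dp_up {B : Set U} {P : (α → U) → Prop} (h : Dp L (A ∪ B) P) : Dp (L[[A]]) B P := by
  have h0 : Dp L (A ∪ range (fun b : B => (b : U))) P := by
    rw [Subtype.range_coe]
    exact h
  obtain ⟨Q, hQ, hPQ⟩ := dp_fam h0
  obtain ⟨φ, hφ⟩ := hQ
  have h1 : Dp (L[[A]]) (∅ : Set U) Q := by
    unfold Dp
    rw [empty_definable_iff]
    exact ⟨φ, hφ⟩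
  have h3 := dp_par (dp_mono (empty_subset B) h1) (fun b : B => (b : U)) (fun b => b.2)
  exact dp_congr h3 hPQ

/-- automorphisms over `A` are automorphisms for the language `L[[A]]` -/
def up (g : U ≃[L] U) (hg : Fx L A g) : U ≃[L[[A]]] U where
  toEquiv := g.toEquiv
  map_fun' := by
    intro n f x
    rcases f with f | f
    · exact g.map_fun f x
    · cases n with
      | zero => exact hg _ (f : A).2
      | succ n => exact f.elim
  map_rel' := by
    intro n f x
    rcases f with f | f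
    · exact g.map_rel f x
    · exact f.elim

theorem up_apply (g : U ≃[L] U) (hg : Fx L A g) (x : U) : up g hg x = g x := rfl

theorem mon (hM : Mon L U) (hA : A.Finite) : Mon (L[[A]]) U := by
  refine ⟨hM.inf, hM.ctb, ?_, ?_⟩
  · intro B hB F hF hG
    exact hM.sat (A ∪ B) (hA.union hB) F (fun s hs => dp_down (hF s hs)) hG
  · intro n a b hab
    obtain ⟨g, hg, hgab⟩ := dp_hom hM hA (a := a) (b := b) (by
      rintro P ⟨φ, hφ⟩ ha
      have h1 : φ ∈ tp (L := L[[A]]) a := by
        have : a ∈ {v | P v} := ha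
        rw [hφ] at this
        exact this
      rw [hab] at h1
      have h2 : b ∈ {v | P v} := by
        rw [hφ]
        exact h1
      exact h2)
    exact ⟨up g hg, hgab⟩

theorem el {M : Set U} (h : IsEl L M) (hA : A ⊆ M) : IsEl (L[[A]]) M := by
  intro s hs hne
  have h1 : (A ∪ M).Definable₁ L s := dp_down hs
  rw [union_eq_self_of_subset_left hA] at h1
  exact h s h1 hne

theorem el' {M : Set U} (h : IsEl (L[[A]]) M) : IsEl L M := by
  intro s hs hne
  exact h s (dp_up (dp_mono subset_union_right hs)) hne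

theorem sub_of_el {M : Set U} (h : IsEl (L[[A]]) M) : A ⊆ M := by
  intro a ha
  have h1 : M.Definable₁ (L[[A]]) {a} := by
    have h2 : Dp L (A ∪ M) (fun v : Fin 1 → U => v 0 = a) := dp_eqc 0 (Or.inl ha)
    exact dp_up h2
  obtain ⟨x, hx, hx'⟩ := h {a} h1 ⟨a, rfl⟩
  rw [mem_singleton_iff] at hx
  rw [← hx]
  exact hx'

theorem isoM {M M' : Set U} (h : IsoM (L[[A]]) M M') : IsoM L M M' := by
  obtain ⟨e, he⟩ := h
  refine ⟨e, fun n a => ?_⟩
  ext φ
  have h1 := he n a
  have h2 : ∀ v : Fin n → U, (L.lhomWithConstants A).onFormula φ ∈ tp (L := L[[A]]) v ↔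
      φ ∈ tp (L := L) v := by
    intro v
    exact FirstOrder.Language.LHom.realize_onFormula (L.lhomWithConstants A) φ
  rw [← h2, ← h2, h1]

theorem npf (hN : NPf L U) (hA : A.Finite) : NPf (L[[A]]) U := by
  intro B X hB hX hc
  obtain ⟨f, f', hne, e, he⟩ := hN (A ∪ B) X (hA.union hB)
    (fun f => ⟨el' (hX f).1, union_subset (sub_of_el (hX f).1) (hX f).2⟩) hc
  refine ⟨f, f', hne, e, fun s hs => ?_⟩
  obtain ⟨g, hg, hgs⟩ := he s hs
  exact ⟨up g (fun a ha => hg a (Or.inl ha)), fun b hb => hg b (Or.inr hb), hgs⟩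

/-- no exact arrays for formulas with parameters -/
theorem cod (hM : Mon L U) (hA : A.Finite)
    (hcod : ∀ (m n : ℕ) (P : (Fin m → U) → (Fin n → U) → U → Prop),
      Dp L (∅ : Set U) (fun v : (Fin m ⊕ Fin n) ⊕ Unit → U =>
        P (fun i => v (Sum.inl (Sum.inl i))) (fun i => v (Sum.inl (Sum.inr i))) (v (Sum.inr ()))) →
      ∃ k, ¬ Exa P k) :
    ∀ (m n : ℕ) (P : (Fin m → U) → (Fin n → U) → U → Prop),
      Dp (L[[A]]) (∅ : Set U) (fun v : (Fin m ⊕ Fin n) ⊕ Unit → U =>
        P (fun i => v (Sum.inl (Sum.inl i))) (fun i => v (Sum.inl (Sum.inr i))) (v (Sum.inr ()))) →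
      ∃ k, ¬ Exa P k := by
  intro m n P hP
  obtain ⟨q, c, hc⟩ := exists_enum hA
  have h1 : Dp L (range c) (fun v : (Fin m ⊕ Fin n) ⊕ Unit → U =>
        P (fun i => v (Sum.inl (Sum.inl i))) (fun i => v (Sum.inl (Sum.inr i))) (v (Sum.inr ()))) := by
    rw [hc]
    have h2 := dp_down hP
    rwa [union_empty] at h2
  obtain ⟨Q, hQ, hPQ⟩ := dp_fam0 h1
  have h3 := dp_sub hQ (Sum.elim (Sum.elim (Sum.elim
    (fun i => Sum.inl (Sum.inl (Fin.castAdd q i))) (fun i => Sum.inl (Sum.inr i)))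
    (fun _ => Sum.inr ())) (fun i => Sum.inl (Sum.inl (Fin.natAdd m i))) :
      ((Fin m ⊕ Fin n) ⊕ Unit) ⊕ Fin q → (Fin (m + q) ⊕ Fin n) ⊕ Unit)
  obtain ⟨k, hk⟩ := hcod (m + q) n (fun x y z => Q (Sum.elim (Sum.elim (Sum.elim
    (fun i => x (Fin.castAdd q i)) y) (fun _ => z)) (fun i => x (Fin.natAdd m i)))) (by
      refine dp_congr h3 (fun v => ?_)
      apply iff_of_eq
      congr 1
      funext i
      rcases i with ((i | i) | i) | i <;> rfl)
  refine ⟨k, fun ⟨x, y, z, h⟩ => hk ⟨fun i => Fin.append (x i) c, y, z, fun i j a b => ?_⟩⟩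
  rw [← h i j a b]
  have h4 := hPQ (Sum.elim (Sum.elim (x i) (y j)) (fun _ => z a b))
  refine Iff.trans ?_ h4.symm
  show Q _ ↔ Q _
  apply iff_of_eq
  congr 1
  funext t
  rcases t with ((t | t) | t) | t
  · show Fin.append (x i) c (Fin.castAdd q t) = x i t
    rw [Fin.append_left]
  · rfl
  · rfl
  · show Fin.append (x i) c (Fin.natAdd m t) = c t
    rw [Fin.append_right]

/-! ### The linear order as a formula with parameters -/

/-- the formula in the variables `Fin n ⊕ β` which says that `lt` holds for the elements `i`, `j` -/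
def pr {n : ℕ} (lt : L.Formula (Fin 2 ⊕ Fin n)) {β : Type} (i j : β) : L.Formula (Fin n ⊕ β) :=
  lt.relabel (Sum.elim (fun t : Fin 2 => Sum.inr (![i, j] t)) Sum.inl)

theorem pr_iff {M : Type} [L.Structure M] {n : ℕ} (lt : L.Formula (Fin 2 ⊕ Fin n)) {β : Type}
    (i j : β) (c : Fin n → M) (w : β → M) :
    (pr lt i j).Realize (Sum.elim c w) ↔ lt.Realize (Sum.elim ![w i, w j] c) := by
  unfold pr
  rw [FirstOrder.Language.Formula.realize_relabel]
  apply iff_of_eq
  congr 1
  funext t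
  rcases t with t | t
  · fin_cases t <;> rfl
  · rfl

/-- `lt` with the parameters `c` is a strict linear order -/
def IsLo {M : Type} [L.Structure M] {n : ℕ} (lt : L.Formula (Fin 2 ⊕ Fin n)) (c : Fin n → M) :
    Prop :=
  (∀ x, ¬ lt.Realize (Sum.elim ![x, x] c)) ∧
  (∀ x y z, lt.Realize (Sum.elim ![x, y] c) → lt.Realize (Sum.elim ![y, z] c) →
    lt.Realize (Sum.elim ![x, z] c)) ∧
  ∀ x y, x ≠ y → lt.Realize (Sum.elim ![x, y] c) ∨ lt.Realize (Sum.elim ![y, x] c)

/-- the formula for `IsLo` -/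
noncomputable def lo {n : ℕ} (lt : L.Formula (Fin 2 ⊕ Fin n)) : L.Formula (Fin n) :=
  ((pr lt () ()).not.iAlls Unit) ⊓
    ((((pr lt (0 : Fin 3) 1).imp ((pr lt 1 2).imp (pr lt 0 2))).iAlls (Fin 3)) ⊓
      ((((FirstOrder.Language.Term.var (Sum.inr (0 : Fin 2))).equal
        (FirstOrder.Language.Term.var (Sum.inr 1)) : L.Formula (Fin n ⊕ Fin 2)).not.imp
          (pr lt 0 1 ⊔ pr lt 1 0)).iAlls (Fin 2)))

theorem lo_iff {M : Type} [L.Structure M] {n : ℕ} (lt : L.Formula (Fin 2 ⊕ Fin n)) (c : Fin n → M) :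
    (lo lt).Realize c ↔ IsLo lt c := by
  unfold lo IsLo
  rw [FirstOrder.Language.Formula.realize_inf, FirstOrder.Language.Formula.realize_inf,
    FirstOrder.Language.Formula.realize_iAlls, FirstOrder.Language.Formula.realize_iAlls,
    FirstOrder.Language.Formula.realize_iAlls]
  refine and_congr ?_ (and_congr ?_ ?_)
  · constructor
    · intro h x
      have h1 := h (fun _ => x)
      rw [FirstOrder.Language.Formula.realize_not, pr_iff] at h1
      exact h1
    · intro h w
      rw [FirstOrder.Language.Formula.realize_not, pr_iff]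
      exact h (w ())
  · constructor
    · intro h x y z h1 h2
      have h3 := h ![x, y, z]
      rw [FirstOrder.Language.Formula.realize_imp, FirstOrder.Language.Formula.realize_imp, pr_iff,
        pr_iff, pr_iff] at h3
      exact h3 h1 h2
    · intro h w
      rw [FirstOrder.Language.Formula.realize_imp, FirstOrder.Language.Formula.realize_imp, pr_iff,
        pr_iff, pr_iff]
      exact h _ _ _
  · constructor
    · intro h x y hxy
      have h3 := h ![x, y]
      rw [FirstOrder.Language.Formula.realize_imp, FirstOrder.Language.Formula.realize_not,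
        FirstOrder.Language.Formula.realize_sup, FirstOrder.Language.Formula.realize_equal, pr_iff,
        pr_iff] at h3
      exact h3 hxy
    · intro h w
      rw [FirstOrder.Language.Formula.realize_imp, FirstOrder.Language.Formula.realize_not,
        FirstOrder.Language.Formula.realize_sup, FirstOrder.Language.Formula.realize_equal, pr_iff,
        pr_iff]
      exact h (w 0) (w 1)

/-- some linear order is defined by `lt` with parameters -/
noncomputable def exlo {n : ℕ} (lt : L.Formula (Fin 2 ⊕ Fin n)) : L.Sentence :=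
  ((lo lt).relabel (Sum.inr : Fin n → Empty ⊕ Fin n)).iExs (Fin n)

theorem exlo_iff (M : Type) [L.Structure M] {n : ℕ} (lt : L.Formula (Fin 2 ⊕ Fin n)) :
    M ⊨ exlo lt ↔ ∃ c : Fin n → M, IsLo lt c := by
  unfold exlo
  show FirstOrder.Language.Formula.Realize _ _ ↔ _
  rw [FirstOrder.Language.Formula.realize_iExs]
  refine exists_congr fun c => ?_
  rw [FirstOrder.Language.Formula.realize_relabel, ← lo_iff]
  rfl

/-- the context, with the parameters named -/
theorem cx (hM : Mon L U) {n : ℕ} (lt : L.Formula (Fin 2 ⊕ Fin n)) (c : Fin n → U)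
    (hc : IsLo lt c)
    (hcod : ∀ (m n : ℕ) (P : (Fin m → U) → (Fin n → U) → U → Prop),
      Dp L (∅ : Set U) (fun v : (Fin m ⊕ Fin n) ⊕ Unit → U =>
        P (fun i => v (Sum.inl (Sum.inl i))) (fun i => v (Sum.inl (Sum.inr i))) (v (Sum.inr ()))) →
      ∃ k, ¬ Exa P k) :
    Cx (L[[range c]]) (fun (_ : Unit) (x y : U) => lt.Realize (Sum.elim ![x, y] c)) id := by
  have hA : (range c).Finite := finite_range c
  refine ⟨mon hM hA, ⟨()⟩, fun _ _ => rfl, ?_, fun _ => rfl, fun _ => hc.1, fun _ => hc.2.1,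
    fun _ => hc.2.2, ?_, cod hM hA hcod⟩
  · intro _
    have h1 : Dp L (range c) (fun v : Fin 2 → U => lt.Realize (Sum.elim ![v 0, v 1] c)) := by
      refine dp_of_form0 lt (fun v => ?_)
      have hv : (![v 0, v 1] : Fin 2 → U) = v := by
        funext i
        fin_cases i <;> rfl
      rw [hv]
    have h2 : Dp L (range c ∪ ∅) (fun v : Fin 2 → U => lt.Realize (Sum.elim ![v 0, v 1] c)) := by
      rw [union_empty]
      exact h1
    exact dp_up h2
  · intro _ u x hx y hy
    exact hc.2.1 y x u hy hx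

end PRM

/-- The hypothesis of the theorem for one structure, with parameters: some linear order is definable
with parameters, and for every set `P` no formula `∃ z ∈ P, φ(x, y, z)` has the independence
property. -/
structure HypP (L : FirstOrder.Language.{0, 0}) (M : Type) [L.Structure M] : Prop where
  ord : ∃ r : M → M → Prop, (univ : Set M).Definable L {v : Fin 2 → M | r (v 0) (v 1)} ∧
    (∀ x, ¬ r x x) ∧ (∀ x y z, r x y → r y z → r x z) ∧ ∀ x y, x ≠ y → r x y ∨ r y x
  nip : ∀ (P : Set M) (m n : ℕ) (φ : L.Formula ((Fin m ⊕ Fin n) ⊕ Unit)), ∃ k : ℕ,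
    ¬ Shat (fun (x : Fin m → M) (y : Fin n → M) =>
      ∃ z ∈ P, φ.Realize (Sum.elim (Sum.elim x y) fun _ => z)) k

/-- THE THEOREM: Vaught's conjecture for monadically NIP theories with a linear order which is
definable with parameters -/
def St_MAINP : Prop :=
  ∀ (L : FirstOrder.Language.{0, 0}), Countable L.Symbols → ∀ T : L.Theory,
    (∀ S : L.Structure ℕ, @FirstOrder.Language.Theory.Model L ℕ S T → @HypP L ℕ S) →
    CtT L T ∨ PerfT L T

namespace PRM

/-- no exact arrays in the saturated model -/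
theorem cod_of_nip (hINA : St_INA) (L : FirstOrder.Language.{0, 0}) (hL : Countable L.Symbols)
    (T : L.Theory)
    (hT : ∀ S : L.Structure ℕ, @FirstOrder.Language.Theory.Model L ℕ S T →
      ∀ (P : Set ℕ) (m n : ℕ) (φ : L.Formula ((Fin m ⊕ Fin n) ⊕ Unit)), ∃ k : ℕ,
        ¬ Shat (fun (x : Fin m → ℕ) (y : Fin n → ℕ) =>
          ∃ z ∈ P, @FirstOrder.Language.Formula.Realize L ℕ S _ φ (Sum.elim (Sum.elim x y) fun _ => z)) k)
    (U : Type) [L.Structure U] (hUT : U ⊨ T) (hM : Mon L U) :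
    ∀ (m n : ℕ) (P : (Fin m → U) → (Fin n → U) → U → Prop),
      Dp L (∅ : Set U) (fun v : (Fin m ⊕ Fin n) ⊕ Unit → U =>
        P (fun i => v (Sum.inl (Sum.inl i))) (fun i => v (Sum.inl (Sum.inr i))) (v (Sum.inr ()))) →
      ∃ k, ¬ Exa P k := by
  classical
  have hinf : Infinite U := hM.inf
  intro m n P hP
  by_contra hcon
  push Not at hcon
  obtain ⟨ψ, hψ⟩ := dp_form hP
  let φ : L.Formula ((Fin m ⊕ Fin n) ⊕ Unit) :=
    ψ.relabel (Sum.elim (fun a => absurd a.2 (notMem_empty _)) (fun i => i))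
  have hφ : ∀ (x : Fin m → U) (y : Fin n → U) (z : U), P x y z ↔
      φ.Realize (Sum.elim (Sum.elim x y) fun _ => z) := by
    intro x y z
    have h1 := hψ (Sum.elim (Sum.elim x y) fun _ => z)
    refine h1.trans ?_
    show _ ↔ (ψ.relabel _).Realize _
    rw [FirstOrder.Language.Formula.realize_relabel]
    apply iff_of_eq
    congr 1
    funext i
    rcases i with i | i
    · exact absurd i.2 (notMem_empty _)
    · rfl
  obtain ⟨S, hmod, x, y, z, hxyz⟩ := hINA L hL U hinf m n φ (fun k => by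
    obtain ⟨x, y, z, h⟩ := hcon k
    exact ⟨x, y, z, fun i j a b => (hφ _ _ _).symm.trans (h i j a b)⟩)
  have hmodT : @FirstOrder.Language.Theory.Model L ℕ S T := by
    refine @FirstOrder.Language.Theory.Model.mk L ℕ S _ fun χ hχ => ?_
    refine @FirstOrder.Language.Theory.realize_sentence_of_mem L ℕ S _ hmod χ ?_
    have h2 : U ⊨ χ := FirstOrder.Language.Theory.realize_sentence_of_mem T hχ
    exact h2
  obtain ⟨g, hg⟩ := exists_surjective_nat (Finset ℕ)
  obtain ⟨k, hk⟩ := hT S hmodT {w | ∃ a b, w = z a b ∧ a ∈ g b} m n φ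
  have hcode : ∀ s : Set (Fin k), ∃ b : ℕ, ∀ i : Fin k, (i : ℕ) ∈ g b ↔ i ∈ s := by
    intro s
    have hfin : ((fun i : Fin k => (i : ℕ)) '' s).Finite := s.toFinite.image _
    obtain ⟨b, hb⟩ := hg hfin.toFinset
    refine ⟨b, fun i => ?_⟩
    rw [hb, Set.Finite.mem_toFinset]
    constructor
    · rintro ⟨i', h1, h2⟩
      rwa [Fin.val_injective h2] at h1
    · intro h1
      exact ⟨i, h1, rfl⟩
  choose b hb using hcode
  refine hk ⟨fun i => x i, fun s => y (b s), fun i s => ?_⟩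
  rw [← hb s i]
  constructor
  · rintro ⟨w, ⟨a, b', rfl, hab⟩, hw⟩
    obtain ⟨h1, h2⟩ := (hxyz _ _ _ _).1 hw
    rw [h1, h2]
    exact hab
  · intro h1
    exact ⟨_, ⟨i, b s, rfl, h1⟩, (hxyz _ _ _ _).2 ⟨rfl, rfl⟩⟩

/-- the order of a structure as a formula -/
theorem ord_form {L : FirstOrder.Language.{0, 0}} {M : Type} [L.Structure M] (h : HypP L M) :
    ∃ (n : ℕ) (lt : L.Formula (Fin 2 ⊕ Fin n)) (c : Fin n → M), IsLo lt c := by
  obtain ⟨r, hr, h1, h2, h3⟩ := h.ord
  obtain ⟨B, hB, -, hr2⟩ := dp_fin (P := fun v : Fin 2 → M => r (v 0) (v 1)) hr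
  obtain ⟨n, c, rfl⟩ := exists_enum hB
  obtain ⟨lt, hlt⟩ := dp_form0 hr2
  have h4 : ∀ x y : M, lt.Realize (Sum.elim ![x, y] c) ↔ r x y := fun x y => (hlt ![x, y]).symm
  refine ⟨n, lt, c, ?_, ?_, ?_⟩
  · intro x
    rw [h4]
    exact h1 x
  · intro x y z
    rw [h4, h4, h4]
    exact h2 x y z
  · intro x y hxy
    rw [h4, h4]
    exact h3 x y hxy

/-- the count -/
theorem ct (hEND : St_END) {L : FirstOrder.Language.{0, 0}} {U : Type} [L.Structure U] (hM : Mon L U)
    (hN : NPf L U)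
    (hcod : ∀ (m n : ℕ) (P : (Fin m → U) → (Fin n → U) → U → Prop),
      Dp L (∅ : Set U) (fun v : (Fin m ⊕ Fin n) ⊕ Unit → U =>
        P (fun i => v (Sum.inl (Sum.inl i))) (fun i => v (Sum.inl (Sum.inr i))) (v (Sum.inr ()))) →
      ∃ k, ¬ Exa P k)
    {n : ℕ} (lt : L.Formula (Fin 2 ⊕ Fin n)) (hc : ∃ c : Fin n → U, IsLo lt c) : CtU L U := by
  have hctb : Countable U := hM.ctb
  have hinf : Infinite U := hM.inf
  have h1 : ∀ c : Fin n → U, ∃ g : ℕ → Set U, IsLo lt c → ∀ M : Set U, IsEl (L[[range c]]) M →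
      ∃ k, IsoM (L[[range c]]) M (g k) := by
    intro c
    by_cases h : IsLo lt c
    · obtain ⟨g, hg⟩ := hEND (L[[range c]]) U Unit _ id (cx hM lt c h hcod) (npf hN (finite_range c))
      exact ⟨g, fun _ => hg⟩
    · exact ⟨fun _ => ∅, fun h' => absurd h' h⟩
  choose g hg using h1
  obtain ⟨e, he⟩ := exists_surjective_nat ((Fin n → U) × ℕ)
  refine ⟨fun k => g (e k).1 (e k).2, fun M hMel => ?_⟩
  have h2 : Dp L (∅ : Set U) (fun c : Fin n → U => (lo lt).Realize c) := by
    unfold Dp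
    rw [empty_definable_iff]
    exact ⟨lo lt, rfl⟩
  obtain ⟨c, hcM, hclo⟩ := nx_meets' hM (A := ∅) (B := ∅) (M := M) finite_empty finite_empty h2
    (fun f _ x hx => (FirstOrder.Language.StrongHomClass.realize_formula f (lo lt)).2 hx)
    ⟨hMel, empty_subset _⟩ (by
      obtain ⟨c, hc⟩ := hc
      exact ⟨c, (lo_iff lt c).2 hc⟩)
  have hcs : range c ⊆ M := by
    rintro _ ⟨i, rfl⟩
    exact hcM i
  obtain ⟨k, hk⟩ := hg c ((lo_iff lt c).1 hclo) M (el hMel hcs)
  obtain ⟨q, hq⟩ := he (c, k)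
  refine ⟨q, ?_⟩
  show IsoM L M (g (e q).1 (e q).2)
  rw [hq]
  exact isoM hk

end PRM

theorem PRM_of (hULT : Pool.Agent.WOM.St_ULT) (hSUBM : Pool.Agent.WOM.St_SUBM)
    (hHOMG : Pool.Agent.WOM.St_HOMG) (hINC : Pool.Agent.WOM.St_INC)
    (hNSM : Pool.Agent.WOM.St_NSM) (hTRC : Pool.Agent.WOM.St_TRC)
    (hEND : St_END) (hINA : St_INA) (hNPG : St_NPG) : St_MAINP := by
  intro L hL T hT
  refine hINC L hL T fun S hS => ?_
  by_cases hp : PerfT L (ThS L S)
  · exact Or.inr hp
  · have hsm : Pool.Agent.WOM.Small L (ThS L S) := by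
      by_contra h
      exact hp (hNSM L hL _ h)
    obtain ⟨V, _, _, hV, hsV⟩ := hULT L hL S
    obtain ⟨U, _, hc, hi, hU, hsU⟩ := hSUBM L hL S hsm V hV hsV
    have hM : Mon L U := hHOMG L U hc hi hsU
    have hN := hNPG L hL U hM S hU hp
    have hcod := PRM.cod_of_nip hINA L hL T (fun S' hS' => (hT S' hS').nip) U
      (Pool.Agent.WOM.TOP_mono L T S hS U hU) hM
    obtain ⟨n, lt, c, hlo⟩ := @PRM.ord_form L ℕ S (hT S hS)
    have h1 : U ⊨ PRM.exlo lt := by
      refine hU.realize_of_mem (PRM.exlo lt) ?_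
      show @FirstOrder.Language.Sentence.Realize L ℕ S (PRM.exlo lt)
      exact (@PRM.exlo_iff L ℕ S n lt).2 ⟨c, hlo⟩
    exact Or.inl (hTRC L U hM (PRM.ct hEND hM hN hcod lt ((PRM.exlo_iff U lt).1 h1)) S hU)

theorem thm_PRM (hEND : St_END) (hNPU : St_NPU) : St_MAINP := by
  have hDEF1 := Pool.Agent.WOM.thm_DEF1 Pool.Agent.WOM.thm_DEFF
  have hREAL := Pool.Agent.WOM.thm_REAL Pool.Agent.WOM.thm_MEAS
  exact PRM_of (Pool.Agent.WOM.thm_ULT hDEF1) (Pool.Agent.WOM.thm_SUBM hDEF1)
    (Pool.Agent.WOM.thm_HOMG hDEF1) (Pool.Agent.WOM.thm_INC Pool.Agent.WOM.thm_MEAS hREAL)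
    (Pool.Agent.WOM.thm_NSM Pool.Agent.WOM.thm_MEAS hREAL)
    (Pool.Agent.WOM.thm_TRC (Pool.Agent.WOM.thm_EMB hDEF1)) hEND thm_INA (thm_NPG hNPU)

end Pool.Agent.MNO
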