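
import Pool.Agent.MNO.StB
import Pool.Agent.MNO.LBase

/-!
MNO: calculus of `SmN` (text of `Pool/Agent/PMC/SMB.lean`, helper18).
-/

set_option autoImplicit false
set_option linter.unusedVariables false

namespace Pool.Agent.MNO

open FirstOrder.Language Set
open scoped FirstOrder
open Pool.Agent.WOM (tp Mon IsEl IsoM CtU Fx Orb)
open Pool.Agent.PMC (Ini ct Dc cel Sin Nd Ct lts ext XS Ex Fa Ll LL Itv Sm Md NPf)

namespace SMB

variable {L : FirstOrder.Language.{0, 0}} {U : Type} [L.Structure U] {κ : Type}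
  {R : κ → U → U → Prop} {o : κ → κ}

theorem sm_refl (A X : Set U) : SmN L A X X :=
  ⟨Equiv.refl _, fun s _ => ⟨FirstOrder.Language.Equiv.refl L U, nx_refl A, fun _ _ => rfl⟩⟩

theorem sm_symm {A X Y : Set U} (h : SmN L A X Y) : SmN L A Y X := by
  obtain ⟨e, he⟩ := h
  refine ⟨e.symm, fun s hs => ?_⟩
  obtain ⟨g, hg, h1⟩ := he (e.symm '' s) (hs.image _)
  refine ⟨g.symm, nx_symm hg, fun y hy => ?_⟩
  have h2 := h1 (e.symm y) (mem_image_of_mem _ hy)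
  rw [e.apply_symm_apply] at h2
  calc g.symm (y : U) = g.symm (g (e.symm y : U)) := by rw [h2]
    _ = (e.symm y : U) := g.symm_apply_apply _

theorem sm_trans {A X Y Z : Set U} (h : SmN L A X Y) (h' : SmN L A Y Z) : SmN L A X Z := by
  obtain ⟨e, he⟩ := h
  obtain ⟨f, hf⟩ := h'
  refine ⟨e.trans f, fun s hs => ?_⟩
  obtain ⟨g, hg, h1⟩ := he s hs
  obtain ⟨k, hk, h2⟩ := hf (e '' s) (hs.image _)
  refine ⟨k.comp g, nx_comp hk hg, fun x hx => ?_⟩
  change k (g x) = (f (e x) : U)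
  rw [h1 x hx, h2 (e x) (mem_image_of_mem _ hx)]

theorem sm_inter {A X Y Q : Set U} (hQ : ∀ g : U ≃[L] U, Nx L A g → ∀ x, g x ∈ Q ↔ x ∈ Q)
    (h : SmN L A X Y) : SmN L A (X ∩ Q) (Y ∩ Q) := by
  obtain ⟨e, he⟩ := h
  have hmem : ∀ x : X, ((e x : U) ∈ Q ↔ (x : U) ∈ Q) := by
    intro x
    obtain ⟨g, hg, h1⟩ := he {x} (finite_singleton x)
    rw [← h1 x rfl]
    exact hQ g hg x
  have hmem' : ∀ y : Y, ((e.symm y : U) ∈ Q ↔ (y : U) ∈ Q) := by
    intro y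
    rw [← hmem (e.symm y), e.apply_symm_apply]
  let e' : ((X ∩ Q : Set U)) ≃ ((Y ∩ Q : Set U)) :=
    { toFun := fun x => ⟨e ⟨x, x.2.1⟩, (e ⟨x, x.2.1⟩).2, (hmem ⟨x, x.2.1⟩).2 x.2.2⟩
      invFun := fun y => ⟨e.symm ⟨y, y.2.1⟩, (e.symm ⟨y, y.2.1⟩).2, (hmem' ⟨y, y.2.1⟩).2 y.2.2⟩
      left_inv := fun x => by simp
      right_inv := fun y => by simp }
  refine ⟨e', fun s hs => ?_⟩
  obtain ⟨g, hg, h1⟩ := he ((fun x : (X ∩ Q : Set U) => (⟨x, x.2.1⟩ : X)) '' s) (hs.image _)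
  exact ⟨g, hg, fun x hx => h1 ⟨x, x.2.1⟩ (mem_image_of_mem _ hx)⟩

theorem isoM_of_sm {A M M' : Set U} (h : SmN L A M M') : IsoM L M M' := by
  obtain ⟨e, he⟩ := h
  refine ⟨e, fun n a => ?_⟩
  obtain ⟨g, -, h1⟩ := he (range a) (finite_range a)
  have h2 : (fun i => (e (a i) : U)) = g ∘ fun i => (a i : U) := by
    funext i
    exact (h1 (a i) (mem_range_self i)).symm
  rw [h2]
  ext φ
  exact (StrongHomClass.realize_formula g φ).symm

/-! ### Pieces -/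

theorem pc_symm {A : Set U} {y z : U} (h : y ∈ Pc L R o A z) : z ∈ Pc L R o A y :=
  Relation.EqvGen.symm _ _ h

theorem pc_eq' {A : Set U} {y z : U} (h : y ∈ Pc L R o A z) : Pc L R o A y = Pc L R o A z := by
  ext x
  exact ⟨fun hx => Relation.EqvGen.trans _ _ _ h hx,
    fun hx => Relation.EqvGen.trans _ _ _ (Relation.EqvGen.symm _ _ h) hx⟩

theorem cls_pc' (A : Set U) (z : U) : Cls L R o A (Pc L R o A z) := by
  intro u v huv
  exact ⟨fun hu => Relation.EqvGen.trans _ _ _ hu (Relation.EqvGen.rel _ _ huv),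
    fun hv => Relation.EqvGen.trans _ _ _ hv (Relation.EqvGen.symm _ _ (Relation.EqvGen.rel _ _ huv))⟩

theorem exists_rep (A : Set U) : ∃ rep : U → U, (∀ x, x ∈ Pc L R o A (rep x)) ∧
    ∀ x y, y ∈ Pc L R o A x → rep y = rep x := by
  let S₁ : Setoid U := Relation.EqvGen.setoid (Lk L R o A)
  refine ⟨fun x => (Quotient.mk S₁ x).out, fun x => ?_, fun x y hy => ?_⟩
  · have h := Quotient.mk_out (s := S₁) x
    exact h
  · have h : (Quotient.mk S₁ y) = Quotient.mk S₁ x := Quotient.sound (s := S₁) (pc_symm hy)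
    change (Quotient.mk S₁ y).out = (Quotient.mk S₁ x).out
    rw [h]

theorem sm_glue (h1 : St_PRF) (hC : Cx L R o) {A M M' : Set U} (hA : A.Finite)
    (h : ∀ z, SmN L A (M ∩ Pc L R o A z) (M' ∩ Pc L R o A z)) : SmN L A M M' := by
  classical
  obtain ⟨rep, hr1, hr2⟩ := exists_rep (L := L) (R := R) (o := o) A
  have hrr : ∀ x, rep (rep x) = rep x := fun x => (hr2 (rep x) x (hr1 x)).symm
  choose E hE using h
  let F : U → U → U := fun z x =>
    if hx : x ∈ M ∩ Pc L R o A z then (E z ⟨x, hx⟩ : U) else x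
  let G : U → U → U := fun z y =>
    if hy : y ∈ M' ∩ Pc L R o A z then ((E z).symm ⟨y, hy⟩ : U) else y
  have hF : ∀ z x (hx : x ∈ M ∩ Pc L R o A z), F z x = (E z ⟨x, hx⟩ : U) :=
    fun z x hx => dif_pos hx
  have hG : ∀ z y (hy : y ∈ M' ∩ Pc L R o A z), G z y = ((E z).symm ⟨y, hy⟩ : U) :=
    fun z y hy => dif_pos hy
  have hF1 : ∀ z x, x ∈ M ∩ Pc L R o A z → F z x ∈ M' ∩ Pc L R o A z := fun z x hx => by
    rw [hF z x hx]
    exact (E z ⟨x, hx⟩).2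
  have hG1 : ∀ z y, y ∈ M' ∩ Pc L R o A z → G z y ∈ M ∩ Pc L R o A z := fun z y hy => by
    rw [hG z y hy]
    exact ((E z).symm ⟨y, hy⟩).2
  have hGF : ∀ z x, x ∈ M ∩ Pc L R o A z → G z (F z x) = x := fun z x hx => by
    rw [hG z _ (hF1 z x hx)]
    have : (⟨F z x, hF1 z x hx⟩ : (M' ∩ Pc L R o A z : Set U)) = E z ⟨x, hx⟩ :=
      Subtype.ext (hF z x hx)
    rw [this, Equiv.symm_apply_apply]
  have hFG : ∀ z y, y ∈ M' ∩ Pc L R o A z → F z (G z y) = y := fun z y hy => by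
    rw [hF z _ (hG1 z y hy)]
    have : (⟨G z y, hG1 z y hy⟩ : (M ∩ Pc L R o A z : Set U)) = (E z).symm ⟨y, hy⟩ :=
      Subtype.ext (hG z y hy)
    rw [this, Equiv.apply_symm_apply]
  have hrF : ∀ x, x ∈ M → rep (F (rep x) x) = rep x := fun x hx => by
    rw [hr2 (rep x) _ (hF1 (rep x) x ⟨hx, hr1 x⟩).2, hrr]
  have hrG : ∀ y, y ∈ M' → rep (G (rep y) y) = rep y := fun y hy => by
    rw [hr2 (rep y) _ (hG1 (rep y) y ⟨hy, hr1 y⟩).2, hrr]
  let e : M ≃ M' :=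
    { toFun := fun x => ⟨F (rep x) x, (hF1 (rep x) x ⟨x.2, hr1 x⟩).1⟩
      invFun := fun y => ⟨G (rep y) y, (hG1 (rep y) y ⟨y.2, hr1 y⟩).1⟩
      left_inv := fun x => Subtype.ext (by
        change G (rep (F (rep (x : U)) x)) (F (rep (x : U)) x) = x
        rw [hrF x x.2]
        exact hGF _ _ ⟨x.2, hr1 x⟩)
      right_inv := fun y => Subtype.ext (by
        change F (rep (G (rep (y : U)) y)) (G (rep (y : U)) y) = y
        rw [hrG y y.2]
        exact hFG _ _ ⟨y.2, hr1 y⟩) }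
  refine ⟨e, fun s hs => ?_⟩
  have hT : ((fun x : M => rep x) '' s).Finite := hs.image _
  obtain ⟨n, t, htinj, ht⟩ := hT.fin_param
  have htr : ∀ i, rep (t i) = t i := fun i => by
    have hi : t i ∈ (fun x : M => rep x) '' s := ht ▸ mem_range_self i
    obtain ⟨x, -, hx⟩ := hi
    have hx' : rep (x : U) = t i := hx
    rw [← hx', hrr]
  have hdis : ∀ i j, i ≠ j → Disjoint (Pc L R o A (t i)) (Pc L R o A (t j)) := by
    intro i j hij
    rw [Set.disjoint_left]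
    intro y hi hj
    apply hij
    apply htinj
    rw [← htr i, ← htr j, ← hr2 _ _ hi, ← hr2 _ _ hj]
  have hg : ∀ i, ∃ g : U ≃[L] U, Nx L A g ∧ ∀ x ∈ s, rep (x : U) = t i →
      g x = F (t i) x := by
    intro i
    let si : Set (M ∩ Pc L R o A (t i) : Set U) := {x | (⟨x, x.2.1⟩ : M) ∈ s}
    have hsi : si.Finite := by
      refine Set.Finite.preimage (f := fun x : (M ∩ Pc L R o A (t i) : Set U) =>
        (⟨x, x.2.1⟩ : M)) ?_ hs
      intro x _ y _ hxy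
      exact Subtype.ext (congrArg (fun z : M => (z : U)) hxy)
    obtain ⟨g, hg1, hg2⟩ := hE (t i) si hsi
    refine ⟨g, hg1, fun x hx hxi => ?_⟩
    have hx2 : (x : U) ∈ M ∩ Pc L R o A (t i) := ⟨x.2, hxi ▸ hr1 x⟩
    rw [hF _ _ hx2]
    exact hg2 ⟨x, hx2⟩ hx
  choose g hg1 hg2 using hg
  obtain ⟨k, hk1, hk2, -⟩ := h1 L U κ R o hC A hA n (fun i => Pc L R o A (t i))
    (fun i => cls_pc' A (t i)) hdis g hg1
  refine ⟨k, hk1, fun x hx => ?_⟩
  have hxT : rep (x : U) ∈ range t := ht ▸ mem_image_of_mem _ hx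
  obtain ⟨i, hi⟩ := hxT
  rw [hk2 i x (hi ▸ hr1 x), hg2 i x hx hi.symm]
  change F (t i) x = F (rep (x : U)) x
  rw [hi]

theorem sm_glue_on (h1 : St_PRF) (hC : Cx L R o) {A M M' Q : Set U} (hA : A.Finite)
    (hQ : Cls L R o A Q)
    (h : ∀ z ∈ Q, SmN L A (M ∩ Pc L R o A z) (M' ∩ Pc L R o A z)) :
    SmN L A (M ∩ Q) (M' ∩ Q) := by
  refine sm_glue h1 hC hA fun z => ?_
  by_cases hz : z ∈ Q
  · have h2 : ∀ N : Set U, N ∩ Q ∩ Pc L R o A z = N ∩ Pc L R o A z := by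
      intro N
      ext x
      constructor
      · rintro ⟨⟨h3, _⟩, h4⟩
        exact ⟨h3, h4⟩
      · rintro ⟨h3, h4⟩
        exact ⟨⟨h3, pc_sub hQ hz h4⟩, h4⟩
    rw [h2, h2]
    exact h z hz
  · have h2 : ∀ N : Set U, N ∩ Q ∩ Pc L R o A z = ∅ := by
      intro N
      ext x
      constructor
      · rintro ⟨⟨_, h3⟩, h4⟩
        exact absurd ((cls_eqv hQ h4).2 h3) hz
      · intro h3
        exact absurd h3 (Set.notMem_empty x)
    rw [h2, h2]
    exact sm_refl A ∅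

theorem sm_mono {A B X Y : Set U} (hAB : A ⊆ B) (h : SmN L B X Y) : SmN L A X Y := by
  obtain ⟨e, he⟩ := h
  refine ⟨e, fun s hs => ?_⟩
  obtain ⟨g, hg, hg2⟩ := he s hs
  exact ⟨g, nx_mono hAB hg, hg2⟩

theorem sm_of_smN {A X Y : Set U} (h : SmN L A X Y) : Sm L A X Y := by
  obtain ⟨e, he⟩ := h
  refine ⟨e, fun s hs => ?_⟩
  obtain ⟨g, hg, hg2⟩ := he s hs
  exact ⟨g, nx_fx hg, hg2⟩

end SMB

theorem thm_SMB (hPRF : St_PRF) : St_SMB := by
  intro L U _ κ R o hC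
  exact ⟨fun A X => SMB.sm_refl A X, fun A X Y h => SMB.sm_symm h,
    fun A X Y Z h h' => SMB.sm_trans h h', fun A X Y Q hQ h => SMB.sm_inter hQ h,
    fun A M M' Q hA hQ h => SMB.sm_glue_on hPRF hC hA hQ h,
    fun A M M' h => SMB.isoM_of_sm h,
    fun A B X Y hAB h => SMB.sm_mono hAB h, fun A X Y h => SMB.sm_of_smN h⟩

end Pool.Agent.MNO
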