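import Pool.Agent.MNO.StD
import Pool.Agent.MNO.StB
import Pool.Agent.MNO.NBA
import Pool.Agent.PMC.SMB

/-!
MNO [SMN]: calculus of `SmN` and `Sm` (helper28, after `Pool/Agent/PMC/SMB.lean` of helper18).
-/

set_option autoImplicit false
set_option linter.unusedVariables false

namespace Pool.Agent.MNO

open FirstOrder.Language Set
open scoped FirstOrder
open Pool.Agent.WOM (tp Mon IsEl IsoM CtU Fx Orb)
open Pool.Agent.PMC (Ini ct Dc cel Sin Nd Ct lts ext XS Ex Fa Ll LL Itv Sm Md NPf)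

namespace SMNP

variable {L : FirstOrder.Language.{0, 0}} {U : Type} [L.Structure U] {κ : Type}
  {R : κ → U → U → Prop} {o : κ → κ}

theorem sn_refl (A X : Set U) : SmN L A X X :=
  ⟨Equiv.refl _, fun s _ => ⟨FirstOrder.Language.Equiv.refl L U, nx_refl A, fun _ _ => rfl⟩⟩

theorem sn_symm {A X Y : Set U} (h : SmN L A X Y) : SmN L A Y X := by
  obtain ⟨e, he⟩ := h
  refine ⟨e.symm, fun s hs => ?_⟩
  obtain ⟨g, hg, h1⟩ := he (e.symm '' s) (hs.image _)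
  refine ⟨g.symm, nx_symm hg, fun y hy => ?_⟩
  have h2 := h1 (e.symm y) (mem_image_of_mem _ hy)
  rw [e.apply_symm_apply] at h2
  calc g.symm (y : U) = g.symm (g (e.symm y : U)) := by rw [h2]
    _ = (e.symm y : U) := g.symm_apply_apply _

theorem sn_trans {A X Y Z : Set U} (h : SmN L A X Y) (h' : SmN L A Y Z) : SmN L A X Z := by
  obtain ⟨e, he⟩ := h
  obtain ⟨f, hf⟩ := h'
  refine ⟨e.trans f, fun s hs => ?_⟩
  obtain ⟨g, hg, h1⟩ := he s hs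
  obtain ⟨k, hk, h2⟩ := hf (e '' s) (hs.image _)
  refine ⟨k.comp g, nx_comp hk hg, fun x hx => ?_⟩
  change k (g x) = (f (e x) : U)
  rw [h1 x hx, h2 (e x) (mem_image_of_mem _ hx)]

theorem sn_inter {A X Y Q : Set U} (hQ : ∀ g : U ≃[L] U, Fx L A g → ∀ x, g x ∈ Q ↔ x ∈ Q)
    (h : SmN L A X Y) : SmN L A (X ∩ Q) (Y ∩ Q) := by
  obtain ⟨e, he⟩ := h
  have hmem : ∀ x : X, ((e x : U) ∈ Q ↔ (x : U) ∈ Q) := by
    intro x
    obtain ⟨g, hg, h1⟩ := he {x} (finite_singleton x)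
    rw [← h1 x rfl]
    exact hQ g (nx_fx hg) x
  have hmem' : ∀ y : Y, ((e.symm y : U) ∈ Q ↔ (y : U) ∈ Q) := by
    intro y
    rw [← hmem (e.symm y), e.apply_symm_apply]
  let e' : ((X ∩ Q : Set U)) ≃ ((Y ∩ Q : Set U)) :=
    { toFun := fun x => ⟨e ⟨x, x.2.1⟩, (e ⟨x, x.2.1⟩).2, (hmem ⟨x, x.2.1⟩).2 x.2.2⟩
      invFun := fun y => ⟨e.symm ⟨y, y.2.1⟩, (e.symm ⟨y, y.2.1⟩).2, (hmem' ⟨y, y.2.1⟩).2 y.2.2⟩
      left_inv := fun x => by simp
      right_inv := fun y => by simp }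
  refine ⟨e', fun s hs => ?_⟩
  obtain ⟨g, hg, h1⟩ := he ((fun x : (X ∩ Q : Set U) => (⟨x, x.2.1⟩ : X)) '' s) (hs.image _)
  exact ⟨g, hg, fun x hx => h1 ⟨x, x.2.1⟩ (mem_image_of_mem _ hx)⟩

theorem sn_mono {A B X Y : Set U} (hAB : A ⊆ B) (h : SmN L B X Y) :
    SmN L A X Y ∧ Sm L A X Y := by
  obtain ⟨e, he⟩ := h
  constructor
  · refine ⟨e, fun s hs => ?_⟩
    obtain ⟨g, hg, h1⟩ := he s hs
    exact ⟨g, nx_mono hAB hg, h1⟩
  · refine ⟨e, fun s hs => ?_⟩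
    obtain ⟨g, hg, h1⟩ := he s hs
    exact ⟨g, nx_fx (nx_mono hAB hg), h1⟩

theorem exists_rep (A : Set U) : ∃ rep : U → U, (∀ x, x ∈ Pc L R o A (rep x)) ∧
    ∀ x y, y ∈ Pc L R o A x → rep y = rep x := by
  let S : Setoid U := Relation.EqvGen.setoid (Lk L R o A)
  refine ⟨fun x => (Quotient.mk S x).out, fun x => ?_, fun x y hy => ?_⟩
  · have h := Quotient.mk_out (s := S) x
    exact h
  · have h : (Quotient.mk S y) = Quotient.mk S x :=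
      Quotient.sound (s := S) (Relation.EqvGen.symm _ _ hy)
    change (Quotient.mk S y).out = (Quotient.mk S x).out
    rw [h]

theorem sn_glue (hC : Cx L R o) {A M M' : Set U} (hA : A.Finite)
    (h1 : ∀ (n : ℕ) (Q : Fin n → Set U), (∀ i, Cls L R o A (Q i)) →
      (∀ i j, i ≠ j → Disjoint (Q i) (Q j)) → ∀ g : Fin n → (U ≃[L] U), (∀ i, Nx L A (g i)) →
      ∃ h : U ≃[L] U, Nx L A h ∧ (∀ i, ∀ x ∈ Q i, h x = g i x))
    (h : ∀ z, SmN L A (M ∩ Pc L R o A z) (M' ∩ Pc L R o A z)) : SmN L A M M' := by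
  classical
  obtain ⟨rep, hr1, hr2⟩ := exists_rep (L := L) (R := R) (o := o) A
  have hrr : ∀ x, rep (rep x) = rep x := fun x => (hr2 (rep x) x (hr1 x)).symm
  choose E hE using h
  let F : U → U → U := fun z x =>
    if hx : x ∈ M ∩ Pc L R o A z then (E z ⟨x, hx⟩ : U) else x
  let G : U → U → U := fun z y =>
    if hy : y ∈ M' ∩ Pc L R o A z then ((E z).symm ⟨y, hy⟩ : U) else y
  have hF : ∀ z x (hx : x ∈ M ∩ Pc L R o A z), F z x = (E z ⟨x, hx⟩ : U) :=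
    fun z x hx => dif_pos hx
  have hG : ∀ z y (hy : y ∈ M' ∩ Pc L R o A z), G z y = ((E z).symm ⟨y, hy⟩ : U) :=
    fun z y hy => dif_pos hy
  have hF1 : ∀ z x, x ∈ M ∩ Pc L R o A z → F z x ∈ M' ∩ Pc L R o A z := fun z x hx => by
    rw [hF z x hx]
    exact (E z ⟨x, hx⟩).2
  have hG1 : ∀ z y, y ∈ M' ∩ Pc L R o A z → G z y ∈ M ∩ Pc L R o A z := fun z y hy => by
    rw [hG z y hy]
    exact ((E z).symm ⟨y, hy⟩).2
  have hGF : ∀ z x, x ∈ M ∩ Pc L R o A z → G z (F z x) = x := fun z x hx => by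
    rw [hG z _ (hF1 z x hx)]
    have : (⟨F z x, hF1 z x hx⟩ : (M' ∩ Pc L R o A z : Set U)) = E z ⟨x, hx⟩ :=
      Subtype.ext (hF z x hx)
    rw [this, Equiv.symm_apply_apply]
  have hFG : ∀ z y, y ∈ M' ∩ Pc L R o A z → F z (G z y) = y := fun z y hy => by
    rw [hF z _ (hG1 z y hy)]
    have : (⟨G z y, hG1 z y hy⟩ : (M ∩ Pc L R o A z : Set U)) = (E z).symm ⟨y, hy⟩ :=
      Subtype.ext (hG z y hy)
    rw [this, Equiv.apply_symm_apply]
  have hrF : ∀ x, x ∈ M → rep (F (rep x) x) = rep x := fun x hx => by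
    rw [hr2 (rep x) _ (hF1 (rep x) x ⟨hx, hr1 x⟩).2, hrr]
  have hrG : ∀ y, y ∈ M' → rep (G (rep y) y) = rep y := fun y hy => by
    rw [hr2 (rep y) _ (hG1 (rep y) y ⟨hy, hr1 y⟩).2, hrr]
  let e : M ≃ M' :=
    { toFun := fun x => ⟨F (rep x) x, (hF1 (rep x) x ⟨x.2, hr1 x⟩).1⟩
      invFun := fun y => ⟨G (rep y) y, (hG1 (rep y) y ⟨y.2, hr1 y⟩).1⟩
      left_inv := fun x => Subtype.ext (by
        change G (rep (F (rep (x : U)) x)) (F (rep (x : U)) x) = x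
        rw [hrF x x.2]
        exact hGF _ _ ⟨x.2, hr1 x⟩)
      right_inv := fun y => Subtype.ext (by
        change F (rep (G (rep (y : U)) y)) (G (rep (y : U)) y) = y
        rw [hrG y y.2]
        exact hFG _ _ ⟨y.2, hr1 y⟩) }
  refine ⟨e, fun s hs => ?_⟩
  have hT : ((fun x : M => rep x) '' s).Finite := hs.image _
  obtain ⟨n, t, htinj, ht⟩ := hT.fin_param
  have htr : ∀ i, rep (t i) = t i := fun i => by
    have hi : t i ∈ (fun x : M => rep x) '' s := ht ▸ mem_range_self i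
    obtain ⟨x, -, hx⟩ := hi
    have hx' : rep (x : U) = t i := hx
    rw [← hx', hrr]
  have hdis : ∀ i j, i ≠ j → Disjoint (Pc L R o A (t i)) (Pc L R o A (t j)) := by
    intro i j hij
    rw [Set.disjoint_left]
    intro y hi hj
    apply hij
    apply htinj
    rw [← htr i, ← htr j, ← hr2 _ _ hi, ← hr2 _ _ hj]
  have hg : ∀ i, ∃ g : U ≃[L] U, Nx L A g ∧ ∀ x ∈ s, rep (x : U) = t i →
      g x = F (t i) x := by
    intro i
    let si : Set (M ∩ Pc L R o A (t i) : Set U) := {x | (⟨x, x.2.1⟩ : M) ∈ s}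
    have hsi : si.Finite := by
      refine Set.Finite.preimage (f := fun x : (M ∩ Pc L R o A (t i) : Set U) =>
        (⟨x, x.2.1⟩ : M)) ?_ hs
      intro x _ y _ hxy
      exact Subtype.ext (congrArg (fun z : M => (z : U)) hxy)
    obtain ⟨g, hg1, hg2⟩ := hE (t i) si hsi
    refine ⟨g, hg1, fun x hx hxi => ?_⟩
    have hx2 : (x : U) ∈ M ∩ Pc L R o A (t i) := ⟨x.2, hxi ▸ hr1 x⟩
    rw [hF _ _ hx2]
    exact hg2 ⟨x, hx2⟩ hx
  choose g hg1 hg2 using hg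
  obtain ⟨k, hk1, hk2⟩ := h1 n (fun i => Pc L R o A (t i))
    (fun i => cls_pc A (t i)) hdis g hg1
  refine ⟨k, hk1, fun x hx => ?_⟩
  have hxT : rep (x : U) ∈ range t := ht ▸ mem_image_of_mem _ hx
  obtain ⟨i, hi⟩ := hxT
  rw [hk2 i x (hi ▸ hr1 x), hg2 i x hx hi.symm]
  change F (t i) x = F (rep (x : U)) x
  rw [hi]

theorem sn_glueQ (hC : Cx L R o) {A Q M M' : Set U} (hA : A.Finite) (hQ : Cls L R o A Q)
    (h1 : ∀ (n : ℕ) (Q : Fin n → Set U), (∀ i, Cls L R o A (Q i)) →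
      (∀ i j, i ≠ j → Disjoint (Q i) (Q j)) → ∀ g : Fin n → (U ≃[L] U), (∀ i, Nx L A (g i)) →
      ∃ h : U ≃[L] U, Nx L A h ∧ (∀ i, ∀ x ∈ Q i, h x = g i x))
    (h : ∀ z ∈ Q, SmN L A (M ∩ Pc L R o A z) (M' ∩ Pc L R o A z)) :
    SmN L A (M ∩ Q) (M' ∩ Q) := by
  refine sn_glue hC hA h1 fun z => ?_
  by_cases hz : z ∈ Q
  · have h2 := pc_sub hQ hz
    have h3 : ∀ N : Set U, N ∩ Q ∩ Pc L R o A z = N ∩ Pc L R o A z := by
      intro N
      ext x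
      exact ⟨fun hx => ⟨hx.1.1, hx.2⟩, fun hx => ⟨⟨hx.1, h2 hx.2⟩, hx.2⟩⟩
    rw [h3, h3]
    exact h z hz
  · have h3 : ∀ N : Set U, N ∩ Q ∩ Pc L R o A z = ∅ := by
      intro N
      ext x
      refine ⟨fun hx => ?_, fun hx => hx.elim⟩
      exact hz ((cls_eqv hQ hx.2).2 hx.1.2)
    rw [h3, h3]
    exact sn_refl A ∅

end SMNP

/-- [SMN] with the text of PRF -/
theorem SMN_of (h1 : ∀ (L : FirstOrder.Language.{0, 0}) (U : Type) [L.Structure U] (κ : Type)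
    (R : κ → U → U → Prop) (o : κ → κ), Cx L R o → ∀ (A : Set U), A.Finite → ∀ (n : ℕ)
    (Q : Fin n → Set U), (∀ i, Cls L R o A (Q i)) → (∀ i j, i ≠ j → Disjoint (Q i) (Q j)) →
    ∀ g : Fin n → (U ≃[L] U), (∀ i, Nx L A (g i)) →
    ∃ h : U ≃[L] U, Nx L A h ∧ (∀ i, ∀ x ∈ Q i, h x = g i x) ∧ ∀ x, (∀ i, x ∉ Q i) → h x = x) :
    St_SMN := by
  intro L U _ κ R o hC
  refine ⟨fun A X => SMNP.sn_refl A X, fun A X Y h => SMNP.sn_symm h,
    fun A X Y Z h h' => SMNP.sn_trans h h', fun A X Y Q hQ h => SMNP.sn_inter hQ h,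
    fun A B X Y hAB h => SMNP.sn_mono hAB h, fun A Q M M' hA hQ h => SMNP.sn_glueQ hC hA hQ ?_ h,
    fun A X Y Q hQ h => Pool.Agent.PMC.SMB.sm_inter hQ h,
    fun A X Y Z h => ⟨Pool.Agent.PMC.SMB.sm_symm h, fun h' => Pool.Agent.PMC.SMB.sm_trans h h',
      Pool.Agent.PMC.SMB.isoM_of_sm h⟩⟩
  intro n Q hQ hd g hg
  obtain ⟨k, hk1, hk2, -⟩ := h1 L U κ R o hC A hA n Q hQ hd g hg
  exact ⟨k, hk1, hk2⟩

theorem thm_SMN (h1 : St_PRF) : St_SMN := SMN_of h1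

end Pool.Agent.MNO
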