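
import Pool.Agent.MNO.StB
import Pool.Agent.MNO.LBase

/-!
MNO: module TWO (helper72): at most two extreme pieces inside a piece, and they meet all cells.
-/

set_option autoImplicit false
set_option linter.unusedVariables false

namespace Pool.Agent.MNO

open FirstOrder.Language Set
open scoped FirstOrder
open Pool.Agent.WOM (tp Mon IsEl IsoM CtU Fx Orb)
open Pool.Agent.PMC (Ini ct Dc cel Sin Nd Ct lts ext XS Ex Fa Ll LL Itv Sm Md NPf)

/-- the cell of `y` (index `j`) contains an extreme point which belongs to `E` -/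
private def TwoP (L : FirstOrder.Language.{0, 0}) {U : Type} [L.Structure U] {κ : Type}
    (R : κ → U → U → Prop) (o : κ → κ) (A B E : Set U) (j : κ) (y : U) : Prop :=
  ∃ v ∈ XS L R o A B, v ∈ cel L R o A j y ∧ v ∈ E

section

variable {L : FirstOrder.Language.{0, 0}} {U : Type} [L.Structure U] {κ : Type}
  {R : κ → U → U → Prop} {o : κ → κ}

/-- an extreme point in a cell is extreme in this cell -/
private theorem two_ext {A B : Set U} {v y : U} {j : κ} (hv : v ∈ XS L R o A B)
    (hvy : v ∈ cel L R o A j y) : ∃ b, v ∈ ext L R o b B j (cel L R o A j y) := by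
  obtain ⟨b, hb⟩ := hv.2 j
  rw [cel_eq hvy] at hb
  exact ⟨b, hb⟩

private theorem two_lk1 (h1 : St_AVP) (h2 : St_XSP) (hC : Cx L R o)
    {A B E : Set U} (hAB : A ⊆ B) (hB : B.Finite) (hE : Cls L R o B E) {u y : U}
    (hl : Lk L R o A u y) (h : ∀ j, TwoP L R o A B E j u) : ∀ j, TwoP L R o A B E j y := by
  intro j
  obtain ⟨v, hv, hvu, hvE⟩ := h j
  obtain ⟨b, hb⟩ := two_ext hv hvu
  obtain ⟨b', w, hw, hlk⟩ := h1 L U κ R o hC A B j u y b hAB hB hl v hb
  refine ⟨w, ?_, hw.1, (hE v w hlk).1 hvE⟩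
  refine (h2 L U κ R o hC A B hAB hB).1 w j b' (nd_anti hAB (lk_nd hC hlk).2) ?_
  rw [cel_eq hw.1]
  exact hw

private theorem two_pc (h1 : St_AVP) (h2 : St_XSP) (hC : Cx L R o)
    {A B E : Set U} (hAB : A ⊆ B) (hB : B.Finite) (hE : Cls L R o B E) {x y : U}
    (h : Relation.EqvGen (Lk L R o A) x y) :
    (∀ j, TwoP L R o A B E j x) ↔ ∀ j, TwoP L R o A B E j y := by
  induction h with
  | rel a b hab => exact ⟨two_lk1 h1 h2 hC hAB hB hE hab, two_lk1 h1 h2 hC hAB hB hE
      (lk_symm hC (hB.subset hAB) hab)⟩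
  | refl a => exact Iff.rfl
  | symm a b _ ih => exact ih.symm
  | trans a b c _ _ ih1 ih2 => exact ih1.trans ih2

end

theorem thm_TWO (hAVP : St_AVP) (hXSP : St_XSP) (hEXB : St_EXB) : St_TWO := by
  intro L U _ κ R o hC A B x y1 y2 j0 hAB hB hx hy1 hy2
  have key : ∀ z ∈ Pc L R o A x, z ∈ XS L R o A B → ∀ y ∈ Pc L R o A x, ∀ j,
      TwoP L R o A B (Pc L R o B z) j y := by
    intro z hz hzX y hy
    have h4 : ∀ j, TwoP L R o A B (Pc L R o B z) j z :=
      fun j => ⟨z, hzX, mem_cel A j z, mem_pc B z⟩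
    have hE := cls_pc (L := L) (R := R) (o := o) B z
    exact (two_pc hAVP hXSP hC hAB hB hE hy).1 ((two_pc hAVP hXSP hC hAB hB hE hz).2 h4)
  refine ⟨?_, ?_⟩
  · intro z hz hzX
    obtain ⟨v, hv, hvx, hvz⟩ := key z hz hzX x (mem_pc A x) j0
    obtain ⟨b, hb⟩ := two_ext hv hvx
    have hpc : Pc L R o B v = Pc L R o B z := pc_eq hvz
    have h4 := (hEXB L U κ R o hC A B j0 x b hAB hB hx).2.1 v hb
    cases b with
    | true =>
      left
      have h5 : y1 ∈ cel L R o B j0 v := by
        rw [h4]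
        exact hy1
      have h6 : Pc L R o B y1 = Pc L R o B z := by
        rw [← hpc]
        exact pc_eq (cel_sub_pc hC hB j0 v h5)
      rw [h6]
      exact mem_pc B z
    | false =>
      right
      have h5 : y2 ∈ cel L R o B j0 v := by
        rw [h4]
        exact hy2
      have h6 : Pc L R o B y2 = Pc L R o B z := by
        rw [← hpc]
        exact pc_eq (cel_sub_pc hC hB j0 v h5)
      rw [h6]
      exact mem_pc B z
  · intro z hz hzX y hy j
    obtain ⟨v, hv, hvy, hvz⟩ := key z hz hzX y hy j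
    exact ⟨v, hvz, hvy, hv⟩

end Pool.Agent.MNO
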