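import Pool.Agent.MNO.AEI
import Pool.Agent.MNO.AG
import Pool.Agent.MNO.ASV
import Pool.Agent.MNO.AV
import Pool.Agent.MNO.AVP
import Pool.Agent.MNO.BAF
import Pool.Agent.MNO.BAG
import Pool.Agent.MNO.BDD
import Pool.Agent.MNO.BTW
import Pool.Agent.MNO.CAP
import Pool.Agent.MNO.CLS
import Pool.Agent.MNO.END
import Pool.Agent.MNO.EQX
import Pool.Agent.MNO.EXB
import Pool.Agent.MNO.FAI
import Pool.Agent.MNO.FE1
import Pool.Agent.MNO.FIN
import Pool.Agent.MNO.FIX
import Pool.Agent.MNO.FTW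
import Pool.Agent.MNO.GLC
import Pool.Agent.MNO.GLE
import Pool.Agent.MNO.GLM
import Pool.Agent.MNO.GPR
import Pool.Agent.MNO.GRP
import Pool.Agent.MNO.HYC
import Pool.Agent.MNO.INN
import Pool.Agent.MNO.INS
import Pool.Agent.MNO.LFT
import Pool.Agent.MNO.LKS
import Pool.Agent.MNO.LNK
import Pool.Agent.MNO.MKO
import Pool.Agent.MNO.MVT
import Pool.Agent.MNO.NNL
import Pool.Agent.MNO.NRF
import Pool.Agent.MNO.NWI
import Pool.Agent.MNO.NWL
import Pool.Agent.MNO.OFL
import Pool.Agent.MNO.OMI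
import Pool.Agent.MNO.ORD
import Pool.Agent.MNO.ORS
import Pool.Agent.MNO.ORT
import Pool.Agent.MNO.PCC
import Pool.Agent.MNO.PLC
import Pool.Agent.MNO.PRD
import Pool.Agent.MNO.PRF
import Pool.Agent.MNO.PRL
import Pool.Agent.MNO.RMS
import Pool.Agent.MNO.SMB
import Pool.Agent.MNO.SMN
import Pool.Agent.MNO.SUM
import Pool.Agent.MNO.TOP
import Pool.Agent.MNO.TR2
import Pool.Agent.MNO.TRV
import Pool.Agent.MNO.TUP
import Pool.Agent.MNO.TWO
import Pool.Agent.MNO.UNP
import Pool.Agent.MNO.XSP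
import Pool.Agent.MNO.XTY
import Pool.Agent.MNO.PRM
import Pool.Agent.PMC.NPU
import Pool.Agent.PMC.CNO
import Pool.Agent.PMC.COD

/-!
MNO: everything together.
-/

set_option autoImplicit false

namespace Pool.Agent.MNO

theorem all_BDD : St_BDD := thm_BDD

theorem all_LNK : St_LNK := thm_LNK all_BDD

theorem all_LKS : St_LKS := thm_LKS all_LNK

theorem all_FIX : St_FIX := thm_FIX

theorem all_RMS : St_RMS := thm_RMS

theorem all_CAP : St_CAP := thm_CAP

theorem all_EQX : St_EQX := thm_EQX all_CAP all_RMS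

theorem all_TR2 : St_TR2 := thm_TR2 all_EQX all_FIX

theorem all_TRV : St_TRV := thm_TRV all_TR2

theorem all_NNL : St_NNL := thm_NNL all_TRV all_LKS

theorem all_OFL : St_OFL := thm_OFL

theorem all_GLM : St_GLM := thm_GLM all_RMS all_OFL

theorem all_PRL : St_PRL := thm_PRL all_GLM all_TRV all_NNL

theorem all_PRD : St_PRD := thm_PRD all_PRL

theorem all_PRF : St_PRF := thm_PRF all_PRD

theorem all_UNP : St_UNP := thm_UNP all_PRD

theorem all_SMB : St_SMB := thm_SMB all_PRF

theorem all_EXB : St_EXB := thm_EXB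

theorem all_AG : St_AG := thm_AG

theorem all_AV : St_AV := thm_AV all_LKS all_EXB

theorem all_AVP : St_AVP := thm_AVP all_BDD all_AV all_EXB

theorem all_XSP : St_XSP := thm_XSP all_AV all_EXB

theorem all_TWO : St_TWO := thm_TWO all_AVP all_XSP all_EXB

theorem all_MKO : St_MKO := thm_MKO all_AV all_AG all_EXB all_XSP

theorem all_FAI : St_FAI := thm_FAI all_EXB

theorem all_GLC : St_GLC := thm_GLC all_AV all_FAI

theorem all_GLE : St_GLE := thm_GLE all_PRD all_GLC

theorem all_GPR : St_GPR := thm_GPR all_GLE all_FAI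

theorem all_FTW : St_FTW := thm_FTW all_FAI all_GPR

theorem all_ORD : St_ORD := thm_ORD all_FAI all_FTW

theorem all_BTW : St_BTW := thm_BTW all_FAI all_FTW all_ORD

theorem all_TUP : St_TUP := thm_TUP all_FAI all_GPR all_ORD all_BTW

theorem all_MVT : St_MVT := thm_MVT all_FAI all_ORD all_BTW all_TUP

theorem all_ORS : St_ORS := thm_ORS all_GLM all_FAI all_ORD all_TUP

theorem all_ORT : St_ORT := thm_ORT all_ORS all_GLE all_MVT all_FAI all_ORD

theorem all_FE1 : St_FE1 := thm_FE1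

theorem all_BAG : St_BAG := thm_BAG

theorem all_BAF : St_BAF := thm_BAF all_BAG

theorem all_GRP : St_GRP := thm_GRP all_FAI all_ORD all_ORT

theorem all_PLC : St_PLC := thm_PLC all_ORT

theorem all_SUM : St_SUM := thm_SUM all_FE1 all_PRD all_FAI all_ORD all_ORT

theorem all_INS : St_INS := thm_INS all_PLC all_SUM all_ORD all_FAI

theorem all_NWL : St_NWL := thm_NWL Pool.Agent.PMC.thm_CNO Pool.Agent.PMC.thm_COD all_INS all_FAI all_ORD

theorem all_SMN : St_SMN := thm_SMN all_PRF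

theorem all_OMI : St_OMI := thm_OMI all_FE1

theorem all_FIN : St_FIN := thm_FIN all_OMI all_EXB all_XSP all_MKO all_ORD all_NWL

theorem all_LFT : St_LFT := thm_LFT all_BAG

theorem all_NRF : St_NRF := thm_NRF all_UNP all_SMN all_LFT

theorem all_ASV : St_ASV := thm_ASV all_PRD all_EXB all_FAI all_FTW

theorem all_AEI : St_AEI := thm_AEI all_PRD all_AG all_EXB all_XSP all_MKO all_ASV all_ORD

theorem all_INN : St_INN := thm_INN all_UNP all_SMN all_NWL all_AEI all_ORD all_FAI all_LFT all_FE1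

theorem all_HYC : St_HYC := thm_HYC

theorem all_NWI : St_NWI := thm_NWI Pool.Agent.PMC.thm_CNO Pool.Agent.PMC.thm_COD all_FE1 all_INS all_FAI all_ORD all_SMN

theorem all_CLS : St_CLS := thm_CLS all_BAF all_GRP all_ORD all_SMN

theorem all_XTY : St_XTY := thm_XTY all_MKO all_NWL all_NWI all_CLS all_FE1

theorem all_PCC : St_PCC := thm_PCC all_TWO all_EXB all_XSP all_XTY all_INN all_SMN all_NNL

theorem all_END : St_END := thm_END all_FIN all_NRF all_PCC all_SMN

theorem all_MAIN : St_MAIN := thm_TOP all_END all_HYC Pool.Agent.PMC.thm_NPU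

theorem all_MAINP : St_MAINP := thm_PRM all_END Pool.Agent.PMC.thm_NPU

end Pool.Agent.MNO
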