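import Pool.Agent.MNO.StT

/-!
MNO [OFL] (helper5), general form OFM (helper23): an open invariant equivalence relation with finitely many classes on an orbit is
refined by strong types.
-/

set_option autoImplicit false
set_option linter.unusedVariables false
set_option linter.unusedSectionVars false

namespace Pool.Agent.MNO

open FirstOrder.Language Set
open scoped FirstOrder
open Pool.Agent.WOM (tp Mon IsEl IsoM CtU Fx Orb)

section

variable {L : FirstOrder.Language.{0, 0}} {U : Type} [L.Structure U] {α : Type}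

/-- the properties of `x0` are closed under finite conjunctions -/
private theorem OFM_conj {A : Set U} (x0 : α → U) {G : Set ((α → U) → Prop)}
    (hG : G ⊆ {P | Dp L A P ∧ P x0}) (hf : G.Finite) :
    Dp L A (fun u => ∀ P ∈ G, P u) ∧ ∀ P ∈ G, P x0 :=
  ⟨dp_ball hf fun P hP => (hG hP).1, fun P hP => (hG hP).2⟩

/-- compactness, one tuple -/
private theorem OFM_cpt (hM : Mon L U) [Finite α] {A B : Set U} (hAB : A ⊆ B) (hB : B.Finite)
    (x0 : α → U) (Δ : Set ((α → U) → Prop)) (hΔ : ∀ D ∈ Δ, Dp L B D)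
    (hdir : ∀ G ⊆ Δ, G.Finite → ∃ D ∈ Δ, ∀ u, (∃ Q ∈ G, Q u) → D u)
    (h : ∀ u, (∀ P : (α → U) → Prop, Dp L A P → P x0 → P u) → ∃ D ∈ Δ, D u) :
    ∃ P : (α → U) → Prop, Dp L A P ∧ P x0 ∧ ∃ D ∈ Δ, ∀ u, P u → D u := by
  classical
  by_contra hcon
  obtain ⟨u, hu⟩ := dp_sat hM hB
    (F := {P | Dp L A P ∧ P x0} ∪ {Q | ∃ D ∈ Δ, Q = fun u => ¬ D u}) (by
      rintro Q (hQ | ⟨D, hD, rfl⟩)
      · exact dp_mono hAB hQ.1
      · exact dp_not (hΔ D hD)) (by
      intro G hG hf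
      by_contra hcon2
      apply hcon
      have h1 := OFM_conj (L := L) x0 (G := {P ∈ G | Dp L A P ∧ P x0}) (fun P hP => hP.2)
        (hf.subset fun P hP => hP.1)
      obtain ⟨D, hD, hD'⟩ := hdir {D | D ∈ Δ ∧ (fun u => ¬ D u) ∈ G} (fun D hD => hD.1) (by
        have h2 : ({D | D ∈ Δ ∧ (fun u => ¬ D u) ∈ G} : Set ((α → U) → Prop)) ⊆
            (fun Q : (α → U) → Prop => fun u => ¬ Q u) '' G := by
          rintro D ⟨-, hD⟩
          refine ⟨_, hD, ?_⟩
          funext u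
          exact propext not_not
        exact (hf.image _).subset h2)
      refine ⟨_, h1.1, h1.2, D, hD, fun u hu => ?_⟩
      by_contra hDu
      apply hcon2
      refine ⟨u, fun Q hQ => ?_⟩
      rcases hG hQ with hQ' | ⟨D', hD'', rfl⟩
      · exact hu Q ⟨hQ, hQ'⟩
      · intro hDu'
        exact hDu (hD' u ⟨D', ⟨hD'', hQ⟩, hDu'⟩))
  obtain ⟨D, hD, hDu⟩ := h u fun P hP hPx => hu P (Or.inl ⟨hP, hPx⟩)
  exact hu _ (Or.inr ⟨D, hD, rfl⟩) hDu

/-- compactness, two tuples -/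
private theorem OFM_cpt2 (hM : Mon L U) [Finite α] {A B : Set U} (hAB : A ⊆ B) (hB : B.Finite)
    (x0 : α → U) (Q : (α ⊕ α → U) → Prop) (hQ : Dp L B Q)
    (h : ∀ u v, (∀ P : (α → U) → Prop, Dp L A P → P x0 → P u) →
      (∀ P : (α → U) → Prop, Dp L A P → P x0 → P v) → ¬ Q (Sum.elim u v)) :
    ∃ P : (α → U) → Prop, Dp L A P ∧ P x0 ∧ ∀ u v, P u → P v → ¬ Q (Sum.elim u v) := by
  classical
  by_contra hcon
  obtain ⟨w, hw⟩ := dp_sat hM hB
    (F := ({T | ∃ P : (α → U) → Prop, Dp L A P ∧ P x0 ∧ T = fun w : α ⊕ α → U =>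
        P (fun i => w (Sum.inl i))} ∪ {T | ∃ P : (α → U) → Prop, Dp L A P ∧ P x0 ∧
        T = fun w : α ⊕ α → U => P (fun i => w (Sum.inr i))}) ∪ {Q}) (by
      rintro T ((⟨P, hP, -, rfl⟩ | ⟨P, hP, -, rfl⟩) | rfl)
      · exact dp_mono hAB (dp_sub hP Sum.inl)
      · exact dp_mono hAB (dp_sub hP Sum.inr)
      · exact hQ) (by
      intro G hG hf
      by_contra hcon2
      apply hcon
      -- the finitely many properties which occur
      set G' : Set ((α → U) → Prop) := {P | (Dp L A P ∧ P x0) ∧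
        ((fun w : α ⊕ α → U => P (fun i => w (Sum.inl i))) ∈ G ∨
          (fun w : α ⊕ α → U => P (fun i => w (Sum.inr i))) ∈ G)} with hG'
      have hfin : G'.Finite := by
        have h2 : G' ⊆ (fun T : (α ⊕ α → U) → Prop => fun u : α → U => T (Sum.elim u u)) '' G := by
          rintro P ⟨-, hP | hP⟩
          · exact ⟨_, hP, rfl⟩
          · exact ⟨_, hP, rfl⟩
        exact (hf.image _).subset h2
      have h1 := OFM_conj (L := L) x0 (G := G') (fun P hP => hP.1) hfin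
      refine ⟨_, h1.1, h1.2, fun u v hu hv hQuv => ?_⟩
      apply hcon2
      refine ⟨Sum.elim u v, fun T hT => ?_⟩
      rcases hG hT with (⟨P, hP, hPx, rfl⟩ | ⟨P, hP, hPx, rfl⟩) | rfl
      · exact hu P ⟨⟨hP, hPx⟩, Or.inl hT⟩
      · exact hv P ⟨⟨hP, hPx⟩, Or.inr hT⟩
      · exact hQuv)
  have h3 : Sum.elim (fun i => w (Sum.inl i)) (fun i => w (Sum.inr i)) = w := by
    funext i
    rcases i with i | i <;> rfl
  refine h (fun i => w (Sum.inl i)) (fun i => w (Sum.inr i)) (fun P hP hPx => ?_)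
    (fun P hP hPx => ?_) ?_
  · exact hw _ (Or.inl (Or.inl ⟨P, hP, hPx, rfl⟩))
  · exact hw _ (Or.inl (Or.inr ⟨P, hP, hPx, rfl⟩))
  · rw [h3]
    exact hw Q (Or.inr rfl)

end

theorem ofl_gen (L : FirstOrder.Language.{0, 0}) (U : Type) [L.Structure U] (hM : Mon L U)
    (α : Type) [Finite α] (A : Set U) (x0 : α → U)
    (S : (α → U) → (α → U) → Prop) (p : Set (α → U)) (hA : A.Finite)
    (hp : p = {u | ∃ g : U ≃[L] U, Fx L A g ∧ u = fun i => g (x0 i)})
    (hinv : ∀ g : U ≃[L] U, Fx L A g → ∀ u v, S u v → S (fun i => g (u i)) (fun i => g (v i)))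
    (hrefl : ∀ u ∈ p, S u u) (hsymm : ∀ u ∈ p, ∀ v ∈ p, S u v → S v u)
    (htrans : ∀ u ∈ p, ∀ v ∈ p, ∀ w ∈ p, S u v → S v w → S u w)
    (hfin : ∃ F ⊆ p, F.Finite ∧ ∀ u ∈ p, ∃ v ∈ F, S u v)
    (hopen : ∀ u ∈ p, ∀ v ∈ p, S u v → ∃ E : (α ⊕ α → U) → Prop, Dp L A E ∧ E (Sum.elim u v) ∧
      ∀ u' ∈ p, ∀ v' ∈ p, E (Sum.elim u' v') → S u' v') :
    ∀ u ∈ p, ∀ v ∈ p, Sq L A u v → S u v := by
  classical
  obtain ⟨F, hFp, hFf, hF⟩ := hfin
  -- the points of the orbit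
  have hmem : ∀ u, u ∈ p ↔ ∀ P : (α → U) → Prop, Dp L A P → P x0 → P u := by
    intro u
    rw [hp]
    constructor
    · rintro ⟨g, hg, rfl⟩ P hP hPx
      exact (dp_fx hP hg x0).2 hPx
    · intro h
      obtain ⟨g, hg, hgu⟩ := dp_hom hM hA (a := x0) (b := u) h
      exact ⟨g, hg, (funext hgu).symm⟩
  have hx0 : x0 ∈ p := (hmem x0).2 fun P _ h => h
  -- the base set
  set B : Set U := A ∪ ⋃ v ∈ F, range v with hBdef
  have hAB : A ⊆ B := subset_union_left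
  have hBf : B.Finite := hA.union (hFf.biUnion fun v _ => finite_range v)
  have hvB : ∀ v ∈ F, ∀ i, v i ∈ B := fun v hv i =>
    Or.inr (mem_biUnion hv ⟨i, rfl⟩)
  -- step 1
  obtain ⟨ρ₁, hρ₁, hρ₁x, D, ⟨E, ⟨hE, hES⟩, rfl⟩, hρE⟩ := OFM_cpt hM hAB hBf x0
    {D | ∃ E : (α ⊕ α → U) → Prop, (Dp L A E ∧ ∀ u' ∈ p, ∀ v' ∈ p, E (Sum.elim u' v') → S u' v') ∧
      D = fun u => ∃ v ∈ F, E (Sum.elim u v)} (by
      rintro D ⟨E, ⟨hE, -⟩, rfl⟩
      exact dp_bex hFf fun v hv => dp_par (dp_mono hAB hE) v (hvB v hv)) (by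
      intro G hG hf
      have h1 : ∀ D : (α → U) → Prop, ∃ E : (α ⊕ α → U) → Prop, D ∈ G →
          (Dp L A E ∧ ∀ u' ∈ p, ∀ v' ∈ p, E (Sum.elim u' v') → S u' v') ∧
          D = fun u => ∃ v ∈ F, E (Sum.elim u v) := by
        intro D
        by_cases hD : D ∈ G
        · obtain ⟨E, h1, h2⟩ := hG hD
          exact ⟨E, fun _ => ⟨h1, h2⟩⟩
        · exact ⟨fun _ => True, fun h => absurd h hD⟩
      choose e he using h1
      refine ⟨_, ⟨fun w => ∃ D ∈ G, e D w, ⟨dp_bex hf fun D hD => (he D hD).1.1, ?_⟩, rfl⟩, ?_⟩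
      · rintro u' hu' v' hv' ⟨D, hD, hDe⟩
        exact (he D hD).1.2 u' hu' v' hv' hDe
      · rintro u ⟨D, hD, hDu⟩
        rw [(he D hD).2] at hDu
        obtain ⟨v, hv, hvu⟩ := hDu
        exact ⟨v, hv, D, hD, hvu⟩) (by
      intro u hu
      have hup : u ∈ p := (hmem u).2 hu
      obtain ⟨v, hv, hSv⟩ := hF u hup
      obtain ⟨E, hE1, hE2, hE3⟩ := hopen u hup v (hFp hv) hSv
      exact ⟨_, ⟨E, ⟨hE1, hE3⟩, rfl⟩, v, hv, hE2⟩)
  -- symmetric and reflexive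
  set E' : (α → U) → (α → U) → Prop := fun u v =>
    E (Sum.elim u v) ∨ E (Sum.elim v u) ∨ ∀ i, u i = v i with hE'
  have hE'd : Dp L A (fun w : α ⊕ α → U => E' (fun i => w (Sum.inl i)) (fun i => w (Sum.inr i))) := by
    refine dp_or ?_ (dp_or ?_ (dp_all_fin fun i => dp_eq _ _))
    · refine dp_congr hE fun w => ?_
      have h3 : Sum.elim (fun i => w (Sum.inl i)) (fun i => w (Sum.inr i)) = w := by
        funext i
        rcases i with i | i <;> rfl
      rw [h3]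
    · refine dp_congr (dp_sub hE Sum.swap) fun w => ?_
      have h3 : Sum.elim (fun i => w (Sum.inr i)) (fun i => w (Sum.inl i)) =
          fun i => w (Sum.swap i) := by
        funext i
        rcases i with i | i <;> rfl
      rw [h3]
  have hE's : ∀ u v, E' u v → E' v u := by
    rintro u v (h | h | h)
    · exact Or.inr (Or.inl h)
    · exact Or.inl h
    · exact Or.inr (Or.inr fun i => (h i).symm)
  have hE'r : ∀ u, E' u u := fun u => Or.inr (Or.inr fun i => rfl)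
  have hE'S : ∀ u ∈ p, ∀ v ∈ p, E' u v → S u v := by
    rintro u hu v hv (h | h | h)
    · exact hES u hu v hv h
    · exact hsymm v hv u hu (hES v hv u hu h)
    · have : u = v := funext h
      subst this
      exact hrefl u hu
  have hE'inv : ∀ g : U ≃[L] U, Fx L A g → ∀ u v, E' u v → E' (fun i => g (u i)) (fun i => g (v i)) := by
    intro g hg u v h
    have h1 := (dp_fx hE'd hg (Sum.elim u v)).2 h
    exact h1
  have hρ₁E : ∀ u, ρ₁ u → ∃ v ∈ F, E' u v := by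
    intro u hu
    obtain ⟨v, hv, h⟩ := hρE u hu
    exact ⟨v, hv, Or.inl h⟩
  -- step 2
  have hpair : ∀ q : (α → U) × (α → U), ∃ P : (α → U) → Prop, Dp L A P ∧ P x0 ∧
      (q.1 ∈ F → q.2 ∈ F → ¬ S q.1 q.2 → ∀ u v, P u → P v →
        ¬ (E' q.1 u ∧ E' u v ∧ E' v q.2)) := by
    rintro ⟨a, b⟩
    by_cases hab : a ∈ F ∧ b ∈ F ∧ ¬ S a b
    · obtain ⟨ha, hb, hS⟩ := hab
      have d1 : Dp L B (fun w : α ⊕ α → U => E' a (fun i => w (Sum.inl i))) := by
        have h1 := dp_sub (β := (α ⊕ α) ⊕ α) (dp_mono hAB hE'd)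
          (Sum.elim (fun i => Sum.inr i) (fun i => Sum.inl (Sum.inl i)))
        exact dp_par h1 a (hvB a ha)
      have d2 : Dp L B (fun w : α ⊕ α → U => E' (fun i => w (Sum.inr i)) b) := by
        have h1 := dp_sub (β := (α ⊕ α) ⊕ α) (dp_mono hAB hE'd)
          (Sum.elim (fun i => Sum.inl (Sum.inr i)) (fun i => Sum.inr i))
        exact dp_par h1 b (hvB b hb)
      obtain ⟨P, hP, hPx, hP'⟩ := OFM_cpt2 hM hAB hBf x0
        (fun w => E' a (fun i => w (Sum.inl i)) ∧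
          E' (fun i => w (Sum.inl i)) (fun i => w (Sum.inr i)) ∧ E' (fun i => w (Sum.inr i)) b)
        (dp_and d1 (dp_and (dp_mono hAB hE'd) d2)) (by
          rintro u v hu hv ⟨h1, h2, h3⟩
          have hu' := (hmem u).2 hu
          have hv' := (hmem v).2 hv
          have ha' := hFp ha
          have hb' := hFp hb
          exact hS (htrans a ha' u hu' b hb' (hE'S a ha' u hu' h1)
            (htrans u hu' v hv' b hb' (hE'S u hu' v hv' h2) (hE'S v hv' b hb' h3))))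
      exact ⟨P, hP, hPx, fun _ _ _ => hP'⟩
    · exact ⟨fun _ => True, dp_true, trivial, fun h1 h2 h3 => absurd ⟨h1, h2, h3⟩ hab⟩
  choose Pq hPq1 hPq2 hPq3 using hpair
  set ρ : (α → U) → Prop := fun u => ρ₁ u ∧ ∀ q ∈ F ×ˢ F, Pq q u with hρ
  have hρd : Dp L A ρ := dp_and hρ₁ (dp_ball (hFf.prod hFf) fun q _ => hPq1 q)
  have hρx : ρ x0 := ⟨hρ₁x, fun q _ => hPq2 q⟩
  have hρp : ∀ u ∈ p, ρ u := fun u hu => (hmem u).1 hu ρ hρd hρx
  have hρi : ∀ u, ρ u → ∃ v ∈ F, E' u v := fun u hu => hρ₁E u hu.1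
  have hρii : ∀ a ∈ F, ∀ b ∈ F, ∀ u v, ρ u → ρ v → E' a u → E' u v → E' v b → S a b := by
    intro a ha b hb u v hu hv h1 h2 h3
    by_contra hS
    exact hPq3 (a, b) ha hb hS u v (hu.2 (a, b) ⟨ha, hb⟩) (hv.2 (a, b) ⟨ha, hb⟩) ⟨h1, h2, h3⟩
  -- the equivalence relation
  set r : (α → U) → (α → U) → Prop := fun u v => ρ u ∧ ρ v ∧ E' u v with hr
  have hρr : ∀ u v, Relation.EqvGen r u v → (ρ u ↔ ρ v) := by
    intro u v h
    induction h with
    | rel u v h => exact ⟨fun _ => h.2.1, fun _ => h.1⟩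
    | refl u => exact Iff.rfl
    | symm u v _ ih => exact ih.symm
    | trans u v w _ _ ih1 ih2 => exact ih1.trans ih2
  set T : (α → U) → (α → U) → Prop := fun u v =>
    (¬ ρ u ∧ ¬ ρ v) ∨ (ρ u ∧ ρ v ∧ Relation.EqvGen r u v) with hT
  have hTe : Equivalence T := by
    refine ⟨fun u => ?_, ?_, ?_⟩
    · by_cases hu : ρ u
      · exact Or.inr ⟨hu, hu, Relation.EqvGen.refl u⟩
      · exact Or.inl ⟨hu, hu⟩
    · rintro u v (⟨h1, h2⟩ | ⟨h1, h2, h3⟩)
      · exact Or.inl ⟨h2, h1⟩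
      · exact Or.inr ⟨h2, h1, Relation.EqvGen.symm _ _ h3⟩
    · rintro u v w (⟨h1, h2⟩ | ⟨h1, h2, h3⟩) (⟨h4, h5⟩ | ⟨h4, h5, h6⟩)
      · exact Or.inl ⟨h1, h5⟩
      · exact absurd h4 h2
      · exact absurd h2 h4
      · exact Or.inr ⟨h1, h5, Relation.EqvGen.trans _ _ _ h3 h6⟩
  have hρg : ∀ g : U ≃[L] U, Fx L A g → ∀ u, ρ (fun i => g (u i)) ↔ ρ u := fun g hg u =>
    dp_fx hρd hg u
  have hTinv : ∀ g : U ≃[L] U, Fx L A g → ∀ u v, T u v → T (fun i => g (u i)) (fun i => g (v i)) := by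
    rintro g hg u v (⟨h1, h2⟩ | ⟨h1, h2, h3⟩)
    · exact Or.inl ⟨fun h => h1 ((hρg g hg u).1 h), fun h => h2 ((hρg g hg v).1 h)⟩
    · refine Or.inr ⟨(hρg g hg u).2 h1, (hρg g hg v).2 h2, ?_⟩
      clear h1 h2
      induction h3 with
      | rel u v h =>
        exact Relation.EqvGen.rel _ _ ⟨(hρg g hg u).2 h.1, (hρg g hg v).2 h.2.1,
          hE'inv g hg u v h.2.2⟩
      | refl u => exact Relation.EqvGen.refl _
      | symm u v _ ih => exact Relation.EqvGen.symm _ _ ih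
      | trans u v w _ _ ih1 ih2 => exact Relation.EqvGen.trans _ _ _ ih1 ih2
  have hTa : ∀ u, ρ u → ∀ a ∈ F, E' u a → T u a := by
    intro u hu a ha h
    have h1 := hρp a (hFp ha)
    exact Or.inr ⟨hu, h1, Relation.EqvGen.rel _ _ ⟨hu, h1, h⟩⟩
  have hTd : Dp L A (fun w : α ⊕ α → U => T (fun i => w (Sum.inl i)) (fun i => w (Sum.inr i))) := by
    refine dp_inv hM hA hBf ?_ (fun g hg w h => hTinv g hg _ _ h)
    have d1 : Dp L B (fun w : α ⊕ α → U => ρ (fun i => w (Sum.inl i))) :=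
      dp_mono hAB (dp_sub hρd Sum.inl)
    have d2 : Dp L B (fun w : α ⊕ α → U => ρ (fun i => w (Sum.inr i))) :=
      dp_mono hAB (dp_sub hρd Sum.inr)
    have d3 : ∀ a ∈ F, Dp L B (fun w : α ⊕ α → U => E' (fun i => w (Sum.inl i)) a) := by
      intro a ha
      have h1 := dp_sub (β := (α ⊕ α) ⊕ α) (dp_mono hAB hE'd)
        (Sum.elim (fun i => Sum.inl (Sum.inl i)) (fun i => Sum.inr i))
      exact dp_par h1 a (hvB a ha)
    have d4 : ∀ a ∈ F, Dp L B (fun w : α ⊕ α → U => E' (fun i => w (Sum.inr i)) a) := by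
      intro a ha
      have h1 := dp_sub (β := (α ⊕ α) ⊕ α) (dp_mono hAB hE'd)
        (Sum.elim (fun i => Sum.inl (Sum.inr i)) (fun i => Sum.inr i))
      exact dp_par h1 a (hvB a ha)
    refine dp_congr (dp_or (dp_and (dp_not d1) (dp_not d2)) (dp_and d1 (dp_and d2
      (dp_bex hFf fun a ha => dp_bex hFf fun b hb => dp_and (dp_const (T a b))
        (dp_and (d3 a ha) (d4 b hb)))))) (fun w => ?_)
    set u : α → U := fun i => w (Sum.inl i)
    set v : α → U := fun i => w (Sum.inr i)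
    constructor
    · rintro (h | ⟨h1, h2, h3⟩)
      · exact Or.inl h
      · obtain ⟨a, ha, hua⟩ := hρi u h1
        obtain ⟨b, hb, hvb⟩ := hρi v h2
        refine Or.inr ⟨h1, h2, a, ha, b, hb, ?_, hua, hvb⟩
        exact hTe.trans (hTe.symm (hTa u h1 a ha hua)) (hTe.trans (Or.inr ⟨h1, h2, h3⟩)
          (hTa v h2 b hb hvb))
    · rintro (h | ⟨h1, h2, a, ha, b, hb, hab, hua, hvb⟩)
      · exact Or.inl h
      · exact hTe.trans (hTa u h1 a ha hua) (hTe.trans hab (hTe.symm (hTa v h2 b hb hvb)))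
  have hFE : FE L A T := by
    refine ⟨hTd, hTe, ?_⟩
    by_cases hne : ∃ u, ¬ ρ u
    · obtain ⟨u₁, hu₁⟩ := hne
      refine ⟨insert u₁ F, hFf.insert u₁, fun u => ?_⟩
      by_cases hu : ρ u
      · obtain ⟨a, ha, hua⟩ := hρi u hu
        exact ⟨a, Or.inr ha, hTa u hu a ha hua⟩
      · exact ⟨u₁, Or.inl rfl, Or.inl ⟨hu, hu₁⟩⟩
    · push Not at hne
      refine ⟨F, hFf, fun u => ?_⟩
      obtain ⟨a, ha, hua⟩ := hρi u (hne u)
      exact ⟨a, ha, hTa u (hne u) a ha hua⟩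
  -- the classes of `T` refine `S` on `p`
  have hchain : ∀ u v, Relation.EqvGen r u v → ρ u → ∀ a ∈ F, ∀ b ∈ F, E' a u → E' v b →
      S a b := by
    intro u v h
    induction h with
    | rel u v h =>
      intro _ a ha b hb h1 h2
      exact hρii a ha b hb u v h.1 h.2.1 h1 h.2.2 h2
    | refl u =>
      intro hu a ha b hb h1 h2
      exact hρii a ha b hb u u hu hu h1 (hE'r u) h2
    | symm u v h ih =>
      intro hv a ha b hb h1 h2
      have hu := (hρr u v h).2 hv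
      exact hsymm b (hFp hb) a (hFp ha) (ih hu b hb a ha (hE's _ _ h2) (hE's _ _ h1))
    | trans u v w h1 h2 ih1 ih2 =>
      intro hu a ha b hb h3 h4
      have hv := (hρr u v h1).1 hu
      obtain ⟨c, hc, hvc⟩ := hρi v hv
      exact htrans a (hFp ha) c (hFp hc) b (hFp hb) (ih1 hu a ha c hc h3 hvc)
        (ih2 hv c hc b hb (hE's _ _ hvc) h4)
  intro u hu v hv hsq
  have h1 : T u v := hsq T hFE
  rcases h1 with ⟨h2, -⟩ | ⟨h2, h3, h4⟩
  · exact absurd (hρp u hu) h2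
  · obtain ⟨a, ha, hua⟩ := hρi u h2
    obtain ⟨b, hb, hvb⟩ := hρi v h3
    have ha' := hFp ha
    have hb' := hFp hb
    have h5 := hchain u v h4 h2 a ha b hb (hE's _ _ hua) hvb
    exact htrans u hu a ha' v hv (hE'S u hu a ha' hua) (htrans a ha' b hb' v hv h5
      (hE'S b hb' v hv (hE's _ _ hvb)))

end Pool.Agent.MNO
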