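import Pool.Agent.MNO.Base

/-!
MNO, toolkit 2 (helper47): definable families of cuts, exact arrays with parameters.
-/

set_option autoImplicit false
set_option linter.unusedVariables false
set_option linter.unusedSectionVars false

namespace Pool.Agent.MNO

open FirstOrder.Language Set
open scoped FirstOrder
open Pool.Agent.WOM (tp Mon IsEl IsoM CtU Fx Orb)
open Pool.Agent.PMC (Ini ct Dc cel Sin Nd Ct lts ext XS Ex Fa Ll LL Itv Sm Md NPf fx_refl fx_symm
  fx_comp fx_mono comp_apply' def_img def_mono def_compl def_inter def_union def_mem def_fix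
  def_of_fix conj_of_def exists_isd exists_fin_def isEl_of_orb mem_orb orb_meets sat_fam rel_fx
  rel_def1 rel_def2 rel_hull rel_swap def_close)

variable {L : FirstOrder.Language.{0, 0}} {U : Type} [L.Structure U] {κ : Type}
  {R : κ → U → U → Prop} {o : κ → κ}

variable (L) in
/-- `A`-definable families of sets of elements, indexed by tuples -/
def DF (A : Set U) {β : Type} (C : (β → U) → Set U) : Prop :=
  Dp L A (fun v : Unit ⊕ β → U => v (Sum.inl ()) ∈ C (fun i => v (Sum.inr i)))

/-- use of a family: `v i ∈ C (v ∘ f)` -/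
theorem df_mem {A : Set U} {α β : Type} {C : (β → U) → Set U} (h : DF L A C) (i : α) (f : β → α) :
    Dp L A (fun v : α → U => v i ∈ C (fun k => v (f k))) := by
  have h1 := dp_sub h (Sum.elim (fun _ => i) f : Unit ⊕ β → α)
  exact h1

theorem df_mono {A B : Set U} (hAB : A ⊆ B) {β : Type} {C : (β → U) → Set U} (h : DF L A C) :
    DF L B C := dp_mono hAB h

theorem df_fx {A : Set U} {β : Type} {C : (β → U) → Set U} (h : DF L A C) {g : U ≃[L] U}
    (hg : Fx L A g) (w : U) (x : β → U) : g w ∈ C (fun i => g (x i)) ↔ w ∈ C x :=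
  dp_fx h hg (Sum.elim (fun _ => w) x)

theorem df_img {A : Set U} {β : Type} {C : (β → U) → Set U} (h : DF L A C) {g : U ≃[L] U}
    (hg : Fx L A g) (x : β → U) : g '' C x = C (fun i => g (x i)) := by
  ext w
  constructor
  · rintro ⟨v, hv, rfl⟩
    exact (df_fx h hg v x).2 hv
  · intro hw
    refine ⟨g.symm w, ?_, g.apply_symm_apply w⟩
    have h1 := df_fx h hg (g.symm w) x
    rw [g.apply_symm_apply] at h1
    exact h1.1 hw

/-- members of a family are definable over the index -/
theorem df_def {A : Set U} {β : Type} {C : (β → U) → Set U} (h : DF L A C) (x : β → U)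
    {B : Set U} (hAB : A ⊆ B) (hx : ∀ i, x i ∈ B) : B.Definable₁ L (C x) := by
  have h1 := dp_par (dp_mono hAB h) x hx
  exact def1_of_dp1 h1

theorem exa_mono {α β : Type} {P : (α → U) → (β → U) → U → Prop} {k k' : ℕ} (h : k' ≤ k)
    (H : Exa P k) : Exa P k' := by
  obtain ⟨x, y, z, hxyz⟩ := H
  refine ⟨fun i => x (Fin.castLE h i), fun i => y (Fin.castLE h i),
    fun i i' => z (Fin.castLE h i) (Fin.castLE h i'), fun i j a b => ?_⟩
  rw [hxyz]
  simp [Fin.ext_iff]

section cx

variable (hC : Cx L R o)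

include hC

theorem dp_R {A : Set U} {α : Type} (j : κ) (i k : α) :
    Dp L A (fun v : α → U => R j (v i) (v k)) := by
  have h1 : Dp L (∅ : Set U) (fun v : Fin 2 → U => R j (v 0) (v 1)) := hC.dfn j
  have h2 := dp_sub (dp_mono (empty_subset A) h1) (![i, k] : Fin 2 → α)
  exact h2

theorem dp_lts {A : Set U} {α : Type} (b : Bool) (j : κ) (i k : α) :
    Dp L A (fun v : α → U => lts R o b j (v i) (v k)) := by
  cases b
  · refine dp_congr (dp_R hC (o j) k i) (fun v => ?_)
    rw [lts_false]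
  · refine dp_congr (dp_R hC (o j) i k) (fun v => ?_)
    rw [lts_true]

/-- a definable cut is a member of a definable family of initial segments -/
theorem cuf {A : Set U} {β : Type} (b : β → U) {j : κ} {C0 : Set U}
    (h : Dc L R o (A ∪ range b) j C0) :
    ∃ C : (β → U) → Set U, DF L A C ∧ (∀ x, Ini R o j (C x)) ∧ C b = C0 := by
  obtain ⟨Q, hQ, hPQ⟩ := dp_fam (A := A) (b := b) (P := fun v : Unit → U => v () ∈ C0)
    (dp_of_def1 h.1)
  refine ⟨fun x => {w | Q (Sum.elim (fun _ => w) x) ∧ ∀ w', R (o j) w' w → Q (Sum.elim (fun _ => w') x)},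
    ?_, ?_, ?_⟩
  · have h1 : Dp L A (fun v : Unit ⊕ β → U => Q (Sum.elim (fun _ => v (Sum.inl ())) (fun i => v (Sum.inr i)))) := by
      refine dp_congr hQ (fun v => ?_)
      apply iff_of_eq
      congr 1
      funext i
      rcases i with i | i <;> rfl
    have h2 : Dp L A (fun v : (Unit ⊕ β) ⊕ Unit → U =>
        R (o j) (v (Sum.inr ())) (v (Sum.inl (Sum.inl ()))) →
        Q (Sum.elim (fun _ => v (Sum.inr ())) (fun i => v (Sum.inl (Sum.inr i))))) := by
      refine dp_imp (dp_R hC (o j) _ _) ?_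
      have h3 := dp_sub hQ (Sum.elim (fun _ => Sum.inr ()) (fun i => Sum.inl (Sum.inr i)) :
        Unit ⊕ β → (Unit ⊕ β) ⊕ Unit)
      refine dp_congr h3 (fun v => ?_)
      apply iff_of_eq
      congr 1
      funext i
      rcases i with i | i <;> rfl
    exact dp_and h1 (dp_all1 h2)
  · intro x w hw w' hw'
    refine ⟨hw.2 w' hw', fun w'' hw'' => hw.2 w'' (hC.tra j _ _ _ hw'' hw')⟩
  · ext w
    constructor
    · intro hw
      exact (hPQ (fun _ => w)).2 hw.1
    · intro hw
      refine ⟨(hPQ (fun _ => w)).1 hw, fun w' hw' => (hPQ (fun _ => w')).1 (h.2 w hw w' hw')⟩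

/-- the same for one parameter -/
theorem cuf1 {A : Set U} (b : U) {j : κ} {C0 : Set U} (h : Dc L R o (insert b A) j C0) :
    ∃ C : (Unit → U) → Set U, DF L A C ∧ (∀ x, Ini R o j (C x)) ∧ C (fun _ => b) = C0 := by
  have h1 : Dc L R o (A ∪ range (fun _ : Unit => b)) j C0 := by
    refine dc_mono ?_ h
    rintro x (rfl | hx)
    · exact Or.inr ⟨(), rfl⟩
    · exact Or.inl hx
  exact cuf hC (fun _ : Unit => b) h1

/-- no exact arrays, with parameters and arbitrary finite index types -/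
theorem cod' {α β : Type} [Finite α] [Finite β] {A : Set U} (hA : A.Finite)
    {P : (α → U) → (β → U) → U → Prop}
    (hP : Dp L A (fun v : (α ⊕ β) ⊕ Unit → U =>
      P (fun i => v (Sum.inl (Sum.inl i))) (fun i => v (Sum.inl (Sum.inr i))) (v (Sum.inr ())))) :
    ∃ k, ¬ Exa P k := by
  obtain ⟨p, a, rfl⟩ := exists_enum hA
  obtain ⟨m, ⟨e⟩⟩ := Finite.exists_equiv_fin (α ⊕ Fin p)
  obtain ⟨n, ⟨e'⟩⟩ := Finite.exists_equiv_fin β
  obtain ⟨Q, hQ, hPQ⟩ := dp_fam0 hP
  have key : ∀ (x : α → U) (y : β → U) (z : U), P x y z ↔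
      Q (Sum.elim (Sum.elim (Sum.elim x y) (fun _ => z)) a) := fun x y z =>
    hPQ (Sum.elim (Sum.elim x y) (fun _ => z))
  obtain ⟨k, hk⟩ := hC.cod m n (fun x y z =>
    Q (Sum.elim (Sum.elim (Sum.elim (fun i => x (e (Sum.inl i))) (fun i => y (e' i))) (fun _ => z))
      (fun i => x (e (Sum.inr i))))) (by
    have h1 := dp_sub hQ (Sum.elim (Sum.elim (Sum.elim (fun i => Sum.inl (Sum.inl (e (Sum.inl i))))
      (fun i => Sum.inl (Sum.inr (e' i)))) (fun _ => Sum.inr ()))
      (fun i => Sum.inl (Sum.inl (e (Sum.inr i)))) :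
        ((α ⊕ β) ⊕ Unit) ⊕ Fin p → (Fin m ⊕ Fin n) ⊕ Unit)
    refine dp_congr h1 (fun v => ?_)
    apply iff_of_eq
    congr 1
    funext i
    rcases i with ((i | i) | i) | i <;> rfl)
  refine ⟨k, fun ⟨x, y, z, h⟩ => hk ?_⟩
  refine ⟨fun i => (Sum.elim (x i) a) ∘ e.symm, fun i => y i ∘ e'.symm, z, fun i j a' b' => ?_⟩
  rw [← h i j a' b', key]
  refine iff_of_eq (congrArg Q ?_)
  funext t
  rcases t with ((t | t) | t) | t
  · show Sum.elim (x i) a (e.symm (e (Sum.inl t))) = x i t
    rw [e.symm_apply_apply]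
    rfl
  · show y j (e'.symm (e' t)) = y j t
    rw [e'.symm_apply_apply]
  · rfl
  · show Sum.elim (x i) a (e.symm (e (Sum.inr t))) = a t
    rw [e.symm_apply_apply]
    rfl

end cx

end Pool.Agent.MNO
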