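import Pool.Agent.MNO.StD
import Pool.Agent.MNO.StB
import Pool.Agent.MNO.LBase

/-!
MNO: a copy of an inner piece inside one cluster of a good extreme piece (text of PMC.AEI, helper22).
-/

set_option autoImplicit false

namespace Pool.Agent.MNO

open FirstOrder.Language Set
open scoped FirstOrder
open Pool.Agent.WOM (tp Mon IsEl IsoM CtU Fx Orb)
open Pool.Agent.PMC (Ini ct Dc cel Sin Nd Ct lts ext XS Ex Fa Ll LL Itv Sm Md NPf fx_refl fx_symm
  fx_comp fx_mono comp_apply' def_img def_mono def_compl def_inter def_union def_mem def_fix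
  def_of_fix conj_of_def exists_isd exists_fin_def isEl_of_orb mem_orb orb_meets sat_fam)

section aux

variable {L : FirstOrder.Language.{0, 0}} {U : Type} [L.Structure U] {κ : Type}
  {R : κ → U → U → Prop} {o : κ → κ}

private theorem AEI_lts (hC : Cx L R o) {b : Bool} {j : κ} {C : Set U} (hI : Ini R o j C)
    {p q : U} (hp : ¬ (p ∈ C ↔ b = false)) (hq : q ∈ C ↔ b = false) : lts R o b j p q := by
  have hne : p ≠ q := by
    rintro rfl
    exact hp hq
  cases b with
  | true =>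
    have hp' : p ∈ C := by simpa using hp
    have hq' : q ∉ C := by simpa using hq
    rcases hC.tot j p q hne with h | h
    · simpa [lts] using h
    · exact absurd (hI p hp' q h) hq'
  | false =>
    have hp' : p ∉ C := by simpa using hp
    have hq' : q ∈ C := by simpa using hq
    rcases hC.tot j p q hne with h | h
    · exact absurd (hI q hq' p h) hp'
    · simpa [lts] using h

private theorem AEI_sep {b : Bool} {j : κ} {C : Set U} (hI : Ini R o j C) {w v : U}
    (h : lts R o b j w v) (hs : ¬ (w ∈ C ↔ v ∈ C)) :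
    (v ∈ C ↔ b = false) ∧ ¬ (w ∈ C ↔ b = false) := by
  cases b with
  | true =>
    have h' : R (o j) w v := by simpa [lts] using h
    have hv : v ∉ C := fun hv => hs ⟨fun _ => hv, fun _ => hI v hv w h'⟩
    have hw : w ∈ C := by
      by_contra hw
      exact hs ⟨fun h => absurd h hw, fun h => absurd h hv⟩
    simp [hv, hw]
  | false =>
    have h' : R (o j) v w := by simpa [lts] using h
    have hw : w ∉ C := fun hw => hs ⟨fun _ => hI w hw v h', fun _ => hw⟩
    have hv : v ∈ C := by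
      by_contra hv
      exact hs ⟨fun h => absurd h hw, fun h => absurd h hv⟩
    simp [hv, hw]

private theorem AEI_fix (hC : Cx L R o) {B : Set U} {j : κ} {w : U} {D : Set U}
    (hI : Ini R o j D) (hS : Sin D (cel L R o B j w)) {s : U ≃[L] U} (hs : Fx L B s)
    (h : ∀ c ∈ cel L R o B j w, c ∈ D → s c ∈ D) : ∀ c ∈ D, s c ∈ D := by
  intro c hc
  by_cases hcJ : c ∈ cel L R o B j w
  · exact h c hcJ hc
  · obtain ⟨⟨q, hqJ, hqD⟩, p, hpJ, hpD⟩ := hS
    have hex : ∃ C, Dc L R o B j C ∧ ¬ (c ∈ C ↔ w ∈ C) := by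
      by_contra hn
      refine hcJ fun C h1 => ?_
      by_contra h2
      exact hn ⟨C, h1, h2⟩
    obtain ⟨C, hC1, hC2⟩ := hex
    by_cases hcC : c ∈ C
    · have hwC : w ∉ C := fun h => hC2 ⟨fun _ => h, fun _ => hcC⟩
      have hqC : q ∉ C := fun h => hwC ((hqJ C hC1).1 h)
      have hsc : s c ∈ C := (def_mem hC1.1 hs c).2 hcC
      have hne : s c ≠ q := fun h => hqC (h ▸ hsc)
      rcases hC.tot j (s c) q hne with h1 | h1
      · exact hI q hqD _ h1
      · exact absurd (hC1.2 _ hsc _ h1) hqC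
    · have hwC : w ∈ C := by
        by_contra h
        exact hC2 ⟨fun h' => absurd h' hcC, fun h' => absurd h' h⟩
      have hpC : p ∈ C := (hpJ C hC1).2 hwC
      have hne : c ≠ p := fun h => hcC (h ▸ hpC)
      rcases hC.tot j c p hne with h1 | h1
      · exact absurd (hC1.2 p hpC c h1) hcC
      · exact absurd (hI c hc p h1) hpD

private theorem AEI_sin {C K K' : Set U} (h : Sin C K) (hK : K ⊆ K') : Sin C K' := by
  obtain ⟨⟨q, hq, hqC⟩, p, hp, hpC⟩ := h
  exact ⟨⟨q, hK hq, hqC⟩, p, hK hp, hpC⟩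

private theorem AEI_ex {C K : Set U} (h : Sin C K) (b : Bool) :
    ∃ q ∈ K, (q ∈ C ↔ b = false) := by
  obtain ⟨⟨q, hq, hqC⟩, p, hp, hpC⟩ := h
  cases b with
  | true => exact ⟨p, hp, by simp [hpC]⟩
  | false => exact ⟨q, hq, by simp [hqC]⟩

end aux

theorem thm_AEI (hPRD : St_PRD) (hAG : St_AG) (hEXB : St_EXB) (hXSP : St_XSP) (hMKO : St_MKO)
    (hASV : St_ASV) (hORD : St_ORD) : St_AEI := by
  intro L U _ κ R o hC A x y hA hx hy hyB hyX
  obtain ⟨B, hBdef⟩ : ∃ B, B = insert x A := ⟨_, rfl⟩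
  rw [← hBdef] at hyB hyX ⊢
  have hB : B.Finite := hBdef ▸ hA.insert x
  have hAB : A ⊆ B := hBdef ▸ subset_insert x A
  have hxB : x ∈ B := hBdef ▸ mem_insert x A
  have hyA : Nd L A y := nd_anti hAB hyB
  have hM := hC.mon
  obtain ⟨hX1, hX2⟩ := hXSP L U κ R o hC A B hAB hB
  -- the points of the piece of `y` are inner
  have inner : ∀ v ∈ Pc L R o B y, ∀ j b, ∃ C, Dc L R o B j C ∧
      Sin C (cel L R o A j v) ∧ ¬ (v ∈ C ↔ b = false) := by
    intro v hv j b
    have hvX : v ∉ XS L R o A B := by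
      have hcls : Cls L R o B (XS L R o A B)ᶜ := fun u z h => not_congr (hX2 u z h)
      exact pc_sub hcls hyX hv
    have hvB : Nd L B v := (pc_nd hC hv).2 hyB
    by_contra hn
    refine hvX (hX1 v j b (nd_anti hAB hvB) ⟨mem_cel A j v, fun C h1 h2 => ?_⟩)
    by_contra h3
    exact hn ⟨C, h1, h2, h3⟩
  -- the cells over `A` in the piece of `x` are cut by `B`
  have hcut : ∀ z ∈ Pc L R o A x, ∀ j, Ct L R o B j (cel L R o A j z) := fun z hz j =>
    hAG L U κ R o hC A B x z hAB hB hxB hx hz j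
  obtain ⟨j0⟩ := hC.ne
  obtain ⟨⟨a, ha⟩, -⟩ := hEXB L U κ R o hC A B j0 y false hAB hB hyA
  obtain ⟨⟨a', ha'⟩, hE2, -, -, -, hE6, -⟩ := hEXB L U κ R o hC A B j0 y true hAB hB hyA
  obtain ⟨t, htN, hta⟩ := nx_move hC hA hyA ha'.1 ha.1 true
  have ht : Fx L A t := htN.1
  have hta' : R (o j0) a' (t a) := by simpa [lts] using hta
  obtain ⟨B', hB'def⟩ : ∃ B', B' = insert (t x) A := ⟨_, rfl⟩
  have hB' : B'.Finite := hB'def ▸ hA.insert (t x)
  have hAB' : A ⊆ B' := hB'def ▸ subset_insert (t x) A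
  have hxB' : t x ∈ B' := hB'def ▸ mem_insert (t x) A
  have htB : t '' B = B' := by
    rw [hBdef, hB'def, image_insert_eq]
    congr 1
    exact (image_congr fun c hc => ht c hc).trans (image_id' A)
  have htB' : t.symm '' B' = B := by
    rw [← htB, ← image_comp]
    have : (t.symm : U → U) ∘ (t : U → U) = id := funext fun c => t.symm_apply_apply c
    rw [this, image_id]
  have hts : Fx L A t.symm := fx_symm ht
  obtain ⟨Q', hQ'⟩ : ∃ Q', Q' = Pc L R o B' (t y) := ⟨_, rfl⟩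
  have hQimg : t '' Pc L R o B y = Q' := by
    rw [hQ', ← htB]
    exact img_pc hC y t
  have hQcls : Cls L R o B' Q' := hQ' ▸ cls_pc B' (t y)
  have htyQ : t y ∈ Q' := hQ' ▸ mem_pc B' (t y)
  -- `B`- and `B'`-definable cuts
  have imgC : ∀ (j : κ) (C z : _), Dc L R o B j C → Sin C (cel L R o A j z) →
      Dc L R o B' j (t '' C) ∧ Sin (t '' C) (cel L R o A j z) := fun j C z h1 h2 =>
    ⟨htB ▸ dc_img hC h1 t, sin_img hC (fx_img_cel hC j z ht) h2⟩
  have imgC' : ∀ (j : κ) (C z : _), Dc L R o B' j C → Sin C (cel L R o A j z) →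
      Dc L R o B j (t.symm '' C) ∧ Sin (t.symm '' C) (cel L R o A j z) := fun j C z h1 h2 =>
    ⟨htB' ▸ dc_img hC h1 t.symm, sin_img hC (fx_img_cel hC j z hts) h2⟩
  have inner' : ∀ w ∈ Q', ∀ j b, ∃ C, Dc L R o B' j C ∧
      Sin C (cel L R o A j w) ∧ ¬ (w ∈ C ↔ b = false) := by
    intro w hw j b
    rw [← hQimg] at hw
    obtain ⟨v, hv, rfl⟩ := hw
    obtain ⟨C, h1, h2, h3⟩ := inner v hv j b
    obtain ⟨h4, h5⟩ := imgC j C v h1 h2
    refine ⟨t '' C, h4, ?_, ?_⟩
    · rwa [cel_eq (fx_cel hC j v ht)]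
    · rwa [t.injective.mem_set_image]
  -- (0)
  have h0a : ∀ C', Dc L R o B' j0 C' → Sin C' (cel L R o A j0 y) → a' ∈ C' := by
    intro C' h1 h2
    obtain ⟨h3, h4⟩ := imgC' j0 C' y h1 h2
    have h5 : a ∈ t.symm '' C' := (ha.2 _ h3 h4).2 rfl
    obtain ⟨c, hc, hca⟩ := h5
    have h6 : t a = c := by rw [← hca]; exact t.apply_symm_apply c
    exact h1.2 (t a) (h6 ▸ hc) a' hta'
  have h0b : ∀ C, Dc L R o B j0 C → Sin C (cel L R o A j0 y) → a' ∉ C := by
    intro C h1 h2 h3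
    have := (ha'.2 C h1 h2).1 h3
    simp at this
  have h0c : ∀ C', Dc L R o B' j0 C' → Sin C' (cel L R o A j0 y) →
      Sin C' (cel L R o B j0 a') := by
    intro C' h1 h2
    have h3 := h0a C' h1 h2
    refine ⟨⟨a', mem_cel B j0 a', h3⟩, ?_⟩
    obtain ⟨-, q, hq, hqC⟩ := h2
    refine ⟨q, ?_, hqC⟩
    rw [hE2 a' ha']
    refine hE6 a' ha' q hq (AEI_lts hC h1.2 (b := true) ?_ ?_)
    · simp [h3]
    · simp [hqC]
  -- the piece of `a'`
  have ha'x : a' ∈ Pc L R o A x := by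
    rw [← pc_eq hy]
    exact cel_sub_pc hC hA j0 y ha'.1
  have ha'X : a' ∈ XS L R o A B := by
    refine hX1 a' j0 true (nd_cel hC hyA ha'.1) ?_
    rw [cel_eq ha'.1]
    exact ha'
  obtain ⟨sg, hOri, hsg, hEA⟩ := hMKO L U κ R o hC A x a' hA hx ha'x (hBdef ▸ ha'X)
  rw [← hBdef] at hOri hsg hEA
  obtain ⟨E, hE⟩ : ∃ E, E = Pc L R o B a' := ⟨_, rfl⟩
  have hEcls : Cls L R o B E := hE ▸ cls_pc B a'
  have ha'E : a' ∈ E := hE ▸ mem_pc B a'
  -- (1)
  have h1 : t x ∈ E := by
    by_contra hn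
    obtain ⟨C0, hC01, hC02⟩ := hcut y hy j0
    obtain ⟨hD1, hD2⟩ := imgC j0 C0 y hC01 hC02
    obtain ⟨D, hD⟩ : ∃ D, D = t '' C0 := ⟨_, rfl⟩
    rw [← hD] at hD1 hD2
    have hD3 := h0c D hD1 hD2
    refine not_sin_cel (nx_cut hC hB hB' hD1 fun s hs => ?_ : Dc L R o B j0 D) a' hD3
    refine AEI_fix hC hD1.2 hD3 hs.1 fun c hcJ hcD => ?_
    obtain ⟨h, hh1, hh2, hh3⟩ := hPRD L U κ R o hC B E hB hEcls s hs
    have hcE : c ∈ E := hE ▸ cel_sub_pc hC hB j0 a' hcJ
    have hh4 : Fx L B' h := by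
      intro c hc
      rw [hB'def] at hc
      rcases hc with rfl | hc
      · exact hh3 _ hn
      · exact hh1.1 c (hAB hc)
    rw [← hh2 c hcE]
    exact (def_mem hD1.1 hh4 c).2 hcD
  -- (2)
  have h2 : x ∉ Q' := by
    intro hxQ
    obtain ⟨C, hC1, hC2⟩ := hcut y hy j0
    have h3 : ∀ c ∈ cel L R o A j0 y, c ∈ C → c ∉ Q' := by
      intro c hcK hcC hcQ
      obtain ⟨D, hD1, hD2, hD3⟩ := inner' c hcQ j0 false
      have hcD : c ∉ D := by simpa using hD3
      rw [cel_eq hcK] at hD2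
      rcases ini_total hC hC1.2 hD1.2 with h | h
      · exact hcD (h hcC)
      · exact h0b C hC1 hC2 (h (h0a D hD1 hD2))
    have h4 : Dc L R o B' j0 C := by
      refine nx_cut hC hB' hB hC1 fun s hs => ?_
      obtain ⟨g, hg1, hg2, hg3⟩ := hPRD L U κ R o hC B' Q' hB' hQcls s hs
      have hgC : ∀ c ∈ C, g c ∈ C := by
        refine AEI_fix hC hC1.2 hC2 (fx_mono hAB' hg1.1) fun c hcK hcC => ?_
        rw [hg3 c (h3 c hcK hcC)]
        exact hcC
      have hgs : Fx L B (g.symm.comp s) := by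
        intro c hc
        rw [comp_apply']
        have hgc : g c = s c := by
          rw [hBdef] at hc
          rcases hc with rfl | hc
          · exact hg2 _ hxQ
          · rw [hg1.1 c (hAB' hc), hs.1 c (hAB' hc)]
        rw [← hgc]
        exact g.symm_apply_apply c
      intro c hc
      have h5 := hgC _ ((def_mem hC1.1 hgs c).2 hc)
      rw [comp_apply'] at h5
      rwa [g.apply_symm_apply] at h5
    exact h0b C hC1 hC2 (h0a C h4 hC2)
  -- (3)
  obtain ⟨B'', hB''def⟩ : ∃ B'', B'' = insert x B' := ⟨_, rfl⟩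
  have hB'' : B''.Finite := hB''def ▸ hB'.insert x
  have hB'B : B' ⊆ B'' := hB''def ▸ subset_insert x B'
  have hBB : B ⊆ B'' := by
    rw [hBdef, hB''def]
    exact insert_subset_insert hAB'
  have h3' : ∀ v ∈ Q', ∀ j, cel L R o B'' j v = cel L R o B' j v := by
    intro v hv j
    refine cel_of_not_ct hC hB'B fun hct => h2 ((hQcls x v ⟨j, ?_⟩).2 hv)
    rw [← hB''def]
    exact hct
  have h3 : ∀ v ∈ Q', ∀ j, cel L R o B' j v ⊆ cel L R o B j v := by
    intro v hv j
    rw [← h3' v hv j]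
    exact cel_anti hBB j v
  -- (4)
  have htyE : t y ∈ E := by
    have h4 : t y ∈ cel L R o A j0 y := fx_cel hC j0 y ht
    obtain ⟨D, hD1, hD2, hD3⟩ := inner' (t y) htyQ j0 false
    have hyD : t y ∉ D := by simpa using hD3
    rw [cel_eq h4] at hD2
    have h5 := h0a D hD1 hD2
    have h6 : t y ∈ cel L R o B j0 a' := by
      rw [hE2 a' ha']
      refine hE6 a' ha' _ h4 (AEI_lts hC hD1.2 (b := true) ?_ ?_)
      · simp [h5]
      · simp [hyD]
    rw [hE]
    exact cel_sub_pc hC hB j0 a' h6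
  have h4 : Q' ⊆ E := by
    have h5 : Cls L R o B' {v | v ∈ Q' ∧ v ∈ E} := by
      have h7 : ∀ u z, Lk L R o B' u z → z ∈ Q' → Lk L R o B u z := by
        rintro u z ⟨j, hj⟩ hz
        refine lk_anti hC hBB hB'' ⟨j, ?_⟩
        rw [h3' z hz j]
        exact ct_mono (insert_subset_insert hB'B) hj
      intro u z huz
      have h6 := hQcls u z huz
      constructor
      · rintro ⟨hu1, hu2⟩
        have hz := h6.1 hu1
        exact ⟨hz, (hEcls u z (h7 u z huz hz)).1 hu2⟩
      · rintro ⟨hz1, hz2⟩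
        exact ⟨h6.2 hz1, (hEcls u z (h7 u z huz hz1)).2 hz2⟩
    intro v hv
    rw [hQ'] at hv
    exact (pc_sub h5 (show t y ∈ {v | v ∈ Q' ∧ v ∈ E} from ⟨htyQ, htyE⟩) hv).2
  rw [← hE] at hOri hsg hEA
  obtain ⟨hO1, -⟩ := hORD L U κ R o hC B E sg hOri
  -- (5)
  have h5 : ∀ v ∈ Q', ¬ Fa L R o B sg true (t x) v ∧ ¬ Fa L R o B sg false (t x) v := by
    intro v hv
    have hvE : v ∈ E := h4 hv
    have hvA : v ∈ Pc L R o A x := hEA hvE
    have hvNB : Nd L B v := hOri.nd v hvE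
    have hvNA : Nd L A v := nd_anti hAB hvNB
    obtain ⟨j⟩ := hC.ne
    obtain ⟨b, hb⟩ : ∃ b, b = sg (o j) v := ⟨_, rfl⟩
    have hvx := hsg v hvE j
    rw [← hb] at hvx
    obtain ⟨-, hb2, -, -, -, hb6, -⟩ := hEXB L U κ R o hC A B j v b hAB hB hvNA
    have hcel := hb2 v hvx
    have hxx : insert (t x) B ⊇ B' := by
      rw [hB'def]
      exact insert_subset_insert hAB
    constructor
    · intro hF
      obtain ⟨C, hC1, hC2, hC3⟩ := inner' v hv j b
      obtain ⟨q, hq, hqC⟩ := AEI_ex hC2 b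
      have hq2 : q ∈ cel L R o B j v := by
        rw [hcel]
        exact hb6 v hvx q hq (AEI_lts hC hC1.2 hC3 hqC)
      have hS : Sin C (cel L R o B j v) := by
        cases b with
        | true =>
          exact ⟨⟨v, mem_cel B j v, by simpa using hC3⟩, q, hq2, by simpa using hqC⟩
        | false =>
          exact ⟨⟨q, hq2, by simpa using hqC⟩, v, mem_cel B j v, by simpa using hC3⟩
      have h6 := hF j C (dc_mono hxx hC1) hS
      rw [← hb] at h6
      apply hC3
      rw [h6]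
      cases b <;> simp
    · intro hF
      obtain ⟨⟨w0, hw0⟩, hn2, hn3, -⟩ := hEXB L U κ R o hC A B j v (!b) hAB hB hvNA
      have hcelw := hn2 w0 hw0
      obtain ⟨⟨w, hw⟩, -⟩ := hEXB L U κ R o hC B (insert (t x) B) j w0 b (subset_insert _ _)
        (hB.insert _) (hn3 w0 hw0)
      have hwn : w ∈ ext L R o (!b) B j (cel L R o A j v) := by
        rw [← hcelw]
        exact hw.1
      obtain ⟨C, hC1, hC2⟩ := hcut v hvA j
      have hwC := hwn.2 C hC1 hC2
      have hvC := hvx.2 C hC1 hC2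
      have hwv : lts R o b j w v := by
        refine AEI_lts hC hC1.2 ?_ hvC
        rw [hwC]
        cases b <;> simp
      have hsep : ∃ D, Dc L R o B' j D ∧ ¬ (w ∈ D ↔ v ∈ D) := by
        by_contra hn
        have hwc : w ∈ cel L R o B' j v := by
          intro D hD
          by_contra h
          exact hn ⟨D, hD, h⟩
        have hwc2 := h3 v hv j hwc
        have hwc3 := (hwc2 C hC1)
        rw [hwC, hvC] at hwc3
        cases b <;> simp at hwc3
      obtain ⟨D, hD1, hD2⟩ := hsep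
      obtain ⟨hD3, hD4⟩ := AEI_sep hD1.2 hwv hD2
      have hDS : Sin D (cel L R o A j v) := by
        cases b with
        | true =>
          exact ⟨⟨w, hwn.1, by simpa using hD4⟩, v, mem_cel A j v, by simpa using hD3⟩
        | false =>
          exact ⟨⟨v, mem_cel A j v, by simpa using hD3⟩, w, hwn.1, by simpa using hD4⟩
      have hasv := hASV L U κ R o hC A x a' hA hx ha'x (hBdef ▸ ha'X) sg
      rw [← hBdef, ← hE] at hasv
      obtain ⟨v3, hv3E, hv3J, hv3S⟩ := hasv hOri hsg (t x) h1 v hvA j D (hB'def ▸ hD1) hDS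
      have hv3x := hsg v3 hv3E j
      rw [cel_eq hv3J] at hv3x
      by_cases hs3 : sg (o j) v3 = b
      · rw [hs3] at hv3x
        have hcel3 : cel L R o B j v3 = cel L R o B j v := by rw [hb2 v3 hv3x, hcel]
        rw [hcel3] at hv3S
        have h6 := hF j D (dc_mono hxx hD1) hv3S
        rw [← hb] at h6
        rw [hD3] at h6
        cases b <;> simp at h6
      · have hs4 : sg (o j) v3 = !b := by
          cases b <;> simpa using hs3
        rw [hs4] at hv3x
        have hcel3 : cel L R o B j v3 = cel L R o B j w0 := by rw [hn2 v3 hv3x, hcelw]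
        rw [hcel3] at hv3S
        exact hD4 (hw.2 D (dc_mono hxx hD1) hv3S)
  refine ⟨t, a', sg, htN, hE ▸ hOri, hE ▸ h1, hQimg ▸ h2, fun v hv => ?_⟩
  have hv2 : t v ∈ Q' := hQimg ▸ mem_image_of_mem t hv
  obtain ⟨h6, h7⟩ := h5 (t v) hv2
  refine ⟨hE ▸ h4 hv2, h6, fun h8 => h7 ?_⟩
  exact (hO1 (t v) (h4 hv2) (t x) h1 true).1 h8

end Pool.Agent.MNO
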