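import Pool.Agent.MNO.Kit

/-!
MNO: Vaught's conjecture for monadically NIP theories with a definable linear order (helper47).
Definitions.  The paper proof is in the team store (`GC_VN_helper47c.md`, sections 4-7 are those of
`GC_VN4_helper23.md`).  The build follows `Pool/Agent/GRK` (helper23, helper58) and `Pool/Agent/PMC`
(helper58); the automorphisms `Nx L A g` preserve here the classes of all `A`-definable finite
equivalence relations on TUPLES, and links are given by cuts.

`U` is the countable saturated model.  `R (o j)`, `j : κ`, is THE linear order (`κ` has one element; the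
index is kept to use the text of PMC and GRK).
-/

set_option autoImplicit false
set_option linter.unusedVariables false

namespace Pool.Agent.MNO

open FirstOrder.Language Set
open scoped FirstOrder
open Pool.Agent.WOM (tp Mon IsEl IsoM CtU Fx Orb)
open Pool.Agent.PMC (Ini ct Dc cel Sin Nd Ct lts ext XS Ex Fa Ll LL Itv Sm Md NPf)

/-- an exact array of size `k`: tuples `x i`, `y j` and ELEMENTS `z a b` such that `P (x i) (y j) (z a b)`
holds exactly for `(i, j) = (a, b)` -/
def Exa {U α β : Type} (P : (α → U) → (β → U) → U → Prop) (k : ℕ) : Prop :=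
  ∃ (x : Fin k → α → U) (y : Fin k → β → U) (z : Fin k → Fin k → U),
    ∀ i j a b, P (x i) (y j) (z a b) ↔ i = a ∧ j = b

section cells

variable (L : FirstOrder.Language.{0, 0}) {U : Type} [L.Structure U] {κ : Type}
  (R : κ → U → U → Prop) (o : κ → κ)

/-- The context: the countable saturated model `U` with a definable linear order; no formula has exact
arrays of arbitrary size. -/
structure Cx : Prop where
  mon : Mon L U
  ne : Nonempty κ
  uni : ∀ j j' : κ, j = j'
  dfn : ∀ j, (∅ : Set U).Definable L {v : Fin 2 → U | R j (v 0) (v 1)}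
  oo : ∀ j, o (o j) = o j
  irr : ∀ j x, ¬ R (o j) x x
  tra : ∀ j x y z, R (o j) x y → R (o j) y z → R (o j) x z
  tot : ∀ j x y, x ≠ y → R (o j) x y ∨ R (o j) y x
  ini : ∀ j u, Ini R o j (ct R j u)
  cod : ∀ (m n : ℕ) (P : (Fin m → U) → (Fin n → U) → U → Prop),
    Dp L (∅ : Set U) (fun v : (Fin m ⊕ Fin n) ⊕ Unit → U =>
      P (fun i => v (Sum.inl (Sum.inl i))) (fun i => v (Sum.inl (Sum.inr i))) (v (Sum.inr ()))) →
    ∃ k, ¬ Exa P k

/-- `E` is an `A`-definable equivalence relation on tuples with finitely many classes -/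
structure FE (A : Set U) {α : Type} (E : (α → U) → (α → U) → Prop) : Prop where
  dfn : Dp L A (fun v : α ⊕ α → U => E (fun i => v (Sum.inl i)) (fun i => v (Sum.inr i)))
  eqv : Equivalence E
  fin : ∃ s : Set (α → U), s.Finite ∧ ∀ x, ∃ y ∈ s, E x y

/-- the tuples `x`, `y` have the same strong type over `A` -/
def Sq (A : Set U) {α : Type} (x y : α → U) : Prop := ∀ E, FE L A E → E x y

/-- automorphisms over `A` which preserve the strong types over `A` of all finite tuples -/
def Nx (A : Set U) (g : U ≃[L] U) : Prop :=
  Fx L A g ∧ ∀ (n : ℕ) (x : Fin n → U), Sq L A x (fun i => g (x i))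

/-- `x` and `z` are linked over `A`: some cut definable over `A` and `x` is strictly inside the cell of
`z` over `A` (this is symmetric, transitive, and depends only on the cells: LKS) -/
def Lk (A : Set U) (x z : U) : Prop := ∃ j, Ct L R o (insert x A) j (cel L R o A j z)

/-- the piece of `z` over `A` (`{z}` if `z` is definable over `A`) -/
def Pc (A : Set U) (z : U) : Set U := {y | Relation.EqvGen (Lk L R o A) z y}

/-- unions of pieces over `A` -/
def Cls (A Q : Set U) : Prop := ∀ x y, Lk L R o A x y → (x ∈ Q ↔ y ∈ Q)

/-- the points between `p` and `p'` (included) -/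
def btw (j : κ) (p p' : U) : Set U := {x | ¬ R (o j) x p ∧ ¬ R (o j) p' x}

/-- Good pieces: `E` is a union of pieces over `A`, its cells are oriented by `sg`; over a finite set
`W` which meets `E` the innermost part of a cell is not linked with the outermost part of a cell. -/
structure Ori (A E : Set U) (sg : κ → U → Bool) : Prop where
  fin : A.Finite
  ne : E.Nonempty
  nd : ∀ z ∈ E, Nd L A z
  clo : Cls L R o A E
  cut : ∀ w ∈ E, ∀ z ∈ E, ∀ j, Ct L R o (insert w A) j (cel L R o A j z)
  cst : ∀ j, ∀ z ∈ E, ∀ y ∈ cel L R o A j z, sg (o j) y = sg (o j) z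
  god : ∀ B : Set U, B.Finite → A ⊆ B → (∃ w ∈ B, w ∈ E) → ∀ j, ∀ x ∈ E, ∀ y ∈ E,
    x ∈ ext L R o (!sg (o j) x) B j (cel L R o A j x) →
    y ∈ ext L R o (sg (o j) y) B j (cel L R o A j y) → ¬ Lk L R o B x y

end cells

section types

variable (L : FirstOrder.Language.{0, 0}) {U : Type} [L.Structure U]

/-- there is a bijection of `X` and `Y` which is on every finite set an automorphism in `Nx L A` -/
def SmN (A X Y : Set U) : Prop :=
  ∃ e : X ≃ Y, ∀ s : Set X, s.Finite → ∃ g : U ≃[L] U, Nx L A g ∧ ∀ x ∈ s, g x = e x

end types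

end Pool.Agent.MNO
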