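import Pool.Agent.MNO.StB
import Pool.Agent.MNO.LBase

/-!
MNO, module (text of PMC) FTW: cuts of `u` beyond `w` (helper60)
-/

set_option autoImplicit false
set_option linter.unusedVariables false

namespace Pool.Agent.MNO

open FirstOrder.Language Set
open scoped FirstOrder
open Pool.Agent.WOM (tp Mon IsEl IsoM CtU Fx Orb)
open Pool.Agent.PMC (Ini ct Dc cel Sin Nd Ct lts ext XS Ex Fa Ll LL Itv Sm Md NPf sd fx_refl fx_symm
  fx_comp fx_mono comp_apply' def_img def_mono def_compl def_inter def_union def_mem def_fix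
  def_of_fix conj_of_def exists_isd exists_fin_def isEl_of_orb mem_orb orb_meets sat_fam rel_fx
  rel_def1 rel_def2 rel_hull rel_swap def_close)

private theorem FTW_bool (s b : Bool) : (s ≠ (!b)) ↔ ¬ (s ≠ b) := by
  cases s <;> cases b <;> simp

private theorem FTW_lts {U κ : Type} (R : κ → U → U → Prop) (o : κ → κ) (s b : Bool) (j : κ)
    (x y : U) : lts R o (sd (!b) s) j x y ↔ lts R o (sd b s) j y x := by
  cases s <;> cases b <;> simp [lts, sd]

private theorem FTW_side {U κ : Type} {R : κ → U → U → Prop} {o : κ → κ} {s b : Bool} {j : κ}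
    {C : Set U} (hC : Ini R o j C) {x y : U} (h : lts R o (sd b s) j x y)
    (hx : x ∈ C ↔ s ≠ b) : y ∈ C ↔ s ≠ b := by
  cases s <;> cases b <;> simp [lts, sd] at h hx ⊢
  · exact fun hy => hx (hC y hy x h)
  · exact hC x hx y h
  · exact hC x hx y h
  · exact fun hy => hx (hC y hy x h)

private theorem FTW_img {L : FirstOrder.Language.{0, 0}} {U : Type} [L.Structure U] {A : Set U}
    {g : U ≃[L] U} (hg : Fx L A g) (u : U) : g '' (insert u A) = insert (g u) A := by
  rw [Set.image_insert_eq]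
  congr 1
  ext x
  constructor
  · rintro ⟨y, hy, rfl⟩
    rw [hg y hy]
    exact hy
  · intro hx
    exact ⟨x, hx, hg x hx⟩

theorem thm_FTW (h1 : St_FAI) (h2 : St_GPR) : St_FTW := by
  intro L U _ κ R o hC A E sg hO w hw u hu b hwu z hz j C C' hCu hC'w hCK hC'K
  obtain ⟨-, -, f3, f4, -, f6, f7, f8⟩ := h1 L U κ R o hC A E sg hO
  have hA := hO.fin
  by_contra hno
  push Not at hno
  -- points beyond `w` in the cell
  have hcel : ∀ y ∈ cel L R o A j z, cel L R o A j y = cel L R o A j z := fun y hy => cel_eq hy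
  have hsg : ∀ y ∈ cel L R o A j z, sg (o j) y = sg (o j) z := fun y hy => hO.cst j z hz y hy
  have hKb : ∀ y ∈ cel L R o A j z, Fa L R o A sg b w y → (y ∈ C ↔ sg (o j) z ≠ b) := by
    intro y hy hwy
    have e1 := hwy j C' hC'w (by rw [hcel y hy]; exact hC'K)
    rw [hsg y hy] at e1
    by_contra h3
    have h4 : y ∈ C ↔ sg (o j) z ≠ (!b) := by
      rw [FTW_bool]
      tauto
    have h5 := hno y hy h4
    tauto
  have hns : ∀ D : Set U, (∀ y ∈ cel L R o A j z, Fa L R o A sg b w y →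
      (y ∈ D ↔ sg (o j) z ≠ b)) →
      ¬ Sin D {y | y ∈ cel L R o A j z ∧ Fa L R o A sg b w y} := by
    rintro D hD ⟨⟨x, ⟨hx, hx'⟩, hxD⟩, ⟨y, ⟨hy, hy'⟩, hyD⟩⟩
    have e1 := hD x hx hx'
    have e2 := hD y hy hy'
    tauto
  have hCw : Dc L R o (insert w A) j C := by
    refine h2 L U κ R o hC A E sg hO w hw b {u} (Set.finite_singleton u)
      (Set.singleton_subset_iff.2 hu) (fun d hd => ?_) z hz j C ?_ hCK (hns C hKb)
    · rw [Set.mem_singleton_iff.1 hd]
      exact hwu
    · rw [Set.union_singleton]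
      exact hCu
  obtain ⟨v0, hv0, hwv0⟩ := f4 w hw z hz j (!b)
  obtain ⟨y0, hy0, hy0C⟩ : ∃ y ∈ cel L R o A j z, (y ∈ C ↔ sg (o j) z ≠ b) := by
    obtain ⟨⟨x, hx, hxC⟩, ⟨y, hy, hyC⟩⟩ := hCK
    by_cases hs : sg (o j) z ≠ b
    · exact ⟨x, hx, by tauto⟩
    · exact ⟨y, hy, by tauto⟩
  obtain ⟨t, ht, htl⟩ := move hC hA (hO.nd z hz) hv0 hy0 (sd (!b) (sg (o j) z))
  rw [FTW_lts] at htl
  have hinj : ∀ (g : U ≃[L] U) (D : Set U) (x : U), g x ∈ g '' D ↔ x ∈ D := by
    intro g D x
    constructor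
    · rintro ⟨y, hy, hyx⟩
      rw [← g.injective hyx]
      exact hy
    · exact fun hx => ⟨x, hx, rfl⟩
  have htCu : Dc L R o (insert (t u) A) j (t '' C) := by
    have e := dc_img hC hCu t
    rwa [FTW_img ht] at e
  have htCw : Dc L R o (insert (t w) A) j (t '' C) := by
    have e := dc_img hC hCw t
    rwa [FTW_img ht] at e
  have hv0C : v0 ∈ t '' C ↔ sg (o j) z ≠ b := by
    refine FTW_side htCu.2 htl ?_
    rw [hinj]
    exact hy0C
  obtain ⟨hE, hF⟩ := f3 t ht
  have htw : t w ∈ E := (hE w).2 hw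
  have htu : t u ∈ E := (hE u).2 hu
  have htwu : Fa L R o A sg b (t w) (t u) := (hF w hw u hu b).2 hwu
  obtain ⟨i⟩ := hC.ne
  obtain ⟨p, hp, hwp⟩ := f4 w hw (t u) htu i b
  have hpE : p ∈ E := pc_sub hO.clo htu (cel_sub_pc hC hA i (t u) hp)
  obtain ⟨r, hr, hrl⟩ := f8 (t w) htw (t u) htu i b p hp htwu
  have hrA : Fx L A r := fx_mono (Set.subset_insert _ _) hr.1
  have hru : r (t u) ∈ cel L R o A i p := by
    rw [cel_eq hp]
    exact fx_cel hC i (t u) hrA
  have hwr : Fa L R o A sg b w (r (t u)) := by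
    refine f7 w hw p hpE i b (r (t u)) hru hwp ?_
    rw [hO.cst i (t u) htu p hp]
    exact hrl
  have hrE : r (t u) ∈ E := ((f3 r hrA).1 (t u)).2 htu
  have htCr : Dc L R o (insert (r (t u)) A) j (t '' C) := by
    have e := dc_img hC htCu r
    rw [FTW_img hrA, dc_fix htCw hr.1] at e
    exact e
  have hKb' : ∀ y ∈ cel L R o A j z, Fa L R o A sg b w y → (y ∈ t '' C ↔ sg (o j) z ≠ b) := by
    intro y hy hwy
    have hlt : lts R o (sd b (sg (o j) z)) j v0 y := by
      by_contra h3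
      have hyv : y ≠ v0 := by
        rintro rfl
        exact f6 w hw y (pc_sub hO.clo hz (cel_sub_pc hC hA j z hy)) b hwy hwv0
      have h4 : lts R o (sd b (sg (o j) z)) j y v0 := by
        rcases hC.tot j y v0 hyv with h5 | h5
        · revert h3
          cases sd b (sg (o j) z) <;> simp [lts, h5]
        · revert h3
          cases sd b (sg (o j) z) <;> simp [lts, h5]
      have hyE : y ∈ E := pc_sub hO.clo hz (cel_sub_pc hC hA j z hy)
      have hv0E : v0 ∈ E := pc_sub hO.clo hz (cel_sub_pc hC hA j z hv0)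
      have h6 : Fa L R o A sg b w v0 := by
        refine f7 w hw y hyE j b v0 ?_ hwy ?_
        · rw [hcel y hy]
          exact hv0
        · rw [hsg y hy]
          exact h4
      exact f6 w hw v0 hv0E b h6 hwv0
    exact FTW_side htCu.2 hlt hv0C
  have hfin : Dc L R o (insert w A) j (t '' C) := by
    refine h2 L U κ R o hC A E sg hO w hw b {r (t u)} (Set.finite_singleton _)
      (Set.singleton_subset_iff.2 hrE) (fun d hd => ?_) z hz j (t '' C) ?_ ?_ (hns _ hKb')
    · rw [Set.mem_singleton_iff.1 hd]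
      exact hwr
    · rw [Set.union_singleton]
      exact htCr
    · exact sin_img hC (fx_img_cel hC j z ht) hCK
  have e1 := hwv0 j (t '' C) hfin (by
    rw [hcel v0 hv0]
    exact sin_img hC (fx_img_cel hC j z ht) hCK)
  rw [hsg v0 hv0, FTW_bool] at e1
  tauto

end Pool.Agent.MNO
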