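import Pool.Agent.MNO.Kit2

/-!
MNO: statements of sections 2, 3, 4 of `GC_VN_helper47c.md` (helper47), with proofs in the docstrings: bounded
level sets, links, triviality, finite equivalence relations, gluing.

Tools: `Kit.lean` (`Dp L A P`: definable properties of tuples; `dp_..`), `Kit2.lean` (`DF L A C`: definable
families of sets; `cuf`, `cuf1`: a definable cut is a member of a definable family of initial segments;
`df_mem`, `df_fx`, `df_img`, `df_def`; `cod'`: no exact arrays, with parameters; `dp_R`, `dp_lts`, `exa_mono`),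
`Base.lean` (`move`, `sat_cel`, `cel_of_not_ct`, `cel_eq_of_sin`, `exists_lts`, `sin_img`, `fx_cel`, ..).
All `j : κ` are equal (`Cx.uni`).  `K = cel L R o A j z` etc.
-/

set_option autoImplicit false
set_option linter.unusedVariables false

namespace Pool.Agent.MNO

open FirstOrder.Language Set
open scoped FirstOrder
open Pool.Agent.WOM (tp Mon IsEl IsoM CtU Fx Orb)
open Pool.Agent.PMC (Ini ct Dc cel Sin Nd Ct lts ext XS Ex Fa Ll LL Itv Sm Md NPf)

/-- a family with two arguments as a family indexed by one tuple -/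
def unc {U β : Type} (C : U → (β → U) → Set U) (w : Unit ⊕ β → U) : Set U :=
  C (w (Sum.inl ())) (fun i => w (Sum.inr i))

/-! ### Section 2: bounded level sets, links -/

/-- [BDD] (A3) `K = cel A j x`, `I = cel A j z`; the elements `y` of `K` whose cut `C y` is between `c` and `c'` are
bounded in `K`.
PROOF.  Suppose not (direction `b`): for every `w ∈ K` some `y ∈ K` beyond `w` has `c ∈ C y`, `c' ∉ C y`.
`cod'` for `P : (Fin 2 → U) → (Fin 2 → U) → U → Prop`,
`P p d u := lts R o b j (p 0) u ∧ lts R o b j u (p 1) ∧ d 0 ∈ C (fun _ => u) ∧ d 1 ∉ C (fun _ => u)` (`A`-definable: `dp_lts`,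
`df_mem`) gives `k`.  `R (o j) c c'` (as `c ∈ C y`, `c' ∉ C y`, `C y` initial, `c ≠ c'`) and by `move` in `I`, recursively,
automorphisms `g_0 = id, g_1, ..` over `A` with `R (o j) (g_m c') (g_(m+1) c)`.  For every `m` and every `w ∈ K`
some `y ∈ K` beyond `w` has `g_m c ∈ C y`, `g_m c' ∉ C y` (apply `g_m` to the point for `g_m⁻¹ w`; `df_fx`).
Choose recursively `p_0 ∈ K`; for `m < k` points `u_(n,m) ∈ K` beyond `p_n` with `g_m c ∈ C u`, `g_m c' ∉ C u`, and
`p_(n+1) ∈ K` beyond all `u_(n,m)`, `m < k` (`exists_lts` for a bound).  Rows `(p_n, p_(n+1))`, columns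
`(g_m c, g_m c')`, codes `u_(n,m)`: exact, since `g_m c ∈ C u`, `g_m c' ∉ C u` holds for at most one `m` (for
`m < m'`: `g_m' c ∈ C u` implies `g_m c' ∈ C u`). -/
def St_BDD : Prop :=
  ∀ (L : FirstOrder.Language.{0, 0}) (U : Type) [L.Structure U] (κ : Type) (R : κ → U → U → Prop)
    (o : κ → κ), Cx L R o → ∀ (A : Set U) (j : κ) (x z : U) (b : Bool) (C : (Unit → U) → Set U),
    A.Finite → Nd L A x → Nd L A z → DF L A C → (∀ y, Ini R o j (C y)) →
    ∀ c ∈ cel L R o A j z, ∀ c' ∈ cel L R o A j z, ∃ w ∈ cel L R o A j x,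
      ∀ y ∈ cel L R o A j x, c ∈ C (fun _ => y) → c' ∉ C (fun _ => y) → ¬ lts R o b j w y

/-- [LNK] linked cells are cut by the same sets.  `I = cel A j x`, `K = cel A j y`; `y` cuts `I`, `B` cuts `I`.
PROOF.  Let `D` be `B`-definable, strictly inside `I`; `C` a definable family over `A` of initial segments
with `C y` strictly inside `I` (`cuf1`; write `C u` for `C (fun _ => u)`).  Suppose that `B` does not cut `K`:
`K = cel B j y` (`cel_of_not_ct`); `y` is not definable over `B` (otherwise `cel B j y = {y}`, `cel_def`, but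
`exists_lts`).  For `u ∈ K ∩ Orb A y`: `C u` is strictly inside `I` (image under an automorphism over `A`).
For an automorphism `g` over `A` let `S g = {u ∈ K | u ∈ Orb A y, D ⊂ C u ⊂ g '' D}` (strict inclusions).
Choose by `move` in `I` first `u0 ∈ Orb A y ∩ K` (an image `h y`, in `K` by `fx_cel`) such that `C u0` contains
a point of `I \ D`, then `g` over `A` such that `g '' D` contains a point of `I \ C u0`.  (All these sets are
initial segments, so they are comparable: `ini_total`.)  So `u0 ∈ S g`.  With `c ∈ I ∩ D`, `c' ∈ I \ g '' D` all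
`u ∈ S g` have `c ∈ C u`, `c' ∉ C u`, so by BDD (both directions) `S g` is between `p`, `p' ∈ K`.  `move` over `B` in
`K = cel B j y`: `h` over `B` with `R (o j) p' (h p)`.  Then `h '' S g = S (h g)` (`h '' D = D`, `h '' K = K`,
`df_img`, orbits over `A` are preserved) is above `p'`, so disjoint from `S g`, and nonempty; but
`g '' D`, `h '' (g '' D)` are comparable, so one of `S g`, `S (h g)` contains the other: contradiction. -/
def St_LNK : Prop :=
  ∀ (L : FirstOrder.Language.{0, 0}) (U : Type) [L.Structure U] (κ : Type) (R : κ → U → U → Prop)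
    (o : κ → κ), Cx L R o → ∀ (A B : Set U) (j : κ) (x y : U), A ⊆ B → B.Finite → Nd L A x →
    Nd L A y → Ct L R o (insert y A) j (cel L R o A j x) → Ct L R o B j (cel L R o A j x) →
    Ct L R o B j (cel L R o A j y)

/-- [LKS] links: symmetric, transitive, dependent only on the cells; sets which cut a cell cut the linked
cells; pieces.
PROOF.  (1) `Lk A y x`, i.e. `insert y A` cuts `cel A j x`; LNK with `B := insert x A` (which cuts `cel A j x`:
`sin_self`, `lt_dc`; finite) gives that `insert x A` cuts `cel A j y`, i.e. `Lk A x y`.  (2) `Lk A x y`, `Lk A y w`: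
by (1) `insert w A` cuts `cel A j y`; and `insert x A` cuts `cel A j y`.  LNK with `(x, y, B) := (y, w, insert x A)`:
`insert w A` cuts `cel A j y`, `insert x A` cuts it, so `insert x A` cuts `cel A j w`: `Lk A x w`.
(3) `lk_cel2` and (1).  (4) LNK with `(x, y) := (x, y)`: `Lk A y x` by (1).  (5) induction along `EqvGen` with (1),
(2) and `lk_nd`, `lk_self`; conversely `EqvGen.rel`. -/
def St_LKS : Prop :=
  ∀ (L : FirstOrder.Language.{0, 0}) (U : Type) [L.Structure U] (κ : Type) (R : κ → U → U → Prop)
    (o : κ → κ), Cx L R o → ∀ A : Set U, A.Finite →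
    (∀ x y, Lk L R o A x y → Lk L R o A y x) ∧
    (∀ x y w, Lk L R o A x y → Lk L R o A y w → Lk L R o A x w) ∧
    (∀ j x x' y y', x' ∈ cel L R o A j x → y' ∈ cel L R o A j y → Lk L R o A x y →
      Lk L R o A x' y') ∧
    (∀ B j x y, A ⊆ B → B.Finite → Lk L R o A x y → Ct L R o B j (cel L R o A j x) →
      Ct L R o B j (cel L R o A j y)) ∧
    ∀ x y, y ∈ Pc L R o A x ↔ y = x ∨ Lk L R o A x y

/-! ### Section 3: triviality -/

/-- [FIX] moving by automorphisms which preserve the classes of a finite invariant equivalence relation.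
PROOF.  `H` = the automorphisms `h` over `A` with `S u (h u)` for all `u`: a group.  `F` a finite set of
representatives.  For `g` over `A` let `π g : F → F` with `S (g u) (π g u)`.  There are finitely many functions
`F → F`; so there is a finite set `T` of automorphisms over `A` such that every `g` over `A` has `π g = π t` for some
`t ∈ T`; then `S (g u) (t u)` for `u ∈ F`, so (invariance) `S (t⁻¹ g u) u` for `u ∈ F`, and for all `u` (`S u u'`, `u' ∈ F`):
`t⁻¹ g ∈ H`.  Let `b = true` (for `b = false` the same with final segments, or `y ≤`).  Suppose no `h ∈ H` has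
`x < h y`.  Let `G = {v | ∃ h ∈ H, ¬ R (o j) (h y) v}` (initial segment; `y ∈ G`; points of `K` above `x` are not in
`G`, there are such points, `exists_lts`).  For `g` over `A`: `g '' G = t '' G` where `g = t h`, `h ∈ H` (`h '' G = G`
for `h ∈ H`).  So `{g '' G}` is a finite set of initial segments, linearly ordered by inclusion (`ini_total`)
and permuted by the automorphisms over `A`, so all `g '' G = G` (take a maximal element `M`: `g '' M ⊆ M` for all
`g`, also for `g⁻¹`, so `g '' M = M`; `G` is an image of `M`).  `move` in `K`: `g` over `A` with `g y` above a point of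
`K \ G`; `g y ∈ g '' G = G`: contradiction. -/
def St_FIX : Prop :=
  ∀ (L : FirstOrder.Language.{0, 0}) (U : Type) [L.Structure U] (κ : Type) (R : κ → U → U → Prop)
    (o : κ → κ), Cx L R o → ∀ (α : Type) [Finite α] (A₀ A : Set U)
    (S : (α → U) → (α → U) → Prop), A₀ ⊆ A → A.Finite → Equivalence S →
    (∀ g : U ≃[L] U, Fx L A₀ g → ∀ u v, S u v → S (fun i => g (u i)) (fun i => g (v i))) →
    (∃ F : Set (α → U), F.Finite ∧ ∀ u, ∃ v ∈ F, S u v) →
    ∀ (j : κ) (z : U) (b : Bool), Nd L A z → ∀ x ∈ cel L R o A j z, ∀ y ∈ cel L R o A j z,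
      ∃ h : U ≃[L] U, Fx L A h ∧ (∀ u, S u (fun i => h (u i))) ∧ lts R o b j x (h y)

/-- [RMS] combinatorial lemma.
PROOF.  Greedy.  We may assume `r ≥ 1`, `k ≥ 1`.  Let `m = r ^ (2 * k) * (2 * k)` (any large number) and
`N = r ^ m + m` or larger (so that the following `m` steps are possible: after `i` steps the set `X_i` has
at least `2` elements for `i ≤ m`).  `X_0 = X`; given `X_(i-1)` with at least two elements choose `a ≠ b` in it, `f_i = f a b`;
`X_i` = a largest fibre of `f_i` on `X_(i-1)` (at least `|X_(i-1)| / r` elements), `a_i ∈ X_(i-1) \ X_i` (exists, `f_i` is not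
constant on `X_(i-1)`).  Let `b ∈ X_m`.  Then `f_i a_i ≠ f_i b` and `f_i a_j = f_i b` for `j > i`.  From the top: `J_0` =
`{1..m}`; given `J_(s-1)` nonempty let `i_s` be its largest element and `J_s` = a largest fibre of
`j ↦ f_(i_s) a_j` on `J_(s-1) \ {i_s}`.  After `2 k` steps we have indices `t_1 < t_2 < .. < t_(2k)` such that
`f_(t_q)` is constant on the `a_(t_p)`, `p < q`.  Take the pairs `(a_(t_(2i-1)), a_(t_(2i)))` and the functions `f_(t_(2i-1))`,
`i = 1..k`: for `j = i` the values are `f a_(t_(2i-1)) ≠ f b = f a_(t_(2i))`; for `j > i` both are `f b`; for `j < i` both are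
the constant.
(For the induction in Lean it may be easier to prove separately: (P1) for all `m` there is `N` such that there are
sequences `a : Fin m → X`, `g : Fin m → X × X` and `b`; (P2) for all `n` there is `m` such that every family of
functions `φ_i` on `Fin m` with at most `r` values has a subset of `n` indices `t` with `φ_(t_q)` constant on
the smaller ones: induction on `n`, taking away the largest index.) -/
def St_RMS : Prop :=
  ∀ k r : ℕ, ∃ N : ℕ, ∀ (X V : Type) [Finite X] (f : X → X → X → V), N ≤ Nat.card X →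
    (∀ a b, a ≠ b → f a b a ≠ f a b b) → (∀ a b, (range (f a b)).ncard ≤ r) →
    ∃ (c : Fin k → X × X) (a b : Fin k → X), (∀ i, (c i).1 ≠ (c i).2) ∧
      ∀ i j, f (c i).1 (c i).2 (a j) = f (c i).1 (c i).2 (b j) ↔ i ≠ j

/-- [CAP] an element has a bounded number of different cuts strictly inside a cell.
PROOF.  `cod'` for `P : (Fin 2 × β → U) → (Unit → U) → U → Prop`,
`P x y w := w ∈ C (y ()) (fun k => x (1, k)) ∧ w ∉ C (y ()) (fun k => x (0, k))` gives `k`; `r := k + 1`.  Suppose that
`C v (x i)`, `i < k + 1`, are pairwise different and strictly inside `K = cel B j z`.  They are initial segments, so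
linearly ordered by inclusion (`ini_total`); reindex (`Finset.orderEmbOfFin`, or `exists` a permutation; the
relation `C v (x i) ⊂ C v (x i')` is a linear order on `Fin (k+1)`) so that `C v (x i) ⊂ C v (x (i+1))`.  Let `e, e' ∈ K` with
`e ∈ C v (x i)`, `e' ∉ C v (x i)` for all `i` (the first and the last one).  `move` over `B` in `K`: `g_0 = id, g_1, ..` over
`B` with `R (o j) (g_m e') (g_(m+1) e)`, `v_m = g_m v`: `C v_m (x i) = g_m '' C v (x i)` (`x i` is in `B`).  Codes: `w_(i,m) ∈
C v_m (x (i+1)) \ C v_m (x i)`; rows `(x i, x (i+1))`, columns `v_m`, `i, m < k`: exact, because `w_(i,m)` is not below `g_m e` and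
is below `g_m e'`, and the differences for different `m` are separated by these points. -/
def St_CAP : Prop :=
  ∀ (L : FirstOrder.Language.{0, 0}) (U : Type) [L.Structure U] (κ : Type) (R : κ → U → U → Prop)
    (o : κ → κ), Cx L R o → ∀ (A : Set U) (β : Type) [Finite β] (j : κ)
    (C : U → (β → U) → Set U), A.Finite → DF L A (unc C) → (∀ v x, Ini R o j (C v x)) →
    ∃ r : ℕ, ∀ (B : Set U) (z v : U) (x : Fin r → β → U), A ⊆ B → B.Finite → Nd L B z →
      (∀ i k, x i k ∈ B) → (∀ i, Sin (C v (x i)) (cel L R o B j z)) →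
      ∃ i i', i < i' ∧ C v (x i) = C v (x i')

/-- the relation of C1 for the direction `b`: the families of cuts `C v x` and `C v x'` agree inside the
extreme part of `K = cel A j z` over `x`, `x'` -/
def Apx {L : FirstOrder.Language.{0, 0}} {U : Type} [L.Structure U] {κ : Type}
    (R : κ → U → U → Prop) (o : κ → κ) (A : Set U) {β : Type} (j : κ) (z : U) (b : Bool)
    (C : U → (β → U) → Set U) (x x' : β → U) : Prop :=
  ∀ v, (Sin (C v x) (ext L R o b (A ∪ (range x ∪ range x')) j (cel L R o A j z)) ∨
    Sin (C v x') (ext L R o b (A ∪ (range x ∪ range x')) j (cel L R o A j z))) → C v x = C v x'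

/-- [EQX] (C1) `Apx` is an invariant equivalence relation with finitely many classes.
PROOF.  `K = cel A j z`, for finite `B ⊇ A` `K^B = ext b B j K`, a cell over `B` (EXB (1), (2), (3) of StB; `K^B' ⊆ K^B` for
`B ⊆ B'`).  WITNESS: if `Apx x x'` fails and `B ⊇ A ∪ range x ∪ range x'` is finite then there is `v` with
`C v x ≠ C v x'` and `C v x` or `C v x'` strictly inside `K^B`: take a witness `v` for `B0 = A ∪ (range x ∪ range x')` and
`g` over `B0` which moves a point of `K^B0` in the cut (`b = true`) or not in the cut (`b = false`) beyond a point of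
`K^B` (EXB (5) with `Fx`, i.e. `move` over `B0` in `K^B0 = cel B0 j _`); `C (g v) x = g '' C v x`, `C (g v) x' = g '' C v x'`.
Equivalence: reflexive, symmetric clear (`union_comm`); transitive: if `Apx x x''` fails take a witness `v` for
`B = A ∪ range x ∪ range x' ∪ range x''`; say `C v x` strictly inside `K^B ⊆ K^{x,x'}`, so `C v x = C v x'`, which is strictly
inside `K^B ⊆ K^{x',x''}`, so `C v x' = C v x''`.  Contradiction.  Invariance: `ext`, `cel`, `C` are mapped by `g`
(`df_img`, `sin_img`, images of `ext`).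
Finitely many classes: `r` from CAP; `k` from `cod'` for `P : (Fin 2 × β → U) → (Fin 2 → U) → U → Prop`,
`P x d v := C v (x 0) ≠ C v (x 1) ∧ (btw (C v (x 0)) ∨ btw (C v (x 1)))` where `btw D := d 0 ∈ D ∧ d 1 ∉ D` if `b = true` (`d 0 < d 1`),
and the same if `b = false`; `N` from RMS for `k` and `r + 1`.  Suppose there are `N` pairwise inequivalent tuples
`x_i`, `i : Fin N` (if there is no finite set of representatives then there are arbitrarily many
inequivalent ones).  `B = A ∪ ⋃ range x_i`; `v_(i,i')` = witness for `x_i`, `x_i'` and `B`.  `f i i' l := some (C v_(i,i') x_l)` if this is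
strictly inside `K^B` and `none` otherwise: `f i i' i ≠ f i i' i'`, at most `r + 1` values (CAP for the cell `K^B` over `B`).
RMS: pairs `(a_j, b_j)` and elements `v_j`.  Points `d_0, d_1, ..` in `K^B`, in the direction of the order, and
automorphisms `g_m` over `B` such that for `v_(j,m) = g_m v_j` all cuts `C v_(j,m) x_l` which are strictly inside `K^B` are
between `d_m` and `d_(m+1)` (contain `d_m`, not `d_(m+1)`), `j, m < k`: choose `d_0`; given `d_m` take one `g_(j,m)` for every `j`
which moves a point of `K^B` contained in all these (finitely many) cuts above `d_m`, then `d_(m+1)` above all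
the cuts.  Rows `(x_(a_j), x_(b_j))`, columns `(d_m, d_(m+1))`, codes `v_(j,m)`: exact array (a cut which is not strictly
inside `K^B` contains all or none of the points `d_m`). -/
def St_EQX : Prop :=
  ∀ (L : FirstOrder.Language.{0, 0}) (U : Type) [L.Structure U] (κ : Type) (R : κ → U → U → Prop)
    (o : κ → κ), Cx L R o → ∀ (A : Set U) (β : Type) [Finite β] (j : κ) (z : U) (b : Bool)
    (C : U → (β → U) → Set U), A.Finite → Nd L A z → DF L A (unc C) → (∀ v x, Ini R o j (C v x)) →
    Equivalence (Apx (L := L) R o A j z b C) ∧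
    (∀ g : U ≃[L] U, Fx L A g → ∀ x x', Apx (L := L) R o A j z b C x x' →
      Apx (L := L) R o A j z b C (fun i => g (x i)) (fun i => g (x' i))) ∧
    ∃ F : Set (β → U), F.Finite ∧ ∀ x, ∃ y ∈ F, Apx (L := L) R o A j z b C x y

/-- [TR2] triviality for two elements.
PROOF.  `K = cel A j z`.  Suppose `D` is an `insert a (insert b A)`-definable cut strictly inside `K`.  By `cuf` (tuple
`(a, b)`) there is a family `C : U → (Unit → U) → Set U` over `A` of initial segments with `C a (fun _ => b) = D`; write
`C v x` for `C v (fun _ => x)`.  `K` is a cell over `insert a A` and over `insert b A`, also over `insert β A` for `β` in the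
orbit `X` of `b` over `A` (`cel_of_not_ct`), and `z` is not definable over these sets.
`S x x' := Apx true x x' ∧ Apx false x x'`: by EQX an `A`-invariant equivalence relation with finitely many classes (on
`Unit → U`, identified with `U`).  For `r, r' ∈ K` with `R (o j) r r'` put `In r r' E := r ∈ E ∧ r' ∉ E` and
`Ar r r' x x' := ∀ v, (In r r' (C v x) ∨ In r r' (C v x')) → C v x = C v x'`: an equivalence relation in `x, x'`, definable over
`A` in `(r, r', x, x')`; `Ar r r' → Ar s s'` if `r ≤ s < s' ≤ r'`.
`k` := from `cod'` for `P (x, b') (r, r', s, s') w := Ar r r' x w ∧ Ar s s' b' w` (rows `(x, b')`, columns `(r, r', s, s')`).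
We construct an exact `k`-array.  FIX (over `insert a A`, for `S`, invariant over `A`): automorphisms `h_1 = id, h_2, ..,
h_N` over `insert a A`, `N = k + 4`, preserving all `S`-classes, with `h_i '' D = C a (h_i b)` pairwise different (move a point
of `K` in `D` above a point of `K` outside of the previous cut).  `b_i = h_i b`: `S b b_i`.  Choose `p, p' ∈ K` with
`p ∈ ext false B j K`, `p' ∈ ext true B j K` where `B = A ∪ {b_1, .., b_N}` (EXB (1), (4)) and `p ∈ C a b_i`, `p' ∉ C a b_i` for all
`i`.  Then the `b_i` are pairwise not `Ar p p'` (witness `a`), and `Ar r r' b_i b_l` for `r < r' ≤ p` or `p' ≤ r < r'` in `K`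
(from `S b_i b_l`: if `In r r' (C v b_i)` then `C v b_i` is strictly inside `ext false B j K`, which contains `r, r'` (EXB (6)),
so inside `ext false (A ∪ {b_i, b_l}) j K`; `Apx false`; the same with `true`).
STAGES.  `β_n^0 = b` for `n < k`, `q_0 ∈ K`.  Given `β_n^(t-1)`, all in the set `X0 = {h b | h over A preserving all
S-classes}`, and `q_(2t-2) ∈ K`: choose `q_(2t-1) ∈ K` above it (`exists_lts`); for every `n` let `β_n^(t-1) = h b`; FIX over
`insert β A`, `β = β_n^(t-1)` (`K` is a cell over it): `h'` over `insert β A` preserving all `S`-classes with `h' (h p)`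
above `q_(2t-1)`; `g_n = h' h`: `g_n b = β_n^(t-1)`, `g_n p` above `q_(2t-1)`.  `q_(2t) ∈ K` above all `g_n p'`.  The elements
`g_n b_i` (`i ≤ N`) are pairwise not `Ar q_(2t-1) q_(2t)`; so one of them, `β_n^t`, is not `Ar q_(2t-1) q_(2t)`-equivalent to
`b` nor to any `β_m^t`, `m < n` (choose successively in `n`), `N > k + 1`.  It is in `X0` and `Ar r r' (β_n^t) (β_n^(t-1))` for
all intervals `(r, r')` in `K` with `r' ≤ q_(2t-1)` or `q_(2t) ≤ r`.
ARRAY.  Write `Ar_t` for `Ar q_(2t-1) q_(2t)`, `t = 1..k+1`.  Then `Ar_t β_m^s β_m^t` if `s ≥ t`, `Ar_t β_m^s b` if `s < t` (change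
one stage at a time), and `b, β_1^t, .., β_k^t` are pairwise not `Ar_t` for `t ≤ k + 1`.  Rows `(β_n^(k+1), b)`, `n ≤ k`, columns
`(q_(2t-1), q_(2t), q_(2t+1), q_(2t+2))`, `t ≤ k`, codes `w = β_m^s`, `m, s ≤ k`: `Ar_t β_n^(k+1) β_m^s` iff (`m = n` and `s ≥ t`), and
`Ar_(t+1) b β_m^s` iff `s < t + 1`.  So `P` holds iff `m = n`, `s = t`. -/
def St_TR2 : Prop :=
  ∀ (L : FirstOrder.Language.{0, 0}) (U : Type) [L.Structure U] (κ : Type) (R : κ → U → U → Prop)
    (o : κ → κ), Cx L R o → ∀ (A : Set U) (j : κ) (z a b : U), A.Finite → Nd L A z →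
    ¬ Ct L R o (insert a A) j (cel L R o A j z) → ¬ Ct L R o (insert b A) j (cel L R o A j z) →
    ¬ Ct L R o (insert a (insert b A)) j (cel L R o A j z)

/-- [TRV] triviality.
PROOF.  Let `B = A ∪ {b_1, .., b_n}`.  Induction on `n` (for all `A ⊆ B`, `B \ A` with `n` elements): `n ≤ 1` clear (`n = 0`:
`not_sin_cel`; `insert b A`).  `n ≥ 2`: `A' = A ∪ {b_1, .., b_(n-2)}`; by the induction hypothesis `K` is not cut by `A'`,
`insert b_(n-1) A'`, `insert b_n A'`; so `K = cel A' j z` (`cel_of_not_ct`), `z` is not definable over `A'` (`cel_def`,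
`exists_lts`), TR2 over `A'`. -/
def St_TRV : Prop :=
  ∀ (L : FirstOrder.Language.{0, 0}) (U : Type) [L.Structure U] (κ : Type) (R : κ → U → U → Prop)
    (o : κ → κ), Cx L R o → ∀ (A B : Set U) (j : κ) (z : U), A ⊆ B → B.Finite → Nd L A z →
    (∀ b ∈ B, ¬ Ct L R o (insert b A) j (cel L R o A j z)) → ¬ Ct L R o B j (cel L R o A j z)

/-- [NNL] no new links; unions of pieces over larger sets.
PROOF.  (1) TRV and `cel_of_not_ct` (`¬ Lk A b z` means `¬ Ct (insert b A) j (cel A j z)` for all `j`).
(2) Let `Lk B u v` (so both are not definable over `B` nor over `A`, `lk_nd`, `nd_anti`).  FIRST CASE: all points of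
`B \ A` are in `Q`.  Suppose `u ∈ Q`, `v ∉ Q` (the other case by LKS (1) over `B`).  No point of `B` or `u` is linked
to `v` over `A` (`Cls`; points of `A` and definable points are never linked, `lk_nd`; `A`-points: not `Nd`), so by TRV
for `insert u B`: `¬ Ct (insert u B) j (cel A j v)`, and `cel B j v = cel A j v` by (1): contradiction to `Lk B u v`.
GENERAL CASE: `B1 = A ∪ (B ∩ Q)`: `Cls B1 Q` by the first case, so `Cls B1 Qᶜ` (`cls_compl`), and all points of `B \ B1`
are in `Qᶜ`: `Cls B Qᶜ` by the first case, so `Cls B Q`.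
(3) (2) for `Q = Pc A z` (`cls_pc`): `u ∈ Pc A z`, and LKS (5), `u ≠ z` or `lk_self`.  (4) (2) for `Pc A z` and `pc_sub`.
(5) `cel`: (1), since `b ∈ B` is not in `Q`, so not linked to `z` over `A`.  `Pc`: `⊆` (4).  `⊇`: `y ∈ Pc A z`, `y ≠ z`: `Lk A z y`
(LKS (5)), `y ∈ Q`; `cel B j y = cel A j y`; so `Ct (insert z A) j (cel B j y)`, `Ct (insert z B) j (cel B j y)` (`ct_mono`): `Lk B z y`. -/
def St_NNL : Prop :=
  ∀ (L : FirstOrder.Language.{0, 0}) (U : Type) [L.Structure U] (κ : Type) (R : κ → U → U → Prop)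
    (o : κ → κ), Cx L R o → ∀ (A B : Set U), A ⊆ B → B.Finite →
    (∀ z, (∀ b ∈ B, ¬ Lk L R o A b z) → ∀ j, cel L R o B j z = cel L R o A j z) ∧
    (∀ Q, Cls L R o A Q → Cls L R o B Q) ∧
    (∀ u z, Lk L R o B u z → Lk L R o A u z) ∧
    (∀ z, Pc L R o B z ⊆ Pc L R o A z) ∧
    (∀ Q, Cls L R o A Q → Disjoint Q B → ∀ z ∈ Q,
      (∀ j, cel L R o B j z = cel L R o A j z) ∧ Pc L R o B z = Pc L R o A z)

/-! ### Section 4: strong types and gluing -/

/-- [OFL] an open invariant equivalence relation with finitely many classes on an orbit is refined by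
strong types.
PROOF.  `p = {u | ∃ g over A, u = g x0}` (`= {u | all A-definable properties of x0}`: `dp_hom`, `dp_fx`).  Let `u_1, .., u_m ∈ p`
represent the classes of `S` on `p`.  Step 1: there is one `A`-definable `E` on `α ⊕ α` with `E → S` on `p × p` and such
that every `u ∈ p` has `E (u, u_a)` for some `a`: otherwise, by saturation (`dp_sat` over `A ∪ ⋃ range u_a`) for the family
of the `A`-definable properties of `x0` and of the negations of the `E(·, u_a)` (`E` as in `hop`; finite disjunctions
are again such) there is `u ∈ p` with no `E (u, u_a)`, contradiction to `hop` for `S u u_a`.  Make `E` symmetric and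
reflexive (`E' u v := E u v ∨ E v u ∨ u = v`).  Step 2: there is an `A`-definable `ρ` with `ρ x0` such that (i) every `u` with
`ρ u` has `E (u, u_a)` for some `a`, (ii) if `ρ u`, `ρ v`, `E u_a u`, `E u v`, `E v u_b` then `S u_a u_b` (saturation: otherwise there is
`u ∈ p` violating (i), or, for one of the finitely many pairs `(a, b)` with `¬ S u_a u_b`, `u, v ∈ p` with `E u_a u`, `E u v`,
`E v u_b`, so `S u_a u_b`).  `F u v := (¬ρ u ∧ ¬ρ v) ∨ (ρ u ∧ ρ v ∧ Relation.EqvGen (fun u v => ρ u ∧ ρ v ∧ E u v) u v)`.  It is an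
equivalence relation, invariant over `A`; every `u` with `ρ u` is equivalent to some `u_a` (`ρ u_a`): at most `m + 1` classes.
`F u v` with `ρ u`, `ρ v` iff for some `a, b` with `F u_a u_b`: `E u u_a` and `E v u_b` (→: choose by (i), ←: clear): so `F` is definable
over `⋃ range u_a ∪ A`, so over `A` (`dp_inv`).  `F ∈ FE L A`.  Finally let `u, v ∈ p`, `Sq u v`: `F u v`; `E u u_a`, `E v u_b` and a path from
`u_a` to `u_b` in `ρ`; every point of the path is `E`-related to some `u_c`; by (ii) consecutive ones are `S`-related, so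
`S u_a u_b`, and `S u u_a`, `S v u_b` (`E → S` on `p`). (In Lean: show by induction on `EqvGen` that for `u, v` with `ρ` and
`E u u_a`, `E v u_b` : `S u_a u_b`.) -/
def St_OFL : Prop :=
  ∀ (L : FirstOrder.Language.{0, 0}) (U : Type) [L.Structure U] (κ : Type) (R : κ → U → U → Prop)
    (o : κ → κ), Cx L R o → ∀ (α : Type) [Finite α] (A : Set U) (x0 : α → U)
    (S : (α → U) → (α → U) → Prop) (p : Set (α → U)), A.Finite →
    p = {u | ∃ g : U ≃[L] U, Fx L A g ∧ u = fun i => g (x0 i)} →
    (∀ g : U ≃[L] U, Fx L A g → ∀ u v, S u v → S (fun i => g (u i)) (fun i => g (v i))) →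
    (∀ u ∈ p, S u u) → (∀ u ∈ p, ∀ v ∈ p, S u v → S v u) →
    (∀ u ∈ p, ∀ v ∈ p, ∀ w ∈ p, S u v → S v w → S u w) →
    (∃ F ⊆ p, F.Finite ∧ ∀ u ∈ p, ∃ v ∈ F, S u v) →
    (∀ u ∈ p, ∀ v ∈ p, S u v → ∃ E : (α ⊕ α → U) → Prop, Dp L A E ∧ E (Sum.elim u v) ∧
      ∀ u' ∈ p, ∀ v' ∈ p, E (Sum.elim u' v') → S u' v') →
    ∀ u ∈ p, ∀ v ∈ p, Sq L A u v → S u v

/-- [GLM] (G) strong types over an additional far element.
PROOF.  `K = cel A j z`, `q` = the orbit of `v` over `A`, `p` = the orbit of `x` over `A`.  Let `E1 ∈ FE L (insert v A)`; show `E1 x x'`.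
By `dp_fam1` there is an `A`-definable `E : (α ⊕ α) ⊕ Unit → U` with `E1 u u' ↔ E (u, u', v)`.  For `v' = g v` in `q` the relation
`E(·,·,v')` is an equivalence relation with at most `r` classes (`r` = number of classes of `E1`; transport by `g`).
`S u u' := ∀ v' ∈ q ∩ K, v' ∈ ext b (A ∪ range u) j K → v' ∈ ext b (A ∪ range u') j K → E (u, u', v')`.  OFL for `S`:
invariant: clear.  Reflexive, symmetric: clear.  Transitive on `p`: let `S u1 u2`, `S u2 u3`, `v'` extreme over `u1`, `u3`,
so by hypothesis over `B = A ∪ range u1 ∪ range u3`; EXB (2), (5) / `move` over `B` in `ext b B j K` (a cell over `B`): `g` over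
`B` such that `g v'` is beyond a point of `ext b (B ∪ range u2) j K`, so in this set (EXB (6)); `E (u1, u2, g v')`,
`E (u2, u3, g v')`, so `E (u1, u3, g v')`, so `E (u1, u3, v')` (`dp_fx`).
Finitely many classes: `k` from `cod'` for `P : (Fin 2 × α → U) → (Fin 2 → U) → U → Prop`,
`P u d v' := lts b j (d 0) v' ∧ lts b j v' (d 1) ∧ ¬ E (u 0, u 1, v')`; `N` from RMS for `k`, `r`.  Suppose `u_1, .., u_N ∈ p` pairwise
not `S`-related; `B = A ∪ ⋃ range u_i`.  For `i ≠ i'` there is `v_(i,i') ∈ q ∩ ext b B j K` with `¬ E (u_i, u_i', v_(i,i'))` (moved as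
above).  `f i i' l` := the `E(·,·,v_(i,i'))`-class of `u_l` (a set of tuples): at most `r` values, `f i i' i ≠ f i i' i'`.  RMS: pairs
`(a_l, b_l)` and `v_l`, `l < k`.  Recursively points `d_m` of `ext b B j K`, each beyond the previous one, and automorphisms
`g_(l,m)` over `B` with `g_(l,m) v_l` between `d_m` and `d_(m+1)` (`move`, EXB (5)).  Rows `(u_(a_l), u_(b_l))`, columns
`(d_m, d_(m+1))`, codes `g_(l,m) v_l`: exact.
Open: let `S u u'`, `u, u' ∈ p`.  By saturation over `A ∪ range u ∪ range u'` (`dp_sat` with one variable; the family of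
the `A`-definable properties of `v`, of the conditions `(v' ∈ D ↔ b = false)` for the `A ∪ range u`-definable and the
`A ∪ range u'`-definable cuts `D` strictly inside `K`, and of `¬ E (u, u', v')`; a point `v'` satisfying all is in `q` (`dp_hom`)
and extreme, `v' ∈ K` as `q ⊆ K`) there are an `A`-definable `θ` with `θ v` and finitely many such cuts, all of them
members `D = C u` or `D = C' u'` of `A`-definable families (`cuf`), with: `θ v'` and `(v' ∈ D ↔ b = false)` for these `D` imply
`E (u, u', v')`.  This is an `A`-definable property of `(u, u')`; if it holds for `w, w' ∈ p` then `S w w'`, since `C w` is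
again strictly inside `K` (`w = g u`; `df_img`, `sin_img`), so an extreme `v'` satisfies the conditions.
OFL gives `S x x'` (note that `x' ∈ p` by `nx_of_sq` of NBase or `dp_hom`: an `A`-definable property `Q` gives the
equivalence relation `Q u ↔ Q u'` in `FE L A`), and `v` itself is a legal `v'`: `E (x, x', v)`. -/
def St_GLM : Prop :=
  ∀ (L : FirstOrder.Language.{0, 0}) (U : Type) [L.Structure U] (κ : Type) (R : κ → U → U → Prop)
    (o : κ → κ), Cx L R o → ∀ (α : Type) [Finite α] (A : Set U) (j : κ) (z v : U) (b : Bool)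
    (x x' : α → U), A.Finite → Nd L A z →
    (∀ (n : ℕ) (u : Fin n → α → U), 0 < n →
      (∀ i, ∃ g : U ≃[L] U, Fx L A g ∧ u i = fun k => g (x k)) → ∀ w ∈ cel L R o A j z,
      (∀ i, w ∈ ext L R o b (A ∪ range (u i)) j (cel L R o A j z)) →
      w ∈ ext L R o b (A ∪ ⋃ i, range (u i)) j (cel L R o A j z)) →
    Sq L A x x' → v ∈ ext L R o b (A ∪ range x) j (cel L R o A j z) →
    v ∈ ext L R o b (A ∪ range x') j (cel L R o A j z) → Sq L (insert v A) x x'

/-- [PRL] (PR) strong types of tuples outside of `Q` over a tuple in `Q`.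
PROOF.  Induction on the number of elements of `range u` (write `V` for a finite subset of `Q`; show
`Sq A w w' → Sq (A ∪ V) w w'` by `Set.Finite.induction_on`, for `V = insert u1 V'`): by induction `Sq B w w'`, `B = A ∪ V'`.
`Cls B Q` (NNL (2)); `w i ∉ Q`, `w' i ∉ Q` (`nx_of_sq`, `cls_fx`).  If `u1` is definable over `B`: `Sq (insert u1 B)` from `Sq B`
(`dp_close`).  Otherwise GLM over `B` with `z = v = u1`, `b = true`: no `w i` (and no image `g (w i)`, `g` over `B`) is linked to
`u1` over `B` (`Cls B Q`), so for tuples `w_1, .., w_n` in the orbit of `w` over `B` the cell `cel B j u1` is not cut by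
`B ∪ ⋃ range w_i` (TRV; points of `B` are not linked, `lk_nd`), so `ext true (B ∪ ..) j (cel B j u1) = cel B j u1`
(no cut strictly inside), and the hypotheses of GLM hold. -/
def St_PRL : Prop :=
  ∀ (L : FirstOrder.Language.{0, 0}) (U : Type) [L.Structure U] (κ : Type) (R : κ → U → U → Prop)
    (o : κ → κ), Cx L R o → ∀ (α β : Type) [Finite α] [Finite β] (A Q : Set U) (u : β → U)
    (w w' : α → U), A.Finite → Cls L R o A Q → (∀ i, u i ∈ Q) → (∀ i, w i ∉ Q) →
    Sq L A w w' → Sq L (A ∪ range u) w w'

/-- [PRD] gluing along unions of pieces.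
PROOF.  `h` = `g` on `Q`, identity elsewhere: a permutation of `U` (`cls_fx`).  Claim: `Sq A x (h x)` for every finite tuple
`x : Fin n → U`.  Split `x` into `u` (the coordinates in `Q`) and `w` (the others), index types
`{i // x i ∈ Q}`, `{i // x i ∉ Q}`.  `Sq A u (g u)` (`Nx`); PRL for `Qᶜ` (`cls_compl`), the tuple `w` in `Qᶜ` and `u`, `g u` outside of
`Qᶜ`: `Sq (A ∪ range w) u (g u)`.  For `E ∈ FE L A` on `Fin n → U`: `E' u1 u2 := E (u1, w) (u2, w)` (combine the coordinates) is in
`FE L (A ∪ range w)` on the tuples `u1` (finitely many classes: choose one `u2` for every class of `E` which contains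
some `(u2, w)`), so `E x (h x)`.  Hence `h` preserves all `A`-definable properties of finite tuples (`P x ↔ P y` is in `FE L A`),
in particular all relations and functions (`R x`; `f x = y` as a property of `(x, y)`): `h` is an automorphism
`U ≃[L] U`; it fixes `A` (`x i = a`), and is in `Nx L A`. -/
def St_PRD : Prop :=
  ∀ (L : FirstOrder.Language.{0, 0}) (U : Type) [L.Structure U] (κ : Type) (R : κ → U → U → Prop)
    (o : κ → κ), Cx L R o → ∀ (A Q : Set U), A.Finite → Cls L R o A Q → ∀ g : U ≃[L] U,
    Nx L A g → ∃ h : U ≃[L] U, Nx L A h ∧ (∀ x ∈ Q, h x = g x) ∧ ∀ x ∉ Q, h x = x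

end Pool.Agent.MNO
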