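import Pool.Agent.MNO.StD
import Pool.Agent.PMC.StD
import Pool.Agent.MST.StC

/-!
MNO: transfer to models on `ℕ` (helper47).  The hypothesis for one structure, and the main theorem.
-/

set_option autoImplicit false
set_option linter.unusedVariables false

namespace Pool.Agent.MNO

open FirstOrder.Language Set
open scoped FirstOrder
open Pool.Agent.WOM (tp Mon IsEl IsoM CtU Fx Orb CtT PerfT ThS)
open Pool.Agent.PMC (rel NPf St_NPU)

/-- `F` shatters a set with `k` elements -/
def Shat {α β : Type} (F : α → β → Prop) (k : ℕ) : Prop :=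
  ∃ (x : Fin k → α) (y : Set (Fin k) → β), ∀ i s, F (x i) (y s) ↔ i ∈ s

/-- The hypothesis of the theorem for one structure: the formula `lt` defines a linear order, and for
every set `P` no formula `∃ z ∈ P, φ(x, y, z)` in two tuples of variables has the independence
property (this is a special case of monadic NIP). -/
structure Hyp (L : FirstOrder.Language.{0, 0}) (M : Type) [L.Structure M] (lt : L.Formula (Fin 2)) :
    Prop where
  irr : ∀ x : M, ¬ rel L M lt x x
  tra : ∀ x y z : M, rel L M lt x y → rel L M lt y z → rel L M lt x z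
  tot : ∀ x y : M, x ≠ y → rel L M lt x y ∨ rel L M lt y x
  nip : ∀ (P : Set M) (m n : ℕ) (φ : L.Formula ((Fin m ⊕ Fin n) ⊕ Unit)), ∃ k : ℕ,
    ¬ Shat (fun (x : Fin m → M) (y : Fin n → M) =>
      ∃ z ∈ P, φ.Realize (Sum.elim (Sum.elim x y) fun _ => z)) k

/-- [INA] arbitrarily large finite exact arrays give infinite ones in some countable model.
PROOF.  `V` of `MST.St_SAW` (`V ≻ U`, `SatW L V`); the formulas `φ(x_i, y_j, z_ab)` (for `(i, j) = (a, b)`) and
`¬ φ(x_i, y_j, z_ab)` (for `(i, j) ≠ (a, b)`) in the variables `(ℕ × Fin m) ⊕ (ℕ × Fin n) ⊕ (ℕ × ℕ)` are finitely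
satisfiable in `V` (a large finite array of `U`), so satisfiable.  `MST.St_CMS` for `X` = the set of all entries. -/
def St_INA : Prop :=
  ∀ (L : FirstOrder.Language.{0, 0}), Countable L.Symbols → ∀ (U : Type) [L.Structure U], Infinite U →
    ∀ (m n : ℕ) (φ : L.Formula ((Fin m ⊕ Fin n) ⊕ Unit)),
    (∀ k, Exa (fun (x : Fin m → U) (y : Fin n → U) (z : U) =>
      φ.Realize (Sum.elim (Sum.elim x y) fun _ => z)) k) →
    ∃ S : L.Structure ℕ, @FirstOrder.Language.Theory.Model L ℕ S (L.completeTheory U) ∧
      ∃ (x : ℕ → Fin m → ℕ) (y : ℕ → Fin n → ℕ) (z : ℕ → ℕ → ℕ), ∀ i j a b,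
        @FirstOrder.Language.Formula.Realize L ℕ S _ φ (Sum.elim (Sum.elim (x i) (y j)) fun _ => z a b) ↔
          i = a ∧ j = b

/-- [HYC] the hypotheses in the saturated model.
PROOF.  The order: as `PMC.thm_HYU`.  `cod`: `P` is given by a formula `φ` without parameters.  If there are exact
arrays of all sizes then INA gives a model `S` of `T` on `ℕ` with an infinite array; `P = {z (a, b) | bit a of b}`:
`∃ z ∈ P, φ(x_i, y_j, z)` if and only if `Nat.testBit j i`, so all finite sets `x_0, ..., x_(k-1)` are shattered. -/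
def St_HYC : Prop :=
  ∀ (L : FirstOrder.Language.{0, 0}), Countable L.Symbols → ∀ (T : L.Theory) (lt : L.Formula (Fin 2)),
    (∀ S : L.Structure ℕ, @FirstOrder.Language.Theory.Model L ℕ S T → @Hyp L ℕ S lt) →
    ∀ (U : Type) [L.Structure U], U ⊨ T → Mon L U → Cx L (fun _ : Unit => rel L U lt) id

/-- THE THEOREM: Vaught's conjecture for monadically NIP theories with a definable linear order -/
def St_MAIN : Prop :=
  ∀ (L : FirstOrder.Language.{0, 0}), Countable L.Symbols →
    ∀ (T : L.Theory) (lt : L.Formula (Fin 2)),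
    (∀ S : L.Structure ℕ, @FirstOrder.Language.Theory.Model L ℕ S T → @Hyp L ℕ S lt) →
    CtT L T ∨ PerfT L T

end Pool.Agent.MNO
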