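import Pool.Agent.MNO.StB
import Pool.Agent.MNO.LBase

/-!
MNO: extreme points form a union of pieces (helper42).
-/

set_option autoImplicit false
set_option linter.unusedVariables false

namespace Pool.Agent.MNO

open FirstOrder.Language Set
open scoped FirstOrder
open Pool.Agent.WOM (tp Mon IsEl IsoM CtU Fx Orb)
open Pool.Agent.PMC (Ini ct Dc cel Sin Nd Ct lts ext XS Ex Fa Ll LL Itv Sm Md NPf)

theorem thm_XSP (hAV : St_AV) (hEXB : St_EXB) : St_XSP := by
  intro L U _ κ R o hC A B hAB hB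
  have key : ∀ (z : U) (j : κ) (b : Bool), Nd L A z → z ∈ ext L R o b B j (cel L R o A j z) →
      z ∈ XS L R o A B := by
    intro z j b hz hzb
    refine ⟨hz, fun j' => ?_⟩
    rw [← hC.uni j j']
    exact ⟨b, hzb⟩
  obtain ⟨j⟩ := hC.ne
  have half : ∀ u z : U, Lk L R o B u z → u ∈ XS L R o A B → z ∈ XS L R o A B := by
    intro u z hl hu
    obtain ⟨hu1, hz1⟩ := lk_nd hC hl
    by_contra hz
    obtain ⟨b, hb⟩ := hu.2 j
    exact hAV L U κ R o hC A B j u z b hAB hB hu.1 (nd_anti hAB hz1) hb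
      (fun b' hb' => hz (key z j b' (nd_anti hAB hz1) hb')) hl
  exact ⟨key, fun u z hl => ⟨half u z hl, half z u (lk_symm hC hB hl)⟩⟩

end Pool.Agent.MNO
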